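import Mathlib

/-!
# Almost regular Ramsey graphs (MP_e0fa86_co): the numerical estimate
-/

namespace Pool.Agent.Helper22.AR

open Filter Topology

theorem two_mul_choose (k : ℕ) : 2 * (k + 2).choose 2 = (k + 2) * (k + 1) := by
  rw [Nat.choose_two_right]
  have h : Even ((k + 2) * (k + 2 - 1)) := Nat.even_mul_pred_self _
  have h2 := Nat.div_mul_cancel h.two_dvd
  have h3 : k + 2 - 1 = k + 1 := by omega
  rw [h3] at h2 ⊢
  linarith

theorem one_add_two_div (k : ℕ) (hk : 1 ≤ k) : (((k : ℝ) + 2) / k) ^ k ≤ Real.exp 2 := by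
  have hk' : (0 : ℝ) < k := by exact_mod_cast hk
  have h1 : ((k : ℝ) + 2) / k = 2 / k + 1 := by
    field_simp
    ring
  have h2 : ((k : ℝ) + 2) / k ≤ Real.exp (2 / k) := by
    rw [h1]
    exact Real.add_one_le_exp _
  calc (((k : ℝ) + 2) / k) ^ k ≤ (Real.exp (2 / k)) ^ k :=
        pow_le_pow_left₀ (by positivity) h2 k
    _ = Real.exp 2 := by
        rw [← Real.exp_nat_mul]
        congr 1
        field_simp

theorem asym_aux (c : ℝ) (h0 : 0 ≤ c) (k n : ℕ) (hk : 1 ≤ k)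
    (hn : (n : ℝ) ≤ c * ((k : ℝ) + 2) * Real.sqrt 2 ^ (k + 2))
    (hq : (k : ℝ) ^ 2 * (c * Real.exp 1 * Real.sqrt 2 / 2) ^ k ≤ 1 / (72 * Real.exp 2)) :
    4 * ((k + 2).choose 2 * ((n + 1) / 2 - 2).choose k) * 2 ^ (k + 2 + 1) ≤
      2 ^ ((k + 2).choose 2) := by
  set r : ℝ := Real.sqrt 2 with hr
  have hr2 : r ^ 2 = 2 := Real.sq_sqrt (by norm_num)
  have hr0 : 0 < r := Real.sqrt_pos.2 (by norm_num)
  set e : ℝ := Real.exp 1 with he
  have he0 : 0 < e := Real.exp_pos 1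
  set q : ℝ := c * e * r / 2 with hqd
  have hq0 : 0 ≤ q := by positivity
  have hk' : (0 : ℝ) < k := by exact_mod_cast hk
  -- the two binomial coefficients
  have hA : (((k + 2).choose 2 : ℕ) : ℝ) ≤ ((k : ℝ) + 2) ^ 2 / 2 := by
    have h := Nat.choose_le_pow_div (α := ℝ) 2 (k + 2)
    have h2 : ((Nat.factorial 2 : ℕ) : ℝ) = 2 := by norm_num [Nat.factorial]
    rw [h2] at h
    push_cast at h
    exact h
  have hf : (k : ℝ) ^ k / (k.factorial : ℝ) ≤ e ^ k := by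
    have := Real.pow_div_factorial_le_exp (x := (k : ℝ)) hk'.le k
    rw [he, ← Real.exp_nat_mul, mul_one]
    exact this
  have hB : ((((n + 1) / 2 - 2).choose k : ℕ) : ℝ) ≤
      (c * e / 2) ^ k * (((k : ℝ) + 2) / k) ^ k * r ^ ((k + 2) * k) := by
    have h := Nat.choose_le_pow_div (α := ℝ) k ((n + 1) / 2 - 2)
    have h2 : ((((n + 1) / 2 - 2 : ℕ)) : ℝ) ≤ n / 2 := by
      rw [le_div_iff₀ (by norm_num)]
      have : ((n + 1) / 2 - 2) * 2 ≤ n := by omega
      exact_mod_cast this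
    have h3 : ((((n + 1) / 2 - 2 : ℕ)) : ℝ) ^ k ≤
        (c * ((k : ℝ) + 2) * r ^ (k + 2) / 2) ^ k :=
      pow_le_pow_left₀ (Nat.cast_nonneg _) (h2.trans (by linarith)) k
    have hfac : (0 : ℝ) < k.factorial := by exact_mod_cast Nat.factorial_pos k
    have h4 : 1 / (k.factorial : ℝ) ≤ e ^ k / (k : ℝ) ^ k := by
      rw [div_le_iff₀ hfac] at hf
      rw [div_le_div_iff₀ hfac (by positivity)]
      linarith
    calc ((((n + 1) / 2 - 2).choose k : ℕ) : ℝ)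
        ≤ ((((n + 1) / 2 - 2 : ℕ)) : ℝ) ^ k / (k.factorial : ℝ) := by exact_mod_cast h
      _ = ((((n + 1) / 2 - 2 : ℕ)) : ℝ) ^ k * (1 / (k.factorial : ℝ)) := by ring
      _ ≤ (c * ((k : ℝ) + 2) * r ^ (k + 2) / 2) ^ k * (e ^ k / (k : ℝ) ^ k) :=
          mul_le_mul h3 h4 (by positivity) (by positivity)
      _ = (c * e / 2) ^ k * (((k : ℝ) + 2) / k) ^ k * r ^ ((k + 2) * k) := by
          rw [pow_mul, ← div_pow, ← mul_pow, ← mul_pow, ← mul_pow]
          congr 1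
          ring
  have hE := one_add_two_div k hk
  have h5 : (c * e / 2) ^ k * r ^ k = q ^ k := by
    rw [← mul_pow]
    congr 1
    rw [hqd]
    ring
  have h6 : (2 : ℝ) ^ ((k + 2).choose 2) = r ^ ((k + 2) * (k + 1)) := by
    rw [← two_mul_choose, pow_mul, hr2]
  have h7 : (2 : ℝ) ^ (k + 2 + 1) = 2 * (r ^ (k + 2) * r ^ (k + 2)) := by
    rw [pow_succ, ← hr2, ← pow_mul]
    ring
  have key : 4 * ((((k + 2).choose 2 : ℕ) : ℝ) * ((((n + 1) / 2 - 2).choose k : ℕ) : ℝ)) *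
      2 ^ (k + 2 + 1) ≤ 2 ^ ((k + 2).choose 2) := by
    have h8 : (((k + 2).choose 2 : ℕ) : ℝ) * ((((n + 1) / 2 - 2).choose k : ℕ) : ℝ) ≤
        (((k : ℝ) + 2) ^ 2 / 2) * ((c * e / 2) ^ k * Real.exp 2 * r ^ ((k + 2) * k)) := by
      refine mul_le_mul hA (hB.trans ?_) (Nat.cast_nonneg _) (by positivity)
      refine mul_le_mul_of_nonneg_right ?_ (by positivity)
      exact mul_le_mul_of_nonneg_left hE (by positivity)
    have h9 : ((k : ℝ) + 2) ^ 2 ≤ 9 * (k : ℝ) ^ 2 := by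
      have : (1 : ℝ) ≤ k := by exact_mod_cast hk
      nlinarith
    have hE0 : 0 < Real.exp 2 := Real.exp_pos 2
    have h10 : 72 * Real.exp 2 * ((k : ℝ) ^ 2 * q ^ k) ≤ 1 := by
      rw [le_div_iff₀ (by positivity)] at hq
      linarith
    rw [h6, h7]
    calc 4 * ((((k + 2).choose 2 : ℕ) : ℝ) * ((((n + 1) / 2 - 2).choose k : ℕ) : ℝ)) *
        (2 * (r ^ (k + 2) * r ^ (k + 2)))
        ≤ 4 * ((((k : ℝ) + 2) ^ 2 / 2) * ((c * e / 2) ^ k * Real.exp 2 * r ^ ((k + 2) * k))) *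
          (2 * (r ^ (k + 2) * r ^ (k + 2))) :=
          mul_le_mul_of_nonneg_right (mul_le_mul_of_nonneg_left h8 (by norm_num)) (by positivity)
      _ = (8 * Real.exp 2 * (((k : ℝ) + 2) ^ 2 * ((c * e / 2) ^ k * r ^ k))) *
          r ^ ((k + 2) * (k + 1)) := by
          have e1 : r ^ ((k + 2) * k) * (r ^ (k + 2) * r ^ (k + 2)) =
              r ^ ((k + 2) * (k + 1)) * (r ^ k * 2) := by
            rw [← hr2, ← pow_add, ← pow_add, ← pow_add, ← pow_add]
            congr 1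
            ring
          calc _ = 4 * Real.exp 2 * ((k : ℝ) + 2) ^ 2 * (c * e / 2) ^ k *
                (r ^ ((k + 2) * k) * (r ^ (k + 2) * r ^ (k + 2))) := by ring
            _ = _ := by
                rw [e1]
                ring
      _ ≤ 1 * r ^ ((k + 2) * (k + 1)) := by
          refine mul_le_mul_of_nonneg_right ?_ (by positivity)
          rw [h5]
          refine le_trans ?_ h10
          have : ((k : ℝ) + 2) ^ 2 * q ^ k ≤ 9 * (k : ℝ) ^ 2 * q ^ k :=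
            mul_le_mul_of_nonneg_right h9 (by positivity)
          nlinarith
      _ = r ^ ((k + 2) * (k + 1)) := one_mul _
  exact_mod_cast key

/-- For every `c < √2 / e` the numerical condition holds when `n ≤ c s 2^(s/2)` and `s` is
large. -/
theorem asym (c : ℝ) (hc : c < Real.sqrt 2 / Real.exp 1) :
    ∃ s₀ : ℕ, 5 ≤ s₀ ∧ ∀ s n : ℕ, s₀ ≤ s → (n : ℝ) ≤ c * s * Real.sqrt 2 ^ s →
      4 * (s.choose 2 * ((n + 1) / 2 - 2).choose (s - 2)) * 2 ^ (s + 1) ≤ 2 ^ (s.choose 2) := by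
  set c' : ℝ := max c 0 with hc'
  have hr0 : 0 < Real.sqrt 2 := Real.sqrt_pos.2 (by norm_num)
  have hr2 : Real.sqrt 2 ^ 2 = 2 := Real.sq_sqrt (by norm_num)
  have he0 : 0 < Real.exp 1 := Real.exp_pos 1
  have h0 : 0 ≤ c' := le_max_right _ _
  have h1 : c' < Real.sqrt 2 / Real.exp 1 := max_lt hc (by positivity)
  have hq1 : c' * Real.exp 1 * Real.sqrt 2 / 2 < 1 := by
    rw [lt_div_iff₀ he0] at h1
    have : c' * Real.exp 1 * Real.sqrt 2 < Real.sqrt 2 * Real.sqrt 2 :=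
      mul_lt_mul_of_pos_right h1 hr0
    nlinarith
  have hq0 : 0 ≤ c' * Real.exp 1 * Real.sqrt 2 / 2 := by positivity
  have hlim := tendsto_pow_const_mul_const_pow_of_lt_one 2 hq0 hq1
  have hpos : (0 : ℝ) < 1 / (72 * Real.exp 2) := by
    have := Real.exp_pos 2
    positivity
  obtain ⟨k0, hk0⟩ := Filter.eventually_atTop.1 (hlim.eventually (gt_mem_nhds hpos))
  refine ⟨k0 + 5, by omega, ?_⟩
  intro s n hs hn
  obtain ⟨k, rfl⟩ : ∃ k, s = k + 2 := ⟨s - 2, by omega⟩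
  have h2 : k + 2 - 2 = k := by omega
  rw [h2]
  refine asym_aux c' h0 k n (by omega) ?_ (hk0 k (by omega)).le
  refine hn.trans ?_
  push_cast
  have h3 : c ≤ c' := le_max_left _ _
  have h4 : (0 : ℝ) ≤ ((k : ℝ) + 2) * Real.sqrt 2 ^ (k + 2) := by positivity
  nlinarith [mul_le_mul_of_nonneg_right h3 h4]

end Pool.Agent.Helper22.AR
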