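import Mathlib

/-!
# Almost regular Ramsey graphs (MP_e0fa86_co): basic lemmas
-/

namespace Pool.Agent.Helper22.AR

/-- All degrees of `G` are within one of each other. -/
def AlmostRegular {V : Type*} (G : SimpleGraph V) : Prop :=
  ∀ v w : V, Nat.card (G.neighborSet v) ≤ Nat.card (G.neighborSet w) + 1

/-- All degrees of `G` are equal to `d`. -/
def RegularOf {V : Type*} (G : SimpleGraph V) (d : ℕ) : Prop :=
  ∀ v : V, Nat.card (G.neighborSet v) = d

theorem RegularOf.almost {V : Type*} {G : SimpleGraph V} {d : ℕ} (h : RegularOf G d) :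
    AlmostRegular G := by
  intro v w
  rw [h v, h w]
  omega

/-- Neighbour sets of an induced subgraph. -/
theorem card_nbr_induce {V : Type*} [Finite V] (G : SimpleGraph V) (S : Set V) (v : S) :
    Nat.card ((G.induce S).neighborSet v) = (G.neighborSet v ∩ S).ncard := by
  classical
  rw [← Nat.card_coe_set_eq]
  refine Nat.card_congr ?_
  refine ⟨fun x => ⟨x.1.1, x.2, x.1.2⟩, fun x => ⟨⟨x.1, x.2.2⟩, x.2.1⟩, ?_, ?_⟩
  · intro x
    rfl
  · intro x
    rfl

/-- A transfer to `Fin n`. -/
theorem exists_fin {V : Type*} [Fintype V] {G : SimpleGraph V} {s t n : ℕ}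
    (hn : Fintype.card V = n) (h1 : G.CliqueFree s) (h2 : Gᶜ.CliqueFree t)
    (h3 : AlmostRegular G) :
    ∃ G' : SimpleGraph (Fin n), G'.CliqueFree s ∧ G'ᶜ.CliqueFree t ∧ AlmostRegular G' := by
  obtain ⟨e⟩ : Nonempty (Fin n ≃ V) := ⟨(Fintype.equivFinOfCardEq hn).symm⟩
  refine ⟨G.comap e, ?_, ?_, ?_⟩
  · exact h1.comap ⟨(SimpleGraph.Embedding.comap e.toEmbedding G).toCopy⟩
  · have h4 : (G.comap e)ᶜ = Gᶜ.comap e := by
      ext u v
      simp only [SimpleGraph.compl_adj, SimpleGraph.comap_adj]
      constructor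
      · rintro ⟨a, b⟩
        exact ⟨fun h => a (e.injective h), b⟩
      · rintro ⟨a, b⟩
        exact ⟨fun h => a (h ▸ rfl), b⟩
    rw [h4]
    exact h2.comap ⟨(SimpleGraph.Embedding.comap e.toEmbedding Gᶜ).toCopy⟩
  · have h5 : ∀ v, Nat.card ((G.comap e).neighborSet v) = Nat.card (G.neighborSet (e v)) := by
      intro v
      refine Nat.card_congr ⟨fun x => ⟨e x.1, x.2⟩, fun x => ⟨e.symm x.1, ?_⟩, ?_, ?_⟩
      · show G.Adj (e v) (e (e.symm x.1))
        rw [Equiv.apply_symm_apply]
        exact x.2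
      · intro x
        simp
      · intro x
        simp
    intro v w
    rw [h5, h5]
    exact h3 _ _

/-- Induced subgraphs. -/
theorem cliqueFree_induce {V : Type*} {G : SimpleGraph V} {s : ℕ} (h : G.CliqueFree s)
    (S : Set V) : (G.induce S).CliqueFree s :=
  h.comap ⟨(SimpleGraph.Embedding.comap (Function.Embedding.subtype _) G).toCopy⟩

theorem compl_induce {V : Type*} (G : SimpleGraph V) (S : Set V) :
    (G.induce S)ᶜ = Gᶜ.induce S := by
  ext u v
  simp only [SimpleGraph.compl_adj, SimpleGraph.comap_adj, Function.Embedding.subtype_apply]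
  constructor
  · rintro ⟨a, b⟩
    exact ⟨fun h => a (Subtype.ext h), b⟩
  · rintro ⟨a, b⟩
    exact ⟨fun h => a (h ▸ rfl), b⟩

/-- Deleting one vertex from a regular graph. -/
theorem almost_of_delete {V : Type*} [Finite V] {G : SimpleGraph V} {d : ℕ}
    (h : RegularOf G d) (x : V) : AlmostRegular (G.induce {v | v ≠ x}) := by
  have key : ∀ v : {v : V // v ≠ x},
      (G.neighborSet v.1 ∩ {v | v ≠ x}).ncard ≤ d ∧
      d ≤ (G.neighborSet v.1 ∩ {v | v ≠ x}).ncard + 1 := by
    intro v
    have h1 : (G.neighborSet v.1).ncard = d := by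
      rw [← Nat.card_coe_set_eq]
      exact h v.1
    constructor
    · rw [← h1]
      exact Set.ncard_le_ncard Set.inter_subset_left (Set.toFinite _)
    · rw [← h1]
      have h2 : G.neighborSet v.1 ⊆ insert x (G.neighborSet v.1 ∩ {v | v ≠ x}) := by
        intro y hy
        by_cases hyx : y = x
        · exact Or.inl hyx
        · exact Or.inr ⟨hy, hyx⟩
      exact (Set.ncard_le_ncard h2 (Set.toFinite _)).trans (Set.ncard_insert_le _ _)
  intro v w
  have e1 := card_nbr_induce G {v | v ≠ x} v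
  have e2 := card_nbr_induce G {v | v ≠ x} w
  rw [e1, e2]
  have := (key v).1
  have := (key w).2
  omega

/-- From a regular graph on `V` one gets almost regular graphs on `card V` and `card V - 1`
vertices. -/
theorem exists_fin_pred {V : Type*} [Fintype V] {G : SimpleGraph V} {s t n d : ℕ}
    (hn : Fintype.card V = n + 1) (h1 : G.CliqueFree s) (h2 : Gᶜ.CliqueFree t)
    (h3 : RegularOf G d) :
    ∃ G' : SimpleGraph (Fin n), G'.CliqueFree s ∧ G'ᶜ.CliqueFree t ∧ AlmostRegular G' := by
  classical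
  have hne : Nonempty V := by
    rw [← Fintype.card_pos_iff]
    omega
  obtain ⟨x⟩ := hne
  have hcard : Fintype.card {v : V // v ≠ x} = n := by
    rw [Fintype.card_subtype_compl, Fintype.card_subtype_eq]
    omega
  refine exists_fin (V := {v : V // v ≠ x}) hcard (G := G.induce {v | v ≠ x})
    (cliqueFree_induce h1 _) ?_ (almost_of_delete h3 x)
  rw [compl_induce]
  exact cliqueFree_induce h2 _

end Pool.Agent.Helper22.AR
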