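import Mathlib
import Pool.Agent.Helper19.LLL
import Pool.Agent.Helper22.ARBasic

/-!
# Almost regular Ramsey graphs (MP_e0fa86_co): random two-lifts of complete graphs
-/

namespace Pool.Agent.Helper22.AR

open Finset

/-- The two-lift of the complete graph on `Fin m` given by `ω`. -/
def lift {m : ℕ} (ω : Sym2 (Fin m) → Bool) : SimpleGraph (Fin m × Bool) where
  Adj x y := x.1 ≠ y.1 ∧ (ω s(x.1, y.1) = true ↔ x.2 = y.2)
  symm := ⟨by
    rintro x y ⟨h1, h2⟩
    refine ⟨h1.symm, ?_⟩
    rw [Sym2.eq_swap, h2]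
    exact eq_comm⟩
  loopless := ⟨fun x h => h.1 rfl⟩

theorem lift_adj {m : ℕ} {ω : Sym2 (Fin m) → Bool} {x y : Fin m × Bool} :
    (lift ω).Adj x y ↔ x.1 ≠ y.1 ∧ (ω s(x.1, y.1) = true ↔ x.2 = y.2) := Iff.rfl

theorem lift_regular {m : ℕ} (ω : Sym2 (Fin m) → Bool) : RegularOf (lift ω) (m - 1) := by
  rintro ⟨v, a⟩
  have e : Nat.card {w : Fin m // w ≠ v} = m - 1 := by
    rw [Nat.card_eq_fintype_card, Fintype.card_subtype_compl, Fintype.card_subtype_eq,
      Fintype.card_fin]
  rw [← e]
  symm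
  refine Nat.card_congr ⟨fun w => ⟨(w.1, if ω s(v, w.1) = true then a else !a), ?_⟩,
    fun y => ⟨y.1.1, ?_⟩, ?_, ?_⟩
  · show (lift ω).Adj (v, a) _
    rw [lift_adj]
    refine ⟨fun h => w.2 h.symm, ?_⟩
    simp only
    by_cases h : ω s(v, w.1) = true
    · simp [h]
    · simp only [h, if_false]
      cases a <;> simp
  · have hy : (lift ω).Adj (v, a) y.1 := y.2
    exact fun h => hy.1 h.symm
  · intro w
    rfl
  · rintro ⟨⟨w, b⟩, hy⟩
    have hy' : (lift ω).Adj (v, a) (w, b) := hy
    rw [lift_adj] at hy'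
    simp only at hy'
    apply Subtype.ext
    show (w, if ω s(v, w) = true then a else !a) = (w, b)
    by_cases h : ω s(v, w) = true
    · rw [if_pos h, hy'.2.1 h]
    · rw [if_neg h]
      have : a ≠ b := fun h' => h (hy'.2.2 h')
      cases a <;> cases b <;> simp_all

/-- The pattern with signs `ε` and `σ`. -/
def Pat {m : ℕ} (S : Finset (Fin m)) (ε : Fin m → Bool) (σ : Bool) (ω : Sym2 (Fin m) → Bool) :
    Prop :=
  ∀ v ∈ S, ∀ w ∈ S, v ≠ w → ω s(v, w) = (σ == (ε v == ε w))

/-- If `ω` has no pattern on a set of size `s` then the lift is a Ramsey graph. -/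
theorem lift_cliqueFree {m s : ℕ} {ω : Sym2 (Fin m) → Bool}
    (h : ∀ S : Finset (Fin m), S.card = s → ∀ ε, ¬ Pat S ε true ω) :
    (lift ω).CliqueFree s := by
  classical
  intro K hK
  rw [SimpleGraph.isNClique_iff, SimpleGraph.isClique_iff] at hK
  have hinj : Set.InjOn Prod.fst (K : Set (Fin m × Bool)) := by
    intro x hx y hy hxy
    by_contra hne
    exact (hK.1 hx hy hne).1 hxy
  refine h (K.image Prod.fst) ?_ (fun v => decide ((v, true) ∈ K)) ?_
  · rw [Finset.card_image_of_injOn hinj, hK.2]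
  · have key : ∀ x ∈ K, decide ((x.1, true) ∈ K) = x.2 := by
      rintro ⟨v, a⟩ hx
      cases a
      · simp only [decide_eq_false_iff_not]
        intro h'
        have := hinj hx h' rfl
        simp at this
      · simpa using hx
    intro v hv w hw hvw
    rw [Finset.mem_image] at hv hw
    obtain ⟨x, hx, rfl⟩ := hv
    obtain ⟨y, hy, rfl⟩ := hw
    show ω s(x.1, y.1) = (true == (decide ((x.1, true) ∈ K) == decide ((y.1, true) ∈ K)))
    rw [key x hx, key y hy]
    have := (hK.1 hx hy (fun h => hvw (by rw [h]))).2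
    rw [Bool.eq_iff_iff, this]
    simp

theorem lift_compl_cliqueFree {m s : ℕ} (hs : 3 ≤ s) {ω : Sym2 (Fin m) → Bool}
    (h : ∀ S : Finset (Fin m), S.card = s → ∀ ε, ¬ Pat S ε false ω) :
    (lift ω)ᶜ.CliqueFree s := by
  classical
  intro K hK
  rw [SimpleGraph.isNClique_iff, SimpleGraph.isClique_iff] at hK
  have hadj : ∀ x ∈ K, ∀ y ∈ K, x.1 ≠ y.1 → ¬ (ω s(x.1, y.1) = true ↔ x.2 = y.2) := by
    intro x hx y hy hxy hc
    have := hK.1 hx hy (fun h => hxy (by rw [h]))
    rw [SimpleGraph.compl_adj] at this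
    exact this.2 ⟨hxy, hc⟩
  have hinj : Set.InjOn Prod.fst (K : Set (Fin m × Bool)) := by
    intro x hx y hy hxy
    by_contra hne
    -- a third point
    obtain ⟨z, hz, hzx⟩ : ∃ z ∈ K, z.1 ≠ x.1 := by
      by_contra hc
      push Not at hc
      have hsub : K ⊆ {(x.1, true), (x.1, false)} := by
        intro z hz
        have := hc z hz
        obtain ⟨z1, z2⟩ := z
        simp only at this
        subst this
        cases z2 <;> simp
      have h1 := Finset.card_le_card hsub
      have h2 : ({(x.1, true), (x.1, false)} : Finset (Fin m × Bool)).card ≤ 2 :=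
        Finset.card_le_two
      rw [hK.2] at h1
      omega
    have h1 := hadj z hz x hx hzx
    have h2 := hadj z hz y hy (by rw [← hxy]; exact hzx)
    have hxy2 : x.2 ≠ y.2 := fun h' => hne (Prod.ext hxy h')
    rw [← hxy] at h2
    revert h1 h2 hxy2
    generalize ω s(z.1, x.1) = b
    generalize x.2 = b1
    generalize y.2 = b2
    generalize z.2 = b3
    revert b b1 b2 b3
    decide
  refine h (K.image Prod.fst) ?_ (fun v => decide ((v, true) ∈ K)) ?_
  · rw [Finset.card_image_of_injOn hinj, hK.2]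
  · have key : ∀ x ∈ K, decide ((x.1, true) ∈ K) = x.2 := by
      rintro ⟨v, a⟩ hx
      cases a
      · simp only [decide_eq_false_iff_not]
        intro h'
        have := hinj hx h' rfl
        simp at this
      · simpa using hx
    intro v hv w hw hvw
    rw [Finset.mem_image] at hv hw
    obtain ⟨x, hx, rfl⟩ := hv
    obtain ⟨y, hy, rfl⟩ := hw
    show ω s(x.1, y.1) = (false == (decide ((x.1, true) ∈ K) == decide ((y.1, true) ∈ K)))
    rw [key x hx, key y hy]
    have := hadj x hx y hy hvw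
    revert this
    generalize ω s(x.1, y.1) = b
    generalize x.2 = b1
    generalize y.2 = b2
    revert b b1 b2
    decide

/-! ### counting -/

/-- The edges in a set. -/
def edg {m : ℕ} (S : Finset (Fin m)) : Finset (Sym2 (Fin m)) :=
  S.offDiag.image (Function.uncurry fun a b => s(a, b))

theorem card_edg {m : ℕ} (S : Finset (Fin m)) : (edg S).card = S.card.choose 2 :=
  Sym2.card_image_offDiag S

theorem mem_edg {m : ℕ} {S : Finset (Fin m)} {v w : Fin m} (hv : v ∈ S) (hw : w ∈ S)
    (h : v ≠ w) : s(v, w) ∈ edg S := by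
  unfold edg
  rw [Finset.mem_image]
  exact ⟨(v, w), by rw [Finset.mem_offDiag]; exact ⟨hv, hw, h⟩, rfl⟩

theorem mem_edg_iff {m : ℕ} {S : Finset (Fin m)} {e : Sym2 (Fin m)} :
    e ∈ edg S ↔ ∃ v ∈ S, ∃ w ∈ S, v ≠ w ∧ e = s(v, w) := by
  constructor
  · intro h
    unfold edg at h
    rw [Finset.mem_image] at h
    obtain ⟨⟨v, w⟩, h1, h2⟩ := h
    rw [Finset.mem_offDiag] at h1
    exact ⟨v, h1.1, w, h1.2.1, h1.2.2, h2.symm⟩
  · rintro ⟨v, hv, w, hw, h, rfl⟩
    exact mem_edg hv hw h

/-- The number of functions with prescribed values on `E`. -/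
theorem card_prescribed {X : Type*} [Fintype X] [DecidableEq X] (E : Finset X) (c : X → Bool) :
    (Finset.univ.filter (fun ω : X → Bool => ∀ e ∈ E, ω e = c e)).card * 2 ^ E.card =
      Fintype.card (X → Bool) := by
  have h1 : (Finset.univ.filter (fun ω : X → Bool => ∀ e ∈ E, ω e = c e)) =
      Fintype.piFinset (fun e => if e ∈ E then {c e} else Finset.univ) := by
    ext ω
    simp only [Finset.mem_filter, Finset.mem_univ, true_and, Fintype.mem_piFinset]
    refine forall_congr' fun e => ?_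
    by_cases h : e ∈ E
    · simp [h]
    · simp [h]
  rw [h1, Fintype.card_piFinset, Fintype.card_fun, Fintype.card_bool, ← Finset.card_univ]
  have h2 : (∏ e : X, (if e ∈ E then ({c e} : Finset Bool) else Finset.univ).card) =
      ∏ e ∈ Finset.univ \ E, 2 := by
    rw [← Finset.prod_sdiff (Finset.subset_univ E)]
    have h3 : (∏ e ∈ E, (if e ∈ E then ({c e} : Finset Bool) else Finset.univ).card) = 1 := by
      refine Finset.prod_eq_one fun e he => ?_
      rw [if_pos he, Finset.card_singleton]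
    rw [h3, mul_one]
    refine Finset.prod_congr rfl fun e he => ?_
    rw [Finset.mem_sdiff] at he
    rw [if_neg he.2, Finset.card_univ, Fintype.card_bool]
  rw [h2, Finset.prod_const, ← pow_add]
  congr 1
  have := Finset.card_sdiff_add_card_eq_card (Finset.subset_univ E)
  exact this

open Classical in
/-- The bad event of a set of size `s`. -/
noncomputable def bad {m : ℕ} (s : ℕ) (S : Finset (Fin m)) : Finset (Sym2 (Fin m) → Bool) :=
  Finset.univ.filter (fun ω => S.card = s ∧ ∃ ε σ, Pat S ε σ ω)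

theorem mem_bad {m s : ℕ} {S : Finset (Fin m)} {ω : Sym2 (Fin m) → Bool} :
    ω ∈ bad s S ↔ S.card = s ∧ ∃ ε σ, Pat S ε σ ω := by
  classical
  unfold bad
  simp

theorem bad_empty {m s : ℕ} {S : Finset (Fin m)} (h : S.card ≠ s) : bad s S = ∅ := by
  rw [Finset.eq_empty_iff_forall_notMem]
  intro ω hω
  exact h (mem_bad.1 hω).1

theorem pat_congr {m : ℕ} {S : Finset (Fin m)} {ε : Fin m → Bool} {σ : Bool}
    {ω ω' : Sym2 (Fin m) → Bool} (h : ∀ e ∈ edg S, ω e = ω' e) (hp : Pat S ε σ ω) :
    Pat S ε σ ω' := by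
  intro v hv w hw hvw
  rw [← h _ (mem_edg hv hw hvw)]
  exact hp v hv w hw hvw

theorem card_bad {m s : ℕ} (S : Finset (Fin m)) :
    (bad s S).card * 2 ^ (s.choose 2) ≤
      2 ^ (s + 1) * Fintype.card (Sym2 (Fin m) → Bool) := by
  classical
  by_cases hS : S.card = s
  swap
  · rw [bad_empty hS]
    simp
  set pt : Finset (Fin m) × Bool → Finset (Sym2 (Fin m) → Bool) := fun q =>
    Finset.univ.filter (fun ω => Pat S (fun v => decide (v ∈ q.1)) q.2 ω) with hpt
  have hsub : bad s S ⊆ (S.powerset ×ˢ (Finset.univ : Finset Bool)).biUnion pt := by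
    intro ω hω
    obtain ⟨-, ε, σ, hp⟩ := mem_bad.1 hω
    rw [Finset.mem_biUnion]
    refine ⟨(S.filter (fun v => ε v = true), σ), ?_, ?_⟩
    · rw [Finset.mem_product]
      exact ⟨Finset.mem_powerset.2 (Finset.filter_subset _ _), Finset.mem_univ _⟩
    · rw [hpt]
      simp only [Finset.mem_filter, Finset.mem_univ, true_and]
      intro v hv w hw hvw
      rw [hp v hv w hw hvw]
      simp [hv, hw]
  have hcard : ∀ q ∈ (S.powerset ×ˢ (Finset.univ : Finset Bool)),
      (pt q).card * 2 ^ (s.choose 2) ≤ Fintype.card (Sym2 (Fin m) → Bool) := by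
    rintro ⟨T, σ⟩ _
    set c : Sym2 (Fin m) → Bool := Sym2.lift ⟨fun v w => (σ == (decide (v ∈ T) == decide (w ∈ T))),
      fun v w => by
        show (σ == (decide (v ∈ T) == decide (w ∈ T))) = (σ == (decide (w ∈ T) == decide (v ∈ T)))
        rw [Bool.beq_comm (a := decide (v ∈ T))]⟩ with hc
    have h1 : pt (T, σ) ⊆ Finset.univ.filter (fun ω : Sym2 (Fin m) → Bool =>
        ∀ e ∈ edg S, ω e = c e) := by
      intro ω hω
      rw [hpt] at hω
      simp only [Finset.mem_filter, Finset.mem_univ, true_and] at hω ⊢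
      intro e he
      obtain ⟨v, hv, w, hw, hvw, rfl⟩ := mem_edg_iff.1 he
      rw [hω v hv w hw hvw, hc, Sym2.lift_mk]
    rw [← card_prescribed (edg S) c, card_edg, hS]
    exact Nat.mul_le_mul_right _ (Finset.card_le_card h1)
  calc (bad s S).card * 2 ^ (s.choose 2)
      ≤ ((S.powerset ×ˢ (Finset.univ : Finset Bool)).biUnion pt).card * 2 ^ (s.choose 2) :=
        Nat.mul_le_mul_right _ (Finset.card_le_card hsub)
    _ ≤ (∑ q ∈ (S.powerset ×ˢ (Finset.univ : Finset Bool)), (pt q).card) * 2 ^ (s.choose 2) :=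
        Nat.mul_le_mul_right _ Finset.card_biUnion_le
    _ = ∑ q ∈ (S.powerset ×ˢ (Finset.univ : Finset Bool)), (pt q).card * 2 ^ (s.choose 2) := by
        rw [Finset.sum_mul]
    _ ≤ ∑ q ∈ (S.powerset ×ˢ (Finset.univ : Finset Bool)),
          Fintype.card (Sym2 (Fin m) → Bool) := Finset.sum_le_sum hcard
    _ = 2 ^ (s + 1) * Fintype.card (Sym2 (Fin m) → Bool) := by
        rw [Finset.sum_const, Finset.card_product, Finset.card_powerset, hS, Finset.card_univ,
          Fintype.card_bool, smul_eq_mul, pow_succ]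

/-- The neighbours in the dependency graph. -/
def nbs {m : ℕ} (s : ℕ) (S : Finset (Fin m)) : Finset (Finset (Fin m)) :=
  Finset.univ.filter (fun T => T.card = s ∧ 2 ≤ (S ∩ T).card)

theorem card_nbs {m s : ℕ} {S : Finset (Fin m)} (hS : S.card = s) :
    (nbs s S).card ≤ s.choose 2 * (m - 2).choose (s - 2) := by
  classical
  have hsub : nbs s S ⊆ (S.powersetCard 2).biUnion (fun P =>
      (((Finset.univ : Finset (Fin m)) \ P).powersetCard (s - 2)).image (fun Q => Q ∪ P)) := by
    intro T hT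
    unfold nbs at hT
    simp only [Finset.mem_filter, Finset.mem_univ, true_and] at hT
    obtain ⟨P, hP1, hP2⟩ := Finset.exists_subset_card_eq hT.2
    rw [Finset.mem_biUnion]
    refine ⟨P, ?_, ?_⟩
    · rw [Finset.mem_powersetCard]
      exact ⟨hP1.trans Finset.inter_subset_left, hP2⟩
    · have hPT : P ⊆ T := hP1.trans Finset.inter_subset_right
      rw [Finset.mem_image]
      refine ⟨T \ P, ?_, Finset.sdiff_union_of_subset hPT⟩
      rw [Finset.mem_powersetCard]
      refine ⟨Finset.sdiff_subset_sdiff (Finset.subset_univ _) (Finset.Subset.refl _), ?_⟩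
      rw [Finset.card_sdiff_of_subset hPT, hT.1, hP2]
  calc (nbs s S).card ≤ _ := Finset.card_le_card hsub
    _ ≤ ∑ P ∈ S.powersetCard 2,
        ((((Finset.univ : Finset (Fin m)) \ P).powersetCard (s - 2)).image
          (fun Q => Q ∪ P)).card := Finset.card_biUnion_le
    _ ≤ ∑ P ∈ S.powersetCard 2, (m - 2).choose (s - 2) := by
        refine Finset.sum_le_sum fun P hP => ?_
        rw [Finset.mem_powersetCard] at hP
        refine Finset.card_image_le.trans ?_
        rw [Finset.card_powersetCard, Finset.card_sdiff_of_subset (Finset.subset_univ P),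
          Finset.card_univ, Fintype.card_fin, hP.2]
    _ = s.choose 2 * (m - 2).choose (s - 2) := by
        rw [Finset.sum_const, Finset.card_powersetCard, hS, smul_eq_mul]

/-- The local lemma gives a two-lift without bad sets. -/
theorem exists_good {m s : ℕ} (h1 : s + 2 < s.choose 2)
    (h2 : 4 * (s.choose 2 * (m - 2).choose (s - 2)) * 2 ^ (s + 1) ≤ 2 ^ (s.choose 2)) :
    ∃ ω : Sym2 (Fin m) → Bool, ∀ S : Finset (Fin m), ω ∉ bad s S := by
  classical
  set Q : ℝ := 2 ^ (s + 1) / 2 ^ (s.choose 2) with hQ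
  have hQ0 : 0 ≤ Q := by positivity
  have hpos : (0 : ℝ) < 2 ^ (s.choose 2) := by positivity
  have hQ1 : 2 * Q < 1 := by
    rw [hQ, ← mul_div_assoc, div_lt_one hpos, ← pow_succ']
    exact pow_lt_pow_right₀ (by norm_num) (by omega)
  have hD : 4 * ((s.choose 2 * (m - 2).choose (s - 2) : ℕ) : ℝ) * Q ≤ 1 := by
    rw [hQ, ← mul_div_assoc, div_le_one hpos]
    exact_mod_cast h2
  have hbad : ∀ S : Finset (Fin m), ((bad s S).card : ℝ) ≤
      Q * Fintype.card (Sym2 (Fin m) → Bool) := by
    intro S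
    have := card_bad (s := s) S
    rw [hQ, div_mul_eq_mul_div, le_div_iff₀ hpos]
    exact_mod_cast this
  suffices hex : ∃ ω : Sym2 (Fin m) → Bool, ∀ S ∈ (Finset.univ : Finset (Finset (Fin m))),
      ω ∉ bad s S by
    obtain ⟨ω, hω⟩ := hex
    exact ⟨ω, fun S => hω S (Finset.mem_univ S)⟩
  refine Pool.Agent.Helper19.LLL.local_lemma (ι := Finset (Fin m)) (bad s) (nbs s)
    (fun _ => 2 * Q) (fun _ => by positivity) (fun _ => hQ1) ?_ ?_ Fintype.card_pos
    Finset.univ
  · intro S T hT
    by_cases hS : S.card = s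
    swap
    · rw [bad_empty hS]
      simp
    have := Pool.Agent.Helper19.LLL.indep_card (edg S) (bad s S)
      (Pool.Agent.Helper19.LLL.avoid (bad s) T) ?_ ?_
    · exact le_of_eq (by exact_mod_cast this)
    · intro f g hfg hf
      rw [mem_bad] at hf ⊢
      obtain ⟨k1, ε, σ, k2⟩ := hf
      exact ⟨k1, ε, σ, pat_congr hfg k2⟩
    · intro f g hfg hf
      rw [Pool.Agent.Helper19.LLL.mem_avoid] at hf ⊢
      intro R hR hg
      refine hf R hR ?_
      rw [mem_bad] at hg ⊢
      obtain ⟨k1, ε, σ, k2⟩ := hg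
      refine ⟨k1, ε, σ, pat_congr ?_ k2⟩
      intro e he
      refine (hfg e ?_).symm
      intro heS
      obtain ⟨v, hv, w, hw, hvw, rfl⟩ := mem_edg_iff.1 he
      obtain ⟨v', hv', w', hw', hvw', he'⟩ := mem_edg_iff.1 heS
      have hvS : v ∈ S ∧ w ∈ S := by
        rw [Sym2.eq_iff] at he'
        rcases he' with ⟨rfl, rfl⟩ | ⟨rfl, rfl⟩
        · exact ⟨hv', hw'⟩
        · exact ⟨hw', hv'⟩
      refine Finset.disjoint_left.1 hT hR ?_
      unfold nbs
      simp only [Finset.mem_filter, Finset.mem_univ, true_and]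
      refine ⟨k1, ?_⟩
      have hsub : ({v, w} : Finset (Fin m)) ⊆ S ∩ R := by
        intro x hx
        rw [Finset.mem_insert, Finset.mem_singleton] at hx
        rw [Finset.mem_inter]
        rcases hx with rfl | rfl
        · exact ⟨hvS.1, hv⟩
        · exact ⟨hvS.2, hw⟩
      rw [← Finset.card_pair hvw]
      exact Finset.card_le_card hsub
  · intro S
    by_cases hS : S.card = s
    swap
    · rw [bad_empty hS]
      simp only [Finset.card_empty, Nat.cast_zero]
      have : (0 : ℝ) ≤ 1 - 2 * Q := by linarith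
      positivity
    rw [Finset.prod_const]
    have hN : ((nbs s S).card : ℝ) ≤ ((s.choose 2 * (m - 2).choose (s - 2) : ℕ) : ℝ) := by
      exact_mod_cast card_nbs hS
    have h3 : 1 / 2 ≤ (1 - 2 * Q) ^ (nbs s S).card := by
      have h4 := one_add_mul_le_pow (a := -(2 * Q)) (by linarith) (nbs s S).card
      have h5 : ((nbs s S).card : ℝ) * Q ≤
          ((s.choose 2 * (m - 2).choose (s - 2) : ℕ) : ℝ) * Q :=
        mul_le_mul_of_nonneg_right hN hQ0
      have h6 : (1 : ℝ) + -(2 * Q) = 1 - 2 * Q := by ring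
      rw [h6] at h4
      refine le_trans ?_ h4
      nlinarith
    have h7 := hbad S
    have h8 : (0 : ℝ) ≤ Fintype.card (Sym2 (Fin m) → Bool) := Nat.cast_nonneg _
    refine h7.trans (mul_le_mul_of_nonneg_right ?_ h8)
    nlinarith

/-- Finite criterion: regular Ramsey graphs on `2 m` vertices. -/
theorem exists_lift {m s : ℕ} (h1 : s + 2 < s.choose 2)
    (h2 : 4 * (s.choose 2 * (m - 2).choose (s - 2)) * 2 ^ (s + 1) ≤ 2 ^ (s.choose 2)) :
    ∃ G : SimpleGraph (Fin m × Bool), G.CliqueFree s ∧ Gᶜ.CliqueFree s ∧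
      RegularOf G (m - 1) := by
  have hs : 3 ≤ s := by
    by_contra hc
    have : s = 0 ∨ s = 1 ∨ s = 2 := by omega
    rcases this with rfl | rfl | rfl <;> simp at h1
  obtain ⟨ω, hω⟩ := exists_good h1 h2
  refine ⟨lift ω, ?_, ?_, lift_regular ω⟩
  · refine lift_cliqueFree fun S hS ε hp => hω S (mem_bad.2 ⟨hS, ε, true, hp⟩)
  · refine lift_compl_cliqueFree hs fun S hS ε hp => hω S (mem_bad.2 ⟨hS, ε, false, hp⟩)

end Pool.Agent.Helper22.AR
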