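import Pool.Agent.Helper22.ARBasic

/-!
# The four layer construction
-/

namespace Pool.Agent.Helper22.AR

variable {V : Type*}

/-- The four layer graph of `H`: inside the half `b` two vertices `(v, a)`, `(w, c)` with `v ≠ w`
are adjacent if `vw` is an edge of `H` and `a = c`, or no edge of `H` and `a ≠ c`; between the two
halves two vertices are adjacent if `a = c`. -/
def quad (H : SimpleGraph V) : SimpleGraph (V × Bool × Bool) where
  Adj x y := (x.2.2 = y.2.2 ∧ x.1 ≠ y.1 ∧ (H.Adj x.1 y.1 ↔ x.2.1 = y.2.1)) ∨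
    (x.2.2 ≠ y.2.2 ∧ x.2.1 = y.2.1)
  symm := ⟨by
    rintro x y (⟨h1, h2, h3⟩ | ⟨h1, h2⟩)
    · refine Or.inl ⟨h1.symm, h2.symm, ?_⟩
      rw [H.adj_comm, h3]
      exact eq_comm
    · exact Or.inr ⟨h1.symm, h2.symm⟩⟩
  loopless := ⟨by
    rintro x (⟨_, h, _⟩ | ⟨h, _⟩)
    · exact h rfl
    · exact h rfl⟩

theorem quad_adj {H : SimpleGraph V} {x y : V × Bool × Bool} :
    (quad H).Adj x y ↔ (x.2.2 = y.2.2 ∧ x.1 ≠ y.1 ∧ (H.Adj x.1 y.1 ↔ x.2.1 = y.2.1)) ∨
      (x.2.2 ≠ y.2.2 ∧ x.2.1 = y.2.1) := Iff.rfl

/-- The size of one layer of a clique. -/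
theorem part_le {W : Type*} [DecidableEq W] {R : SimpleGraph V} {s : ℕ} (hR : R.CliqueFree s)
    (K : Finset (V × W)) (p : W)
    (h : ∀ x ∈ K, ∀ y ∈ K, x.2 = p → y.2 = p → x ≠ y → R.Adj x.1 y.1) :
    (K.filter fun x => x.2 = p).card < s := by
  classical
  by_contra hlt
  push Not at hlt
  have hinj : Set.InjOn Prod.fst (K.filter fun x => x.2 = p : Set (V × W)) := by
    intro x hx y hy hxy
    rw [Finset.mem_coe, Finset.mem_filter] at hx hy
    exact Prod.ext hxy (hx.2.trans hy.2.symm)
  have hcard : ((K.filter fun x => x.2 = p).image Prod.fst).card =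
      (K.filter fun x => x.2 = p).card := Finset.card_image_of_injOn hinj
  have hle : s ≤ ((K.filter fun x => x.2 = p).image Prod.fst).card := by
    rw [hcard]
    exact hlt
  obtain ⟨T, hT, hTc⟩ := Finset.exists_subset_card_eq hle
  refine hR T ⟨?_, hTc⟩
  intro u hu v hv huv
  have hu' := hT hu
  have hv' := hT hv
  rw [Finset.mem_image] at hu' hv'
  obtain ⟨x, hx, rfl⟩ := hu'
  obtain ⟨y, hy, rfl⟩ := hv'
  rw [Finset.mem_filter] at hx hy
  exact h x hx.1 y hy.1 hx.2 hy.2 (fun h' => huv (by rw [h']))

theorem card_eq_parts (K : Finset (V × Bool × Bool)) :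
    K.card = (K.filter fun x => x.2 = (false, false)).card +
      (K.filter fun x => x.2 = (false, true)).card +
      (K.filter fun x => x.2 = (true, false)).card +
      (K.filter fun x => x.2 = (true, true)).card := by
  have h := Finset.card_eq_sum_card_fiberwise (f := fun x : V × Bool × Bool => x.2) (s := K)
    (t := (Finset.univ : Finset (Bool × Bool))) (fun x _ => Finset.mem_coe.2 (Finset.mem_univ _))
  rw [h]
  have h2 : (Finset.univ : Finset (Bool × Bool)) =
      {(false, false), (false, true), (true, false), (true, true)} := by decide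
  rw [h2]
  rw [Finset.sum_insert (by decide), Finset.sum_insert (by decide), Finset.sum_insert (by decide),
    Finset.sum_singleton]
  ring

theorem quad_cliqueFree {H : SimpleGraph V} {s : ℕ} (h : H.CliqueFree s) :
    (quad H).CliqueFree (2 * s - 1) := by
  classical
  intro K hK
  have hs : 0 < s := by
    rcases Nat.eq_zero_or_pos s with rfl | h'
    · exact absurd h (by
        intro h0
        exact h0 ∅ ⟨by simp, by simp⟩)
    · exact h'
  have hpart : ∀ p : Bool × Bool, (K.filter fun x => x.2 = p).card < s := by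
    intro p
    refine part_le h K p ?_
    intro x hx y hy hxp hyp hne
    have hadj := hK.1 hx hy hne
    rw [quad_adj] at hadj
    rw [hxp, hyp] at hadj
    rcases hadj with ⟨_, _, h3⟩ | ⟨h3, _⟩
    · exact h3.2 rfl
    · exact absurd rfl h3
  have hdiag : ∀ a b : Bool, (K.filter fun x => x.2 = (a, b)).card = 0 ∨
      (K.filter fun x => x.2 = (!a, !b)).card = 0 := by
    intro a b
    by_contra hc
    push Not at hc
    obtain ⟨x, hx⟩ := Finset.card_pos.1 (Nat.pos_of_ne_zero hc.1)
    obtain ⟨y, hy⟩ := Finset.card_pos.1 (Nat.pos_of_ne_zero hc.2)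
    rw [Finset.mem_filter] at hx hy
    have hne : x ≠ y := by
      rintro rfl
      have := hx.2.symm.trans hy.2
      simp at this
    have hadj := hK.1 hx.1 hy.1 hne
    rw [quad_adj, hx.2, hy.2] at hadj
    simp at hadj
  have hcard := card_eq_parts K
  rw [hK.2] at hcard
  have h1 := hpart (false, false)
  have h2 := hpart (false, true)
  have h3 := hpart (true, false)
  have h4 := hpart (true, true)
  have h5 := hdiag false false
  have h6 := hdiag false true
  simp only [Bool.not_false, Bool.not_true] at h5 h6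
  omega

theorem quad_compl_cliqueFree {H : SimpleGraph V} {t : ℕ} (h : Hᶜ.CliqueFree t) :
    (quad H)ᶜ.CliqueFree (2 * t - 1) := by
  classical
  intro K hK
  have ht : 0 < t := by
    rcases Nat.eq_zero_or_pos t with rfl | h'
    · exact absurd h (by
        intro h0
        exact h0 ∅ ⟨by simp, by simp⟩)
    · exact h'
  have hpart : ∀ p : Bool × Bool, (K.filter fun x => x.2 = p).card < t := by
    intro p
    refine part_le h K p ?_
    intro x hx y hy hxp hyp hne
    have hadj := (hK.1 hx hy hne).2
    rw [quad_adj] at hadj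
    rw [hxp, hyp] at hadj
    have hne1 : x.1 ≠ y.1 := fun h' => hne (Prod.ext h' (hxp.trans hyp.symm))
    refine ⟨hne1, fun h' => hadj (Or.inl ⟨rfl, hne1, ?_⟩)⟩
    exact ⟨fun _ => rfl, fun _ => h'⟩
  have hrow : ∀ a : Bool, (K.filter fun x => x.2 = (a, false)).card = 0 ∨
      (K.filter fun x => x.2 = (a, true)).card = 0 := by
    intro a
    by_contra hc
    push Not at hc
    obtain ⟨x, hx⟩ := Finset.card_pos.1 (Nat.pos_of_ne_zero hc.1)
    obtain ⟨y, hy⟩ := Finset.card_pos.1 (Nat.pos_of_ne_zero hc.2)
    rw [Finset.mem_filter] at hx hy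
    have hne : x ≠ y := by
      rintro rfl
      have := hx.2.symm.trans hy.2
      simp at this
    have hadj := (hK.1 hx.1 hy.1 hne).2
    rw [quad_adj, hx.2, hy.2] at hadj
    simp at hadj
  have hcard := card_eq_parts K
  rw [hK.2] at hcard
  have h1 := hpart (false, false)
  have h2 := hpart (false, true)
  have h3 := hpart (true, false)
  have h4 := hpart (true, true)
  have h5 := hrow false
  have h6 := hrow true
  omega

open Classical in
theorem quad_nbr (H : SimpleGraph V) (v : V) (a b : Bool) :
    (quad H).neighborSet (v, a, b) =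
      ((fun w => (w, (if H.Adj v w then a else !a), b)) '' {w | w ≠ v}) ∪
      ((fun w => (w, a, !b)) '' Set.univ) := by
  ext ⟨w, c, d⟩
  simp only [SimpleGraph.mem_neighborSet, quad_adj, Set.mem_union, Set.mem_image, Set.mem_univ,
    true_and, Prod.mk.injEq]
  constructor
  · rintro (⟨h1, h2, h3⟩ | ⟨h1, h2⟩)
    · refine Or.inl ⟨w, h2.symm, rfl, ?_, h1⟩
      by_cases h4 : H.Adj v w
      · rw [if_pos h4]
        exact h3.1 h4
      · rw [if_neg h4]
        have h5 : a ≠ c := fun h => h4 (h3.2 h)
        revert h5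
        cases a <;> cases c <;> simp
    · refine Or.inr ⟨w, rfl, h2, ?_⟩
      revert h1
      cases b <;> cases d <;> simp
  · rintro (⟨u, h1, rfl, h2, h3⟩ | ⟨u, rfl, h1, h2⟩)
    · refine Or.inl ⟨h3, fun h => h1 h.symm, ?_⟩
      by_cases h4 : H.Adj v u
      · rw [if_pos h4] at h2
        exact ⟨fun _ => h2, fun _ => h4⟩
      · rw [if_neg h4] at h2
        refine ⟨fun h => absurd h h4, fun h => ?_⟩
        rw [← h2] at h
        exact absurd h (by cases a <;> simp)
    · refine Or.inr ⟨?_, h1⟩
      rw [← h2]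
      cases b <;> simp

theorem quad_regular [Fintype V] (H : SimpleGraph V) :
    RegularOf (quad H) (2 * Fintype.card V - 1) := by
  classical
  rintro ⟨v, a, b⟩
  have hpos : 0 < Fintype.card V := Fintype.card_pos_iff.2 ⟨v⟩
  rw [Nat.card_coe_set_eq, quad_nbr, Set.ncard_union_eq]
  · rw [Set.ncard_image_of_injective, Set.ncard_image_of_injective]
    · have h1 : {w : V | w ≠ v}.ncard = Fintype.card V - 1 := by
        have h2 : {w : V | w ≠ v} = ({v} : Set V)ᶜ := rfl
        rw [h2, Set.ncard_compl, Set.ncard_singleton, Nat.card_eq_fintype_card]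
      rw [h1, Set.ncard_univ, Nat.card_eq_fintype_card]
      omega
    · intro x y hxy
      exact (Prod.mk.inj hxy).1
    · intro x y hxy
      exact (Prod.mk.inj hxy).1
  · rw [Set.disjoint_left]
    rintro _ ⟨w, _, rfl⟩ ⟨u, _, hu⟩
    have := (Prod.mk.inj (Prod.mk.inj hu).2).2
    revert this
    cases b <;> simp

/-- The two deleted vertices. -/
def delSet (v : V) : Set (V × Bool × Bool) := {x | x ≠ (v, false, false) ∧ x ≠ (v, true, false)}

theorem quad_delete_regular [Fintype V] (H : SimpleGraph V) (v : V) :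
    RegularOf ((quad H).induce (delSet v)) (2 * Fintype.card V - 2) := by
  classical
  intro x
  have e := card_nbr_induce (quad H) (delSet v) x
  rw [e]
  have hreg := quad_regular H x.1
  rw [Nat.card_coe_set_eq] at hreg
  -- exactly one deleted neighbour
  have hone : ∃ y, (quad H).neighborSet x.1 \ delSet v = {y} := by
    obtain ⟨⟨w, c, d⟩, hx1, hx2⟩ := x
    simp only
    have hmem : ∀ z : V × Bool × Bool, z ∉ delSet v ↔ z = (v, false, false) ∨ z = (v, true, false) := by
      intro z
      unfold delSet
      rw [Set.mem_ofPred_eq]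
      tauto
    by_cases hd : d = true
    · refine ⟨(v, c, false), ?_⟩
      ext z
      rw [Set.mem_sdiff, hmem, Set.mem_singleton_iff, SimpleGraph.mem_neighborSet, quad_adj]
      subst hd
      constructor
      · rintro ⟨h1, rfl | rfl⟩ <;> revert h1 <;> cases c <;> simp
      · rintro rfl
        cases c <;> simp
    · have hd' : d = false := by simpa using hd
      subst hd'
      have hwv : w ≠ v := by
        rintro rfl
        cases c
        · exact hx1 rfl
        · exact hx2 rfl
      refine ⟨(v, (if H.Adj w v then c else !c), false), ?_⟩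
      ext z
      rw [Set.mem_sdiff, hmem, Set.mem_singleton_iff, SimpleGraph.mem_neighborSet, quad_adj]
      by_cases hadj : H.Adj w v
      · rw [if_pos hadj]
        constructor
        · rintro ⟨h1, rfl | rfl⟩ <;> revert h1 <;> cases c <;> simp [hadj]
        · rintro rfl
          cases c <;> simp [hadj, hwv]
      · rw [if_neg hadj]
        constructor
        · rintro ⟨h1, rfl | rfl⟩ <;> revert h1 <;> cases c <;> simp [hadj]
        · rintro rfl
          cases c <;> simp [hadj, hwv]
  obtain ⟨y, hy⟩ := hone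
  have h1 : ((quad H).neighborSet x.1 ∩ delSet v).ncard +
      ((quad H).neighborSet x.1 \ delSet v).ncard = ((quad H).neighborSet x.1).ncard :=
    Set.ncard_inter_add_ncard_sdiff_eq_ncard _ _ (Set.toFinite _)
  rw [hy, Set.ncard_singleton, hreg] at h1
  omega

end Pool.Agent.Helper22.AR
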