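import Pool.Agent.Helper85.BP.Stubs

/-!
# All-p extension, module R6: near lags, real exponent
-/

set_option autoImplicit false

open MeasureTheory Complex FourierTransform Filter Topology
open scoped ENNReal NNReal ComplexConjugate

noncomputable section

namespace Helper85.BP.P

open Helper72.BA Helper85.BP

namespace R6

/-! ### the weights -/

lemma gamN_nonneg (N : ℕ) (ρ : ℝ) (z : ℂ) : 0 ≤ gamN N ρ z := by
  unfold gamN
  positivity

lemma gamN_cont (N : ℕ) (ρ : ℝ) : Continuous (gamN N ρ) := by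
  unfold gamN
  refine continuous_const.mul (Continuous.inv₀ (by fun_prop) fun z => ?_)
  positivity

lemma gamN_symm (N : ℕ) (ρ : ℝ) (z w : ℂ) : gamN N ρ (z - w) = gamN N ρ (w - z) := by
  unfold gamN
  rw [norm_sub_rev]

lemma gamN_le_gam {N : ℕ} (hN : 2 ≤ N) (ρ : ℝ) (z : ℂ) : gamN N ρ z ≤ gam ρ z := by
  unfold gamN gam
  have h1 : (1 : ℝ) ≤ 1 + ‖z‖ ^ 2 / ρ ^ 2 := by
    have : 0 ≤ ‖z‖ ^ 2 / ρ ^ 2 := by positivity
    linarith
  have h2 : (1 + ‖z‖ ^ 2 / ρ ^ 2) ^ 2 ≤ (1 + ‖z‖ ^ 2 / ρ ^ 2) ^ N := pow_le_pow_right₀ h1 hN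
  have h3 : 0 < (1 + ‖z‖ ^ 2 / ρ ^ 2) ^ 2 := by positivity
  exact mul_le_mul_of_nonneg_left (inv_anti₀ h3 h2) (by positivity)

lemma gam_eq_gamN (ρ : ℝ) : gam ρ = gamN 2 ρ := rfl

/-- averages against `gamN N a` -/
def cN (N : ℕ) (a : ℝ) (h : ℂ → ℝ≥0∞) (z : ℂ) : ℝ≥0∞ :=
  ∫⁻ w, ENNReal.ofReal (gamN N a (z - w)) * h w

lemma meas_ker (N : ℕ) (a : ℝ) :
    Measurable (fun q : ℂ × ℂ => ENNReal.ofReal (gamN N a (q.1 - q.2))) := by
  have : Continuous (fun q : ℂ × ℂ => gamN N a (q.1 - q.2)) :=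
    (gamN_cont N a).comp (continuous_fst.sub continuous_snd)
  exact this.measurable.ennreal_ofReal

lemma ker_meas1 (N : ℕ) (a : ℝ) (z : ℂ) :
    Measurable (fun w : ℂ => ENNReal.ofReal (gamN N a (z - w))) := by
  have : Continuous (fun w : ℂ => gamN N a (z - w)) :=
    (gamN_cont N a).comp (continuous_const.sub continuous_id)
  exact this.measurable.ennreal_ofReal

lemma ker_meas2 (N : ℕ) (a : ℝ) (v : ℂ) :
    Measurable (fun w : ℂ => ENNReal.ofReal (gamN N a (w - v))) := by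
  have : Continuous (fun w : ℂ => gamN N a (w - v)) :=
    (gamN_cont N a).comp (continuous_id.sub continuous_const)
  exact this.measurable.ennreal_ofReal

lemma ker_meas_mul (N : ℕ) (a : ℝ) (z : ℂ) {h : ℂ → ℝ≥0∞} (hh : Measurable h) :
    Measurable (fun w : ℂ => ENNReal.ofReal (gamN N a (z - w)) * h w) :=
  (ker_meas1 N a z).mul hh

lemma cN_meas (N : ℕ) (a : ℝ) {h : ℂ → ℝ≥0∞} (hh : Measurable h) : Measurable (cN N a h) := by
  unfold cN
  exact Measurable.lintegral_prod_right' (f := fun q : ℂ × ℂ =>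
    ENNReal.ofReal (gamN N a (q.1 - q.2)) * h q.2) ((meas_ker N a).mul (hh.comp measurable_snd))

lemma cN_swap (N : ℕ) (a : ℝ) {F h : ℂ → ℝ≥0∞} (hF : Measurable F) (hh : Measurable h) :
    ∫⁻ z, F z * cN N a h z = ∫⁻ w, h w * cN N a F w := by
  unfold cN
  have h1 : ∀ z, F z * ∫⁻ w, ENNReal.ofReal (gamN N a (z - w)) * h w =
      ∫⁻ w, F z * (ENNReal.ofReal (gamN N a (z - w)) * h w) := fun z =>
    (lintegral_const_mul _ (ker_meas_mul N a z hh)).symm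
  have h2 : ∀ w, h w * ∫⁻ z, ENNReal.ofReal (gamN N a (w - z)) * F z =
      ∫⁻ z, h w * (ENNReal.ofReal (gamN N a (w - z)) * F z) := fun w =>
    (lintegral_const_mul _ (ker_meas_mul N a w hF)).symm
  simp_rw [h1, h2]
  rw [lintegral_lintegral_swap]
  · refine lintegral_congr fun w => lintegral_congr fun z => ?_
    rw [gamN_symm N a z w]
    ring
  · exact ((hF.comp measurable_fst).mul
      ((meas_ker N a).mul (hh.comp measurable_snd))).aemeasurable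

lemma cN_mono (N : ℕ) (a : ℝ) {h h' : ℂ → ℝ≥0∞} (hh : ∀ w, h w ≤ h' w) (z : ℂ) :
    cN N a h z ≤ cN N a h' z :=
  lintegral_mono fun w => mul_le_mul_right (hh w) _

lemma cN_const (N : ℕ) (a : ℝ) {h : ℂ → ℝ≥0∞} (hh : Measurable h) (c : ℝ≥0∞) (z : ℂ) :
    cN N a (fun w => c * h w) z = c * cN N a h z := by
  unfold cN
  rw [← lintegral_const_mul _ (ker_meas_mul N a z hh)]
  refine lintegral_congr fun w => ?_
  ring

/-- composition of averages -/
lemma cN_cN (N : ℕ) {C a b : ℝ} (hC : ∀ z v : ℂ,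
    ∫⁻ w, ENNReal.ofReal (gamN N a (z - w)) * ENNReal.ofReal (gamN N b (w - v)) ≤
      ENNReal.ofReal (C * gamN N b (z - v))) (hC0 : 0 ≤ C) {h : ℂ → ℝ≥0∞} (hh : Measurable h)
    (z : ℂ) : cN N a (cN N b h) z ≤ ENNReal.ofReal C * cN N b h z := by
  unfold cN
  have h1 : ∀ w, ENNReal.ofReal (gamN N a (z - w)) *
      ∫⁻ v, ENNReal.ofReal (gamN N b (w - v)) * h v =
      ∫⁻ v, ENNReal.ofReal (gamN N a (z - w)) * (ENNReal.ofReal (gamN N b (w - v)) * h v) :=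
    fun w => (lintegral_const_mul _ (ker_meas_mul N b w hh)).symm
  simp_rw [h1]
  rw [lintegral_lintegral_swap]
  · rw [← lintegral_const_mul _ (ker_meas_mul N b z hh)]
    refine lintegral_mono fun v => ?_
    have h2 : ∀ w, ENNReal.ofReal (gamN N a (z - w)) * (ENNReal.ofReal (gamN N b (w - v)) * h v) =
        (ENNReal.ofReal (gamN N a (z - w)) * ENNReal.ofReal (gamN N b (w - v))) * h v := fun w => by
      ring
    simp_rw [h2]
    have hm12 : Measurable (fun w => ENNReal.ofReal (gamN N a (z - w)) *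
        ENNReal.ofReal (gamN N b (w - v))) := (ker_meas1 N a z).mul (ker_meas2 N b v)
    rw [lintegral_mul_const _ hm12]
    refine (mul_le_mul_left (hC z v) _).trans (le_of_eq ?_)
    rw [ENNReal.ofReal_mul hC0]
    ring
  · have hm1 : Measurable (fun q : ℂ × ℂ => ENNReal.ofReal (gamN N a (z - q.1))) :=
      (ker_meas1 N a z).comp measurable_fst
    have hm2 : Measurable (fun q : ℂ × ℂ => ENNReal.ofReal (gamN N b (q.1 - q.2)) * h q.2) :=
      (meas_ker N b).mul (hh.comp measurable_snd)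
    exact (hm1.mul hm2).aemeasurable

/-! ### power means -/

/-- concave power mean -/
lemma pm_concave {α : Type*} [MeasurableSpace α] (μ : Measure α) {K h : α → ℝ≥0∞}
    (hK : Measurable K) (hh : Measurable h) {M : ℝ≥0∞} (hM : ∫⁻ x, K x ∂μ ≤ M) {σ : ℝ}
    (h0 : 0 < σ) (h1 : σ ≤ 1) :
    ∫⁻ x, K x * h x ^ σ ∂μ ≤ M ^ (1 - σ) * (∫⁻ x, K x * h x ∂μ) ^ σ := by
  rcases h1.lt_or_eq with h1 | h1
  · have hpq : (1 / σ).HolderConjugate (1 / (1 - σ)) := by
      have h2 : 0 < 1 - σ := by linarith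
      rw [Real.holderConjugate_iff]
      refine ⟨by rw [lt_div_iff₀ h0]; linarith, ?_⟩
      rw [one_div, one_div, inv_inv, inv_inv]
      ring
    have h2 := ENNReal.lintegral_mul_le_Lp_mul_Lq μ hpq
      (f := fun x => (K x * h x) ^ σ) (g := fun x => K x ^ (1 - σ))
      ((hK.mul hh).pow_const σ).aemeasurable (hK.pow_const _).aemeasurable
    have h3 : ∀ x, ((K x * h x) ^ σ) ^ (1 / σ) = K x * h x := fun x => by
      rw [← ENNReal.rpow_mul, mul_one_div_cancel h0.ne', ENNReal.rpow_one]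
    have h4 : ∀ x, (K x ^ (1 - σ)) ^ (1 / (1 - σ)) = K x := fun x => by
      rw [← ENNReal.rpow_mul, mul_one_div_cancel (by linarith : (1 - σ) ≠ 0), ENNReal.rpow_one]
    have h6 : 1 / (1 / σ) = σ := by rw [one_div_one_div]
    have h7 : 1 / (1 / (1 - σ)) = 1 - σ := by rw [one_div_one_div]
    simp only [h3, h4, h6, h7, Pi.mul_apply] at h2
    have h5 : ∀ x, (K x * h x) ^ σ * K x ^ (1 - σ) = K x * h x ^ σ := fun x => by
      rw [ENNReal.mul_rpow_of_nonneg _ _ h0.le]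
      have : K x ^ σ * h x ^ σ * K x ^ (1 - σ) = (K x ^ σ * K x ^ (1 - σ)) * h x ^ σ := by ring
      rw [this, ← ENNReal.rpow_add_of_nonneg _ _ h0.le (by linarith)]
      simp
    simp only [h5] at h2
    refine h2.trans ?_
    rw [mul_comm]
    gcongr
  · subst h1
    simp

/-- convex power mean -/
lemma pm_convex {α : Type*} [MeasurableSpace α] (μ : Measure α) {K h : α → ℝ≥0∞}
    (hK : Measurable K) (hh : Measurable h) {M : ℝ≥0∞} (hM : ∫⁻ x, K x ∂μ ≤ M) {σ : ℝ}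
    (h1 : 1 ≤ σ) :
    (∫⁻ x, K x * h x ∂μ) ^ σ ≤ M ^ (σ - 1) * ∫⁻ x, K x * h x ^ σ ∂μ := by
  have h0 : 0 < σ := by linarith
  have h2 := pm_concave μ hK (hh.pow_const σ) hM (σ := 1 / σ) (by positivity)
    (by rw [div_le_one h0]; exact h1)
  have h3 : ∀ x, (h x ^ σ) ^ (1 / σ) = h x := fun x => by
    rw [← ENNReal.rpow_mul, mul_one_div_cancel h0.ne', ENNReal.rpow_one]
  simp only [h3] at h2
  have h4 := ENNReal.rpow_le_rpow h2 h0.le
  rw [ENNReal.mul_rpow_of_nonneg _ _ h0.le, ← ENNReal.rpow_mul, ← ENNReal.rpow_mul,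
    one_div_mul_cancel h0.ne', ENNReal.rpow_one] at h4
  have h5 : (1 - 1 / σ) * σ = σ - 1 := by
    rw [sub_mul, one_mul, one_div_mul_cancel h0.ne']
  rwa [h5] at h4

/-! ### Hölder for sums of integrals -/

lemma holder_sum (A : Finset ℤ) (F G : ℤ → ℂ → ℝ≥0∞) (hF : ∀ j, Measurable (F j))
    (hG : ∀ j, Measurable (G j)) {s : ℝ} (hs : 1 < s) :
    ∑ j ∈ A, ∫⁻ z, F j z ^ (s - 1) * G j z ≤
      (∑ j ∈ A, ∫⁻ z, F j z ^ s) ^ (1 - 1 / s) * (∑ j ∈ A, ∫⁻ z, G j z ^ s) ^ (1 / s) := by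
  have hs0 : 0 < s := by linarith
  have hs1 : 0 < s - 1 := by linarith
  have hpq : (s / (s - 1)).HolderConjugate s := by
    rw [Real.holderConjugate_iff]
    refine ⟨by rw [lt_div_iff₀ hs1]; linarith, ?_⟩
    field_simp
    ring
  have h1 : ∀ j, ∫⁻ z, F j z ^ (s - 1) * G j z ≤
      (∫⁻ z, F j z ^ s) ^ (1 - 1 / s) * (∫⁻ z, G j z ^ s) ^ (1 / s) := by
    intro j
    have h2 := ENNReal.lintegral_mul_le_Lp_mul_Lq volume hpq
      (f := fun z => F j z ^ (s - 1)) (g := G j) ((hF j).pow_const _).aemeasurable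
      (hG j).aemeasurable
    have h3 : ∀ z, (F j z ^ (s - 1)) ^ (s / (s - 1)) = F j z ^ s := fun z => by
      rw [← ENNReal.rpow_mul]
      congr 1
      field_simp
    have h4 : 1 / (s / (s - 1)) = 1 - 1 / s := by
      field_simp
    simp only [h3, h4, Pi.mul_apply] at h2
    exact h2
  refine (Finset.sum_le_sum fun j _ => h1 j).trans ?_
  have h2 := ENNReal.inner_le_Lp_mul_Lq A (fun j => (∫⁻ z, F j z ^ s) ^ (1 - 1 / s))
    (fun j => (∫⁻ z, G j z ^ s) ^ (1 / s)) hpq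
  have h3 : ∀ j, ((∫⁻ z, F j z ^ s) ^ (1 - 1 / s)) ^ (s / (s - 1)) = ∫⁻ z, F j z ^ s := fun j => by
    rw [← ENNReal.rpow_mul]
    have : (1 - 1 / s) * (s / (s - 1)) = 1 := by field_simp
    rw [this, ENNReal.rpow_one]
  have h4 : ∀ j, ((∫⁻ z, G j z ^ s) ^ (1 / s)) ^ s = ∫⁻ z, G j z ^ s := fun j => by
    rw [← ENNReal.rpow_mul, one_div_mul_cancel hs0.ne', ENNReal.rpow_one]
  have h5 : 1 / (s / (s - 1)) = 1 - 1 / s := by
    field_simp
  simp only [h3, h4, h5] at h2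
  exact h2

/-! ### slowly varying functions -/

lemma slow (N : ℕ) {b : ℝ} (hb : 0 < b) {h : ℂ → ℝ≥0∞} (hh : Measurable h) (z u : ℂ)
    (hu : ‖u‖ ≤ b) : cN N b h z ≤ ENNReal.ofReal (4 ^ N) * cN N b h (z - u) := by
  unfold cN
  rw [← lintegral_const_mul _ (ker_meas_mul N b (z - u) hh)]
  refine lintegral_mono fun w => ?_
  rw [← mul_assoc, ← ENNReal.ofReal_mul (by positivity)]
  refine mul_le_mul_left (ENNReal.ofReal_le_ofReal ?_) _
  have h1 := gamN_shift N b hb (z - u - w) (-u)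
  have h2 : z - u - w - -u = z - w := by ring
  rw [h2, norm_neg] at h1
  refine h1.trans ?_
  have h3 : ‖u‖ ^ 2 / b ^ 2 ≤ 1 := by
    rw [div_le_one (by positivity)]
    exact pow_le_pow_left₀ (norm_nonneg u) hu 2
  have h4 : (1 + ‖u‖ ^ 2 / b ^ 2) ^ N ≤ 2 ^ N :=
    pow_le_pow_left₀ (by positivity) (by linarith) N
  have h5 : (2 : ℝ) ^ N * (1 + ‖u‖ ^ 2 / b ^ 2) ^ N ≤ 4 ^ N := by
    calc (2 : ℝ) ^ N * (1 + ‖u‖ ^ 2 / b ^ 2) ^ N ≤ 2 ^ N * 2 ^ N :=
          mul_le_mul_of_nonneg_left h4 (by positivity)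
      _ = 4 ^ N := by rw [← mul_pow]; norm_num
  exact mul_le_mul_of_nonneg_right h5 (gamN_nonneg N b _)

/-- the `σ`-th power of an average at scale `b` is bounded by its average at scale `b` -/
lemma slow_pow (N : ℕ) (σ : ℝ) (hσ : 0 < σ) {b : ℝ} (hb : 0 < b) {h : ℂ → ℝ≥0∞}
    (hh : Measurable h) (z : ℂ) :
    (cN N b h z) ^ σ ≤ ENNReal.ofReal (4 * ((4 ^ N : ℝ) ^ σ)) * cN 2 b (fun w => cN N b h w ^ σ) z := by
  set F : ℂ → ℝ≥0∞ := fun w => cN N b h w ^ σ with hF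
  have hFm : Measurable F := (cN_meas N b hh).pow_const σ
  set K : ℝ≥0∞ := ENNReal.ofReal ((4 ^ N : ℝ) ^ σ) with hK
  have h1 : ∀ w ∈ Metric.closedBall z b, F z ≤ K * F w := by
    intro w hw
    have hw' : ‖z - w‖ ≤ b := by
      rw [norm_sub_rev]; exact mem_closedBall_iff_norm.mp hw
    have h2 := slow N hb hh z (z - w) hw'
    rw [sub_sub_cancel] at h2
    have h3 := ENNReal.rpow_le_rpow h2 hσ.le
    rw [ENNReal.mul_rpow_of_nonneg _ _ hσ.le,
      ENNReal.ofReal_rpow_of_nonneg (by positivity) hσ.le] at h3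
    exact h3
  -- lower bound for the average
  have h2 : ENNReal.ofReal ((b ^ 2)⁻¹ / 4) * (F z * volume (Metric.closedBall z b)) ≤
      K * cN 2 b F z := by
    rw [show K * cN 2 b F z = cN 2 b (fun w => K * F w) z from (cN_const 2 b hFm K z).symm]
    unfold cN
    refine le_trans ?_ (setLIntegral_le_lintegral (Metric.closedBall z b) _)
    rw [← setLIntegral_const, ← lintegral_const_mul _ measurable_const]
    refine setLIntegral_mono' Metric.isClosed_closedBall.measurableSet fun w hw => ?_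
    refine mul_le_mul' (ENNReal.ofReal_le_ofReal ?_) (h1 w hw)
    unfold gamN
    have hw' : ‖z - w‖ ≤ b := by
      rw [norm_sub_rev]; exact mem_closedBall_iff_norm.mp hw
    have h3 : ‖z - w‖ ^ 2 / b ^ 2 ≤ 1 := by
      rw [div_le_one (by positivity)]
      exact pow_le_pow_left₀ (norm_nonneg _) hw' 2
    have h4 : (1 + ‖z - w‖ ^ 2 / b ^ 2) ^ 2 ≤ 4 := by
      have : 0 ≤ ‖z - w‖ ^ 2 / b ^ 2 := by positivity
      nlinarith
    have h5 : (4 : ℝ)⁻¹ ≤ ((1 + ‖z - w‖ ^ 2 / b ^ 2) ^ 2)⁻¹ := inv_anti₀ (by positivity) h4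
    rw [div_eq_mul_inv]
    exact mul_le_mul_of_nonneg_left h5 (by positivity)
  rw [Complex.volume_closedBall] at h2
  have h3 : F z ≤ ENNReal.ofReal 4 *
      (ENNReal.ofReal ((b ^ 2)⁻¹ / 4) * (F z * (ENNReal.ofReal b ^ 2 * NNReal.pi))) := by
    have h4 : ENNReal.ofReal 4 *
      (ENNReal.ofReal ((b ^ 2)⁻¹ / 4) * (F z * (ENNReal.ofReal b ^ 2 * NNReal.pi))) =
      (ENNReal.ofReal 4 * ENNReal.ofReal ((b ^ 2)⁻¹ / 4) * ENNReal.ofReal b ^ 2 * NNReal.pi) *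
        F z := by ring
    rw [h4]
    have h5 : (1 : ℝ≥0∞) ≤ ENNReal.ofReal 4 * ENNReal.ofReal ((b ^ 2)⁻¹ / 4) *
        ENNReal.ofReal b ^ 2 * NNReal.pi := by
      have h6 : (NNReal.pi : ℝ≥0∞) = ENNReal.ofReal Real.pi := by
        rw [ENNReal.ofReal, ← NNReal.coe_real_pi, Real.toNNReal_coe]
      rw [h6, ← ENNReal.ofReal_pow hb.le, ← ENNReal.ofReal_mul (by norm_num),
        ← ENNReal.ofReal_mul (by positivity), ← ENNReal.ofReal_mul (by positivity),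
        ← ENNReal.ofReal_one]
      refine ENNReal.ofReal_le_ofReal ?_
      have : 4 * ((b ^ 2)⁻¹ / 4) * b ^ 2 * Real.pi = Real.pi := by field_simp
      rw [this]
      linarith [Real.pi_gt_three]
    calc F z = 1 * F z := (one_mul _).symm
      _ ≤ _ := mul_le_mul_left h5 _
  refine h3.trans ?_
  rw [ENNReal.ofReal_mul (by norm_num), mul_assoc]
  exact mul_le_mul_right h2 _

/-! ### measurability -/

lemma gj_meas (n : ℕ) (j : ℤ) {f : ℂ → ℂ} (hf : Nice f) : Measurable (gj n j f) :=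
  (nice_cv (ker_KK n j) hf).meas

lemma sq_meas (n : ℕ) (j : ℤ) {f : ℂ → ℂ} (hf : Nice f) :
    Measurable (fun w => ‖gj n j f w‖ₑ ^ 2) := (gj_meas n j hf).enorm.pow_const 2

lemma bj_eq (N n : ℕ) (j : ℤ) (f : ℂ → ℂ) :
    bj N n j f = cN N ((2:ℝ) ^ (-j)) (fun w => ‖gj n j f w‖ₑ ^ 2) := rfl

lemma bj_meas (N n : ℕ) (j : ℤ) {f : ℂ → ℂ} (hf : Nice f) : Measurable (bj N n j f) := by
  rw [bj_eq]
  exact cN_meas _ _ (sq_meas n j hf)

/-- shift of the index set -/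
lemma sum_shift (A : Finset ℤ) (m : ℤ) (F : ℤ → ℝ≥0∞) :
    ∑ j ∈ A, F (j + m) = ∑ j ∈ A.image (fun j => j + m), F j := by
  rw [Finset.sum_image]
  intro a _ b _ hab
  simpa using hab

end R6

open R6

/-- high power on the high frequency: no gain -/
theorem near_rev (N : ℕ) (hN : 2 ≤ N) (p : ℝ) (hp : 2 < p) : ∃ C : ℝ, 0 < C ∧ ∀ n : ℕ, 1 ≤ n →
    ∀ m : ℤ, ∀ A : Finset ℤ, ∀ f : ℂ → ℂ, Nice f →
    ∑ j ∈ A, ∫⁻ z, (bj N n (j + m) f z) ^ (p / 2 - 1) * bj N n j f z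
      ≤ ENNReal.ofReal (C * (n:ℝ) ^ (p - 2)) * nrp p f := by
  obtain ⟨C, hC, hb⟩ := bj_X N hN p hp.le
  refine ⟨C, hC, fun n hn m A f hf => ?_⟩
  have hs : 1 < p / 2 := by linarith
  have h1 := holder_sum A (fun j => bj N n (j + m) f) (fun j => bj N n j f)
    (fun j => bj_meas N n _ hf) (fun j => bj_meas N n _ hf) hs
  refine h1.trans ?_
  have h2 : ∑ j ∈ A, ∫⁻ z, (bj N n (j + m) f z) ^ (p / 2) ≤
      ENNReal.ofReal (C * (n:ℝ) ^ (p - 2)) * nrp p f := by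
    rw [sum_shift A m (fun j => ∫⁻ z, (bj N n j f z) ^ (p / 2))]
    exact hb n hn _ f hf
  have h3 := hb n hn A f hf
  have h4 : 0 ≤ 1 - 1 / (p / 2) := by
    have : 1 / (p / 2) ≤ 1 := by rw [div_le_one (by linarith)]; exact hs.le
    linarith
  have h5 : 0 ≤ 1 / (p / 2) := by positivity
  calc _ ≤ (ENNReal.ofReal (C * (n:ℝ) ^ (p - 2)) * nrp p f) ^ (1 - 1 / (p / 2)) *
        (ENNReal.ofReal (C * (n:ℝ) ^ (p - 2)) * nrp p f) ^ (1 / (p / 2)) :=
        mul_le_mul' (ENNReal.rpow_le_rpow h2 h4) (ENNReal.rpow_le_rpow h3 h5)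
    _ = _ := by
        rw [← ENNReal.rpow_add_of_nonneg _ _ h4 h5]
        simp

namespace R6

/-- the pointwise part: one pair of levels -/
lemma near_pair (N : ℕ) (hN : 2 ≤ N) (p : ℝ) (hp : 2 < p) : ∃ C : ℝ, 0 < C ∧
    ∀ (a b : ℝ), 0 < a → a ≤ b → ∀ g g' : ℂ → ℝ≥0∞, Measurable g → Measurable g' →
      (∫⁻ z, (cN N b g z) ^ (p / 2 - 1) * cN N a g' z ≤
        ENNReal.ofReal C * ∫⁻ z, (cN N b g z) ^ (p / 2 - 1) * cN 2 b g' z) ∨
      (∫⁻ z, (cN N b g z) ^ (p / 2 - 1) * cN N a g' z ≤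
        ENNReal.ofReal C * ∫⁻ z, (g z) ^ (p / 2 - 1) * cN 2 b g' z) := by
  obtain ⟨M, hM, hmass⟩ := gamN_mass N hN
  obtain ⟨D, hD, hconv⟩ := gamN_conv N hN
  set σ : ℝ := p / 2 - 1 with hσ
  have hσ0 : 0 < σ := by rw [hσ]; linarith
  rcases le_total σ 1 with hσ1 | hσ1
  · -- concave case
    refine ⟨M ^ (1 - σ) * (D ^ σ * (4 * ((4 ^ N : ℝ) ^ σ))), by positivity,
      fun a b ha hab g g' hg hg' => Or.inl ?_⟩
    have hb : 0 < b := ha.trans_le hab
    have hm1 : Measurable (fun z => (cN N b g z) ^ σ) := (cN_meas N b hg).pow_const σ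
    rw [cN_swap N a hm1 hg']
    -- pointwise
    have h1 : ∀ w, cN N a (fun z => (cN N b g z) ^ σ) w ≤
        ENNReal.ofReal (M ^ (1 - σ) * (D ^ σ * (4 * ((4 ^ N : ℝ) ^ σ)))) *
          cN 2 b (fun z => (cN N b g z) ^ σ) w := by
      intro w
      have e1 : cN N a (fun z => (cN N b g z) ^ σ) w ≤
          ENNReal.ofReal M ^ (1 - σ) * (cN N a (cN N b g) w) ^ σ :=
        pm_concave volume (ker_meas1 N a w)
          (cN_meas N b hg) (hmass a ha w) hσ0 hσ1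
      have e2 := cN_cN N (hconv a b ha hab) hD.le hg w
      have e3 := ENNReal.rpow_le_rpow e2 hσ0.le
      rw [ENNReal.mul_rpow_of_nonneg _ _ hσ0.le, ENNReal.ofReal_rpow_of_nonneg hD.le hσ0.le] at e3
      have e4 := slow_pow N σ hσ0 hb hg w
      rw [ENNReal.ofReal_rpow_of_nonneg hM.le (by linarith)] at e1
      refine e1.trans ?_
      rw [ENNReal.ofReal_mul (by positivity), ENNReal.ofReal_mul (by positivity), mul_assoc,
        mul_assoc]
      refine mul_le_mul_right (e3.trans (mul_le_mul_right e4 _)) _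
    calc ∫⁻ w, g' w * cN N a (fun z => (cN N b g z) ^ σ) w ≤
        ∫⁻ w, g' w * (ENNReal.ofReal (M ^ (1 - σ) * (D ^ σ * (4 * ((4 ^ N : ℝ) ^ σ)))) *
          cN 2 b (fun z => (cN N b g z) ^ σ) w) :=
          lintegral_mono fun w => mul_le_mul_right (h1 w) _
      _ = ENNReal.ofReal (M ^ (1 - σ) * (D ^ σ * (4 * ((4 ^ N : ℝ) ^ σ)))) *
          ∫⁻ w, g' w * cN 2 b (fun z => (cN N b g z) ^ σ) w := by
          have hm3 : Measurable (fun w => g' w * cN 2 b (fun z => (cN N b g z) ^ σ) w) :=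
            hg'.mul (cN_meas 2 b hm1)
          rw [← lintegral_const_mul _ hm3]
          refine lintegral_congr fun w => ?_
          ring
      _ = _ := by rw [← cN_swap 2 b hm1 hg']
  · -- convex case
    refine ⟨M ^ (σ - 1) * D, by positivity, fun a b ha hab g g' hg hg' => Or.inr ?_⟩
    have hb : 0 < b := ha.trans_le hab
    have hm1 : Measurable (fun z => (cN N b g z) ^ σ) := (cN_meas N b hg).pow_const σ
    have hm2 : Measurable (fun z => (g z) ^ σ) := hg.pow_const σ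
    rw [cN_swap N a hm1 hg']
    have h1 : ∀ w, cN N a (fun z => (cN N b g z) ^ σ) w ≤
        ENNReal.ofReal (M ^ (σ - 1) * D) * cN N b (fun z => (g z) ^ σ) w := by
      intro w
      have e1 : ∀ z, (cN N b g z) ^ σ ≤
          ENNReal.ofReal (M ^ (σ - 1)) * cN N b (fun z => (g z) ^ σ) z := by
        intro z
        have := pm_convex volume (ker_meas1 N b z) hg (hmass b hb z) hσ1
        rw [ENNReal.ofReal_rpow_of_nonneg hM.le (by linarith)] at this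
        exact this
      have e2 := cN_cN N (hconv a b ha hab) hD.le hm2 w
      calc cN N a (fun z => (cN N b g z) ^ σ) w ≤
          cN N a (fun z => ENNReal.ofReal (M ^ (σ - 1)) * cN N b (fun z => (g z) ^ σ) z) w :=
            cN_mono N a e1 w
        _ = ENNReal.ofReal (M ^ (σ - 1)) * cN N a (cN N b (fun z => (g z) ^ σ)) w :=
            cN_const N a (cN_meas N b hm2) _ w
        _ ≤ ENNReal.ofReal (M ^ (σ - 1)) *
            (ENNReal.ofReal D * cN N b (fun z => (g z) ^ σ) w) := mul_le_mul_right e2 _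
        _ = _ := by rw [ENNReal.ofReal_mul (by positivity), mul_assoc]
    have h2 : ∀ w, cN N b (fun z => (g z) ^ σ) w ≤ cN 2 b (fun z => (g z) ^ σ) w := by
      intro w
      refine lintegral_mono fun z => mul_le_mul_left (ENNReal.ofReal_le_ofReal ?_) _
      exact gamN_le_gam hN b _
    calc ∫⁻ w, g' w * cN N a (fun z => (cN N b g z) ^ σ) w ≤
        ∫⁻ w, g' w * (ENNReal.ofReal (M ^ (σ - 1) * D) * cN 2 b (fun z => (g z) ^ σ) w) :=
          lintegral_mono fun w =>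
            mul_le_mul_right ((h1 w).trans (mul_le_mul_right (h2 w) _)) _
      _ = ENNReal.ofReal (M ^ (σ - 1) * D) *
          ∫⁻ w, g' w * cN 2 b (fun z => (g z) ^ σ) w := by
          have hm3 : Measurable (fun w => g' w * cN 2 b (fun z => (g z) ^ σ) w) :=
            hg'.mul (cN_meas 2 b hm2)
          rw [← lintegral_const_mul _ hm3]
          refine lintegral_congr fun w => ?_
          ring
      _ = _ := by rw [← cN_swap 2 b hm2 hg']

lemma final_arith (p C1 C2 : ℝ) (hp : 2 < p) (hC1 : 0 < C1) (hC2 : 0 < C2) (n m : ℕ)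
    (hn : 1 ≤ n) :
    (C1 * (n:ℝ) ^ (p - 2)) ^ (1 - 1 / (p / 2)) *
      (C2 * (C2 * n / 2 ^ m) ^ (p - 2)) ^ (1 / (p / 2)) =
    (C1 ^ (1 - 1 / (p / 2)) * (C2 ^ (1 / (p / 2)) * C2 ^ ((p - 2) * (1 / (p / 2))))) *
      (n:ℝ) ^ (p - 2) * (2:ℝ) ^ (-(2 * m * (1 - 2 / p))) := by
  have hn0 : (0:ℝ) < n := by exact_mod_cast hn
  have h2m : (0:ℝ) < 2 ^ m := by positivity
  rw [Real.mul_rpow hC1.le (by positivity), Real.mul_rpow hC2.le (by positivity),
    ← Real.rpow_mul hn0.le, ← Real.rpow_mul (by positivity),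
    Real.div_rpow (by positivity) h2m.le, Real.mul_rpow hC2.le hn0.le]
  have e1 : ((2:ℝ) ^ m) ^ ((p - 2) * (1 / (p / 2))) = (2:ℝ) ^ (2 * m * (1 - 2 / p)) := by
    rw [← Real.rpow_natCast, ← Real.rpow_mul (by norm_num)]
    congr 1
    field_simp
  have e2 : (n:ℝ) ^ ((p - 2) * (1 - 1 / (p / 2))) * (n:ℝ) ^ ((p - 2) * (1 / (p / 2))) =
      (n:ℝ) ^ (p - 2) := by
    rw [← Real.rpow_add hn0]
    congr 1
    ring
  rw [e1, Real.rpow_neg (by norm_num), ← e2]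
  ring

end R6

theorem near_real (N : ℕ) (hN : 2 ≤ N) (p : ℝ) (hp : 2 < p) : ∃ C : ℝ, 0 < C ∧ ∀ n : ℕ, 1 ≤ n →
    ∀ m : ℕ, (2:ℝ) ^ m ≤ 2 * n → ∀ A : Finset ℤ, ∀ f : ℂ → ℂ, Nice f →
    ∑ j ∈ A, ∫⁻ z, (bj N n (j - m) f z) ^ (p / 2 - 1) * bj N n j f z
      ≤ ENNReal.ofReal (C * (n:ℝ) ^ (p - 2) * (2:ℝ) ^ (-(2 * m * (1 - 2 / p)))) * nrp p f := by
  obtain ⟨Cb, hCb, hbX⟩ := bj_X N hN p hp.le
  obtain ⟨Cx, hCx, hX⟩ := X_real
  obtain ⟨Cy, hCy, hY⟩ := Y_real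
  obtain ⟨Cp, hCp, hpair⟩ := near_pair N hN p hp
  have hs : 1 < p / 2 := by linarith
  have h4 : 0 ≤ 1 - 1 / (p / 2) := by
    have : 1 / (p / 2) ≤ 1 := by rw [div_le_one (by linarith)]; exact hs.le
    linarith
  have h5 : 0 ≤ 1 / (p / 2) := by positivity
  -- a common constant for the first factor
  set C1 : ℝ := Cb + Cx ^ (p - 2) with hC1
  have hC10 : 0 < C1 := by positivity
  refine ⟨2 * Cp * (C1 ^ (1 - 1 / (p / 2)) * (Cy ^ (1 / (p / 2)) *
    Cy ^ ((p - 2) * (1 / (p / 2))))), by positivity, fun n hn m hm A f hf => ?_⟩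
  have hn0 : (0:ℝ) < n := by exact_mod_cast hn
  set g : ℤ → ℂ → ℝ≥0∞ := fun j w => ‖gj n j f w‖ₑ ^ 2 with hg
  have hgm : ∀ j, Measurable (g j) := fun j => sq_meas n j hf
  set B : ℤ → ℂ → ℝ≥0∞ := fun j => cN 2 ((2:ℝ) ^ ((m:ℤ) - j)) (g j) with hB
  have hBm : ∀ j, Measurable (B j) := fun j => cN_meas _ _ (hgm j)
  -- the three sums
  have hsB : ∑ j ∈ A, ∫⁻ z, B j z ^ (p / 2) ≤
      ENNReal.ofReal (Cy * (Cy * n / 2 ^ m) ^ (p - 2)) * nrp p f := hY n hn A m hm p hp.le f hf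
  have hsb : ∑ j ∈ A, ∫⁻ z, (bj N n (j - m) f z) ^ (p / 2) ≤
      ENNReal.ofReal (C1 * (n:ℝ) ^ (p - 2)) * nrp p f := by
    have h1 := sum_shift A (-(m:ℤ)) (fun j => ∫⁻ z, (bj N n j f z) ^ (p / 2))
    simp only [← sub_eq_add_neg] at h1
    rw [h1]
    refine (hbX n hn _ f hf).trans (mul_le_mul_left (ENNReal.ofReal_le_ofReal ?_) _)
    have : 0 ≤ Cx ^ (p - 2) := by positivity
    exact mul_le_mul_of_nonneg_right (by linarith) (by positivity)
  have hsg : ∑ j ∈ A, ∫⁻ z, (g (j - m) z) ^ (p / 2) ≤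
      ENNReal.ofReal (C1 * (n:ℝ) ^ (p - 2)) * nrp p f := by
    have h1 := sum_shift A (-(m:ℤ)) (fun j => ∫⁻ z, (g j z) ^ (p / 2))
    simp only [← sub_eq_add_neg] at h1
    rw [h1]
    have h2 : ∀ j z, (g j z) ^ (p / 2) = ‖gj n j f z‖ₑ ^ p := fun j z => by
      simp only [hg]
      rw [← ENNReal.rpow_natCast, ← ENNReal.rpow_mul]
      congr 1
      push_cast
      ring
    simp only [h2]
    refine (hX n hn _ p hp.le f hf).trans (mul_le_mul_left (ENNReal.ofReal_le_ofReal ?_) _)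
    rw [Real.mul_rpow hCx.le hn0.le]
    exact mul_le_mul_of_nonneg_right (by linarith) (by positivity)
  -- Hölder
  have key : ∀ F : ℤ → ℂ → ℝ≥0∞, (∀ j, Measurable (F j)) →
      ∑ j ∈ A, ∫⁻ z, F j z ^ (p / 2) ≤ ENNReal.ofReal (C1 * (n:ℝ) ^ (p - 2)) * nrp p f →
      ∑ j ∈ A, ∫⁻ z, F j z ^ (p / 2 - 1) * B j z ≤
        ENNReal.ofReal ((C1 ^ (1 - 1 / (p / 2)) * (Cy ^ (1 / (p / 2)) *
          Cy ^ ((p - 2) * (1 / (p / 2))))) * (n:ℝ) ^ (p - 2) *
          (2:ℝ) ^ (-(2 * m * (1 - 2 / p)))) * nrp p f := by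
    intro F hF hsF
    refine (holder_sum A F B hF hBm hs).trans ?_
    calc _ ≤ (ENNReal.ofReal (C1 * (n:ℝ) ^ (p - 2)) * nrp p f) ^ (1 - 1 / (p / 2)) *
          (ENNReal.ofReal (Cy * (Cy * n / 2 ^ m) ^ (p - 2)) * nrp p f) ^ (1 / (p / 2)) :=
          mul_le_mul' (ENNReal.rpow_le_rpow hsF h4) (ENNReal.rpow_le_rpow hsB h5)
      _ = _ := by
          rw [ENNReal.mul_rpow_of_nonneg _ _ h4, ENNReal.mul_rpow_of_nonneg _ _ h5,
            ENNReal.ofReal_rpow_of_nonneg (by positivity) h4,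
            ENNReal.ofReal_rpow_of_nonneg (by positivity) h5]
          rw [mul_mul_mul_comm, ← ENNReal.ofReal_mul (by positivity),
            ← ENNReal.rpow_add_of_nonneg _ _ h4 h5, final_arith p C1 Cy hp hC10 hCy n m hn]
          simp
  have kb := key (fun j => bj N n (j - m) f) (fun j => bj_meas N n _ hf) hsb
  have kg := key (fun j => g (j - m)) (fun j => hgm _) hsg
  -- each pair
  have hterm : ∀ j ∈ A, ∫⁻ z, (bj N n (j - m) f z) ^ (p / 2 - 1) * bj N n j f z ≤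
      ENNReal.ofReal Cp * (∫⁻ z, (bj N n (j - m) f z) ^ (p / 2 - 1) * B j z) +
      ENNReal.ofReal Cp * ∫⁻ z, (g (j - m) z) ^ (p / 2 - 1) * B j z := by
    intro j _
    have hab : (2:ℝ) ^ (-j) ≤ (2:ℝ) ^ ((m:ℤ) - j) :=
      zpow_le_zpow_right₀ (by norm_num) (by omega)
    have h1 := hpair ((2:ℝ) ^ (-j)) ((2:ℝ) ^ ((m:ℤ) - j)) (by positivity) hab (g (j - m)) (g j)
      (hgm _) (hgm _)
    have h2 : cN N ((2:ℝ) ^ ((m:ℤ) - j)) (g (j - m)) = bj N n (j - m) f := by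
      rw [bj_eq, neg_sub]
    have h3 : cN N ((2:ℝ) ^ (-j)) (g j) = bj N n j f := rfl
    rw [h2, h3] at h1
    rcases h1 with h1 | h1
    · exact h1.trans (le_add_of_nonneg_right zero_le)
    · exact h1.trans (le_add_of_nonneg_left zero_le)
  refine (Finset.sum_le_sum hterm).trans ?_
  rw [Finset.sum_add_distrib, ← Finset.mul_sum, ← Finset.mul_sum]
  calc _ ≤ ENNReal.ofReal Cp * (ENNReal.ofReal ((C1 ^ (1 - 1 / (p / 2)) * (Cy ^ (1 / (p / 2)) *
          Cy ^ ((p - 2) * (1 / (p / 2))))) * (n:ℝ) ^ (p - 2) *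
          (2:ℝ) ^ (-(2 * m * (1 - 2 / p)))) * nrp p f) +
        ENNReal.ofReal Cp * (ENNReal.ofReal ((C1 ^ (1 - 1 / (p / 2)) * (Cy ^ (1 / (p / 2)) *
          Cy ^ ((p - 2) * (1 / (p / 2))))) * (n:ℝ) ^ (p - 2) *
          (2:ℝ) ^ (-(2 * m * (1 - 2 / p)))) * nrp p f) :=
        add_le_add (mul_le_mul_right kb _) (mul_le_mul_right kg _)
    _ = _ := by
        rw [← two_mul, ← mul_assoc, ← mul_assoc, ← ENNReal.ofReal_ofNat 2,
          ← ENNReal.ofReal_mul (by norm_num), ← ENNReal.ofReal_mul (by positivity)]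
        congr 2
        ring

end Helper85.BP.P
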