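import Pool.Agent.Helper85.BP.Defs

/-!
# All-p extension, module S1: Poisson kernels and the Poisson formula of the strip
-/

set_option autoImplicit false

open MeasureTheory Complex FourierTransform Filter Topology
open scoped ENNReal NNReal ComplexConjugate

noncomputable section

namespace Helper85.BP.P

open Helper72.BA Helper85.BP

/-! ### elementary facts -/

lemma s1_sin_pos {θ : ℝ} (h0 : 0 < θ) (h1 : θ < 1) : 0 < Real.sin (Real.pi * θ) := by
  apply Real.sin_pos_of_pos_of_lt_pi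
  · positivity
  · nlinarith [Real.pi_pos]

lemma s1_abs_cos {θ : ℝ} (h0 : 0 < θ) (h1 : θ < 1) : |Real.cos (Real.pi * θ)| < 1 := by
  have h := s1_sin_pos h0 h1
  have h2 := Real.sin_sq_add_cos_sq (Real.pi * θ)
  rw [abs_lt]
  constructor <;> nlinarith

lemma s1_cosh_ge (τ : ℝ) : Real.exp (Real.pi * |τ|) / 2 ≤ Real.cosh (Real.pi * τ) := by
  rw [← Real.cosh_abs, abs_mul, abs_of_pos Real.pi_pos, Real.cosh_eq]
  have := Real.exp_pos (-(Real.pi * |τ|))
  linarith

lemma s1_den0 {θ : ℝ} (h0 : 0 < θ) (h1 : θ < 1) (τ : ℝ) :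
    (1 - |Real.cos (Real.pi * θ)|) * Real.cosh (Real.pi * τ) ≤
      Real.cosh (Real.pi * τ) - Real.cos (Real.pi * θ) := by
  have h2 := Real.one_le_cosh (Real.pi * τ)
  have h3 := le_abs_self (Real.cos (Real.pi * θ))
  have h4 := abs_nonneg (Real.cos (Real.pi * θ))
  nlinarith

lemma s1_den1 {θ : ℝ} (h0 : 0 < θ) (h1 : θ < 1) (τ : ℝ) :
    (1 - |Real.cos (Real.pi * θ)|) * Real.cosh (Real.pi * τ) ≤
      Real.cosh (Real.pi * τ) + Real.cos (Real.pi * θ) := by
  have h2 := Real.one_le_cosh (Real.pi * τ)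
  have h3 := neg_abs_le (Real.cos (Real.pi * θ))
  have h4 := abs_nonneg (Real.cos (Real.pi * θ))
  nlinarith

lemma s1_den0_pos {θ : ℝ} (h0 : 0 < θ) (h1 : θ < 1) (τ : ℝ) :
    0 < Real.cosh (Real.pi * τ) - Real.cos (Real.pi * θ) := by
  have h2 := Real.one_le_cosh (Real.pi * τ)
  have h3 := abs_lt.mp (s1_abs_cos h0 h1)
  linarith [h3.2]

lemma s1_den1_pos {θ : ℝ} (h0 : 0 < θ) (h1 : θ < 1) (τ : ℝ) :
    0 < Real.cosh (Real.pi * τ) + Real.cos (Real.pi * θ) := by
  have h2 := Real.one_le_cosh (Real.pi * τ)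
  have h3 := abs_lt.mp (s1_abs_cos h0 h1)
  linarith [h3.1]

lemma s1_decay {θ : ℝ} (h0 : 0 < θ) (h1 : θ < 1) (τ D : ℝ)
    (hD : (1 - |Real.cos (Real.pi * θ)|) * Real.cosh (Real.pi * τ) ≤ D) :
    Real.sin (Real.pi * θ) / (2 * D) ≤
      Real.sin (Real.pi * θ) / (1 - |Real.cos (Real.pi * θ)|) * Real.exp (-(Real.pi * |τ|)) := by
  have hs := s1_sin_pos h0 h1
  have hc : 0 < 1 - |Real.cos (Real.pi * θ)| := by linarith [s1_abs_cos h0 h1]
  have h2 := s1_cosh_ge τ
  have h3 : (1 - |Real.cos (Real.pi * θ)|) * (Real.exp (Real.pi * |τ|) / 2) ≤ D :=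
    (mul_le_mul_of_nonneg_left h2 hc.le).trans hD
  have h4 : 0 < (1 - |Real.cos (Real.pi * θ)|) * Real.exp (Real.pi * |τ|) := by positivity
  have h5 : (1 - |Real.cos (Real.pi * θ)|) * Real.exp (Real.pi * |τ|) ≤ 2 * D := by linarith
  calc Real.sin (Real.pi * θ) / (2 * D) ≤
      Real.sin (Real.pi * θ) / ((1 - |Real.cos (Real.pi * θ)|) * Real.exp (Real.pi * |τ|)) :=
        div_le_div_of_nonneg_left hs.le h4 h5
    _ = _ := by
        rw [Real.exp_neg]
        field_simp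

theorem P_facts (θ : ℝ) (h0 : 0 < θ) (h1 : θ < 1) :
    Continuous (P0 θ) ∧ Continuous (P1 θ) ∧ (∀ τ, 0 < P0 θ τ) ∧ (∀ τ, 0 < P1 θ τ) ∧
    (∀ τ, P0 θ (-τ) = P0 θ τ) ∧ (∀ τ, P1 θ (-τ) = P1 θ τ) ∧
    ∃ C : ℝ, 0 < C ∧ ∀ τ, P0 θ τ ≤ C * Real.exp (-(Real.pi * |τ|)) ∧
      P1 θ τ ≤ C * Real.exp (-(Real.pi * |τ|)) := by
  have hs := s1_sin_pos h0 h1
  have hcc : Continuous (fun τ : ℝ => Real.cosh (Real.pi * τ)) :=
    Real.continuous_cosh.comp (continuous_const.mul continuous_id)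
  refine ⟨?_, ?_, ?_, ?_, ?_, ?_, ?_⟩
  · unfold P0
    refine continuous_const.div (continuous_const.mul (hcc.sub continuous_const)) fun τ => ?_
    have := s1_den0_pos h0 h1 τ
    positivity
  · unfold P1
    refine continuous_const.div (continuous_const.mul (hcc.add continuous_const)) fun τ => ?_
    have := s1_den1_pos h0 h1 τ
    positivity
  · intro τ
    have := s1_den0_pos h0 h1 τ
    unfold P0
    positivity
  · intro τ
    have := s1_den1_pos h0 h1 τ
    unfold P1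
    positivity
  · intro τ
    unfold P0
    rw [mul_neg, Real.cosh_neg]
  · intro τ
    unfold P1
    rw [mul_neg, Real.cosh_neg]
  · have hc : 0 < 1 - |Real.cos (Real.pi * θ)| := by linarith [s1_abs_cos h0 h1]
    refine ⟨Real.sin (Real.pi * θ) / (1 - |Real.cos (Real.pi * θ)|), by positivity, fun τ => ?_⟩
    exact ⟨s1_decay h0 h1 τ _ (s1_den0 h0 h1 τ), s1_decay h0 h1 τ _ (s1_den1 h0 h1 τ)⟩

lemma s1_exp_int : Integrable (fun τ : ℝ => Real.exp (-((Real.pi - 1) * |τ|))) := by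
  have hpi : 0 < Real.pi - 1 := by linarith [Real.pi_gt_three]
  have h1 : IntegrableOn (fun τ : ℝ => Real.exp (-((Real.pi - 1) * |τ|))) (Set.Iic 0) := by
    refine (integrableOn_exp_mul_Iic hpi 0).congr_fun ?_ measurableSet_Iic
    intro τ hτ
    simp only
    rw [abs_of_nonpos hτ]
    congr 1
    ring
  have h2 : IntegrableOn (fun τ : ℝ => Real.exp (-((Real.pi - 1) * |τ|))) (Set.Ioi 0) := by
    refine (integrableOn_exp_mul_Ioi (by linarith : -(Real.pi - 1) < 0) 0).congr_fun ?_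
      measurableSet_Ioi
    intro τ hτ
    simp only
    rw [abs_of_pos hτ]
    congr 1
    ring
  have := h1.union h2
  rwa [Set.Iic_union_Ioi, integrableOn_univ] at this

lemma s1_pow_int (P : ℝ → ℝ) (hP : Continuous P) (hP0 : ∀ τ, 0 < P τ) (C : ℝ)
    (hb : ∀ τ, P τ ≤ C * Real.exp (-(Real.pi * |τ|))) (m : ℕ) :
    Integrable (fun τ : ℝ => (1 + |τ|) ^ m * P τ) := by
  have hdom : Integrable (fun τ : ℝ => (m.factorial : ℝ) * Real.exp 1 * C *
      Real.exp (-((Real.pi - 1) * |τ|))) := s1_exp_int.const_mul _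
  refine Integrable.mono' hdom ?_ (Eventually.of_forall fun τ => ?_)
  · have : Continuous (fun τ : ℝ => (1 + |τ|) ^ m * P τ) := by fun_prop
    exact this.aestronglyMeasurable
  · have h1 : (0 : ℝ) ≤ 1 + |τ| := by positivity
    rw [Real.norm_of_nonneg (mul_nonneg (pow_nonneg h1 m) (hP0 τ).le)]
    have h2 := Real.pow_div_factorial_le_exp (1 + |τ|) h1 m
    have h3 : (0 : ℝ) < m.factorial := by exact_mod_cast m.factorial_pos
    rw [div_le_iff₀ h3] at h2
    have h4 : (1 + |τ|) ^ m * P τ ≤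
        (Real.exp (1 + |τ|) * m.factorial) * (C * Real.exp (-(Real.pi * |τ|))) :=
      mul_le_mul h2 (hb τ) (hP0 τ).le (by positivity)
    refine h4.trans (le_of_eq ?_)
    rw [show -((Real.pi - 1) * |τ|) = |τ| + -(Real.pi * |τ|) by ring, Real.exp_add, Real.exp_add]
    ring

theorem P_int (θ : ℝ) (h0 : 0 < θ) (h1 : θ < 1) (m : ℕ) :
    Integrable (fun τ : ℝ => (1 + |τ|) ^ m * P0 θ τ) ∧
    Integrable (fun τ : ℝ => (1 + |τ|) ^ m * P1 θ τ) := by
  obtain ⟨c0, c1, p0, p1, _, _, C, hC, hb⟩ := P_facts θ h0 h1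
  exact ⟨s1_pow_int _ c0 p0 C (fun τ => (hb τ).1) m,
    s1_pow_int _ c1 p1 C (fun τ => (hb τ).2) m⟩

lemma s1_mass1 (θ : ℝ) (h0 : 0 < θ) (h1 : θ < 1) : ∫ τ, P1 θ τ = θ := by
  have hs := s1_sin_pos h0 h1
  set s := Real.sin (Real.pi * θ) with hsd
  set c := Real.cos (Real.pi * θ) with hcd
  have hsc : s ^ 2 + c ^ 2 = 1 := Real.sin_sq_add_cos_sq _
  have hd : ∀ τ : ℝ, HasDerivAt
      (fun τ : ℝ => Real.pi⁻¹ * Real.arctan ((Real.exp (Real.pi * τ) + c) / s)) (P1 θ τ) τ := by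
    intro τ
    have e1 : HasDerivAt (fun τ : ℝ => (Real.exp (Real.pi * τ) + c) / s)
        (Real.exp (Real.pi * τ) * (Real.pi * 1) / s) τ :=
      ((((hasDerivAt_id τ).const_mul Real.pi).exp).add_const c).div_const s
    have e2 := (e1.arctan).const_mul Real.pi⁻¹
    refine e2.congr_deriv ?_
    have hpos := s1_den1_pos h0 h1 τ
    unfold P1
    rw [← hsd, ← hcd] at *
    rw [Real.cosh_eq] at *
    have he := Real.exp_pos (Real.pi * τ)
    rw [Real.exp_neg] at *
    set E := Real.exp (Real.pi * τ) with hE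
    have hne : s ^ 2 + (E + c) ^ 2 ≠ 0 := by positivity
    have hpi := Real.pi_pos
    have hpos' : 0 < E ^ 2 + 1 + 2 * c * E := by
      have : (E + E⁻¹) / 2 + c = (E ^ 2 + 1 + 2 * c * E) / (2 * E) := by field_simp
      rw [this] at hpos
      by_contra hcon
      push Not at hcon
      have := div_nonpos_of_nonpos_of_nonneg hcon (by positivity : 0 ≤ 2 * E)
      linarith
    have hq : s ^ 2 + (E + c) ^ 2 = E ^ 2 + 1 + 2 * c * E := by nlinarith
    have hq2 : 1 + ((E + c) / s) ^ 2 = (E ^ 2 + 1 + 2 * c * E) / s ^ 2 := by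
      rw [← hq]; field_simp
    rw [hq2]
    field_simp
  obtain ⟨_, c1, _, p1, _, _, C, hC, hb⟩ := P_facts θ h0 h1
  have hint : Integrable (P1 θ) := by
    have := (P_int θ h0 h1 0).2
    simpa using this
  have hexp_bot : Tendsto (fun τ : ℝ => Real.exp (Real.pi * τ)) atBot (𝓝 0) :=
    Real.tendsto_exp_atBot.comp (tendsto_id.const_mul_atBot Real.pi_pos)
  have hexp_top : Tendsto (fun τ : ℝ => Real.exp (Real.pi * τ)) atTop atTop :=
    Real.tendsto_exp_atTop.comp (tendsto_id.const_mul_atTop Real.pi_pos)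
  have hbot : Tendsto (fun τ : ℝ => Real.pi⁻¹ * Real.arctan ((Real.exp (Real.pi * τ) + c) / s))
      atBot (𝓝 (1 / 2 - θ)) := by
    have e1 : Tendsto (fun τ : ℝ => (Real.exp (Real.pi * τ) + c) / s) atBot (𝓝 ((0 + c) / s)) :=
      (hexp_bot.add_const c).div_const s
    have e2 := ((Real.continuous_arctan.tendsto _).comp e1).const_mul Real.pi⁻¹
    have e3 : Real.pi⁻¹ * Real.arctan ((0 + c) / s) = 1 / 2 - θ := by
      have : (0 + c) / s = Real.tan (Real.pi / 2 - Real.pi * θ) := by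
        rw [Real.tan_pi_div_two_sub, Real.tan_eq_sin_div_cos, inv_div, zero_add]
      rw [this, Real.arctan_tan (by nlinarith [Real.pi_pos]) (by nlinarith [Real.pi_pos])]
      field_simp
    rw [e3] at e2
    exact e2
  have htop : Tendsto (fun τ : ℝ => Real.pi⁻¹ * Real.arctan ((Real.exp (Real.pi * τ) + c) / s))
      atTop (𝓝 (1 / 2)) := by
    have e1 : Tendsto (fun τ : ℝ => (Real.exp (Real.pi * τ) + c) / s) atTop atTop :=
      (tendsto_atTop_add_const_right _ c hexp_top).atTop_div_const hs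
    have e2 := ((tendsto_nhds_of_tendsto_nhdsWithin Real.tendsto_arctan_atTop).comp e1).const_mul
      Real.pi⁻¹
    have e3 : Real.pi⁻¹ * (Real.pi / 2) = 1 / 2 := by
      field_simp
    rw [e3] at e2
    exact e2
  rw [integral_of_hasDerivAt_of_tendsto hd hint hbot htop]
  ring

lemma s1_P0_eq (θ τ : ℝ) : P0 θ τ = P1 (1 - θ) τ := by
  unfold P0 P1
  have e : Real.pi * (1 - θ) = Real.pi - Real.pi * θ := by ring
  rw [e, Real.sin_pi_sub, Real.cos_pi_sub]
  congr 1

theorem P_mass (θ : ℝ) (h0 : 0 < θ) (h1 : θ < 1) :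
    (∫ τ, P0 θ τ = 1 - θ) ∧ (∫ τ, P1 θ τ = θ) := by
  refine ⟨?_, s1_mass1 θ h0 h1⟩
  have : P0 θ = P1 (1 - θ) := by
    funext τ; exact s1_P0_eq θ τ
  rw [this]
  exact s1_mass1 (1 - θ) (by linarith) (by linarith)

/-! ### the Poisson formula -/

lemma s1_cos_I (τ : ℝ) : Complex.cos (Real.pi * (I * τ)) = ((Real.cosh (Real.pi * τ) : ℝ) : ℂ) := by
  rw [show (Real.pi : ℂ) * (I * τ) = ((Real.pi * τ : ℝ) : ℂ) * I by push_cast; ring,
    Complex.cos_mul_I, Complex.ofReal_cosh]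

lemma s1_cos_one_I (τ : ℝ) :
    Complex.cos (Real.pi * (1 + I * τ)) = -((Real.cosh (Real.pi * τ) : ℝ) : ℂ) := by
  rw [mul_add, mul_one, Complex.cos_add, Complex.cos_pi, Complex.sin_pi, s1_cos_I]
  ring

/-- lower bound for the cosine off the real axis -/
lemma s1_norm_cos (z : ℂ) : Real.sinh |z.im| ≤ ‖Complex.cos z‖ := by
  rw [Complex.cos, norm_div]
  have h2 : ‖(2 : ℂ)‖ = 2 := by simp
  rw [h2]
  have h3 : ‖Complex.exp (z * I)‖ = Real.exp (-z.im) := by
    rw [Complex.norm_exp]; simp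
  have h4 : ‖Complex.exp (-z * I)‖ = Real.exp z.im := by
    rw [Complex.norm_exp]; simp
  have h5 := norm_sub_norm_le (Complex.exp (z * I)) (-Complex.exp (-z * I))
  have h6 := norm_sub_norm_le (Complex.exp (-z * I)) (-Complex.exp (z * I))
  rw [norm_neg, sub_neg_eq_add, h3, h4] at h5
  rw [norm_neg, sub_neg_eq_add, h3, h4] at h6
  rw [add_comm (Complex.exp (-z * I))] at h6
  rw [Real.sinh_eq]
  rcases abs_cases z.im with ⟨h, _⟩ | ⟨h, _⟩
  · rw [h]; linarith
  · rw [h, neg_neg]; linarith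

/-- zeros of the denominator in the closed strip -/
lemma s1_den_ne {θ : ℝ} (h0 : 0 < θ) (h1 : θ < 1) {z : ℂ} (hz0 : 0 ≤ z.re) (hz1 : z.re ≤ 1)
    (hz : z ≠ θ) : Complex.cos (Real.pi * z) - Complex.cos (Real.pi * θ) ≠ 0 := by
  intro h
  have h2 := sub_eq_zero.mp h
  rw [Complex.cos_eq_cos_iff] at h2
  obtain ⟨k, hk⟩ := h2
  have hpi : (Real.pi : ℂ) ≠ 0 := by exact_mod_cast Real.pi_ne_zero
  rcases hk with hk | hk
  · have h3 : (θ : ℂ) = 2 * k + z := by
      have : (Real.pi : ℂ) * θ = Real.pi * (2 * k + z) := by rw [hk]; ring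
      exact mul_left_cancel₀ hpi this
    have h4 : θ = 2 * k + z.re := by
      have := congrArg Complex.re h3
      simpa using this
    have h5 : k = 0 := by
      have a1 : (2 * (k : ℝ)) < 2 := by linarith
      have a2 : (-2 : ℝ) < 2 * (k : ℝ) := by linarith
      have a3 : k < 1 := by exact_mod_cast (by linarith : (k : ℝ) < 1)
      have a4 : -1 < k := by exact_mod_cast (by linarith : (-1 : ℝ) < (k : ℝ))
      omega
    apply hz
    rw [h3, h5]
    simp
  · have h3 : (θ : ℂ) = 2 * k - z := by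
      have : (Real.pi : ℂ) * θ = Real.pi * (2 * k - z) := by rw [hk]; ring
      exact mul_left_cancel₀ hpi this
    have h4 : θ = 2 * k - z.re := by
      have := congrArg Complex.re h3
      simpa using this
    have a1 : (2 * (k : ℝ)) < 2 := by linarith
    have a2 : (0 : ℝ) < 2 * (k : ℝ) := by linarith
    have a3 : k < 1 := by exact_mod_cast (by linarith : (k : ℝ) < 1)
    have a4 : 0 < k := by exact_mod_cast (by linarith : (0 : ℝ) < (k : ℝ))
    omega

/-- the entire function `(cos π z - cos π θ)/(z - θ)` -/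
def s1_q (θ : ℝ) : ℂ → ℂ := dslope (fun z : ℂ => Complex.cos (Real.pi * z)) θ

lemma s1_q_of_ne (θ : ℝ) {z : ℂ} (hz : z ≠ θ) :
    s1_q θ z = (Complex.cos (Real.pi * z) - Complex.cos (Real.pi * θ)) / (z - θ) := by
  unfold s1_q
  rw [dslope_of_ne _ hz, slope_def_field]

lemma s1_cos_diff : Differentiable ℂ (fun z : ℂ => Complex.cos (Real.pi * z)) := by
  fun_prop

lemma s1_q_cont (θ : ℝ) : Continuous (s1_q θ) := by
  have h := (continuousOn_dslope (f := fun z : ℂ => Complex.cos (Real.pi * z)) (a := (θ : ℂ))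
    (s := Set.univ) univ_mem).mpr ⟨s1_cos_diff.continuous.continuousOn, s1_cos_diff _⟩
  exact continuousOn_univ.mp h

lemma s1_q_ne {θ : ℝ} (h0 : 0 < θ) (h1 : θ < 1) {z : ℂ} (hz0 : 0 ≤ z.re) (hz1 : z.re ≤ 1) :
    s1_q θ z ≠ 0 := by
  by_cases hz : z = θ
  · rw [hz]
    unfold s1_q
    rw [dslope_same]
    have hd : HasDerivAt (fun z : ℂ => Complex.cos (Real.pi * z))
        (-Complex.sin (Real.pi * θ) * (Real.pi * 1)) (θ : ℂ) :=
      ((hasDerivAt_id (θ : ℂ)).const_mul (Real.pi : ℂ)).ccos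
    rw [hd.deriv]
    have hs := s1_sin_pos h0 h1
    have hpi : (Real.pi : ℂ) ≠ 0 := by exact_mod_cast Real.pi_ne_zero
    have hs' : Complex.sin (Real.pi * θ) ≠ 0 := by
      have : Complex.sin (Real.pi * θ) = ((Real.sin (Real.pi * θ) : ℝ) : ℂ) := by push_cast; rfl
      rw [this]
      exact_mod_cast hs.ne'
    simp only [mul_one]
    exact mul_ne_zero (neg_ne_zero.mpr hs') hpi
  · rw [s1_q_of_ne θ hz]
    exact div_ne_zero (s1_den_ne h0 h1 hz0 hz1 hz) (sub_ne_zero.mpr hz)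

/-- `(H z - H θ) k(z)` -/
def s1_G (θ : ℝ) (H : ℂ → ℂ) (z : ℂ) : ℂ :=
  (Real.sin (Real.pi * θ) : ℂ) * dslope H θ z / (2 * s1_q θ z)

lemma s1_G_of_ne {θ : ℝ} (H : ℂ → ℂ) {z : ℂ} (hz : z ≠ θ) :
    s1_G θ H z = (H z - H θ) * ((Real.sin (Real.pi * θ) : ℂ) /
      (2 * (Complex.cos (Real.pi * z) - Complex.cos (Real.pi * θ)))) := by
  unfold s1_G
  rw [s1_q_of_ne θ hz, dslope_of_ne _ hz, slope_def_field]
  have : z - θ ≠ 0 := sub_ne_zero.mpr hz
  field_simp

theorem poisson_formula (θ : ℝ) (h0 : 0 < θ) (h1 : θ < 1) (H : ℂ → ℂ)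
    (hc : ContinuousOn H {z : ℂ | 0 ≤ z.re ∧ z.re ≤ 1})
    (hd : DifferentiableOn ℂ H {z : ℂ | 0 < z.re ∧ z.re < 1})
    (C : ℝ) (hb : ∀ z : ℂ, 0 ≤ z.re → z.re ≤ 1 → ‖H z‖ ≤ C * (1 + |z.im|) ^ 4) :
    H θ = (∫ τ : ℝ, (P0 θ τ : ℂ) * H (I * τ)) + ∫ τ : ℝ, (P1 θ τ : ℂ) * H (1 + I * τ) := by
  obtain ⟨c0, c1, p0, p1, _, _, _⟩ := P_facts θ h0 h1
  have hopen : IsOpen {z : ℂ | 0 < z.re ∧ z.re < 1} :=
    (isOpen_lt continuous_const Complex.continuous_re).inter
      (isOpen_lt Complex.continuous_re continuous_const)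
  have hda : ∀ z : ℂ, 0 < z.re → z.re < 1 → DifferentiableAt ℂ H z := fun z hz0 hz1 =>
    hd.differentiableAt (hopen.mem_nhds ⟨hz0, hz1⟩)
  have hC : 0 ≤ C := by
    have := hb θ (by simpa using h0.le) (by simpa using h1.le)
    have h2 := (norm_nonneg _).trans this
    simpa using h2
  have hHθ : ‖H θ‖ ≤ C := by
    have := hb θ (by simpa using h0.le) (by simpa using h1.le)
    simpa using this
  -- continuity of G on the strip
  have hstrip : {z : ℂ | 0 ≤ z.re ∧ z.re ≤ 1} ∈ 𝓝 (θ : ℂ) :=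
    mem_of_superset (hopen.mem_nhds ⟨by simpa using h0, by simpa using h1⟩)
      fun z hz => ⟨hz.1.le, hz.2.le⟩
  have hGc : ContinuousOn (s1_G θ H) {z : ℂ | 0 ≤ z.re ∧ z.re ≤ 1} := by
    unfold s1_G
    refine ContinuousOn.div ?_ ?_ ?_
    · refine continuousOn_const.mul ?_
      exact (continuousOn_dslope hstrip).mpr ⟨hc, hda θ (by simpa using h0) (by simpa using h1)⟩
    · exact continuousOn_const.mul (s1_q_cont θ).continuousOn
    · intro z hz
      exact mul_ne_zero two_ne_zero (s1_q_ne h0 h1 hz.1 hz.2)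
  have hGd : ∀ z : ℂ, 0 < z.re → z.re < 1 → z ≠ θ → DifferentiableAt ℂ (s1_G θ H) z := by
    intro z hz0 hz1 hz
    unfold s1_G
    refine DifferentiableAt.div ?_ ?_ ?_
    · exact (differentiableAt_const _).mul
        ((differentiableAt_dslope_of_ne hz).mpr (hda z hz0 hz1))
    · exact (differentiableAt_const _).mul
        ((differentiableAt_dslope_of_ne hz).mpr (s1_cos_diff z))
    · exact mul_ne_zero two_ne_zero (s1_q_ne h0 h1 hz0.le hz1.le)
  -- values of G on the vertical lines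
  have hθ0 : ∀ τ : ℝ, (I * τ : ℂ) ≠ θ := by
    intro τ h
    have := congrArg Complex.re h
    simp at this
    linarith
  have hθ1 : ∀ τ : ℝ, (1 + I * τ : ℂ) ≠ θ := by
    intro τ h
    have := congrArg Complex.re h
    simp at this
    linarith
  have hcosθ : Complex.cos (Real.pi * θ) = ((Real.cos (Real.pi * θ) : ℝ) : ℂ) := by
    push_cast; rfl
  have hG0 : ∀ τ : ℝ, s1_G θ H (I * τ) = (P0 θ τ : ℂ) * H (I * τ) - (P0 θ τ : ℂ) * H θ := by
    intro τ
    rw [s1_G_of_ne H (hθ0 τ), s1_cos_I, hcosθ]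
    unfold P0
    push_cast
    ring
  have hG1 : ∀ τ : ℝ, s1_G θ H (1 + I * τ) =
      -((P1 θ τ : ℂ) * H (1 + I * τ) - (P1 θ τ : ℂ) * H θ) := by
    intro τ
    rw [s1_G_of_ne H (hθ1 τ), s1_cos_one_I, hcosθ]
    unfold P1
    have hne : ((Real.cosh (Real.pi * τ) : ℝ) : ℂ) + ((Real.cos (Real.pi * θ) : ℝ) : ℂ) ≠ 0 := by
      exact_mod_cast (s1_den1_pos h0 h1 τ).ne'
    have e1 : (2 : ℂ) * (-((Real.cosh (Real.pi * τ) : ℝ) : ℂ) - ((Real.cos (Real.pi * θ) : ℝ) : ℂ)) =
        -(2 * (((Real.cosh (Real.pi * τ) : ℝ) : ℂ) + ((Real.cos (Real.pi * θ) : ℝ) : ℂ))) := by ring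
    rw [e1, div_neg]
    rw [Complex.ofReal_div, Complex.ofReal_mul, Complex.ofReal_add, Complex.ofReal_ofNat]
    ring
  -- integrability
  have hline0 : Continuous (fun τ : ℝ => H (I * τ)) := by
    refine hc.comp_continuous (by fun_prop) fun τ => ?_
    simp
  have hline1 : Continuous (fun τ : ℝ => H (1 + I * τ)) := by
    refine hc.comp_continuous (by fun_prop) fun τ => ?_
    simp
  have hi0 : Integrable (fun τ : ℝ => (P0 θ τ : ℂ) * H (I * τ)) := by
    refine Integrable.mono' ((P_int θ h0 h1 4).1.const_mul C) ?_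
      (Eventually.of_forall fun τ => ?_)
    · exact ((Complex.continuous_ofReal.comp c0).mul hline0).aestronglyMeasurable
    · rw [norm_mul, Complex.norm_real, Real.norm_of_nonneg (p0 τ).le]
      have h3 := hb (I * τ) (by simp) (by simp)
      have h4 : |(I * τ : ℂ).im| = |τ| := by simp
      rw [h4] at h3
      have := mul_le_mul_of_nonneg_left h3 (p0 τ).le
      linarith
  have hi1 : Integrable (fun τ : ℝ => (P1 θ τ : ℂ) * H (1 + I * τ)) := by
    refine Integrable.mono' ((P_int θ h0 h1 4).2.const_mul C) ?_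
      (Eventually.of_forall fun τ => ?_)
    · exact ((Complex.continuous_ofReal.comp c1).mul hline1).aestronglyMeasurable
    · rw [norm_mul, Complex.norm_real, Real.norm_of_nonneg (p1 τ).le]
      have h3 := hb (1 + I * τ) (by simp) (by simp)
      have h4 : |(1 + I * τ : ℂ).im| = |τ| := by simp
      rw [h4] at h3
      have := mul_le_mul_of_nonneg_left h3 (p1 τ).le
      linarith
  have hj0 : Integrable (fun τ : ℝ => (P0 θ τ : ℂ) * H θ) := by
    have h3 : Integrable (P0 θ) := by simpa using (P_int θ h0 h1 0).1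
    exact h3.ofReal.mul_const _
  have hj1 : Integrable (fun τ : ℝ => (P1 θ τ : ℂ) * H θ) := by
    have h3 : Integrable (P1 θ) := by simpa using (P_int θ h0 h1 0).2
    exact h3.ofReal.mul_const _
  have hgi0 : Integrable (fun τ : ℝ => s1_G θ H (I * τ)) := by
    simp_rw [hG0]
    exact hi0.sub hj0
  have hgi1 : Integrable (fun τ : ℝ => s1_G θ H (1 + I * τ)) := by
    simp_rw [hG1]
    exact (hi1.sub hj1).neg
  -- Cauchy on the rectangle
  have hcauchy : ∀ R : ℝ, 0 < R →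
      (∫ x : ℝ in (0:ℝ)..1, s1_G θ H (x + (-R : ℝ) * I)) -
      (∫ x : ℝ in (0:ℝ)..1, s1_G θ H (x + (R : ℝ) * I)) +
      I * (∫ y : ℝ in (-R)..R, s1_G θ H (1 + I * y)) -
      I * (∫ y : ℝ in (-R)..R, s1_G θ H (I * y)) = 0 := by
    intro R hR
    have h2 := Complex.integral_boundary_rect_eq_zero_of_differentiable_on_off_countable
      (s1_G θ H) (⟨0, -R⟩ : ℂ) (⟨1, R⟩ : ℂ) {(θ : ℂ)} (Set.countable_singleton _) ?_ ?_
    · simp only [smul_eq_mul, Complex.ofReal_one, Complex.ofReal_zero, zero_add] at h2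
      have e0 : ∀ y : ℝ, (y * I : ℂ) = I * y := fun y => by ring
      simp only [e0] at h2
      have e2 : ∀ y x : ℝ, (x + I * y : ℂ) = x + y * I := fun y x => by ring
      simp only [e2] at h2
      exact h2
    · refine hGc.mono ?_
      rintro z hz
      rw [Complex.mem_reProdIm] at hz
      have := hz.1
      rw [Set.uIcc_of_le zero_le_one] at this
      exact this
    · rintro z ⟨hz, hzθ⟩
      rw [Complex.mem_reProdIm] at hz
      have := hz.1
      simp only [min_eq_left zero_le_one, max_eq_right zero_le_one] at this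
      exact hGd z this.1 this.2 hzθ
  -- horizontal sides
  have hhor : ∀ R : ℝ, 1 ≤ R → ∀ s : ℝ, |s| = R → ∀ x : ℝ, 0 ≤ x → x ≤ 1 →
      ‖s1_G θ H (x + s * I)‖ ≤ (2 * C * (1 + R) ^ 4) / (2 * (Real.sinh (Real.pi * R) - 1)) := by
    intro R hR s hs x hx0 hx1
    have hs0 : s ≠ 0 := by
      intro h; rw [h, abs_zero] at hs; linarith
    have hz : (x + s * I : ℂ) ≠ θ := by
      intro h
      have := congrArg Complex.im h
      simp at this
      exact hs0 this
    have hre : (x + s * I : ℂ).re = x := by simp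
    have him : (x + s * I : ℂ).im = s := by simp
    have hH := hb (x + s * I) (by rw [hre]; exact hx0) (by rw [hre]; exact hx1)
    rw [him, hs] at hH
    rw [s1_G_of_ne H hz, norm_mul, norm_div]
    have hsinh : 1 < Real.sinh (Real.pi * R) := by
      have h3 : Real.pi * R < Real.sinh (Real.pi * R) :=
        Real.self_lt_sinh_iff.mpr (by positivity)
      nlinarith [Real.pi_gt_three]
    have hden : Real.sinh (Real.pi * R) - 1 ≤
        ‖Complex.cos (Real.pi * (x + s * I)) - Complex.cos (Real.pi * θ)‖ := by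
      have h3 := norm_sub_norm_le (Complex.cos (Real.pi * (x + s * I))) (Complex.cos (Real.pi * θ))
      have h4 := s1_norm_cos (Real.pi * (x + s * I))
      have h5 : |(Real.pi * (x + s * I) : ℂ).im| = Real.pi * R := by
        have : (Real.pi * (x + s * I) : ℂ).im = Real.pi * s := by simp
        rw [this, abs_mul, abs_of_pos Real.pi_pos, hs]
      rw [h5] at h4
      have h6 : ‖Complex.cos (Real.pi * θ)‖ ≤ 1 := by
        rw [hcosθ, Complex.norm_real]
        exact Real.abs_cos_le_one _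
      linarith
    have h7 : ‖H (x + s * I) - H θ‖ ≤ 2 * C * (1 + R) ^ 4 := by
      have h8 : (1 : ℝ) ≤ (1 + R) ^ 4 := one_le_pow₀ (by linarith)
      have h9 := norm_sub_le (H (x + s * I)) (H θ)
      nlinarith
    have h8 : ‖(Real.sin (Real.pi * θ) : ℂ)‖ ≤ 1 := by
      rw [Complex.norm_real]; exact Real.abs_sin_le_one _
    rw [norm_mul, show ‖(2 : ℂ)‖ = 2 by simp]
    have h9 : ‖(Real.sin (Real.pi * θ) : ℂ)‖ /
        (2 * ‖Complex.cos (Real.pi * (x + s * I)) - Complex.cos (Real.pi * θ)‖) ≤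
        1 / (2 * (Real.sinh (Real.pi * R) - 1)) := by
      refine div_le_div₀ (by norm_num) h8 (by linarith) (by linarith)
    calc _ ≤ (2 * C * (1 + R) ^ 4) * (1 / (2 * (Real.sinh (Real.pi * R) - 1))) :=
          mul_le_mul h7 h9 (by positivity) (by positivity)
      _ = _ := by ring
  have hlim : Tendsto (fun R : ℝ => (2 * C * (1 + R) ^ 4) / (2 * (Real.sinh (Real.pi * R) - 1)))
      atTop (𝓝 0) := by
    have t1 : Tendsto (fun R : ℝ => 4 * C * Real.exp 1 * ((1 + R) ^ 4 * Real.exp (-(1 + R))))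
        atTop (𝓝 (4 * C * Real.exp 1 * 0)) :=
      ((Real.tendsto_pow_mul_exp_neg_atTop_nhds_zero 4).comp
        (tendsto_atTop_add_const_left _ (1 : ℝ) tendsto_id)).const_mul _
    rw [mul_zero] at t1
    refine squeeze_zero' ?_ ?_ t1
    · filter_upwards [eventually_ge_atTop (1 : ℝ)] with R hR
      have hsinh : 1 < Real.sinh (Real.pi * R) := by
        have h3 : Real.pi * R < Real.sinh (Real.pi * R) :=
          Real.self_lt_sinh_iff.mpr (by positivity)
        nlinarith [Real.pi_gt_three]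
      have : 0 < 2 * (Real.sinh (Real.pi * R) - 1) := by linarith
      positivity
    · filter_upwards [eventually_ge_atTop (1 : ℝ)] with R hR
      have hpR : 3 ≤ Real.pi * R := by nlinarith [Real.pi_gt_three]
      have e1 : (1 : ℝ) + 3 + 3 ^ 2 / 2 ≤ Real.exp 3 := Real.quadratic_le_exp_of_nonneg (by norm_num)
      have e2 : Real.exp 3 ≤ Real.exp (Real.pi * R) := Real.exp_le_exp.mpr hpR
      have e3 : Real.exp (-(Real.pi * R)) ≤ 1 := Real.exp_le_one_iff.mpr (by linarith)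
      have e4 : Real.exp (Real.pi * R) / 4 ≤ Real.sinh (Real.pi * R) - 1 := by
        rw [Real.sinh_eq]; linarith
      have e5 : Real.exp R ≤ Real.exp (Real.pi * R) :=
        Real.exp_le_exp.mpr (by nlinarith [Real.pi_gt_three])
      have e6 : Real.exp R / 2 ≤ 2 * (Real.sinh (Real.pi * R) - 1) := by linarith
      have hpow : 0 ≤ 2 * C * (1 + R) ^ 4 := by positivity
      calc (2 * C * (1 + R) ^ 4) / (2 * (Real.sinh (Real.pi * R) - 1)) ≤
          (2 * C * (1 + R) ^ 4) / (Real.exp R / 2) :=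
            div_le_div_of_nonneg_left hpow (by positivity) e6
        _ = 4 * C * Real.exp 1 * ((1 + R) ^ 4 * Real.exp (-(1 + R))) := by
            rw [Real.exp_neg, Real.exp_add]
            field_simp
            ring
  have hhorlim : ∀ s : ℝ → ℝ, (∀ R, 0 < R → |s R| = R) →
      Tendsto (fun R : ℝ => ∫ x : ℝ in (0:ℝ)..1, s1_G θ H (x + s R * I)) atTop (𝓝 0) := by
    intro s hs
    refine squeeze_zero_norm' ?_ hlim
    filter_upwards [eventually_ge_atTop (1 : ℝ)] with R hR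
    have h2 := intervalIntegral.norm_integral_le_of_norm_le_const (a := 0) (b := 1)
      (f := fun x : ℝ => s1_G θ H (x + s R * I))
      (C := (2 * C * (1 + R) ^ 4) / (2 * (Real.sinh (Real.pi * R) - 1))) ?_
    · simpa using h2
    · intro x hx
      rw [Set.uIoc_of_le zero_le_one] at hx
      exact hhor R hR (s R) (hs R (by linarith)) x hx.1.le hx.2
  have l1 := hhorlim (fun R => -R) (fun R hR => by rw [abs_neg, abs_of_pos hR])
  have l2 := hhorlim (fun R => R) (fun R hR => abs_of_pos hR)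
  have l3 := intervalIntegral_tendsto_integral hgi1 tendsto_neg_atTop_atBot tendsto_id
  have l4 := intervalIntegral_tendsto_integral hgi0 tendsto_neg_atTop_atBot tendsto_id
  have l5 := ((l1.sub l2).add (l3.const_mul I)).sub (l4.const_mul I)
  have l6 : Tendsto (fun R : ℝ =>
      (∫ x : ℝ in (0:ℝ)..1, s1_G θ H (x + (-R : ℝ) * I)) -
      (∫ x : ℝ in (0:ℝ)..1, s1_G θ H (x + (R : ℝ) * I)) +
      I * (∫ y : ℝ in (-R)..R, s1_G θ H (1 + I * y)) -
      I * (∫ y : ℝ in (-R)..R, s1_G θ H (I * y))) atTop (𝓝 0) := by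
    refine tendsto_const_nhds.congr' ?_
    filter_upwards [eventually_gt_atTop (0 : ℝ)] with R hR
    exact (hcauchy R hR).symm
  have h10 := tendsto_nhds_unique l5 l6
  simp_rw [hG0, hG1] at h10
  rw [integral_neg, integral_sub hi1 hj1, integral_sub hi0 hj0] at h10
  rw [integral_mul_const, integral_mul_const, integral_complex_ofReal, integral_complex_ofReal,
    (P_mass θ h0 h1).1, (P_mass θ h0 h1).2] at h10
  have h11 : I * (H θ - ((∫ τ : ℝ, (P0 θ τ : ℂ) * H (I * τ)) +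
      ∫ τ : ℝ, (P1 θ τ : ℂ) * H (1 + I * τ))) = 0 := by
    rw [← h10]
    push_cast
    ring
  have h12 := (mul_eq_zero.mp h11).resolve_left I_ne_zero
  exact sub_eq_zero.mp h12

end Helper85.BP.P
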