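import Pool.Agent.Helper22.FoldEdge

set_option autoImplicit false

open Set
open scoped ENNReal

namespace Pool.Agent.Helper22.Fold

variable {P : Set E2} {L : ℝ} {γ : ℝ → E2}

theorem eVariationOn_lineMap_le (z w : E2) :
    eVariationOn (fun t : ℝ => (AffineMap.lineMap z w t : E2)) (Icc 0 1) ≤ edist z w := by
  have hl : LipschitzOnWith (nndist z w) (fun t : ℝ => (AffineMap.lineMap z w t : E2)) univ := by
    apply LipschitzOnWith.of_dist_le_mul
    intro x _ y _
    rw [dist_lineMap_lineMap, coe_nndist, mul_comm]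
  have h1 : eVariationOn ((fun t : ℝ => (AffineMap.lineMap z w t : E2)) ∘ (id : ℝ → ℝ)) (Icc 0 1) ≤
      (nndist z w) * eVariationOn (id : ℝ → ℝ) (Icc 0 1) :=
    hl.comp_eVariationOn_le (mapsTo_univ _ _)
  have h2 : eVariationOn (id : ℝ → ℝ) (Icc 0 1) ≤ ENNReal.ofReal (1 - 0) := by
    have := (monotone_id.monotoneOn (Icc (0:ℝ) 1)).eVariationOn_eq (a := 0) (b := 1)
      (by simp) (by simp)
    simp at this
    simp
  calc eVariationOn (fun t : ℝ => (AffineMap.lineMap z w t : E2)) (Icc 0 1)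
      ≤ (nndist z w) * eVariationOn (id : ℝ → ℝ) (Icc 0 1) := h1
    _ ≤ (nndist z w) * ENNReal.ofReal (1 - 0) := by gcongr
    _ = edist z w := by rw [sub_zero, ENNReal.ofReal_one, mul_one, edist_nndist]

/-- An arc of the boundary that contains the segment between its end points is not longer
than that segment. -/
theorem arc_length_le (h : IsBoundaryParam P L γ) {α β : ℝ} (hαβ : α < β) (hL : β - α < L)
    (hsub : segment ℝ (γ α) (γ β) ⊆ γ '' Icc α β) : β - α ≤ dist (γ α) (γ β) := by
  have hinj : InjOn γ (Icc α β) := by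
    intro a ha b hb hab
    obtain ⟨n, hn⟩ := h.inj hab
    have hLpos := h.pos
    have h1 : |a - b| < L := by
      rw [abs_lt]; constructor <;> linarith [ha.1, ha.2, hb.1, hb.2]
    have h2 : |(n : ℝ)| * L < 1 * L := by
      rw [← abs_of_pos hLpos, ← abs_mul, ← hn, abs_of_pos hLpos, one_mul]; exact h1
    have h3 : |(n : ℝ)| < 1 := lt_of_mul_lt_mul_right h2 hLpos.le
    have h4 : n = 0 := by
      have : |n| < 1 := by exact_mod_cast h3
      exact Int.abs_lt_one_iff.1 this
    rw [h4] at hn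
    push_cast at hn
    linarith
  have hne : γ α ≠ γ β := fun hh => hαβ.ne (hinj ⟨le_rfl, hαβ.le⟩ ⟨hαβ.le, le_rfl⟩ hh)
  -- the restriction of `γ` to the arc is an embedding
  let γK : Icc α β → E2 := fun t => γ t
  have hγKc : Continuous γK := h.continuous.comp continuous_subtype_val
  have hγKi : Function.Injective γK := by
    intro a b hab
    exact Subtype.ext (hinj a.2 b.2 hab)
  have hemb := hγKc.isClosedEmbedding hγKi
  let e := hemb.toIsEmbedding.toHomeomorph
  have hline : ∀ t : Icc (0:ℝ) 1, (AffineMap.lineMap (γ α) (γ β) (t : ℝ) : E2) ∈ range γK := by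
    intro t
    have h1 : (AffineMap.lineMap (γ α) (γ β) (t : ℝ) : E2) ∈ segment ℝ (γ α) (γ β) := by
      rw [segment_eq_image_lineMap]
      exact mem_image_of_mem _ t.2
    obtain ⟨u, hu, hue⟩ := hsub h1
    exact ⟨⟨u, hu⟩, hue⟩
  let H : ℝ → ℝ := fun t =>
    (e.symm ⟨AffineMap.lineMap (γ α) (γ β) ((projIcc (0:ℝ) 1 zero_le_one t : Icc (0:ℝ) 1) : ℝ),
      hline _⟩ : Icc α β)
  have hHc : Continuous H := by
    apply continuous_subtype_val.comp
    apply e.symm.continuous.comp
    apply Continuous.subtype_mk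
    have h1 : Continuous (fun t : ℝ => ((projIcc (0:ℝ) 1 zero_le_one t : Icc (0:ℝ) 1) : ℝ)) :=
      continuous_subtype_val.comp continuous_projIcc
    have h2 : Continuous (fun t : ℝ => (AffineMap.lineMap (γ α) (γ β) t : E2)) := by fun_prop
    exact h2.comp h1
  have hHγ : ∀ t ∈ Icc (0:ℝ) 1, γ (H t) = AffineMap.lineMap (γ α) (γ β) t := by
    intro t ht
    have h1 : γK (e.symm ⟨AffineMap.lineMap (γ α) (γ β)
        ((projIcc (0:ℝ) 1 zero_le_one t : Icc (0:ℝ) 1) : ℝ), hline _⟩) =
        AffineMap.lineMap (γ α) (γ β) ((projIcc (0:ℝ) 1 zero_le_one t : Icc (0:ℝ) 1) : ℝ) := by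
      have := e.apply_symm_apply ⟨AffineMap.lineMap (γ α) (γ β)
        ((projIcc (0:ℝ) 1 zero_le_one t : Icc (0:ℝ) 1) : ℝ), hline _⟩
      exact congrArg Subtype.val this
    rw [projIcc_of_mem zero_le_one ht] at h1
    show γK _ = _
    convert h1 using 5
    rw [projIcc_of_mem zero_le_one ht]
  have hHmem : ∀ t, H t ∈ Icc α β := fun t => Subtype.coe_prop _
  have hH0 : H 0 = α := by
    apply hinj (hHmem 0) ⟨le_rfl, hαβ.le⟩
    rw [hHγ 0 (by simp)]; simp
  have hH1 : H 1 = β := by
    apply hinj (hHmem 1) ⟨hαβ.le, le_rfl⟩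
    rw [hHγ 1 (by simp)]; simp
  have hHinj : InjOn H (Icc 0 1) := by
    intro a ha b hb hab
    have h1 := hHγ a ha
    rw [hab, hHγ b hb] at h1
    exact (AffineMap.lineMap_injective ℝ hne h1).symm
  have hmono : StrictMonoOn H (Icc 0 1) :=
    ContinuousOn.strictMonoOn_of_injOn_Icc zero_le_one (by rw [hH0, hH1]; exact hαβ.le)
      hHc.continuousOn hHinj
  have himg : H '' Icc 0 1 = Icc α β := by
    apply Subset.antisymm
    · rintro _ ⟨t, -, rfl⟩; exact hHmem t
    · have := intermediate_value_Icc (zero_le_one (α := ℝ)) hHc.continuousOn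
      rw [hH0, hH1] at this
      exact this
  have hvar : eVariationOn γ (Icc α β) ≤ edist (γ α) (γ β) := by
    rw [← himg, ← eVariationOn.comp_eq_of_monotoneOn γ H hmono.monotoneOn]
    have : EqOn (γ ∘ H) (fun t : ℝ => (AffineMap.lineMap (γ α) (γ β) t : E2)) (Icc 0 1) :=
      fun t ht => hHγ t ht
    rw [eVariationOn.congr this]
    exact eVariationOn_lineMap_le _ _
  have hu := h.unitSpeed (mem_univ α) (mem_univ β)
  rw [univ_inter] at hu
  rw [hu, edist_dist, ENNReal.ofReal_le_ofReal_iff dist_nonneg] at hvar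
  simpa using hvar

theorem arc_dichotomy (h : IsBoundaryParam P L γ) {σ t : ℝ} (ht : 0 < t) (htL : t < L)
    (hsub : segment ℝ (γ σ) (γ (σ + t)) ⊆ frontier P) :
    t ≤ dist (γ σ) (γ (σ + t)) ∨ L - t ≤ dist (γ σ) (γ (σ + t)) := by
  have hper : γ (σ + L) = γ σ := h.periodic σ
  have hne : γ σ ≠ γ (σ + t) := by
    intro hh
    obtain ⟨n, hn⟩ := h.inj hh
    have h1 : (-(n:ℝ)) * L = t := by linarith
    have h2 : 0 < -(n:ℝ) := by
      by_contra hcon
      push Not at hcon
      have := mul_nonpos_of_nonpos_of_nonneg hcon h.pos.le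
      linarith
    have h3 : -(n:ℝ) < 1 := by
      by_contra hcon
      push Not at hcon
      have := mul_le_mul_of_nonneg_right hcon h.pos.le
      linarith
    have h4 : (0:ℤ) < -n := by exact_mod_cast h2
    have h5 : -n < (1:ℤ) := by exact_mod_cast h3
    omega
  have hopen : openSegment ℝ (γ σ) (γ (σ + t)) ⊆ segment ℝ (γ σ) (γ (σ + t)) :=
    openSegment_subset_segment ℝ _ _
  have hI : IsClosed (γ '' Icc σ (σ + t)) := (isCompact_Icc.image h.continuous).isClosed
  have hJ : IsClosed (γ '' Icc (σ + t) (σ + L)) := (isCompact_Icc.image h.continuous).isClosed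
  have hcov : openSegment ℝ (γ σ) (γ (σ + t)) ⊆ γ '' Icc σ (σ + t) ∪ γ '' Icc (σ + t) (σ + L) := by
    intro p hp
    obtain ⟨u, rfl⟩ := h.exists_eq (hsub (hopen hp))
    obtain ⟨n, hn, -⟩ := existsUnique_add_zsmul_mem_Ico h.pos u σ
    simp only [zsmul_eq_mul] at hn
    rw [← h.per_int u n]
    rcases le_total (u + n * L) (σ + t) with h1 | h1
    · exact Or.inl ⟨_, ⟨hn.1, h1⟩, rfl⟩
    · exact Or.inr ⟨_, ⟨h1, hn.2.le⟩, rfl⟩
  have hdis : openSegment ℝ (γ σ) (γ (σ + t)) ∩
      (γ '' Icc σ (σ + t) ∩ γ '' Icc (σ + t) (σ + L)) = ∅ := by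
    rw [eq_empty_iff_forall_notMem]
    rintro p ⟨hp, ⟨u, hu, hup⟩, ⟨v, hv, hvp⟩⟩
    -- `u` and `v` are congruent modulo `L`, so `p` is an end point
    have hpne0 : p ≠ γ σ := by
      rintro rfl
      exact hne (left_mem_openSegment_iff.1 hp)
    have hpne1 : p ≠ γ (σ + t) := by
      rintro rfl
      exact hne (right_mem_openSegment_iff.1 hp)
    obtain ⟨n, hn⟩ := h.inj (hup.trans hvp.symm)
    have hLpos := h.pos
    have h1 : v - u = (-(n:ℝ)) * L := by linarith
    have h2 : 0 ≤ v - u := by linarith [hu.2, hv.1]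
    have h3 : v - u ≤ L := by linarith [hu.1, hv.2]
    have h4 : 0 ≤ -(n:ℝ) := by
      by_contra hcon
      push Not at hcon
      have := mul_neg_of_neg_of_pos hcon hLpos
      linarith
    have h5 : -(n:ℝ) ≤ 1 := by
      by_contra hcon
      push Not at hcon
      have := mul_lt_mul_of_pos_right hcon hLpos
      linarith
    have h6 : (0:ℤ) ≤ -n := by exact_mod_cast h4
    have h7 : -n ≤ (1:ℤ) := by exact_mod_cast h5
    have h8 : n = 0 ∨ n = -1 := by omega
    rcases h8 with h8 | h8
    · rw [h8] at h1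
      simp only [Int.cast_zero, neg_zero, zero_mul] at h1
      have : u = σ + t := by linarith [hu.2, hv.1]
      rw [this] at hup
      exact hpne1 hup.symm
    · rw [h8] at h1
      simp only [Int.cast_neg, Int.cast_one, neg_neg, one_mul] at h1
      have : u = σ := by linarith [hu.1, hv.2]
      rw [this] at hup
      exact hpne0 hup.symm
  have hconn : IsPreconnected (openSegment ℝ (γ σ) (γ (σ + t))) :=
    (convex_openSegment _ _).isPreconnected
  have hseg : segment ℝ (γ σ) (γ (σ + t)) ⊆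
      insert (γ σ) (insert (γ (σ + t)) (openSegment ℝ (γ σ) (γ (σ + t)))) := by
    rw [insert_endpoints_openSegment]
  rcases isPreconnected_iff_subset_of_disjoint_closed.1 hconn _ _ hI hJ hcov hdis with h1 | h1
  · left
    have := arc_length_le h (α := σ) (β := σ + t) (by linarith) (by linarith) (by
      intro p hp
      rcases hseg hp with rfl | rfl | hp'
      · exact ⟨σ, ⟨le_rfl, by linarith⟩, rfl⟩
      · exact ⟨σ + t, ⟨by linarith, le_rfl⟩, rfl⟩
      · exact h1 hp')
    linarith
  · right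
    have := arc_length_le h (α := σ + t) (β := σ + L) (by linarith) (by linarith) (by
      intro p hp
      rw [hper, segment_symm] at hp
      rcases hseg hp with rfl | rfl | hp'
      · exact ⟨σ + L, ⟨by linarith, le_rfl⟩, hper⟩
      · exact ⟨σ + t, ⟨le_rfl, by linarith⟩, rfl⟩
      · exact h1 hp')
    rw [hper, dist_comm] at this
    linarith

/-- If the length of an arc equals the distance of its end points, it is a segment. -/
theorem straight_of_le (h : IsBoundaryParam P L γ) {α β : ℝ} (hαβ : α < β)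
    (hle : β - α ≤ dist (γ α) (γ β)) {u : ℝ} (hu : u ∈ Icc α β) :
    γ u = AffineMap.lineMap (γ α) (γ β) ((u - α) / (β - α)) := by
  have h1 := h.lip α u
  have h2 := h.lip u β
  have h3 := h.lip α β
  rw [abs_sub_comm, abs_of_nonneg (by linarith [hu.1])] at h1
  rw [abs_sub_comm, abs_of_nonneg (by linarith [hu.2])] at h2
  rw [abs_sub_comm, abs_of_nonneg (by linarith)] at h3
  have h4 := dist_triangle (γ α) (γ u) (γ β)
  have e1 : dist (γ α) (γ u) = u - α := by linarith
  have e2 : dist (γ u) (γ β) = β - u := by linarith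
  have e3 : dist (γ α) (γ β) = β - α := by linarith
  have hw : Wbtw ℝ (γ α) (γ u) (γ β) := by
    rw [← dist_add_dist_eq_iff]; linarith
  obtain ⟨c, hc, hce⟩ := hw
  have h5 : dist (γ α) (γ u) = c * dist (γ α) (γ β) := by
    rw [← hce, dist_left_lineMap, Real.norm_of_nonneg hc.1]
  have hpos : 0 < β - α := by linarith
  have h6 : c = (u - α) / (β - α) := by
    rw [e1, e3] at h5
    field_simp
    linarith
  rw [← h6, hce]

end Pool.Agent.Helper22.Fold
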