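import Pool.Agent.Helper22.FoldDefs

set_option autoImplicit false

open Set
open scoped ENNReal

namespace Pool.Agent.Helper22.Fold

variable {P : Set E2} {L : ℝ} {γ : ℝ → E2}

namespace IsBoundaryParam

theorem lip (h : IsBoundaryParam P L γ) (a b : ℝ) : dist (γ a) (γ b) ≤ |a - b| := by
  wlog hab : a ≤ b generalizing a b
  · rw [dist_comm, abs_sub_comm]; exact this b a (le_of_not_ge hab)
  have h1 := h.unitSpeed (mem_univ a) (mem_univ b)
  have h2 : edist (γ a) (γ b) ≤ eVariationOn γ (univ ∩ Icc a b) :=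
    eVariationOn.edist_le γ ⟨mem_univ _, le_rfl, hab⟩ ⟨mem_univ _, hab, le_rfl⟩
  rw [h1, edist_dist] at h2
  have h3 : dist (γ a) (γ b) ≤ ((1 : NNReal) : ℝ) * (b - a) :=
    (ENNReal.ofReal_le_ofReal_iff (by simpa using hab)).1 h2
  rw [abs_sub_comm, abs_of_nonneg (sub_nonneg.2 hab)]
  simpa using h3

theorem continuous (h : IsBoundaryParam P L γ) : Continuous γ := by
  have : LipschitzWith 1 γ := LipschitzWith.of_dist_le_mul (fun a b => by
    simpa [Real.dist_eq] using h.lip a b)
  exact this.continuous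

theorem per_int (h : IsBoundaryParam P L γ) (t : ℝ) (n : ℤ) : γ (t + n * L) = γ t :=
  h.periodic.int_mul n t

theorem inj (h : IsBoundaryParam P L γ) {a b : ℝ} (hab : γ a = γ b) : ∃ n : ℤ, a - b = n * L := by
  obtain ⟨m, hm, -⟩ := existsUnique_add_zsmul_mem_Ico h.pos a 0
  obtain ⟨k, hk, -⟩ := existsUnique_add_zsmul_mem_Ico h.pos b 0
  simp only [zero_add, zsmul_eq_mul] at hm hk
  have h1 : γ (a + m * L) = γ (b + k * L) := by rw [h.per_int, h.per_int, hab]
  have h2 := h.injOn hm hk h1
  refine ⟨k - m, ?_⟩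
  push_cast
  linarith

theorem mem_frontier (h : IsBoundaryParam P L γ) (t : ℝ) : γ t ∈ frontier P :=
  h.range_eq ▸ mem_range_self t

theorem exists_eq (h : IsBoundaryParam P L γ) {z : E2} (hz : z ∈ frontier P) : ∃ t, γ t = z := by
  rw [← h.range_eq] at hz
  exact hz

/-- Reparametrization in the opposite direction. -/
theorem neg (h : IsBoundaryParam P L γ) : IsBoundaryParam P L (fun t => γ (-t)) where
  pos := h.pos
  unitSpeed := by
    intro x _ y _
    rw [univ_inter]
    have h1 : eVariationOn (γ ∘ Neg.neg) (Icc x y) = eVariationOn γ (Neg.neg '' Icc x y) :=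
      eVariationOn.comp_eq_of_antitoneOn γ Neg.neg (fun a _ b _ hab => neg_le_neg hab)
    have h2 : (fun t => γ (-t)) = γ ∘ Neg.neg := rfl
    rw [h2, h1]
    have h3 : (Neg.neg '' Icc x y : Set ℝ) = Icc (-y) (-x) := by simp
    rw [h3]
    have h4 := h.unitSpeed (mem_univ (-y)) (mem_univ (-x))
    rw [univ_inter] at h4
    rw [h4]
    congr 1
    ring
  periodic := by
    intro t
    show γ (-(t + L)) = γ (-t)
    have := h.periodic (-(t + L))
    rw [← this]
    congr 1
    ring
  injOn := by
    intro a ha b hb hab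
    obtain ⟨n, hn⟩ := h.inj hab
    have h1 : |b - a| < L := by
      rw [abs_lt]
      constructor <;> linarith [ha.1, ha.2, hb.1, hb.2]
    have h2 : |(n : ℝ)| * L < 1 * L := by
      rw [← abs_of_pos h.pos, ← abs_mul, ← hn, abs_of_pos h.pos, one_mul]
      simpa [neg_add_eq_sub] using h1
    have h3 : |(n : ℝ)| < 1 := lt_of_mul_lt_mul_right h2 h.pos.le
    have h4 : n = 0 := by
      have : |n| < 1 := by exact_mod_cast h3
      exact Int.abs_lt_one_iff.1 this
    rw [h4] at hn
    push_cast at hn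
    linarith
  range_eq := by
    rw [← h.range_eq]
    ext z
    constructor
    · rintro ⟨t, rfl⟩; exact ⟨-t, rfl⟩
    · rintro ⟨t, rfl⟩; exact ⟨-t, by simp⟩

end IsBoundaryParam

theorem IsConvexPolygon.convex (hP : IsConvexPolygon P) : Convex ℝ P := by
  obtain ⟨⟨V, -, rfl⟩, -⟩ := hP
  exact convex_convexHull ℝ V

theorem IsConvexPolygon.isCompact (hP : IsConvexPolygon P) : IsCompact P := by
  obtain ⟨⟨V, hV, rfl⟩, -⟩ := hP
  exact hV.isCompact_convexHull (𝕜 := ℝ)

theorem IsConvexPolygon.isClosed (hP : IsConvexPolygon P) : IsClosed P := hP.isCompact.isClosed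

theorem IsConvexPolygon.frontier_subset (hP : IsConvexPolygon P) : frontier P ⊆ P :=
  hP.isClosed.frontier_subset

theorem mem_of_param (hP : IsConvexPolygon P) (h : IsBoundaryParam P L γ) (t : ℝ) : γ t ∈ P :=
  hP.frontier_subset (h.mem_frontier t)

/-! ### Chains and the glued distance -/

theorem Chain.nonneg {s : ℝ} {p q : E2} {l : ℝ} (h : Chain P L γ s p q l) : 0 ≤ l := by
  induction h with
  | move p q hp hq => exact dist_nonneg
  | jump d h0 h1 => exact le_rfl
  | trans h1 h2 ih1 ih2 => exact add_nonneg ih1 ih2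

theorem Chain.symm {s : ℝ} {p q : E2} {l : ℝ} (h : Chain P L γ s p q l) : Chain P L γ s q p l := by
  induction h with
  | move p q hp hq => rw [dist_comm]; exact Chain.move q p hq hp
  | jump d h0 h1 =>
    have := Chain.jump (P := P) (L := L) (γ := γ) (s := s) (-d) (neg_ne_zero.2 h0) (by rwa [abs_neg])
    simpa [sub_eq_add_neg] using this
  | @trans p q r a b h1 h2 ih1 ih2 => rw [add_comm]; exact Chain.trans ih2 ih1

theorem Chain.le_of_calib {s : ℝ} (f : E2 → ℝ)
    (hf : ∀ p ∈ P, ∀ q ∈ P, f p - f q ≤ dist p q) (hg : ∀ t, f (γ (s + t)) = f (γ (s - t)))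
    {p q : E2} {l : ℝ} (h : Chain P L γ s p q l) : f p - f q ≤ l := by
  induction h with
  | move p q hp hq => exact hf p hp q hq
  | jump d h0 h1 => rw [hg]; simp
  | trans h1 h2 ih1 ih2 => linarith

variable {s : ℝ}

theorem glueDist_nonneg (p q : E2) : 0 ≤ glueDist P L γ s p q :=
  Real.sInf_nonneg (fun _ h => Chain.nonneg h)

theorem glueDist_le_of_chain {p q : E2} {l : ℝ} (h : Chain P L γ s p q l) :
    glueDist P L γ s p q ≤ l :=
  csInf_le ⟨0, fun _ h => Chain.nonneg h⟩ h

theorem glueDist_le {p q : E2} (hp : p ∈ P) (hq : q ∈ P) : glueDist P L γ s p q ≤ dist p q :=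
  glueDist_le_of_chain (Chain.move p q hp hq)

theorem glueDist_self {p : E2} (hp : p ∈ P) : glueDist P L γ s p p = 0 :=
  le_antisymm (by simpa using glueDist_le (L := L) (γ := γ) (s := s) hp hp) (glueDist_nonneg p p)

theorem glueDist_comm (p q : E2) : glueDist P L γ s p q = glueDist P L γ s q p := by
  unfold glueDist
  congr 1
  ext l
  exact ⟨Chain.symm, Chain.symm⟩

theorem chain_nonempty {p q : E2} (hp : p ∈ P) (hq : q ∈ P) : {l | Chain P L γ s p q l}.Nonempty :=
  ⟨_, Chain.move p q hp hq⟩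

theorem exists_chain_lt {p q : E2} (hp : p ∈ P) (hq : q ∈ P) {c : ℝ}
    (h : glueDist P L γ s p q < c) : ∃ l, l < c ∧ Chain P L γ s p q l := by
  obtain ⟨l, hl, hlc⟩ := exists_lt_of_csInf_lt (chain_nonempty hp hq) h
  exact ⟨l, hlc, hl⟩

theorem glueDist_triangle {p q r : E2} (hp : p ∈ P) (hq : q ∈ P) (hr : r ∈ P) :
    glueDist P L γ s p r ≤ glueDist P L γ s p q + glueDist P L γ s q r := by
  refine le_of_forall_pos_le_add fun ε hε => ?_
  obtain ⟨a, ha, hca⟩ := exists_chain_lt (L := L) (γ := γ) (s := s) hp hq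
    (show glueDist P L γ s p q < glueDist P L γ s p q + ε / 2 by linarith)
  obtain ⟨b, hb, hcb⟩ := exists_chain_lt (L := L) (γ := γ) (s := s) hq hr
    (show glueDist P L γ s q r < glueDist P L γ s q r + ε / 2 by linarith)
  have := glueDist_le_of_chain (Chain.trans hca hcb)
  linarith

/-- Lower bounds by calibration. -/
theorem le_glueDist_of_calib (f : E2 → ℝ)
    (hf : ∀ p ∈ P, ∀ q ∈ P, f p - f q ≤ dist p q) (hg : ∀ t, f (γ (s + t)) = f (γ (s - t)))
    {p q : E2} (hp : p ∈ P) (hq : q ∈ P) : f p - f q ≤ glueDist P L γ s p q :=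
  le_csInf (chain_nonempty hp hq) (fun _ h => Chain.le_of_calib f hf hg h)

theorem glueDist_jump (hP : IsConvexPolygon P) (h : IsBoundaryParam P L γ) (t : ℝ) :
    glueDist P L γ s (γ (s + t)) (γ (s - t)) = 0 := by
  -- reduce `t` modulo `L` to `[-L/2, L/2)`
  obtain ⟨n, hn, -⟩ := existsUnique_add_zsmul_mem_Ico h.pos t (-(L / 2))
  simp only [zsmul_eq_mul] at hn
  set d := t + n * L with hd
  have e1 : γ (s + t) = γ (s + d) := by
    rw [hd, ← add_assoc, h.per_int]
  have e2 : γ (s - t) = γ (s - d) := by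
    rw [hd]
    have := h.per_int (s - (t + n * L)) n
    rw [← this]
    congr 1
    ring
  rw [e1, e2]
  have hL := h.pos
  rcases eq_or_ne d 0 with h0 | h0
  · rw [h0]; simpa using glueDist_self (L := L) (γ := γ) (s := s) (mem_of_param hP h s)
  rcases lt_or_ge (|d|) (L / 2) with h1 | h1
  · exact le_antisymm (glueDist_le_of_chain (Chain.jump d h0 h1)) (glueDist_nonneg _ _)
  · -- `d = - L / 2`
    have h2 : d = -(L / 2) := by
      rcases le_abs.1 h1 with h3 | h3
      · have := hn.2
        linarith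
      · have := hn.1
        linarith
    have e3 : γ (s + d) = γ (s - d) := by
      rw [← h.periodic (s + d)]
      congr 1
      rw [h2]; ring
    rw [e3]
    exact glueDist_self (mem_of_param hP h _)

theorem glueDist_left_le {p p' q : E2} (hp : p ∈ P) (hp' : p' ∈ P) (hq : q ∈ P) :
    glueDist P L γ s p q ≤ glueDist P L γ s p' q + dist p p' := by
  have h1 := glueDist_triangle (L := L) (γ := γ) (s := s) hp hp' hq
  have h2 := glueDist_le (L := L) (γ := γ) (s := s) hp hp'
  linarith

theorem abs_glueDist_sub_le {p p' q : E2} (hp : p ∈ P) (hp' : p' ∈ P) (hq : q ∈ P) :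
    |glueDist P L γ s p q - glueDist P L γ s p' q| ≤ dist p p' := by
  rw [abs_le]
  have h1 := glueDist_left_le (L := L) (γ := γ) (s := s) hp hp' hq
  have h2 := glueDist_left_le (L := L) (γ := γ) (s := s) hp' hp hq
  rw [dist_comm p' p] at h2
  constructor <;> linarith

theorem continuousOn_glueDist {q : E2} (hq : q ∈ P) :
    ContinuousOn (fun p => glueDist P L γ s p q) P := by
  have : LipschitzOnWith 1 (fun p => glueDist P L γ s p q) P :=
    LipschitzOnWith.of_dist_le_mul (fun x hx y hy => by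
      simpa [Real.dist_eq] using abs_glueDist_sub_le (L := L) (γ := γ) (s := s) hx hy hq)
  exact this.continuousOn

/-- If `p` and `p'` are at glued distance zero they have the same distances to all points. -/
theorem glueDist_congr_left {p p' q : E2} (hp : p ∈ P) (hp' : p' ∈ P) (hq : q ∈ P)
    (h0 : glueDist P L γ s p p' = 0) : glueDist P L γ s p q = glueDist P L γ s p' q := by
  apply le_antisymm
  · have := glueDist_triangle (L := L) (γ := γ) (s := s) hp hp' hq
    linarith
  · have := glueDist_triangle (L := L) (γ := γ) (s := s) hp' hp hq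
    rw [glueDist_comm p' p] at this
    linarith

theorem glueDist_congr_right {p q q' : E2} (hp : p ∈ P) (hq : q ∈ P) (hq' : q' ∈ P)
    (h0 : glueDist P L γ s q q' = 0) : glueDist P L γ s p q = glueDist P L γ s p q' := by
  rw [glueDist_comm p q, glueDist_comm p q']
  exact glueDist_congr_left hq hq' hp h0

/-- Splitting a chain at a prescribed distance from `z`. -/
theorem Chain.exists_split (hc : Convex ℝ P) (hP : IsConvexPolygon P)
    (hγ : IsBoundaryParam P L γ) {z : E2} (hz : z ∈ P)
    {p q : E2} {l : ℝ} (h : Chain P L γ s p q l) (hp : p ∈ P) (hq : q ∈ P) {ρ : ℝ}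
    (h1 : glueDist P L γ s q z ≤ ρ) (h2 : ρ ≤ glueDist P L γ s p z) :
    ∃ x ∈ P, glueDist P L γ s x z = ρ ∧ ∃ a b, Chain P L γ s p x a ∧ Chain P L γ s x q b ∧
      a + b ≤ l := by
  induction h with
  | move p q hp' hq' =>
    -- intermediate value theorem on the segment
    have hcont : ContinuousOn (fun t : ℝ => glueDist P L γ s (AffineMap.lineMap p q t) z)
        (Icc 0 1) := by
      refine (continuousOn_glueDist hz).comp (by fun_prop) ?_
      intro t ht
      exact hc.lineMap_mem hp hq ht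
    have hiv := intermediate_value_Icc' (zero_le_one (α := ℝ)) hcont
    have : ρ ∈ Icc (glueDist P L γ s (AffineMap.lineMap p q (1 : ℝ)) z)
        (glueDist P L γ s (AffineMap.lineMap p q (0 : ℝ)) z) := by
      simpa using ⟨h1, h2⟩
    obtain ⟨t, ht, hte⟩ := hiv this
    have hx : AffineMap.lineMap p q t ∈ P := hc.lineMap_mem hp hq ht
    refine ⟨AffineMap.lineMap p q t, hx, hte, _, _, Chain.move _ _ hp hx, Chain.move _ _ hx hq, ?_⟩
    rw [dist_left_lineMap, dist_lineMap_right, Real.norm_of_nonneg ht.1,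
      Real.norm_of_nonneg (by linarith [ht.2])]
    linarith
  | jump d h0 hd =>
    have e := glueDist_jump (s := s) hP hγ d
    have e2 := glueDist_congr_left hp hq hz e
    have e3 : glueDist P L γ s (γ (s + d)) z = ρ := by linarith
    refine ⟨γ (s + d), hp, e3, 0, 0, ?_, Chain.jump d h0 hd, by simp⟩
    simpa using Chain.move (L := L) (γ := γ) (s := s) _ _ hp hp
  | @trans p m q a b hc1 hc2 ih1 ih2 =>
    have hm : m ∈ P := by
      -- the end of a chain starting in `P` lies in `P`
      clear ih1 ih2 h1 h2 hc2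
      have key : ∀ {x y : E2} {c : ℝ}, Chain P L γ s x y c → y ∈ P := by
        intro x y c hh
        induction hh with
        | move p q hp hq => exact hq
        | jump d h0 h1 => exact mem_of_param hP hγ _
        | trans h1 h2 ih1 ih2 => exact ih2
      exact key hc1
    rcases le_total ρ (glueDist P L γ s m z) with hm' | hm'
    · obtain ⟨x, hx, hxe, a', b', ca, cb, hab⟩ := ih2 hm hq h1 hm'
      exact ⟨x, hx, hxe, a + a', b', Chain.trans hc1 ca, cb, by linarith⟩
    · obtain ⟨x, hx, hxe, a', b', ca, cb, hab⟩ := ih1 hp hm hm' h2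
      exact ⟨x, hx, hxe, a', b' + b, ca, Chain.trans cb hc2, by linarith⟩

/-- Existence of intermediate points (the glued surface is a geodesic space). -/
theorem exists_between (hP : IsConvexPolygon P) (hγ : IsBoundaryParam P L γ)
    {a z : E2} (ha : a ∈ P) (hz : z ∈ P) {ρ : ℝ} (h0 : 0 ≤ ρ)
    (h1 : ρ ≤ glueDist P L γ s a z) :
    ∃ x ∈ P, glueDist P L γ s x z = ρ ∧
      glueDist P L γ s a x ≤ glueDist P L γ s a z - ρ := by
  set r := glueDist P L γ s a z with hr
  -- approximate points
  have happrox : ∀ n : ℕ, ∃ x ∈ P, glueDist P L γ s x z = ρ ∧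
      glueDist P L γ s a x ≤ r - ρ + 1 / ((n : ℝ) + 1) := by
    intro n
    have hpos : (0 : ℝ) < 1 / ((n : ℝ) + 1) := by positivity
    obtain ⟨l, hl, hch⟩ := exists_chain_lt (L := L) (γ := γ) (s := s) ha hz
      (show glueDist P L γ s a z < r + 1 / ((n : ℝ) + 1) by linarith)
    obtain ⟨x, hx, hxe, c, d, hc1, hc2, hcd⟩ := Chain.exists_split hP.convex hP hγ hz hch ha hz
      (by rw [glueDist_self hz]; exact h0) h1
    refine ⟨x, hx, hxe, ?_⟩
    have h2 := glueDist_le_of_chain hc1
    have h3 := glueDist_le_of_chain hc2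
    rw [hxe] at h3
    linarith
  choose x hx hxe hxa using happrox
  obtain ⟨y, hy, φ, hφ, hlim⟩ := hP.isCompact.tendsto_subseq hx
  refine ⟨y, hy, ?_, ?_⟩
  · have hc := (continuousOn_glueDist (L := L) (γ := γ) (s := s) hz) y hy
    have ht : Filter.Tendsto (fun n => glueDist P L γ s (x (φ n)) z) Filter.atTop
        (nhds (glueDist P L γ s y z)) := by
      apply hc.tendsto.comp
      rw [tendsto_nhdsWithin_iff]
      exact ⟨hlim, Filter.Eventually.of_forall (fun n => hx (φ n))⟩
    simp only [hxe] at ht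
    exact (tendsto_nhds_unique ht tendsto_const_nhds)
  · have hc := (continuousOn_glueDist (L := L) (γ := γ) (s := s) ha) y hy
    have ht : Filter.Tendsto (fun n => glueDist P L γ s (x (φ n)) a) Filter.atTop
        (nhds (glueDist P L γ s y a)) := by
      apply hc.tendsto.comp
      rw [tendsto_nhdsWithin_iff]
      exact ⟨hlim, Filter.Eventually.of_forall (fun n => hx (φ n))⟩
    rw [glueDist_comm a y]
    have ht2 : Filter.Tendsto (fun n => r - ρ + 1 / (((φ n : ℕ) : ℝ) + 1)) Filter.atTop
        (nhds (r - ρ + 0)) := by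
      apply Filter.Tendsto.const_add
      exact (tendsto_one_div_add_atTop_nhds_zero_nat (𝕜 := ℝ)).comp hφ.tendsto_atTop
    rw [add_zero] at ht2
    refine le_of_tendsto_of_tendsto' ht ht2 (fun n => ?_)
    rw [glueDist_comm]
    exact hxa (φ n)

end Pool.Agent.Helper22.Fold
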