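import Pool.Agent.Helper22.FoldRigid

set_option autoImplicit false

open Set Filter
open scoped ENNReal Topology

namespace Pool.Agent.Helper22.Fold

variable {P : Set E2} {L : ℝ} {γ : ℝ → E2}

theorem Chain.shift (h : IsBoundaryParam P L γ) {s : ℝ} (n : ℤ) {p q : E2} {l : ℝ}
    (hc : Chain P L γ s p q l) : Chain P L γ (s + n * L) p q l := by
  induction hc with
  | move p q hp hq => exact Chain.move p q hp hq
  | jump d h0 h1 =>
    have := Chain.jump (P := P) (L := L) (γ := γ) (s := s + n * L) d h0 h1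
    have e1 : γ (s + n * L + d) = γ (s + d) := by
      rw [← h.per_int (s + d) n]; congr 1; ring
    have e2 : γ (s + n * L - d) = γ (s - d) := by
      rw [← h.per_int (s - d) n]; congr 1; ring
    rwa [e1, e2] at this
  | trans h1 h2 ih1 ih2 => exact Chain.trans ih1 ih2

theorem glueDist_shift (h : IsBoundaryParam P L γ) (s : ℝ) (n : ℤ) (p q : E2) :
    glueDist P L γ (s + n * L) p q = glueDist P L γ s p q := by
  unfold glueDist
  congr 1
  ext l
  constructor
  · intro hl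
    have := Chain.shift h (-n) hl
    have e : s + (n:ℝ) * L + ((-n : ℤ) : ℝ) * L = s := by push_cast; ring
    rwa [e] at this
  · exact Chain.shift h n

theorem gluedIsometricTo_shift (h : IsBoundaryParam P L γ) {β : Type} {B : Set β}
    {D : β → β → ℝ≥0∞} {s : ℝ} (n : ℤ) (hs : GluedIsometricTo P L γ s B D) :
    GluedIsometricTo P L γ (s + n * L) B D := by
  obtain ⟨f, h1, h2⟩ := hs
  exact ⟨f, h1, fun p hp q hq => by rw [glueDist_shift h]; exact h2 p hp q hq⟩

/-- Only finitely many parameters are mapped into a finite set. -/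
theorem finite_param (h : IsBoundaryParam P L γ) {a b : ℝ} (ha : a ≠ 0) {F : Set E2}
    (hF : F.Finite) : {s | s ∈ Icc 0 L ∧ γ (a * s + b) ∈ F}.Finite := by
  have hL := h.pos
  have h1 : {s | s ∈ Icc 0 L ∧ γ (a * s + b) ∈ F} ⊆
      ⋃ v ∈ F, {s | s ∈ Icc 0 L ∧ γ (a * s + b) = v} := by
    intro s hs
    exact mem_biUnion hs.2 ⟨hs.1, rfl⟩
  refine (hF.biUnion fun v _ => ?_).subset h1
  rcases Set.eq_empty_or_nonempty {s | s ∈ Icc 0 L ∧ γ (a * s + b) = v} with he | ⟨s₁, hs₁, he₁⟩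
  · rw [he]; exact finite_empty
  obtain ⟨N, hN⟩ := exists_nat_gt |a|
  have h2 : {s | s ∈ Icc 0 L ∧ γ (a * s + b) = v} ⊆
      (fun n : ℤ => s₁ + n * L / a) '' Icc (-(N : ℤ)) N := by
    rintro s ⟨hs, hse⟩
    obtain ⟨n, hn⟩ := h.inj (hse.trans he₁.symm)
    have hn' : a * (s - s₁) = n * L := by linarith
    refine ⟨n, ?_, ?_⟩
    · have h3 : |(n:ℝ)| * L ≤ |a| * L := by
        rw [← abs_of_pos hL, ← abs_mul, ← hn', abs_mul, abs_of_pos hL]
        apply mul_le_mul_of_nonneg_left _ (abs_nonneg a)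
        rw [abs_le]
        constructor <;> linarith [hs.1, hs.2, hs₁.1, hs₁.2]
      have h4 : |(n:ℝ)| ≤ |a| := le_of_mul_le_mul_right h3 hL
      have h5 : |(n:ℝ)| ≤ N := h4.trans hN.le
      have h6 : |n| ≤ (N:ℤ) := by exact_mod_cast h5
      exact abs_le.1 h6
    · show s₁ + n * L / a = s
      rw [← hn', mul_div_cancel_left₀ _ ha]
      ring
  exact ((finite_Icc _ _).image _).subset h2

/-- A point at glued distance zero from a boundary point is that point or its partner. -/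
theorem eq_or_eq_of_glueDist_eq_zero (hP : IsConvexPolygon P) (h : IsBoundaryParam P L γ)
    {s σ : ℝ} {p : E2} (hp : p ∈ P) (h0 : glueDist P L γ s p (γ σ) = 0) :
    p = γ σ ∨ p = γ (2 * s - σ) := by
  obtain ⟨R1, hR1⟩ := exists_chordal hP h σ
  obtain ⟨R2, hR2⟩ := exists_chordal hP h (2 * s - σ)
  have hpos : 0 < min R1 R2 := lt_min hR1.1 hR2.1
  have := le_glueDist_boundary hP h (hR1.mono hpos (min_le_left _ _))
    (hR2.mono hpos (min_le_right _ _)) hp
  rw [h0] at this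
  rcases min_le_iff.1 this with h1 | h1
  · linarith
  · rcases min_le_iff.1 h1 with h2 | h2
    · left; exact dist_le_zero.1 h2
    · right; exact dist_le_zero.1 h2

/-- Genericity of a gluing. -/
def Generic (P : Set E2) (L : ℝ) (γ : ℝ → E2) (s : ℝ) : Prop :=
  γ s ∉ P.extremePoints ℝ ∧ γ (s + L / 2) ∉ P.extremePoints ℝ ∧
    ∀ σ, γ σ ∈ P.extremePoints ℝ → γ (2 * s - σ) ∉ P.extremePoints ℝ

/-- Labels of the marked points: the two folding points and the extreme points. -/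
abbrev Lab (P : Set E2) := Bool ⊕ (P.extremePoints ℝ)

/-- Position of the marked points. -/
noncomputable def lab (P : Set E2) (L : ℝ) (γ : ℝ → E2) (s : ℝ) : Lab P → E2
  | Sum.inl b => if b then γ (s + L / 2) else γ s
  | Sum.inr v => v

theorem lab_mem (hP : IsConvexPolygon P) (h : IsBoundaryParam P L γ) (s : ℝ) (x : Lab P) :
    lab P L γ s x ∈ P := by
  rcases x with b | v
  · cases b
    · exact mem_of_param hP h _
    · exact mem_of_param hP h _
  · exact v.2.1

theorem extreme_mem_frontier (hP : IsConvexPolygon P) {v : E2} (hv : v ∈ P.extremePoints ℝ) :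
    v ∈ frontier P := by
  rw [hP.isClosed.frontier_eq]
  refine ⟨hv.1, fun hvi => ?_⟩
  obtain ⟨δ, hδ, hball⟩ := Metric.isOpen_iff.1 isOpen_interior v hvi
  set e : E2 := EuclideanSpace.single 0 1 with he
  have hen : ‖e‖ = 1 := by rw [he]; simp
  have m1 : v + (δ / 2) • e ∈ P := by
    apply interior_subset; apply hball
    rw [Metric.mem_ball, dist_eq_norm, add_sub_cancel_left, norm_smul, hen, mul_one,
      Real.norm_of_nonneg (by positivity)]
    linarith
  have m2 : v - (δ / 2) • e ∈ P := by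
    apply interior_subset; apply hball
    rw [Metric.mem_ball, dist_eq_norm, sub_sub_cancel_left, norm_neg, norm_smul, hen,
      mul_one, Real.norm_of_nonneg (by positivity)]
    linarith
  rw [mem_extremePoints] at hv
  have hop : v ∈ openSegment ℝ (v + (δ / 2) • e) (v - (δ / 2) • e) := by
    refine ⟨1 / 2, 1 / 2, by norm_num, by norm_num, by norm_num, ?_⟩
    module
  have := (hv.2 _ m1 _ m2 hop).1
  have h0 : (δ / 2) • e = 0 := by simpa using this
  have h3 : ‖(δ / 2) • e‖ = δ / 2 := by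
    rw [norm_smul, hen, mul_one, Real.norm_of_nonneg (by positivity)]
  rw [h0, norm_zero] at h3
  linarith

theorem exists_param_of_extreme (hP : IsConvexPolygon P) (h : IsBoundaryParam P L γ) {v : E2}
    (hv : v ∈ P.extremePoints ℝ) : ∃ σ, γ σ = v :=
  h.exists_eq (extreme_mem_frontier hP hv)

theorem not_mid_lab (hP : IsConvexPolygon P) (h : IsBoundaryParam P L γ) {s : ℝ}
    (hs : Generic P L γ s) (x : Lab P) : ¬ Mid P L γ s (lab P L γ s x) := by
  rcases x with b | v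
  · cases b
    · show ¬ Mid P L γ s (γ s)
      exact not_mid_of_fold (n := 0) hP h (by push_cast; ring)
    · show ¬ Mid P L γ s (γ (s + L / 2))
      exact not_mid_of_fold (n := -1) hP h (by push_cast; ring)
  · obtain ⟨σ, hσ⟩ := exists_param_of_extreme hP h v.2
    show ¬ Mid P L γ s (v : E2)
    rw [← hσ]
    exact not_mid_of_extreme hP h (hσ ▸ v.2) (hs.2.2 σ (hσ ▸ v.2))

theorem exists_lab_of_not_mid (hP : IsConvexPolygon P) (h : IsBoundaryParam P L γ) {s : ℝ}
    {p : E2} (hp : p ∈ P) (hm : ¬ Mid P L γ s p) :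
    ∃ x : Lab P, glueDist P L γ s p (lab P L γ s x) = 0 := by
  by_cases hpi : p ∈ interior P
  · exact absurd (mid_of_interior h hpi) hm
  have hpf : p ∈ frontier P := by
    rw [hP.isClosed.frontier_eq]; exact ⟨hp, hpi⟩
  obtain ⟨σ, rfl⟩ := h.exists_eq hpf
  by_cases h1 : γ σ ∈ P.extremePoints ℝ
  · exact ⟨Sum.inr ⟨γ σ, h1⟩, glueDist_self hp⟩
  by_cases h2 : γ (2 * s - σ) ∈ P.extremePoints ℝ
  · exact ⟨Sum.inr ⟨γ (2 * s - σ), h2⟩, glueDist_partner hP h s σ⟩
  by_cases h3 : γ σ = γ (2 * s - σ)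
  · obtain ⟨n, hn⟩ := h.inj h3
    rcases Int.even_or_odd' n with ⟨m, hm' | hm'⟩
    · refine ⟨Sum.inl false, ?_⟩
      have e : γ σ = γ s := by
        have : σ = s + m * L := by rw [hm'] at hn; push_cast at hn; linarith
        rw [this, h.per_int]
      show glueDist P L γ s (γ σ) (γ s) = 0
      rw [e]; exact glueDist_self (mem_of_param hP h s)
    · refine ⟨Sum.inl true, ?_⟩
      have e : γ σ = γ (s + L / 2) := by
        have : σ = s + L / 2 + m * L := by rw [hm'] at hn; push_cast at hn; linarith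
        rw [this, h.per_int]
      show glueDist P L γ s (γ σ) (γ (s + L / 2)) = 0
      rw [e]; exact glueDist_self (mem_of_param hP h _)
  · exact absurd (mid_of_regular hP h h1 h2 h3) hm

section transfer

variable {β : Type} {B : Set β} {D : β → β → ℝ≥0∞}

theorem transfer {s s' : ℝ} {f f' : E2 → β}
    (hf : ∀ p ∈ P, ∀ q ∈ P, D (f p) (f q) = ENNReal.ofReal (glueDist P L γ s p q))
    (hf' : ∀ p ∈ P, ∀ q ∈ P, D (f' p) (f' q) = ENNReal.ofReal (glueDist P L γ s' p q))
    {p q p' q' : E2} (hp : p ∈ P) (hq : q ∈ P) (hp' : p' ∈ P) (hq' : q' ∈ P)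
    (e1 : f' p' = f p) (e2 : f' q' = f q) :
    glueDist P L γ s' p' q' = glueDist P L γ s p q := by
  have h1 := hf' p' hp' q' hq'
  rw [e1, e2, hf p hp q hq] at h1
  exact ((ENNReal.ofReal_eq_ofReal_iff (glueDist_nonneg _ _) (glueDist_nonneg _ _)).1 h1).symm

theorem exists_lift {f f' : E2 → β} (hf : f '' P = B) (hf' : f' '' P = B) {p : E2}
    (hp : p ∈ P) : ∃ p' ∈ P, f' p' = f p := by
  have : f p ∈ f' '' P := by rw [hf', ← hf]; exact mem_image_of_mem f hp
  obtain ⟨p', hp', e⟩ := this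
  exact ⟨p', hp', e⟩

end transfer

/-- The core result: for each target space only finitely many gluings are isometric to it. -/
theorem core (hP : IsConvexPolygon P) (h : IsBoundaryParam P L γ) {β : Type} (B : Set β)
    (D : β → β → ℝ≥0∞) : {x : E2 | ∃ s, γ s = x ∧ GluedIsometricTo P L γ s B D}.Finite := by
  classical
  have hL := h.pos
  by_contra hinf
  -- parameters in `[0, L)`
  set T : Set ℝ := {s | s ∈ Ico 0 L ∧ GluedIsometricTo P L γ s B D} with hT
  have hTinf : T.Infinite := by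
    intro hfin
    apply hinf
    refine (hfin.image γ).subset ?_
    rintro x ⟨s, rfl, hs⟩
    obtain ⟨n, hn, -⟩ := existsUnique_add_zsmul_mem_Ico hL s 0
    simp only [zsmul_eq_mul, zero_add] at hn
    exact ⟨s + n * L, ⟨hn, gluedIsometricTo_shift h n hs⟩, h.per_int s n⟩
  -- generic parameters
  have hext := extremePoints_finite hP
  set T1 : Set ℝ := {s | s ∈ T ∧ Generic P L γ s} with hT1
  have hT1inf : T1.Infinite := by
    choose! σ hσ using fun v (hv : v ∈ P.extremePoints ℝ) => exists_param_of_extreme hP h hv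
    have hbad : ({s | s ∈ Icc 0 L ∧ γ (1 * s + 0) ∈ P.extremePoints ℝ} ∪
        {s | s ∈ Icc 0 L ∧ γ (1 * s + L / 2) ∈ P.extremePoints ℝ} ∪
        ⋃ v ∈ P.extremePoints ℝ, {s | s ∈ Icc 0 L ∧ γ (2 * s + (-σ v)) ∈ P.extremePoints ℝ}).Finite :=
      ((finite_param h one_ne_zero hext).union (finite_param h one_ne_zero hext)).union
        (hext.biUnion fun v _ => finite_param h two_ne_zero hext)
    refine (hTinf.sdiff hbad).mono ?_
    rintro s ⟨hs, hsb⟩
    simp only [mem_union, not_or, mem_iUnion, not_exists] at hsb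
    obtain ⟨⟨hb1, hb2⟩, hb3⟩ := hsb
    have hsI : s ∈ Icc 0 L := ⟨hs.1.1, hs.1.2.le⟩
    refine ⟨hs, fun hh => hb1 ⟨hsI, by simpa using hh⟩, fun hh => hb2 ⟨hsI, by simpa using hh⟩,
      fun τ hτ hh => ?_⟩
    apply hb3 (γ τ) hτ
    refine ⟨hsI, ?_⟩
    obtain ⟨n, hn⟩ := h.inj (hσ (γ τ) hτ)
    have : 2 * s + -σ (γ τ) = 2 * s - τ + ((-n : ℤ) : ℝ) * L := by push_cast; linarith
    rw [this, h.per_int]
    exact hh
  -- the maps onto `B`
  obtain ⟨s₁, hs₁⟩ := hT1inf.nonempty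
  have hβ : Nonempty β := ⟨hs₁.1.2.choose 0⟩
  choose! F hFim hFD using fun s (hs : s ∈ T1) => hs.1.2
  have hlift : ∀ s ∈ T1, ∀ p, ∃ p', p ∈ P → p' ∈ P ∧ F s₁ p' = F s p := by
    intro s hs p
    by_cases hp : p ∈ P
    · obtain ⟨p', hp', e⟩ := exists_lift (hFim s hs) (hFim s₁ hs₁) hp
      exact ⟨p', fun _ => ⟨hp', e⟩⟩
    · exact ⟨p, fun hp' => absurd hp' hp⟩
  choose! ψ hψ using hlift
  have hψP : ∀ s ∈ T1, ∀ p ∈ P, ψ s p ∈ P := fun s hs p hp => (hψ s hs p hp).1
  have hψF : ∀ s ∈ T1, ∀ p ∈ P, F s₁ (ψ s p) = F s p := fun s hs p hp => (hψ s hs p hp).2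
  have hψd : ∀ s ∈ T1, ∀ p ∈ P, ∀ q ∈ P,
      glueDist P L γ s₁ (ψ s p) (ψ s q) = glueDist P L γ s p q := fun s hs p hp q hq =>
    transfer (hFD s hs) (hFD s₁ hs₁) hp hq (hψP s hs p hp) (hψP s hs q hq) (hψF s hs p hp)
      (hψF s hs q hq)
  -- midpoints are transported
  have hmid : ∀ s ∈ T1, ∀ p ∈ P, ¬ Mid P L γ s p → ¬ Mid P L γ s₁ (ψ s p) := by
    intro s hs p hp hm hm1
    apply hm
    obtain ⟨a, ha, b, hb, r, hr, e1, e2, e3⟩ := hm1
    obtain ⟨a', ha', ea⟩ := exists_lift (hFim s₁ hs₁) (hFim s hs) ha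
    obtain ⟨b', hb', eb⟩ := exists_lift (hFim s₁ hs₁) (hFim s hs) hb
    refine ⟨a', ha', b', hb', r, hr, ?_, ?_, ?_⟩
    · rw [← e1]
      exact transfer (hFD s₁ hs₁) (hFD s hs) ha (hψP s hs p hp) ha' hp ea (hψF s hs p hp).symm
    · rw [← e2]
      exact transfer (hFD s₁ hs₁) (hFD s hs) (hψP s hs p hp) hb hp hb' (hψF s hs p hp).symm eb
    · rw [← e3]
      exact transfer (hFD s₁ hs₁) (hFD s hs) ha hb ha' hb' ea eb
  -- labels
  have hlab : ∀ s ∈ T1, ∀ x : Lab P, ∃ y : Lab P,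
      glueDist P L γ s₁ (ψ s (lab P L γ s x)) (lab P L γ s₁ y) = 0 := by
    intro s hs x
    have hm := hmid s hs _ (lab_mem hP h s x) (not_mid_lab hP h hs.2 x)
    exact exists_lab_of_not_mid hP h (hψP s hs _ (lab_mem hP h s x)) hm
  choose! π hπ using hlab
  have : Finite (P.extremePoints ℝ) := hext
  -- an infinite set of parameters with the same labelling
  obtain ⟨T2, hT2sub, hT2inf, hT2⟩ : ∃ T2 ⊆ T1, T2.Infinite ∧
      ∀ s ∈ T2, ∀ s' ∈ T2, π s = π s' := by
    have : Infinite T1 := hT1inf.to_subtype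
    obtain ⟨y, hy⟩ := Finite.exists_infinite_fiber (fun s : T1 => π s)
    refine ⟨Subtype.val '' ((fun s : T1 => π s) ⁻¹' {y}), ?_, ?_, ?_⟩
    · rintro _ ⟨s, -, rfl⟩; exact s.2
    · exact (Set.infinite_coe_iff.1 hy).image Subtype.val_injective.injOn
    · rintro _ ⟨s, hs, rfl⟩ _ ⟨s', hs', rfl⟩
      have e1 : π s = y := hs
      have e2 : π s' = y := hs'
      rw [e1, e2]
  have hlabeq : ∀ s ∈ T2, ∀ s' ∈ T2, ∀ x : Lab P,
      glueDist P L γ s₁ (ψ s (lab P L γ s x)) (ψ s' (lab P L γ s' x)) = 0 := by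
    intro s hs s' hs' x
    have h1 := hπ s (hT2sub hs) x
    have h2 := hπ s' (hT2sub hs') x
    rw [hT2 s hs s' hs'] at h1
    rw [glueDist_congr_left (hψP s (hT2sub hs) _ (lab_mem hP h s x)) (lab_mem hP h s₁ _)
      (hψP s' (hT2sub hs') _ (lab_mem hP h s' x)) h1, glueDist_comm]
    exact h2
  have hconst : ∀ s ∈ T2, ∀ s' ∈ T2, ∀ x y : Lab P,
      glueDist P L γ s (lab P L γ s x) (lab P L γ s y) =
        glueDist P L γ s' (lab P L γ s' x) (lab P L γ s' y) := by
    intro s hs s' hs' x y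
    rw [← hψd s (hT2sub hs) _ (lab_mem hP h s x) _ (lab_mem hP h s y),
      ← hψd s' (hT2sub hs') _ (lab_mem hP h s' x) _ (lab_mem hP h s' y)]
    rw [glueDist_congr_left (hψP s (hT2sub hs) _ (lab_mem hP h s x))
      (hψP s' (hT2sub hs') _ (lab_mem hP h s' x)) (hψP s (hT2sub hs) _ (lab_mem hP h s y))
      (hlabeq s hs s' hs' x)]
    exact glueDist_congr_right (hψP s' (hT2sub hs') _ (lab_mem hP h s' x))
      (hψP s (hT2sub hs) _ (lab_mem hP h s y)) (hψP s' (hT2sub hs') _ (lab_mem hP h s' y))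
      (hlabeq s hs s' hs' y)
  -- accumulation point
  obtain ⟨s₀, -, hacc⟩ := hT2inf.exists_accPt_of_subset_isCompact (isCompact_Icc (a := (0:ℝ)) (b := L))
    (fun s hs => ⟨(hT2sub hs).1.1.1, (hT2sub hs).1.1.2.le⟩)
  have hnear : ∀ ε > 0, (T2 ∩ {s | |s - s₀| < ε}).Infinite := by
    intro ε hε
    have h1 : (Metric.ball s₀ ε ∩ T2).Infinite := by
      rw [accPt_iff_nhds] at hacc
      intro hfin
      -- remove the finitely many points different from `s₀`
      have hfin2 : ((Metric.ball s₀ ε ∩ T2) \ {s₀}).Finite := hfin.subset sdiff_subset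
      have hopen : Metric.ball s₀ ε ∩ ((Metric.ball s₀ ε ∩ T2) \ {s₀})ᶜ ∈ 𝓝 s₀ := by
        apply inter_mem (Metric.ball_mem_nhds _ hε)
        apply hfin2.isClosed.isOpen_compl.mem_nhds
        intro hh; exact hh.2 rfl
      obtain ⟨y, ⟨⟨hy1, hy2⟩, hy3⟩, hy4⟩ := hacc _ hopen
      exact hy2 ⟨⟨hy1, hy3⟩, hy4⟩
    refine h1.mono ?_
    rintro s ⟨hs1, hs2⟩
    refine ⟨hs2, ?_⟩
    simpa [Real.dist_eq] using hs1
  -- marked distances that tend to zero vanish
  have hzero : ∀ (x y : Lab P) (C : ℝ), 0 ≤ C → (∀ s ∈ T2,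
      glueDist P L γ s (lab P L γ s x) (lab P L γ s y) ≤ C * |s - s₀|) →
      ∀ s ∈ T2, glueDist P L γ s (lab P L γ s x) (lab P L γ s y) = 0 := by
    intro x y C hC hle s hs
    apply le_antisymm _ (glueDist_nonneg _ _)
    refine le_of_forall_pos_le_add fun ε hε => ?_
    rw [zero_add]
    obtain ⟨s', hs', hs'd⟩ := (hnear (ε / (C + 1)) (by positivity)).nonempty
    rw [hconst s hs s' hs' x y]
    refine (hle s' hs').trans ?_
    have h1 : |s' - s₀| < ε / (C + 1) := hs'd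
    have h2 : C * |s' - s₀| ≤ C * (ε / (C + 1)) := by gcongr
    have h3 : C * (ε / (C + 1)) ≤ ε := by
      rw [mul_div_assoc', div_le_iff₀ (by positivity)]
      nlinarith
    linarith
  obtain ⟨t₀, ht₀⟩ := hT2inf.nonempty
  have ht₀g : Generic P L γ t₀ := (hT2sub ht₀).2
  -- genericity of the accumulation point
  have hg1 : γ s₀ ∉ P.extremePoints ℝ := by
    intro hv
    have := hzero (Sum.inr ⟨γ s₀, hv⟩) (Sum.inl false) 1 zero_le_one (by
      intro s hs
      show glueDist P L γ s (γ s₀) (γ s) ≤ 1 * |s - s₀|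
      have e1 := glueDist_le (L := L) (γ := γ) (s := s) (mem_of_param hP h s₀) (mem_of_param hP h s)
      have e2 := h.lip s₀ s
      rw [abs_sub_comm] at e2
      linarith) t₀ ht₀
    have h2 : glueDist P L γ t₀ (γ s₀) (γ t₀) = 0 := this
    rcases eq_or_eq_of_glueDist_eq_zero hP h (mem_of_param hP h s₀) h2 with h3 | h3
    · exact ht₀g.1 (h3 ▸ hv)
    · have e3 : 2 * t₀ - t₀ = t₀ := by ring
      rw [e3] at h3
      exact ht₀g.1 (h3 ▸ hv)
  have hg2 : ∀ σ, γ σ ∈ P.extremePoints ℝ → γ (2 * s₀ - σ) ∉ P.extremePoints ℝ := by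
    intro σ hv hv'
    by_cases hvv : γ σ = γ (2 * s₀ - σ)
    · obtain ⟨n, hn⟩ := h.inj hvv
      rcases Int.even_or_odd' n with ⟨m, hm | hm⟩
      · apply hg1
        have : σ = s₀ + m * L := by rw [hm] at hn; push_cast at hn; linarith
        rw [this, h.per_int] at hv
        exact hv
      · have e0 : γ σ = γ (s₀ + L / 2) := by
          have : σ = s₀ + L / 2 + m * L := by rw [hm] at hn; push_cast at hn; linarith
          rw [this, h.per_int]
        have := hzero (Sum.inr ⟨γ σ, hv⟩) (Sum.inl true) 1 zero_le_one (by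
          intro s hs
          show glueDist P L γ s (γ σ) (γ (s + L / 2)) ≤ 1 * |s - s₀|
          rw [e0]
          have e1 := glueDist_le (L := L) (γ := γ) (s := s) (mem_of_param hP h (s₀ + L / 2))
            (mem_of_param hP h (s + L / 2))
          have e2 := h.lip (s₀ + L / 2) (s + L / 2)
          have e3 : s₀ + L / 2 - (s + L / 2) = s₀ - s := by ring
          rw [e3, abs_sub_comm] at e2
          linarith) t₀ ht₀
        have h2 : glueDist P L γ t₀ (γ σ) (γ (t₀ + L / 2)) = 0 := this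
        rcases eq_or_eq_of_glueDist_eq_zero hP h (mem_of_param hP h σ) h2 with h3 | h3
        · exact ht₀g.2.1 (h3 ▸ hv)
        · have e3 : γ (2 * t₀ - (t₀ + L / 2)) = γ (t₀ + L / 2) := by
            rw [← h.periodic (2 * t₀ - (t₀ + L / 2))]; congr 1; ring
          rw [e3] at h3
          exact ht₀g.2.1 (h3 ▸ hv)
    · have := hzero (Sum.inr ⟨γ (2 * s₀ - σ), hv'⟩) (Sum.inr ⟨γ σ, hv⟩) 2 zero_le_two (by
        intro s hs
        show glueDist P L γ s (γ (2 * s₀ - σ)) (γ σ) ≤ 2 * |s - s₀|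
        have e1 := glueDist_partner hP h s σ
        rw [glueDist_congr_right (mem_of_param hP h _) (mem_of_param hP h _)
          (mem_of_param hP h _) e1]
        have e2 := glueDist_le (L := L) (γ := γ) (s := s) (mem_of_param hP h (2 * s₀ - σ))
          (mem_of_param hP h (2 * s - σ))
        have e3 := h.lip (2 * s₀ - σ) (2 * s - σ)
        have e4 : 2 * s₀ - σ - (2 * s - σ) = -(2 * (s - s₀)) := by ring
        rw [e4, abs_neg, abs_mul, abs_two] at e3
        linarith) t₀ ht₀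
      have h2 : glueDist P L γ t₀ (γ (2 * s₀ - σ)) (γ σ) = 0 := this
      rcases eq_or_eq_of_glueDist_eq_zero hP h (mem_of_param hP h _) h2 with h3 | h3
      · exact hvv h3.symm
      · exact ht₀g.2.2 σ hv (h3 ▸ hv')
  -- rigidity near the accumulation point
  obtain ⟨ε, hε, hrig⟩ := rigid hP h hg1 hg2
  obtain ⟨t, htP, htfin, htcov⟩ := hP.isCompact.finite_cover_balls (e := ε / 4) (by positivity)
  have : Finite t := htfin
  have hnet : ∀ s ∈ T2, ∀ x : t, ∃ y : t, dist (ψ s x) y < ε / 4 := by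
    intro s hs x
    have := htcov (hψP s (hT2sub hs) x (htP x.2))
    simp only [mem_iUnion] at this
    obtain ⟨y, hy, hxy⟩ := this
    exact ⟨⟨y, hy⟩, hxy⟩
  choose! ν hν using hnet
  obtain ⟨s, hs, s', hs', hne, hνeq⟩ :
      ∃ s ∈ T2 ∩ {s | |s - s₀| < ε}, ∃ s' ∈ T2 ∩ {s | |s - s₀| < ε}, s ≠ s' ∧ ν s = ν s' :=
    (hnear ε hε).exists_ne_map_eq_of_mapsTo (t := univ) (mapsTo_univ _ _) (Set.toFinite _)
  have hsT := hT2sub hs.1
  have hs'T := hT2sub hs'.1
  -- the two maps are close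
  have hclose : ∀ p ∈ P, glueDist P L γ s₁ (ψ s p) (ψ s' p) ≤ ε := by
    intro p hp
    have := htcov hp
    simp only [mem_iUnion] at this
    obtain ⟨x, hx, hpx⟩ := this
    have hxP : x ∈ P := htP hx
    have hpx' : dist p x < ε / 4 := hpx
    set y : t := ν s ⟨x, hx⟩ with hy
    have hyP : (y : E2) ∈ P := htP y.2
    have d1 : glueDist P L γ s₁ (ψ s p) (ψ s x) ≤ dist p x := by
      rw [hψd s hsT p hp x hxP]; exact glueDist_le hp hxP
    have d2 : glueDist P L γ s₁ (ψ s x) y ≤ ε / 4 :=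
      (glueDist_le (hψP s hsT x hxP) hyP).trans (hν s hs.1 ⟨x, hx⟩).le
    have d3 : glueDist P L γ s₁ y (ψ s' x) ≤ ε / 4 := by
      rw [hy, hνeq, glueDist_comm]
      exact (glueDist_le (hψP s' hs'T x hxP) (htP (ν s' ⟨x, hx⟩).2)).trans
        (hν s' hs'.1 ⟨x, hx⟩).le
    have d4 : glueDist P L γ s₁ (ψ s' x) (ψ s' p) ≤ dist p x := by
      rw [glueDist_comm, hψd s' hs'T p hp x hxP]; exact glueDist_le hp hxP
    have t1 := glueDist_triangle (L := L) (γ := γ) (s := s₁) (hψP s hsT p hp) (hψP s hsT x hxP)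
      (hψP s' hs'T p hp)
    have t2 := glueDist_triangle (L := L) (γ := γ) (s := s₁) (hψP s hsT x hxP) hyP
      (hψP s' hs'T p hp)
    have t3 := glueDist_triangle (L := L) (γ := γ) (s := s₁) hyP (hψP s' hs'T x hxP)
      (hψP s' hs'T p hp)
    linarith
  -- the comparison map
  have hφex : ∀ p, ∃ p', p ∈ P → p' ∈ P ∧ F s' p' = F s p := by
    intro p
    by_cases hp : p ∈ P
    · obtain ⟨p', hp', e⟩ := exists_lift (hFim s hsT) (hFim s' hs'T) hp
      exact ⟨p', fun _ => ⟨hp', e⟩⟩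
    · exact ⟨p, fun hp' => absurd hp' hp⟩
  choose φ hφ using hφex
  have hφP : ∀ p ∈ P, φ p ∈ P := fun p hp => (hφ p hp).1
  have hφF : ∀ p ∈ P, F s' (φ p) = F s p := fun p hp => (hφ p hp).2
  have hφd : ∀ p ∈ P, ∀ q ∈ P, glueDist P L γ s' (φ p) (φ q) = glueDist P L γ s p q :=
    fun p hp q hq => transfer (hFD s hsT) (hFD s' hs'T) hp hq (hφP p hp) (hφP q hq)
      (hφF p hp) (hφF q hq)
  have hstar : ∀ p ∈ P, ∀ q ∈ P,
      glueDist P L γ s' (φ p) q = glueDist P L γ s₁ (ψ s p) (ψ s' q) := by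
    intro p hp q hq
    rw [← hψd s' hs'T (φ p) (hφP p hp) q hq]
    refine transfer (hFD s₁ hs₁) (hFD s₁ hs₁) (hψP s hsT p hp) (hψP s' hs'T q hq)
      (hψP s' hs'T _ (hφP p hp)) (hψP s' hs'T q hq) ?_ rfl
    rw [hψF s' hs'T _ (hφP p hp), hφF p hp, hψF s hsT p hp]
  have hstarlab : ∀ p ∈ P, ∀ x : Lab P, glueDist P L γ s' (φ p) (lab P L γ s' x) =
      glueDist P L γ s p (lab P L γ s x) := by
    intro p hp x
    rw [hstar p hp _ (lab_mem hP h s' x),
      ← hψd s hsT p hp _ (lab_mem hP h s x)]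
    exact (glueDist_congr_right (hψP s hsT p hp) (hψP s hsT _ (lab_mem hP h s x))
      (hψP s' hs'T _ (lab_mem hP h s' x)) (hlabeq s hs.1 s' hs'.1 x)).symm
  have hfinal := hrig s s' hs.2 hs'.2 φ hφP hφd
    (fun p hp => by rw [hstar p hp p hp]; exact hclose p hp)
    (fun p hp => hstarlab p hp (Sum.inl false))
    (fun v hv p hp => hstarlab p hp (Sum.inr ⟨v, hv⟩))
  exact hne (h.injOn hsT.1.1 hs'T.1.1 hfinal)

end Pool.Agent.Helper22.Fold
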