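import Mathlib

/-!
Perimeter-halving foldings of a convex polygon: definitions only.
-/

set_option autoImplicit false

open Set
open scoped ENNReal

namespace Pool.Agent.Helper22.Fold

/-- The Euclidean plane. -/
abbrev E2 := EuclideanSpace ℝ (Fin 2)

/-- Euclidean 3-space. -/
abbrev E3 := EuclideanSpace ℝ (Fin 3)

/-- A convex polygon: the convex hull of a finite set of points of the plane,
with nonempty interior. -/
def IsConvexPolygon (P : Set E2) : Prop :=
  (∃ V : Set E2, V.Finite ∧ P = convexHull ℝ V) ∧ (interior P).Nonempty

/-- `γ` is an arc-length parametrization of the boundary of `P`, extended periodically;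
its period `L` is the perimeter of `P`. -/
structure IsBoundaryParam (P : Set E2) (L : ℝ) (γ : ℝ → E2) : Prop where
  pos : 0 < L
  unitSpeed : HasUnitSpeedOn γ univ
  periodic : Function.Periodic γ L
  injOn : InjOn γ (Ico 0 L)
  range_eq : range γ = frontier P

/-- `Chain P L γ s p q l`: one can go from `p` to `q` by finitely many straight moves inside `P`,
of total length `l`, and free jumps between points that the perimeter-halving gluing at
`x = γ s` identifies, that is between `γ (s + d)` and `γ (s - d)` for `0 < |d| < L / 2`. -/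
inductive Chain (P : Set E2) (L : ℝ) (γ : ℝ → E2) (s : ℝ) : E2 → E2 → ℝ → Prop
  | move (p q : E2) (hp : p ∈ P) (hq : q ∈ P) : Chain P L γ s p q (dist p q)
  | jump (d : ℝ) (h0 : d ≠ 0) (h1 : |d| < L / 2) : Chain P L γ s (γ (s + d)) (γ (s - d)) 0
  | trans {p q r : E2} {a b : ℝ} (h1 : Chain P L γ s p q a) (h2 : Chain P L γ s q r b) :
      Chain P L γ s p r (a + b)

/-- The intrinsic distance of the surface glued from `P` by the perimeter-halving gluing
at `x = γ s`, as a pseudo-distance on `P` (glued points have distance `0`). -/
noncomputable def glueDist (P : Set E2) (L : ℝ) (γ : ℝ → E2) (s : ℝ) (p q : E2) : ℝ :=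
  sInf {l : ℝ | Chain P L γ s p q l}

/-- The surface glued from `P` at `x = γ s` is isometric to the space `B` with distance `D`:
there is a map of `P` onto `B` that turns the glued distance into `D`. -/
def GluedIsometricTo {β : Type} (P : Set E2) (L : ℝ) (γ : ℝ → E2) (s : ℝ)
    (B : Set β) (D : β → β → ℝ≥0∞) : Prop :=
  ∃ f : E2 → β, f '' P = B ∧
    ∀ p ∈ P, ∀ q ∈ P, D (f p) (f q) = ENNReal.ofReal (glueDist P L γ s p q)

/-- Intrinsic distance in a subset `A` of space: infimum of the lengths of the paths in `A`. -/
noncomputable def pathDist (A : Set E3) (x y : E3) : ℝ≥0∞ :=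
  ⨅ (c : ℝ → E3) (_ : ContinuousOn c (Icc 0 1) ∧ MapsTo c (Icc 0 1) A ∧ c 0 = x ∧ c 1 = y),
    eVariationOn c (Icc 0 1)

/-- The points of the flat convex polygon `Q` covered twice: the closed polygon `Q` (upper side)
and the relative interior of `Q` (lower side); the rim belongs to both sides. -/
def doubleSet (Q : Set E3) : Set (E3 × Bool) :=
  {x | x.1 ∈ Q ∧ (x.2 = true ∨ x.1 ∉ intrinsicFrontier ℝ Q)}

/-- The intrinsic distance of the doubly covered polygon: straight on one side, through the rim
for points of different sides. -/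
noncomputable def doubleDist (Q : Set E3) (x y : E3 × Bool) : ℝ≥0∞ :=
  if x.2 = y.2 then edist x.1 y.1
  else ⨅ z ∈ intrinsicFrontier ℝ Q, (edist x.1 z + edist z y.1)

/-- The convex polyhedron `Q` (possibly a flat convex polygon covered twice) is a folding of `P`
by the perimeter-halving gluing at `x = γ s`: its surface, with the intrinsic distance, is
isometric to the glued surface. By Alexandrov's theorem these are the polyhedra congruent
to `Q_x`. -/
def FoldsTo (P : Set E2) (L : ℝ) (γ : ℝ → E2) (s : ℝ) (Q : Set E3) : Prop :=
  (∃ V : Set E3, V.Finite ∧ Q = convexHull ℝ V) ∧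
  (((interior Q).Nonempty ∧
      GluedIsometricTo P L γ s (frontier Q) (pathDist (frontier Q))) ∨
    (interior Q = ∅ ∧ ¬ Collinear ℝ Q ∧
      GluedIsometricTo P L γ s (doubleSet Q) (doubleDist Q)))

/-- Two subsets of space are congruent: an isometry of space maps one onto the other. -/
def Congr (Q Q' : Set E3) : Prop := ∃ e : E3 ≃ᵢ E3, e '' Q = Q'

end Pool.Agent.Helper22.Fold
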