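import Pool.Agent.Helper22.FoldBasic

set_option autoImplicit false

open Set
open scoped ENNReal

namespace Pool.Agent.Helper22.Fold

variable {P : Set E2} {L : ℝ} {γ : ℝ → E2}

/-- Supporting functional at a boundary point. -/
theorem exists_support (hP : IsConvexPolygon P) {z : E2} (hz : z ∈ frontier P) :
    ∃ f : StrongDual ℝ E2, (∀ p ∈ interior P, f p < f z) ∧ ∀ p ∈ P, f p ≤ f z := by
  have hzi : z ∉ interior P := hz.2
  obtain ⟨f, hf⟩ := geometric_hahn_banach_open_point hP.convex.interior isOpen_interior hzi
  refine ⟨f, hf, ?_⟩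
  have hcl : closure (interior P) = closure P :=
    hP.convex.closure_interior_eq_closure_of_nonempty_interior hP.2
  have hsub : closure (interior P) ⊆ {p | f p ≤ f z} := by
    apply closure_minimal
    · intro p hp; exact (hf p hp).le
    · exact isClosed_le f.continuous continuous_const
  intro p hp
  exact hsub (hcl ▸ subset_closure hp)

theorem mem_frontier_of_support (hP : IsConvexPolygon P) {z : E2} {f : StrongDual ℝ E2}
    (hf : ∀ p ∈ interior P, f p < f z) {p : E2} (hp : p ∈ P) (hpz : f p = f z) :
    p ∈ frontier P := by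
  rw [hP.isClosed.frontier_eq]
  exact ⟨hp, fun h => (hf p h).ne hpz⟩

theorem segment_subset_frontier_of_support (hP : IsConvexPolygon P) {z : E2}
    {f : StrongDual ℝ E2}
    (hf : ∀ p ∈ interior P, f p < f z) {a b : E2} (ha : a ∈ P) (hb : b ∈ P) (haz : f a = f z)
    (hbz : f b = f z) : segment ℝ a b ⊆ frontier P := by
  intro p hp
  have hpP : p ∈ P := hP.convex.segment_subset ha hb hp
  refine mem_frontier_of_support hP hf hpP ?_
  obtain ⟨c, d, hc, hd, hcd, rfl⟩ := hp
  rw [map_add, map_smul, map_smul, haz, hbz, smul_eq_mul, smul_eq_mul, ← add_mul, hcd, one_mul]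

/-- A point of a finite convex hull where a functional is maximal lies in the hull of the
points where it is maximal. -/
theorem mem_convexHull_face {V : Set E2} {z : E2} (hz : z ∈ convexHull ℝ V)
    (f : StrongDual ℝ E2) (hf : ∀ p ∈ V, f p ≤ f z) :
    z ∈ convexHull ℝ {v ∈ V | f v = f z} := by
  set A := {v ∈ V | f v = f z} with hA
  set B := {v ∈ V | f v < f z} with hB
  have hV : V = A ∪ B := by
    ext v
    simp only [hA, hB, mem_union, mem_ofPred_eq]
    constructor
    · intro hv
      rcases (hf v hv).lt_or_eq with h | h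
      · exact Or.inr ⟨hv, h⟩
      · exact Or.inl ⟨hv, h⟩
    · rintro (h | h) <;> exact h.1
  have hBhull : convexHull ℝ B ⊆ {p | f p < f z} := by
    apply convexHull_min
    · intro v hv; exact hv.2
    · exact convex_halfSpace_lt f.toLinearMap.isLinear _
  have hAhull : convexHull ℝ A ⊆ {p | f p ≤ f z} := by
    apply convexHull_min
    · intro v hv; exact hv.2.le
    · exact convex_halfSpace_le f.toLinearMap.isLinear _
  rcases A.eq_empty_or_nonempty with hAe | hAne
  · rw [hV, hAe, empty_union] at hz
    have h0 := hBhull hz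
    simp at h0
  rcases B.eq_empty_or_nonempty with hBe | hBne
  · rw [hV, hBe, union_empty] at hz
    exact hz
  rw [hV, convexHull_union hAne hBne, mem_convexJoin] at hz
  obtain ⟨a, ha, b, hb, c, d, hc, hd, hcd, hz'⟩ := hz
  have hfa := hAhull ha
  have hfb := hBhull hb
  simp only [mem_ofPred_eq] at hfa hfb
  have hfz : f z = c * f a + d * f b := by
    rw [← hz', map_add, map_smul, map_smul, smul_eq_mul, smul_eq_mul]
  rcases hd.eq_or_lt with hd0 | hd0
  · rw [← hd0] at hcd hz'
    have : c = 1 := by linarith
    rw [this] at hz'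
    simp only [one_smul, zero_smul, add_zero] at hz'
    rw [← hz']; exact ha
  · exfalso
    have h1 : c * f a ≤ c * f z := mul_le_mul_of_nonneg_left hfa hc
    have h2 : d * f b < d * f z := mul_lt_mul_of_pos_left hfb hd0
    have h3 : f z = c * f z + d * f z := by rw [← add_mul, hcd, one_mul]
    linarith

theorem functional_apply (f : StrongDual ℝ E2) (p : E2) :
    f p = f (EuclideanSpace.single 0 1) * p 0 + f (EuclideanSpace.single 1 1) * p 1 := by
  have hp : p = p 0 • (EuclideanSpace.single 0 1 : E2) + p 1 • EuclideanSpace.single 1 1 := by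
    ext i
    fin_cases i <;> simp
  conv_lhs => rw [hp]
  rw [map_add, map_smul, map_smul, smul_eq_mul, smul_eq_mul]
  ring

/-- Every boundary point lies on a segment between two of the finitely many generators,
inside the boundary. -/
theorem exists_edge {V : Set E2} (hPV : P = convexHull ℝ V) (hP : IsConvexPolygon P)
    {z : E2} (hz : z ∈ frontier P) :
    ∃ a ∈ V, ∃ b ∈ V, z ∈ segment ℝ a b ∧ segment ℝ a b ⊆ frontier P := by
  obtain ⟨f, hf, hfle⟩ := exists_support hP hz
  have hVP : V ⊆ P := hPV ▸ subset_convexHull ℝ V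
  have hzP : z ∈ P := hP.frontier_subset hz
  have hface := mem_convexHull_face (V := V) (hPV ▸ hzP) f (fun p hp => hfle p (hVP hp))
  -- a functional transverse to `f`
  set n0 := f (EuclideanSpace.single 0 1) with hn0
  set n1 := f (EuclideanSpace.single 1 1) with hn1
  have hfne : n0 ≠ 0 ∨ n1 ≠ 0 := by
    by_contra hcon
    push Not at hcon
    obtain ⟨p, hp⟩ := hP.2
    have h1 := hf p hp
    rw [functional_apply f p, functional_apply f z, ← hn0, ← hn1, hcon.1, hcon.2] at h1
    simp at h1
  let g : E2 →ₗ[ℝ] ℝ :=
    { toFun := fun p => -n1 * p 0 + n0 * p 1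
      map_add' := fun p q => by simp only [PiLp.add_apply]; ring
      map_smul' := fun c p => by simp only [PiLp.smul_apply, smul_eq_mul, RingHom.id_apply]; ring }
  have hg : ∀ p, g p = -n1 * p 0 + n0 * p 1 := fun p => rfl
  -- points with the same `f` and `g` coincide
  have hinj : ∀ p q : E2, f p = f q → g p = g q → p = q := by
    intro p q h1 h2
    rw [functional_apply f p, functional_apply f q, ← hn0, ← hn1] at h1
    rw [hg, hg] at h2
    have hpos : 0 < n0 ^ 2 + n1 ^ 2 := by
      rcases hfne with h | h <;> positivity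
    have e0 : (n0 ^ 2 + n1 ^ 2) * (p 0 - q 0) = 0 := by linear_combination n0 * h1 - n1 * h2
    have e1 : (n0 ^ 2 + n1 ^ 2) * (p 1 - q 1) = 0 := by linear_combination n1 * h1 + n0 * h2
    ext i
    fin_cases i
    · have := (mul_eq_zero.1 e0).resolve_left hpos.ne'
      simpa using sub_eq_zero.1 this
    · have := (mul_eq_zero.1 e1).resolve_left hpos.ne'
      simpa using sub_eq_zero.1 this
  have ha : ∃ a ∈ V, f a = f z ∧ g a ≤ g z := by
    by_contra hcon
    push Not at hcon
    have : convexHull ℝ {v ∈ V | f v = f z} ⊆ {p | g z < g p} := by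
      apply convexHull_min
      · intro v hv; exact hcon v hv.1 hv.2
      · exact convex_halfSpace_gt g.isLinear _
    have h0 := this hface
    simp at h0
  have hb : ∃ b ∈ V, f b = f z ∧ g z ≤ g b := by
    by_contra hcon
    push Not at hcon
    have : convexHull ℝ {v ∈ V | f v = f z} ⊆ {p | g p < g z} := by
      apply convexHull_min
      · intro v hv; exact hcon v hv.1 hv.2
      · exact convex_halfSpace_lt g.isLinear _
    have h0 := this hface
    simp at h0
  obtain ⟨a, haV, hfa, hga⟩ := ha
  obtain ⟨b, hbV, hfb, hgb⟩ := hb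
  refine ⟨a, haV, b, hbV, ?_, segment_subset_frontier_of_support hP hf (hVP haV) (hVP hbV) hfa hfb⟩
  rcases (hga.trans hgb).eq_or_lt with hab | hab
  · have hga' : g a = g z := le_antisymm hga (by linarith)
    have : z = a := hinj z a hfa.symm hga'.symm
    rw [this]; exact left_mem_segment ℝ a b
  · have hpos : 0 < g b - g a := by linarith
    refine ⟨(g b - g z) / (g b - g a), (g z - g a) / (g b - g a), by
      apply div_nonneg <;> linarith, by apply div_nonneg <;> linarith, by
      field_simp; ring, ?_⟩
    apply hinj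
    · rw [map_add, map_smul, map_smul, hfa, hfb, smul_eq_mul, smul_eq_mul, ← add_mul]
      have : (g b - g z) / (g b - g a) + (g z - g a) / (g b - g a) = 1 := by field_simp; ring
      rw [this, one_mul]
    · rw [map_add, map_smul, map_smul, smul_eq_mul, smul_eq_mul]
      field_simp
      ring

end Pool.Agent.Helper22.Fold
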