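import Pool.Agent.Helper22.FoldArc

set_option autoImplicit false

open Set
open scoped ENNReal RealInnerProductSpace

namespace Pool.Agent.Helper22.Fold

variable {P : Set E2} {L : ℝ} {γ : ℝ → E2}

theorem IsBoundaryParam.neg' (h : IsBoundaryParam P L γ) : IsBoundaryParam P L (fun t => γ (-t)) :=
  h.neg

/-- The boundary is straight to the right of every parameter. -/
theorem exists_straight_right (hP : IsConvexPolygon P) (h : IsBoundaryParam P L γ) (σ : ℝ) :
    ∃ R > 0, ∃ u : E2, ‖u‖ = 1 ∧ ∀ t, 0 ≤ t → t ≤ R → γ (σ + t) = γ σ + t • u := by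
  obtain ⟨V, hV, hPV⟩ := hP.1
  have hL := h.pos
  let tt : ℕ → ℝ := fun n => L / 4 / ((n : ℝ) + 1)
  have htpos : ∀ n, 0 < tt n := fun n => by positivity
  have htle : ∀ n, tt n ≤ L / 4 := by
    intro n
    apply div_le_self (by positivity)
    have : (0:ℝ) ≤ n := Nat.cast_nonneg n
    linarith
  have hedge : ∀ n, ∃ ab : V × V, γ (σ + tt n) ∈ segment ℝ (ab.1 : E2) ab.2 ∧
      segment ℝ (ab.1 : E2) ab.2 ⊆ frontier P := by
    intro n
    obtain ⟨a, ha, b, hb, h1, h2⟩ := exists_edge hPV hP (h.mem_frontier (σ + tt n))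
    exact ⟨(⟨a, ha⟩, ⟨b, hb⟩), h1, h2⟩
  choose ab hab1 hab2 using hedge
  have : Finite V := hV
  obtain ⟨y, hy⟩ := Finite.exists_infinite_fiber ab
  have hyinf : (ab ⁻¹' {y}).Infinite := Set.infinite_coe_iff.1 hy
  have hclosed : IsClosed (segment ℝ (y.1 : E2) y.2) := by
    rw [← convexHull_pair]
    exact ((Set.toFinite _).isCompact_convexHull (𝕜 := ℝ)).isClosed
  have hzmem : γ σ ∈ segment ℝ (y.1 : E2) y.2 := by
    rw [← hclosed.closure_eq, Metric.mem_closure_iff]
    intro ε hε
    -- a large index in the fiber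
    obtain ⟨N, hN⟩ := exists_nat_gt (L / 4 / ε)
    obtain ⟨n, hn, hNn⟩ := hyinf.exists_gt N
    have hn' : ab n = y := hn
    refine ⟨γ (σ + tt n), hn' ▸ hab1 n, ?_⟩
    have h1 := h.lip σ (σ + tt n)
    have h2 : |σ - (σ + tt n)| = tt n := by
      rw [sub_add_cancel_left, abs_neg, abs_of_pos (htpos n)]
    rw [h2] at h1
    refine lt_of_le_of_lt h1 ?_
    show L / 4 / ((n:ℝ) + 1) < ε
    rw [div_lt_iff₀ (by positivity)]
    rw [div_lt_iff₀ hε] at hN
    have : (N : ℝ) < n := by exact_mod_cast hNn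
    nlinarith
  obtain ⟨n, hn⟩ := hyinf.nonempty
  have hn' : ab n = y := hn
  have hwmem : γ (σ + tt n) ∈ segment ℝ (y.1 : E2) y.2 := hn' ▸ hab1 n
  have hsub : segment ℝ (γ σ) (γ (σ + tt n)) ⊆ frontier P :=
    ((convex_segment (y.1 : E2) (y.2 : E2)).segment_subset hzmem hwmem).trans (hn' ▸ hab2 n)
  have hlip := h.lip σ (σ + tt n)
  rw [sub_add_cancel_left, abs_neg, abs_of_pos (htpos n)] at hlip
  have hle : tt n ≤ dist (γ σ) (γ (σ + tt n)) := by
    rcases arc_dichotomy h (htpos n) (by linarith [htle n]) hsub with h1 | h1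
    · exact h1
    · exfalso; linarith [htle n]
  have hdist : dist (γ σ) (γ (σ + tt n)) = tt n := le_antisymm hlip hle
  refine ⟨tt n, htpos n, (tt n)⁻¹ • (γ (σ + tt n) - γ σ), ?_, ?_⟩
  · rw [norm_smul, norm_inv, Real.norm_of_nonneg (htpos n).le, ← dist_eq_norm, dist_comm, hdist]
    exact inv_mul_cancel₀ (htpos n).ne'
  · intro t ht0 htR
    have := straight_of_le h (α := σ) (β := σ + tt n) (by linarith [htpos n])
      (by rw [add_sub_cancel_left]; exact hle) (u := σ + t) ⟨by linarith, by linarith⟩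
    rw [this, AffineMap.lineMap_apply_module']
    rw [add_sub_cancel_left, add_sub_cancel_left, smul_smul, add_comm, div_eq_mul_inv]

/-- The boundary is straight to the left of every parameter. -/
theorem exists_straight_left (hP : IsConvexPolygon P) (h : IsBoundaryParam P L γ) (σ : ℝ) :
    ∃ R > 0, ∃ u : E2, ‖u‖ = 1 ∧ ∀ t, 0 ≤ t → t ≤ R → γ (σ - t) = γ σ + t • u := by
  obtain ⟨R, hR, u, hu, hst⟩ := exists_straight_right hP h.neg (-σ)
  refine ⟨R, hR, u, hu, fun t ht0 htR => ?_⟩
  have := hst t ht0 htR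
  simp only [neg_add, neg_neg] at this
  rw [sub_eq_add_neg]
  exact this

/-- `Chordal h σ R`: near `γ σ`, at scale `R`, the arc length from `γ σ` is the distance. -/
def Chordal (L : ℝ) (γ : ℝ → E2) (σ R : ℝ) : Prop :=
  0 < R ∧ (∀ t, |t| ≤ R → dist (γ (σ + t)) (γ σ) = |t|) ∧
    ∀ t, |t| ≤ L / 2 → dist (γ (σ + t)) (γ σ) < R → |t| < R

theorem Chordal.mono {σ R R' : ℝ} (h : Chordal L γ σ R) (h0 : 0 < R') (h1 : R' ≤ R) :
    Chordal L γ σ R' := by
  refine ⟨h0, fun t ht => h.2.1 t (ht.trans h1), fun t ht htd => ?_⟩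
  have h2 := h.2.2 t ht (htd.trans_le h1)
  rw [h.2.1 t h2.le] at htd
  exact htd

theorem ne_of_abs_le (h : IsBoundaryParam P L γ) {σ t : ℝ} (h0 : t ≠ 0) (h1 : |t| ≤ L / 2) :
    γ (σ + t) ≠ γ σ := by
  intro hh
  obtain ⟨n, hn⟩ := h.inj hh
  have hL := h.pos
  rw [add_sub_cancel_left] at hn
  have h2 : |(n : ℝ)| * L < 1 * L := by
    rw [← abs_of_pos hL, ← abs_mul, ← hn, abs_of_pos hL, one_mul]; linarith
  have h3 : |(n : ℝ)| < 1 := lt_of_mul_lt_mul_right h2 hL.le
  have h4 : n = 0 := by
    have : |n| < 1 := by exact_mod_cast h3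
    exact Int.abs_lt_one_iff.1 this
  rw [h4] at hn
  simp at hn
  exact h0 hn

theorem exists_chordal (hP : IsConvexPolygon P) (h : IsBoundaryParam P L γ) (σ : ℝ) :
    ∃ R, Chordal L γ σ R := by
  obtain ⟨R1, hR1, u1, hu1, hs1⟩ := exists_straight_right hP h σ
  obtain ⟨R2, hR2, u2, hu2, hs2⟩ := exists_straight_left hP h σ
  have hL := h.pos
  set R0 := min (min R1 R2) (L / 4) with hR0
  have hR0pos : 0 < R0 := by positivity
  have hdist : ∀ t, |t| ≤ R0 → dist (γ (σ + t)) (γ σ) = |t| := by
    intro t ht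
    rcases le_total 0 t with h0 | h0
    · rw [abs_of_nonneg h0] at ht ⊢
      rw [hs1 t h0 (ht.trans ((min_le_left _ _).trans (min_le_left _ _)))]
      rw [dist_eq_norm, add_sub_cancel_left, norm_smul, hu1, mul_one, Real.norm_of_nonneg h0]
    · rw [abs_of_nonpos h0] at ht ⊢
      have := hs2 (-t) (by linarith) (ht.trans ((min_le_left _ _).trans (min_le_right _ _)))
      rw [sub_neg_eq_add] at this
      rw [this]
      rw [dist_eq_norm, add_sub_cancel_left, norm_smul, hu2, mul_one, Real.norm_of_nonneg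
        (by linarith)]
  -- the rest of the boundary stays away
  have hK : IsCompact {t : ℝ | R0 ≤ |t| ∧ |t| ≤ L / 2} := by
    apply Metric.isCompact_of_isClosed_isBounded
    · exact (isClosed_le continuous_const continuous_abs).inter
        (isClosed_le continuous_abs continuous_const)
    · refine (Metric.isBounded_closedBall (x := (0:ℝ)) (r := L / 2)).subset ?_
      intro t ht
      simpa [Real.dist_eq] using ht.2
  have hcont : ContinuousOn (fun t : ℝ => dist (γ (σ + t)) (γ σ)) {t : ℝ | R0 ≤ |t| ∧ |t| ≤ L / 2} := by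
    have : Continuous (fun t : ℝ => dist (γ (σ + t)) (γ σ)) :=
      (h.continuous.comp (continuous_const.add continuous_id)).dist continuous_const
    exact this.continuousOn
  have hne : ({t : ℝ | R0 ≤ |t| ∧ |t| ≤ L / 2}).Nonempty := by
    refine ⟨R0, ?_⟩
    simp only [mem_ofPred_eq, abs_of_pos hR0pos, le_refl, true_and]
    have : R0 ≤ L / 4 := min_le_right _ _
    linarith
  obtain ⟨t0, ht0, hmin⟩ := hK.exists_isMinOn hne hcont
  have hm : 0 < dist (γ (σ + t0)) (γ σ) := by
    rw [dist_pos]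
    apply ne_of_abs_le h _ ht0.2
    rintro rfl
    have := ht0.1
    rw [abs_zero] at this
    linarith
  refine ⟨min R0 (dist (γ (σ + t0)) (γ σ)), lt_min hR0pos hm,
    fun t ht => hdist t (ht.trans (min_le_left _ _)), fun t ht htd => ?_⟩
  rcases lt_or_ge (|t|) R0 with h1 | h1
  · rw [hdist t h1.le] at htd
    exact htd
  · exfalso
    have h2 : dist (γ (σ + t0)) (γ σ) ≤ dist (γ (σ + t)) (γ σ) := hmin ⟨h1, ht⟩
    have := htd.trans_le (min_le_right _ _)
    linarith

/-- Every parameter is congruent to one within `L/2` of `σ`. -/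
theorem exists_rep (h : IsBoundaryParam P L γ) (σ τ : ℝ) :
    ∃ t, |t| ≤ L / 2 ∧ ∃ n : ℤ, τ = σ + t + n * L := by
  obtain ⟨n, hn, -⟩ := existsUnique_add_zsmul_mem_Ico h.pos (τ - σ) (-(L / 2))
  simp only [zsmul_eq_mul] at hn
  refine ⟨τ - σ + n * L, ?_, -n, ?_⟩
  · rw [abs_le]; constructor
    · exact hn.1
    · have := hn.2; linarith
  · push_cast; ring

/-- Lower bound for the glued distance to a boundary point. -/
theorem le_glueDist_boundary (hP : IsConvexPolygon P) (h : IsBoundaryParam P L γ)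
    {s σ R : ℝ} (h1 : Chordal L γ σ R) (h2 : Chordal L γ (2 * s - σ) R) {q : E2} (hq : q ∈ P) :
    min R (min (dist q (γ σ)) (dist q (γ (2 * s - σ)))) ≤ glueDist P L γ s q (γ σ) := by
  set a := γ σ with ha
  set a' := γ (2 * s - σ) with ha'
  let f : E2 → ℝ := fun p => min R (min (dist p a) (dist p a'))
  have hf : ∀ p ∈ P, ∀ q ∈ P, f p - f q ≤ dist p q := by
    intro p _ q _
    show min R (min (dist p a) (dist p a')) - min R (min (dist q a) (dist q a')) ≤ dist p q
    have e1 := dist_triangle p q a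
    have e2 := dist_triangle p q a'
    have e3 : (0:ℝ) ≤ dist p q := dist_nonneg
    rcases min_cases R (min (dist q a) (dist q a')) with ⟨h3, h4⟩ | ⟨h3, h4⟩
    · rw [h3]
      have := min_le_left R (min (dist p a) (dist p a'))
      linarith
    · rw [h3]
      have h5 := min_le_right R (min (dist p a) (dist p a'))
      rcases min_cases (dist q a) (dist q a') with ⟨h6, h7⟩ | ⟨h6, h7⟩
      · rw [h6]
        have := min_le_left (dist p a) (dist p a')
        linarith
      · rw [h6]
        have := min_le_right (dist p a) (dist p a')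
        linarith
  -- compatibility, one inequality
  have hcomp : ∀ t, f (γ (s - t)) ≤ f (γ (s + t)) := by
    intro t
    show min R (min (dist (γ (s - t)) a) (dist (γ (s - t)) a')) ≤
      min R (min (dist (γ (s + t)) a) (dist (γ (s + t)) a'))
    rcases le_or_gt R (min (dist (γ (s + t)) a) (dist (γ (s + t)) a')) with h3 | h3
    · rw [min_eq_left h3]; exact min_le_left _ _
    · rw [min_eq_right h3.le]
      refine (min_le_right _ _).trans ?_
      rcases min_cases (dist (γ (s + t)) a) (dist (γ (s + t)) a') with ⟨h4, h5⟩ | ⟨h4, h5⟩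
      · rw [h4] at h3 ⊢
        refine (min_le_right _ _).trans ?_
        obtain ⟨t', ht', n, hn⟩ := exists_rep h σ (s + t)
        have e1 : γ (s + t) = γ (σ + t') := by rw [hn, h.per_int]
        have e2 : γ (s - t) = γ ((2 * s - σ) + -t') := by
          have : s - t = (2 * s - σ) + -t' + ((-n : ℤ) : ℝ) * L := by
            push_cast; linarith
          rw [this, h.per_int]
        rw [e1] at h3 ⊢
        have h6 := h1.2.2 t' ht' h3
        rw [h1.2.1 t' h6.le, e2, h2.2.1 (-t') (by rw [abs_neg]; exact h6.le), abs_neg]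
      · rw [h4] at h3 ⊢
        refine (min_le_left _ _).trans ?_
        obtain ⟨t', ht', n, hn⟩ := exists_rep h (2 * s - σ) (s + t)
        have e1 : γ (s + t) = γ ((2 * s - σ) + t') := by rw [hn, h.per_int]
        have e2 : γ (s - t) = γ (σ + -t') := by
          have : s - t = σ + -t' + ((-n : ℤ) : ℝ) * L := by
            push_cast; linarith
          rw [this, h.per_int]
        rw [e1] at h3 ⊢
        have h6 := h2.2.2 t' ht' h3
        rw [h2.2.1 t' h6.le, e2, h1.2.1 (-t') (by rw [abs_neg]; exact h6.le), abs_neg]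
  have hg : ∀ t, f (γ (s + t)) = f (γ (s - t)) := by
    intro t
    apply le_antisymm
    · have := hcomp (-t)
      simpa [sub_eq_add_neg] using this
    · exact hcomp t
  have hfa : f a = 0 := by
    show min R (min (dist a a) (dist a a')) = 0
    rw [dist_self, min_eq_left dist_nonneg, min_eq_right h1.1.le]
  have := le_glueDist_of_calib (L := L) f hf hg hq (mem_of_param hP h σ)
  rw [← ha, hfa, sub_zero] at this
  exact this

/-- Lower bound for the glued distance to an interior point. -/
theorem le_glueDist_interior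
    {s R : ℝ} {a : E2} (ha : a ∈ P) (hR : 0 ≤ R) (hb : ∀ t, R ≤ dist (γ t) a) {q : E2}
    (hq : q ∈ P) : min R (dist q a) ≤ glueDist P L γ s q a := by
  let f : E2 → ℝ := fun p => min R (dist p a)
  have hf : ∀ p ∈ P, ∀ q ∈ P, f p - f q ≤ dist p q := by
    intro p _ q _
    show min R (dist p a) - min R (dist q a) ≤ dist p q
    have e1 := dist_triangle p q a
    have e3 : (0:ℝ) ≤ dist p q := dist_nonneg
    rcases min_cases R (dist q a) with ⟨h3, h4⟩ | ⟨h3, h4⟩
    · rw [h3]
      have := min_le_left R (dist p a)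
      linarith
    · rw [h3]
      have h5 := min_le_right R (dist p a)
      linarith
  have hg : ∀ t, f (γ (s + t)) = f (γ (s - t)) := by
    intro t
    show min R (dist (γ (s + t)) a) = min R (dist (γ (s - t)) a)
    rw [min_eq_left (hb _), min_eq_left (hb _)]
  have hfa : f a = 0 := by
    show min R (dist a a) = 0
    rw [dist_self, min_eq_right hR]
  have := le_glueDist_of_calib (L := L) f hf hg hq ha
  rw [hfa, sub_zero] at this
  exact this

end Pool.Agent.Helper22.Fold
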