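import Pool.Agent.Helper22.FoldVertex

set_option autoImplicit false

open Set
open scoped ENNReal

namespace Pool.Agent.Helper22.Fold

variable {P : Set E2} {L : ℝ} {γ : ℝ → E2}

/-- `p` is a midpoint for the glued distance. -/
def Mid (P : Set E2) (L : ℝ) (γ : ℝ → E2) (s : ℝ) (p : E2) : Prop :=
  ∃ a ∈ P, ∃ b ∈ P, ∃ r > 0, glueDist P L γ s a p = r ∧ glueDist P L γ s p b = r ∧
    glueDist P L γ s a b = 2 * r

theorem glueDist_partner (hP : IsConvexPolygon P) (h : IsBoundaryParam P L γ) (s τ : ℝ) :
    glueDist P L γ s (γ τ) (γ (2 * s - τ)) = 0 := by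
  have := glueDist_jump (s := s) hP h (τ - s)
  have e1 : s + (τ - s) = τ := by ring
  have e2 : s - (τ - s) = 2 * s - τ := by ring
  rw [e1, e2] at this
  exact this

/-- Near a non-extreme boundary point the chordal property holds uniformly. -/
theorem exists_uniform_chordal (hP : IsConvexPolygon P) (h : IsBoundaryParam P L γ) {σ : ℝ}
    (hσ : γ σ ∉ P.extremePoints ℝ) :
    ∃ δ > 0, ∃ R > 0, ∀ τ, |τ - σ| < δ → Chordal L γ τ R := by
  obtain ⟨R1, hR1, u, hu, hst⟩ := exists_straight_of_not_extreme hP h hσ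
  obtain ⟨R2, hR2⟩ := exists_chordal hP h σ
  have hL := h.pos
  set ρ := min (min R1 R2) (L / 8) with hρ
  have hρpos : 0 < ρ := lt_min (lt_min hR1 hR2.1) (by linarith)
  have hρ1 : ρ ≤ R1 := (min_le_left _ _).trans (min_le_left _ _)
  have hρ2 : ρ ≤ R2 := (min_le_left _ _).trans (min_le_right _ _)
  have hρL : ρ ≤ L / 8 := min_le_right _ _
  have hch := hR2.mono hρpos hρ2
  have hline : ∀ τ t, |τ - σ| ≤ ρ → |τ - σ + t| ≤ ρ → dist (γ (τ + t)) (γ τ) = |t| := by
    intro τ t h1 h2
    have e1 := hst (τ - σ + t) (h2.trans hρ1)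
    have e2 := hst (τ - σ) (h1.trans hρ1)
    have e3 : σ + (τ - σ + t) = τ + t := by ring
    have e4 : σ + (τ - σ) = τ := by ring
    rw [e3] at e1
    rw [e4] at e2
    rw [e1, e2, dist_eq_norm]
    have : γ σ + (τ - σ + t) • u - (γ σ + (τ - σ) • u) = t • u := by module
    rw [this, norm_smul, hu, mul_one, Real.norm_eq_abs]
  refine ⟨ρ / 2, by linarith, ρ / 2, by linarith, fun τ hτ => ⟨by linarith, fun t ht => ?_,
    fun t ht htd => ?_⟩⟩
  · apply hline τ t (by linarith)
    calc |τ - σ + t| ≤ |τ - σ| + |t| := abs_add_le _ _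
      _ ≤ ρ := by linarith
  · obtain ⟨t', ht', n, hn⟩ := exists_rep h σ (τ + t)
    have h1 : dist (γ (τ + t)) (γ σ) < ρ := by
      have := dist_triangle (γ (τ + t)) (γ τ) (γ σ)
      have h2 := h.lip τ σ
      linarith
    rw [hn, h.per_int] at h1
    have h2 := hch.2.2 t' ht' h1
    have h3 : |(n : ℝ)| * L < 1 * L := by
      rw [← abs_of_pos hL, ← abs_mul, abs_of_pos hL, one_mul]
      have e1 : (n : ℝ) * L = (τ - σ) + t - t' := by linarith
      rw [e1]
      calc |(τ - σ) + t - t'| ≤ |(τ - σ) + t| + |t'| := abs_sub _ _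
        _ ≤ |τ - σ| + |t| + |t'| := by gcongr; exact abs_add_le _ _
        _ < L := by linarith
    have h4 : |(n : ℝ)| < 1 := lt_of_mul_lt_mul_right h3 hL.le
    have h5 : n = 0 := by
      have : |n| < 1 := by exact_mod_cast h4
      exact Int.abs_lt_one_iff.1 this
    rw [h5] at hn
    push_cast at hn
    have h6 : t' = τ - σ + t := by linarith
    rw [h6] at h2
    rw [hline τ t (by linarith) h2.le] at htd
    exact htd

theorem mid_of_interior (h : IsBoundaryParam P L γ) {s : ℝ} {p : E2}
    (hp : p ∈ interior P) : Mid P L γ s p := by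
  obtain ⟨δ, hδ, hball⟩ := Metric.isOpen_iff.1 isOpen_interior p hp
  have hγ : ∀ t, δ ≤ dist (γ t) p := by
    intro t
    by_contra hcon
    push Not at hcon
    exact (h.mem_frontier t).2 (hball hcon)
  set r := δ / 4 with hr
  have hrpos : 0 < r := by positivity
  set e : E2 := EuclideanSpace.single 0 1 with he
  have hen : ‖e‖ = 1 := by rw [he]; simp
  have hball' : ∀ q, dist q p < δ → q ∈ P := fun q hq => interior_subset (hball hq)
  have hdap : dist (p + r • e) p = r := by
    rw [dist_eq_norm, add_sub_cancel_left, norm_smul, hen, mul_one, Real.norm_of_nonneg hrpos.le]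
  have hdbp : dist (p - r • e) p = r := by
    rw [dist_eq_norm, sub_sub_cancel_left, norm_neg, norm_smul, hen, mul_one,
      Real.norm_of_nonneg hrpos.le]
  have hdab : dist (p + r • e) (p - r • e) = 2 * r := by
    rw [dist_eq_norm]
    have : p + r • e - (p - r • e) = (2 * r) • e := by module
    rw [this, norm_smul, hen, mul_one, Real.norm_of_nonneg (by linarith)]
  have hpP : p ∈ P := interior_subset hp
  have ha : p + r • e ∈ P := hball' _ (by rw [hdap]; linarith)
  have hb : p - r • e ∈ P := hball' _ (by rw [hdbp]; linarith)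
  have hga : ∀ t, 3 * r ≤ dist (γ t) (p + r • e) := by
    intro t
    have h1 := hγ t
    have h2 := dist_triangle (γ t) (p + r • e) p
    rw [hdap] at h2
    linarith
  have hgb : ∀ t, 3 * r ≤ dist (γ t) (p - r • e) := by
    intro t
    have h1 := hγ t
    have h2 := dist_triangle (γ t) (p - r • e) p
    rw [hdbp] at h2
    linarith
  refine ⟨_, ha, _, hb, r, hrpos, ?_, ?_, ?_⟩
  · apply le_antisymm
    · have := glueDist_le (L := L) (γ := γ) (s := s) ha hpP
      rwa [hdap] at this
    · have := le_glueDist_interior (L := L) (γ := γ) (s := s) ha (by linarith) hga hpP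
      rw [dist_comm, hdap, min_eq_right (by linarith), glueDist_comm] at this
      exact this
  · apply le_antisymm
    · have := glueDist_le (L := L) (γ := γ) (s := s) hpP hb
      rwa [dist_comm, hdbp] at this
    · have := le_glueDist_interior (L := L) (γ := γ) (s := s) hb (by linarith) hgb hpP
      rw [dist_comm, hdbp, min_eq_right (by linarith)] at this
      exact this
  · apply le_antisymm
    · have := glueDist_le (L := L) (γ := γ) (s := s) ha hb
      rwa [hdab] at this
    · have := le_glueDist_interior (L := L) (γ := γ) (s := s) hb (by linarith) hgb ha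
      rw [hdab, min_eq_right (by linarith)] at this
      exact this

theorem mid_of_regular (hP : IsConvexPolygon P) (h : IsBoundaryParam P L γ) {s σ : ℝ}
    (h1 : γ σ ∉ P.extremePoints ℝ) (h2 : γ (2 * s - σ) ∉ P.extremePoints ℝ)
    (hne : γ σ ≠ γ (2 * s - σ)) : Mid P L γ s (γ σ) := by
  obtain ⟨δ1, hδ1, R1, hR1, hc1⟩ := exists_uniform_chordal hP h h1
  obtain ⟨δ2, hδ2, R2, hR2, hc2⟩ := exists_uniform_chordal hP h h2
  obtain ⟨R3, hR3, u, hu, hst⟩ := exists_straight_of_not_extreme hP h h1
  set D := dist (γ σ) (γ (2 * s - σ)) with hD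
  have hDpos : 0 < D := dist_pos.2 hne
  set r := min (min (δ1 / 2) (δ2 / 2)) (min (min (R1 / 3) (R2 / 3)) (min R3 (D / 10))) with hr
  have hrpos : 0 < r := by positivity
  have r1 : r ≤ δ1 / 2 := (min_le_left _ _).trans (min_le_left _ _)
  have r2 : r ≤ δ2 / 2 := (min_le_left _ _).trans (min_le_right _ _)
  have r3 : r ≤ R1 / 3 := (min_le_right _ _).trans ((min_le_left _ _).trans (min_le_left _ _))
  have r4 : r ≤ R2 / 3 := (min_le_right _ _).trans ((min_le_left _ _).trans (min_le_right _ _))
  have r5 : r ≤ R3 := (min_le_right _ _).trans ((min_le_right _ _).trans (min_le_left _ _))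
  have r6 : r ≤ D / 10 := (min_le_right _ _).trans ((min_le_right _ _).trans (min_le_right _ _))
  -- lower bound for the distance to `γ (σ + κ)` with `|κ| ≤ r`
  have key : ∀ κ, |κ| ≤ r → ∀ q ∈ P, dist q (γ σ) ≤ r →
      min (3 * r) (dist q (γ (σ + κ))) ≤ glueDist P L γ s q (γ (σ + κ)) := by
    intro κ hκ q hq hqd
    have c1 : Chordal L γ (σ + κ) (3 * r) :=
      (hc1 (σ + κ) (by rw [add_sub_cancel_left]; linarith)).mono (by linarith) (by linarith)
    have c2 : Chordal L γ (2 * s - (σ + κ)) (3 * r) := by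
      refine (hc2 (2 * s - (σ + κ)) ?_).mono (by linarith) (by linarith)
      have : 2 * s - (σ + κ) - (2 * s - σ) = -κ := by ring
      rw [this, abs_neg]; linarith
    have := le_glueDist_boundary hP h c1 c2 hq
    have h3 : 3 * r ≤ dist q (γ (2 * s - (σ + κ))) := by
      have e1 := dist_triangle (γ σ) q (γ (2 * s - σ))
      have e2 := dist_triangle q (γ (2 * s - (σ + κ))) (γ (2 * s - σ))
      have e3 := h.lip (2 * s - (σ + κ)) (2 * s - σ)
      have e4 : 2 * s - (σ + κ) - (2 * s - σ) = -κ := by ring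
      rw [e4, abs_neg] at e3
      rw [dist_comm (γ σ) q] at e1
      linarith
    refine le_trans ?_ this
    refine le_min (min_le_left _ _) (le_min (min_le_right _ _) ((min_le_left _ _).trans h3))
  have hσP := mem_of_param hP h σ
  have haP := mem_of_param hP h (σ + r)
  have hbP := mem_of_param hP h (σ + -r)
  have ea := hst r (by rw [abs_of_pos hrpos]; exact r5)
  have eb := hst (-r) (by rw [abs_neg, abs_of_pos hrpos]; exact r5)
  have da : dist (γ (σ + r)) (γ σ) = r := by
    rw [ea, dist_eq_norm, add_sub_cancel_left, norm_smul, hu, mul_one,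
      Real.norm_of_nonneg hrpos.le]
  have db : dist (γ (σ + -r)) (γ σ) = r := by
    rw [eb, dist_eq_norm, add_sub_cancel_left, norm_smul, hu, mul_one, norm_neg,
      Real.norm_of_nonneg hrpos.le]
  have dab : dist (γ (σ + r)) (γ (σ + -r)) = 2 * r := by
    rw [ea, eb, dist_eq_norm]
    have : γ σ + r • u - (γ σ + -r • u) = (2 * r) • u := by module
    rw [this, norm_smul, hu, mul_one, Real.norm_of_nonneg (by linarith)]
  refine ⟨_, haP, _, hbP, r, hrpos, ?_, ?_, ?_⟩
  · apply le_antisymm
    · have := glueDist_le (L := L) (γ := γ) (s := s) haP hσP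
      rwa [da] at this
    · have := key r (by rw [abs_of_pos hrpos]) _ hσP (by rw [dist_self]; exact hrpos.le)
      rw [dist_comm, da, min_eq_right (by linarith), glueDist_comm] at this
      exact this
  · apply le_antisymm
    · have := glueDist_le (L := L) (γ := γ) (s := s) hσP hbP
      rwa [dist_comm, db] at this
    · have := key (-r) (by rw [abs_neg, abs_of_pos hrpos]) _ hσP (by rw [dist_self]; exact hrpos.le)
      rw [dist_comm, db, min_eq_right (by linarith)] at this
      exact this
  · apply le_antisymm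
    · have := glueDist_le (L := L) (γ := γ) (s := s) haP hbP
      rwa [dab] at this
    · have := key (-r) (by rw [abs_neg, abs_of_pos hrpos]) _ haP (by rw [da])
      rw [dab, min_eq_right (by linarith)] at this
      exact this

/-- Shrinking a midpoint configuration. -/
theorem Mid.exists_small (hP : IsConvexPolygon P) (h : IsBoundaryParam P L γ) {s : ℝ} {p : E2}
    (hp : p ∈ P) (hm : Mid P L γ s p) :
    ∃ r₀ > 0, ∀ ρ, 0 < ρ → ρ ≤ r₀ → ∃ a ∈ P, ∃ b ∈ P, glueDist P L γ s a p = ρ ∧
      glueDist P L γ s b p = ρ ∧ 2 * ρ ≤ glueDist P L γ s a b := by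
  obtain ⟨a, ha, b, hb, r, hr, h1, h2, h3⟩ := hm
  refine ⟨r, hr, fun ρ hρ hρr => ?_⟩
  obtain ⟨a', ha', e1, e2⟩ := exists_between hP h ha hp hρ.le (by rw [h1]; exact hρr)
  obtain ⟨b', hb', e3, e4⟩ := exists_between hP h hb hp hρ.le (by rw [glueDist_comm, h2]; exact hρr)
  refine ⟨a', ha', b', hb', e1, e3, ?_⟩
  have t1 := glueDist_triangle (L := L) (γ := γ) (s := s) ha ha' hb
  have t2 := glueDist_triangle (L := L) (γ := γ) (s := s) ha' hb' hb
  rw [glueDist_comm b' b] at t2
  rw [h1] at e2
  rw [glueDist_comm b p, h2] at e4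
  linarith

theorem not_mid_of_fold (hP : IsConvexPolygon P) (h : IsBoundaryParam P L γ) {s σ : ℝ} {n : ℤ}
    (hn : 2 * s - σ = σ + n * L) : ¬ Mid P L γ s (γ σ) := by
  intro hm
  obtain ⟨r₀, hr₀, hsm⟩ := hm.exists_small hP h (mem_of_param hP h σ)
  obtain ⟨R, hR⟩ := exists_chordal hP h σ
  have hR' : Chordal L γ (2 * s - σ) R := by
    refine ⟨hR.1, fun t ht => ?_, fun t ht htd => ?_⟩
    · have := hR.2.1 t ht
      have e1 : γ (2 * s - σ + t) = γ (σ + t) := by
        rw [hn, ← h.per_int (σ + t) n]; congr 1; ring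
      have e2 : γ (2 * s - σ) = γ σ := by rw [hn, h.per_int]
      rw [e1, e2]; exact this
    · have e1 : γ (2 * s - σ + t) = γ (σ + t) := by
        rw [hn, ← h.per_int (σ + t) n]; congr 1; ring
      have e2 : γ (2 * s - σ) = γ σ := by rw [hn, h.per_int]
      rw [e1, e2] at htd
      exact hR.2.2 t ht htd
  set ρ := min r₀ (R / 2) with hρ
  have hρpos : 0 < ρ := lt_min hr₀ (by linarith [hR.1])
  obtain ⟨a, ha, b, hb, h1, h2, h3⟩ := hsm ρ hρpos (min_le_left _ _)
  have hρR : ρ < R := by
    have := min_le_right r₀ (R / 2)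
    linarith [hR.1]
  have hpar : γ (2 * s - σ) = γ σ := by rw [hn, h.per_int]
  have hexact : ∀ q ∈ P, glueDist P L γ s q (γ σ) = ρ → dist q (γ σ) = ρ := by
    intro q hq hqd
    have e1 := le_glueDist_boundary hP h hR hR' hq
    rw [hpar, min_self, hqd] at e1
    have e2 := glueDist_le (L := L) (γ := γ) (s := s) hq (mem_of_param hP h σ)
    rw [hqd] at e2
    rcases min_le_iff.1 e1 with e3 | e3
    · linarith
    · linarith
  have da := hexact a ha h1
  have db := hexact b hb h2
  have hab := glueDist_le (L := L) (γ := γ) (s := s) ha hb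
  have htri := dist_triangle a (γ σ) b
  rw [da, dist_comm (γ σ) b, db] at htri
  have dab : dist a b = 2 * ρ := by linarith
  have hmid : γ σ = midpoint ℝ a b := by
    apply eq_midpoint_of_dist_eq_half
    · rw [da, dab]; ring
    · rw [dist_comm, db, dab]; ring
  have hne : a ≠ b := by
    rintro rfl
    rw [dist_self] at dab
    linarith
  have hglue : glueDist P L γ s (γ (σ + ρ)) (γ (σ - ρ)) = 0 := by
    have := glueDist_partner hP h s (σ + ρ)
    have e1 : γ (2 * s - (σ + ρ)) = γ (σ - ρ) := by
      have : 2 * s - (σ + ρ) = (σ - ρ) + n * L := by linarith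
      rw [this, h.per_int]
    rw [e1] at this
    exact this
  rw [dist_comm] at da
  rcases flat_param hP h ha hb hne hmid with ⟨e1, e2⟩ | ⟨e1, e2⟩
  · rw [da] at e1 e2
    rw [e1, e2, hglue] at h3
    linarith
  · rw [da] at e1 e2
    rw [e1, e2, glueDist_comm, hglue] at h3
    linarith

/-- First-order estimate. -/
theorem first_order {A B e w : E2} {r R : ℝ} (hr : 0 < r) (hR : 0 < R) (hA : ‖A‖ = r)
    (hB : ‖B‖ = r) (he : ‖e‖ = 1) (hw : ‖w‖ = 1)
    (H : ∀ t, 0 < t → t ≤ R → 2 * r ≤ ‖A - t • e‖ + ‖B - t • w‖) :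
    inner ℝ A e + inner ℝ B w ≤ 0 := by
  by_contra hcon
  push Not at hcon
  have bound : ∀ (X x : E2) (t : ℝ), ‖X‖ = r → ‖x‖ = 1 → 0 < t → t ≤ r / 2 →
      ‖X - t • x‖ ≤ r - t * inner ℝ X x / r + t ^ 2 / (2 * r) := by
    intro X x t hX hx ht htr
    have hin : inner ℝ X x ≤ r := by
      have := real_inner_le_norm X x
      rw [hX, hx, mul_one] at this; exact this
    have hnn : 0 ≤ r - t * inner ℝ X x / r + t ^ 2 / (2 * r) := by
      have h1 : t * inner ℝ X x / r ≤ t := by
        rw [div_le_iff₀ hr]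
        exact mul_le_mul_of_nonneg_left hin ht.le
      have h2 : 0 ≤ t ^ 2 / (2 * r) := by positivity
      linarith
    apply le_of_sq_le_sq _ hnn
    rw [norm_sub_sq_real, norm_smul, hX, hx, inner_smul_right, Real.norm_of_nonneg ht.le]
    have h3 : (r - t * inner ℝ X x / r + t ^ 2 / (2 * r)) ^ 2 =
        r ^ 2 - 2 * (t * inner ℝ X x) + (t * 1) ^ 2 +
          (t * inner ℝ X x / r - t ^ 2 / (2 * r)) ^ 2 := by
      field_simp
      ring
    rw [h3]
    have := sq_nonneg (t * inner ℝ X x / r - t ^ 2 / (2 * r))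
    linarith
  set c := inner ℝ A e + inner ℝ B w with hc
  set t := min (min R (r / 2)) (c / 2) with ht
  have htpos : 0 < t := by positivity
  have h1 := H t htpos ((min_le_left _ _).trans (min_le_left _ _))
  have h2 := bound A e t hA he htpos ((min_le_left _ _).trans (min_le_right _ _))
  have h3 := bound B w t hB hw htpos ((min_le_left _ _).trans (min_le_right _ _))
  have h4 : t ≤ c / 2 := min_le_right _ _
  have h5 : t * c / r ≤ t ^ 2 / r := by
    have e1 : t * inner ℝ A e / r + t * inner ℝ B w / r = t * c / r := by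
      rw [hc]; ring
    have e2 : t ^ 2 / (2 * r) + t ^ 2 / (2 * r) = t ^ 2 / r := by
      field_simp; ring
    linarith
  rw [div_le_div_iff_of_pos_right hr] at h5
  have h6 : c ≤ t := by nlinarith
  linarith

theorem not_mid_of_extreme (hP : IsConvexPolygon P) (h : IsBoundaryParam P L γ) {s σ : ℝ}
    (hσ : γ σ ∈ P.extremePoints ℝ) (hy : γ (2 * s - σ) ∉ P.extremePoints ℝ) :
    ¬ Mid P L γ s (γ σ) := by
  intro hm
  obtain ⟨r₀, hr₀, hsm⟩ := hm.exists_small hP h (mem_of_param hP h σ)
  obtain ⟨R1, hR1⟩ := exists_chordal hP h σ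
  obtain ⟨R2, hR2⟩ := exists_chordal hP h (2 * s - σ)
  obtain ⟨R3, hR3, w, hw, hsw⟩ := exists_straight_of_not_extreme hP h hy
  obtain ⟨R4, hR4, u, hu, hsu⟩ := exists_straight_right hP h σ
  obtain ⟨R5, hR5, v, hv, hsv⟩ := exists_straight_left hP h σ
  set v₀ := γ σ with hv₀
  set y₀ := γ (2 * s - σ) with hy₀
  have hvP : v₀ ∈ P := mem_of_param hP h σ
  have hyP : y₀ ∈ P := mem_of_param hP h _
  have hvy0 : glueDist P L γ s v₀ y₀ = 0 := glueDist_partner hP h s σ
  set R := min (min R1 R2) (min R3 (min R4 R5)) with hR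
  have hRpos : 0 < R := by
    have := hR1.1
    have := hR2.1
    positivity
  have l1 : R ≤ R1 := (min_le_left _ _).trans (min_le_left _ _)
  have l2 : R ≤ R2 := (min_le_left _ _).trans (min_le_right _ _)
  have l3 : R ≤ R3 := (min_le_right _ _).trans (min_le_left _ _)
  have l4 : R ≤ R4 := (min_le_right _ _).trans ((min_le_right _ _).trans (min_le_left _ _))
  have l5 : R ≤ R5 := (min_le_right _ _).trans ((min_le_right _ _).trans (min_le_right _ _))
  have c1 := hR1.mono hRpos l1
  have c2 := hR2.mono hRpos l2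
  set ρ := min r₀ (R / 2) with hρ
  have hρpos : 0 < ρ := lt_min hr₀ (by linarith)
  have hρR : ρ < R := by
    have := min_le_right r₀ (R / 2)
    linarith
  obtain ⟨a, ha, b, hb, h1, h2, h3⟩ := hsm ρ hρpos (min_le_left _ _)
  -- a point at glued distance `ρ` is at distance `ρ` from `v₀` or from `y₀`
  have hexact : ∀ q ∈ P, glueDist P L γ s q v₀ = ρ → dist q v₀ = ρ ∨ dist q y₀ = ρ := by
    intro q hq hqd
    have e1 := le_glueDist_boundary hP h c1 c2 hq
    have e2 := glueDist_le (L := L) (γ := γ) (s := s) hq hvP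
    have e3 := glueDist_le (L := L) (γ := γ) (s := s) hq hyP
    rw [← glueDist_congr_right hq hvP hyP hvy0] at e3
    rw [← hv₀, hqd] at e1
    rw [hqd] at e2 e3
    rcases min_le_iff.1 e1 with e4 | e4
    · linarith
    · rcases min_le_iff.1 e4 with e5 | e5
      · left; linarith
      · right; linarith
  have hab := glueDist_le (L := L) (γ := γ) (s := s) ha hb
  have hne : a ≠ b := by
    rintro rfl
    rw [glueDist_self ha] at h3
    linarith
  -- an extreme point is not the midpoint of two different points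
  have hext : ∀ x ∈ P, ∀ z ∈ P, x ≠ z → v₀ ≠ midpoint ℝ x z := by
    intro x hx z hz hxz hmid
    rw [mem_extremePoints] at hσ
    have hopen : v₀ ∈ openSegment ℝ x z := by
      rw [hmid]
      refine ⟨1 / 2, 1 / 2, by norm_num, by norm_num, by norm_num, ?_⟩
      rw [midpoint_eq_smul_add]
      simp only [invOf_eq_inv]
      module
    obtain ⟨e1, e2⟩ := hσ.2 x hx z hz hopen
    exact hxz (e1.trans e2.symm)
  -- mixed case
  have hmixed : ∀ a ∈ P, ∀ b ∈ P, dist a v₀ = ρ → dist b y₀ = ρ →
      2 * ρ ≤ glueDist P L γ s a b → False := by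
    intro a ha b hb da db hab2
    have hAn : ‖a - v₀‖ = ρ := by rw [← dist_eq_norm]; exact da
    have hBn : ‖b - y₀‖ = ρ := by rw [← dist_eq_norm]; exact db
    have f1 : inner ℝ (a - v₀) u + inner ℝ (b - y₀) (-w) ≤ 0 := by
      apply first_order hρpos hRpos hAn hBn hu (by rw [norm_neg, hw])
      intro t ht htR
      have e1 := hsu t ht.le (htR.trans l4)
      have e2 := hsw (-t) (by rw [abs_neg, abs_of_pos ht]; exact htR.trans l3)
      have e3 := glueDist_partner hP h s (σ + t)
      have e4 : 2 * s - (σ + t) = 2 * s - σ + -t := by ring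
      rw [e4] at e3
      have m1 := mem_of_param hP h (σ + t)
      have m2 := mem_of_param hP h (2 * s - σ + -t)
      have t1 := glueDist_triangle (L := L) (γ := γ) (s := s) ha m1 hb
      have t2 := glueDist_triangle (L := L) (γ := γ) (s := s) m1 m2 hb
      have t3 := glueDist_le (L := L) (γ := γ) (s := s) ha m1
      have t4 := glueDist_le (L := L) (γ := γ) (s := s) m2 hb
      have n1 : dist a (γ (σ + t)) = ‖(a - v₀) - t • u‖ := by
        rw [e1, dist_eq_norm]; congr 1; abel
      have n2 : dist (γ (2 * s - σ + -t)) b = ‖(b - y₀) - t • (-w)‖ := by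
        rw [e2, dist_comm, dist_eq_norm]; congr 1; module
      rw [n1] at t3
      rw [n2] at t4
      linarith
    have f2 : inner ℝ (a - v₀) v + inner ℝ (b - y₀) w ≤ 0 := by
      apply first_order hρpos hRpos hAn hBn hv hw
      intro t ht htR
      have e1 := hsv t ht.le (htR.trans l5)
      have e2 := hsw t (by rw [abs_of_pos ht]; exact htR.trans l3)
      have e3 := glueDist_partner hP h s (σ - t)
      have e4 : 2 * s - (σ - t) = 2 * s - σ + t := by ring
      rw [e4] at e3
      have m1 := mem_of_param hP h (σ - t)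
      have m2 := mem_of_param hP h (2 * s - σ + t)
      have t1 := glueDist_triangle (L := L) (γ := γ) (s := s) ha m1 hb
      have t2 := glueDist_triangle (L := L) (γ := γ) (s := s) m1 m2 hb
      have t3 := glueDist_le (L := L) (γ := γ) (s := s) ha m1
      have t4 := glueDist_le (L := L) (γ := γ) (s := s) m2 hb
      have n1 : dist a (γ (σ - t)) = ‖(a - v₀) - t • v‖ := by
        rw [e1, dist_eq_norm]; congr 1; abel
      have n2 : dist (γ (2 * s - σ + t)) b = ‖(b - y₀) - t • w‖ := by
        rw [e2, dist_comm, dist_eq_norm]; congr 1; module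
      rw [n1] at t3
      rw [n2] at t4
      linarith
    have hane : a ≠ γ σ := by
      rintro rfl
      rw [dist_self] at da
      linarith
    have hcone := extreme_cone hP h hσ hRpos hu hv (fun t ht0 htR => hsu t ht0 (htR.trans l4))
      (fun t ht0 htR => hsv t ht0 (htR.trans l5)) ha hane
    rw [inner_add_right] at hcone
    rw [inner_neg_right] at f1
    linarith
  rcases hexact a ha h1 with da | da <;> rcases hexact b hb h2 with db | db
  · -- both near `v₀`
    have htri := dist_triangle a v₀ b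
    rw [da, dist_comm v₀ b, db] at htri
    have dab : dist a b = 2 * ρ := by linarith
    have hmid : v₀ = midpoint ℝ a b := by
      apply eq_midpoint_of_dist_eq_half
      · rw [da, dab]; ring
      · rw [dist_comm, db, dab]; ring
    exact hext a ha b hb hne hmid
  · exact hmixed a ha b hb da db h3
  · exact hmixed b hb a ha db da (by rw [glueDist_comm]; exact h3)
  · -- both near `y₀`
    have htri := dist_triangle a y₀ b
    rw [da, dist_comm y₀ b, db] at htri
    have dab : dist a b = 2 * ρ := by linarith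
    have hmid : y₀ = midpoint ℝ a b := by
      apply eq_midpoint_of_dist_eq_half
      · rw [da, dab]; ring
      · rw [dist_comm, db, dab]; ring
    -- the partners near `v₀`
    have hpart : glueDist P L γ s (γ (2 * s - σ + ρ)) (γ (2 * s - σ - ρ)) ≤
        dist (γ (σ - ρ)) (γ (σ + ρ)) := by
      have g1 := glueDist_partner hP h s (2 * s - σ + ρ)
      have g2 := glueDist_partner hP h s (2 * s - σ - ρ)
      have e1 : 2 * s - (2 * s - σ + ρ) = σ - ρ := by ring
      have e2 : 2 * s - (2 * s - σ - ρ) = σ + ρ := by ring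
      rw [e1] at g1
      rw [e2] at g2
      rw [glueDist_congr_left (mem_of_param hP h _) (mem_of_param hP h _) (mem_of_param hP h _) g1,
        glueDist_congr_right (mem_of_param hP h _) (mem_of_param hP h _) (mem_of_param hP h _) g2]
      exact glueDist_le (mem_of_param hP h _) (mem_of_param hP h _)
    have hle : 2 * ρ ≤ dist (γ (σ - ρ)) (γ (σ + ρ)) := by
      rw [dist_comm] at da
      rcases flat_param hP h ha hb hne hmid with ⟨e1, e2⟩ | ⟨e1, e2⟩
      · rw [← hy₀, da] at e1 e2
        rw [e1, e2] at h3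
        exact h3.trans hpart
      · rw [← hy₀, da] at e1 e2
        rw [e1, e2, glueDist_comm] at h3
        exact h3.trans hpart
    have d1 : dist (γ (σ - ρ)) v₀ = ρ := by
      rw [hsv ρ hρpos.le (hρR.le.trans l5), dist_eq_norm, add_sub_cancel_left, norm_smul, hv,
        mul_one, Real.norm_of_nonneg hρpos.le]
    have d2 : dist v₀ (γ (σ + ρ)) = ρ := by
      rw [hsu ρ hρpos.le (hρR.le.trans l4), dist_comm, dist_eq_norm, add_sub_cancel_left,
        norm_smul, hu, mul_one, Real.norm_of_nonneg hρpos.le]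
    have htri2 := dist_triangle (γ (σ - ρ)) v₀ (γ (σ + ρ))
    rw [d1, d2] at htri2
    have d3 : dist (γ (σ - ρ)) (γ (σ + ρ)) = 2 * ρ := by linarith
    have hmid2 : v₀ = midpoint ℝ (γ (σ - ρ)) (γ (σ + ρ)) := by
      apply eq_midpoint_of_dist_eq_half
      · rw [d1, d3]; ring
      · rw [d2, d3]; ring
    refine hext _ (mem_of_param hP h _) _ (mem_of_param hP h _) ?_ hmid2
    intro hh
    rw [hh, dist_self] at d3
    linarith

end Pool.Agent.Helper22.Fold
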