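import Pool.Agent.Helper22.FoldMid

set_option autoImplicit false

open Set Filter
open scoped ENNReal Topology

namespace Pool.Agent.Helper22.Fold

variable {P : Set E2} {L : ℝ} {γ : ℝ → E2}

/-- A map that preserves small distances on a convex set preserves all distances. -/
theorem dist_eq_of_local {K : Set E2} (hK : Convex ℝ K) {φ : E2 → E2} {η : ℝ} (hη : 0 < η)
    (hφ : ∀ p ∈ K, ∀ q ∈ K, dist p q ≤ η → dist (φ p) (φ q) = dist p q)
    {p q : E2} (hp : p ∈ K) (hq : q ∈ K) : dist (φ p) (φ q) = dist p q := by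
  obtain ⟨n, hn⟩ := exists_nat_gt (2 * dist p q / η)
  have hdnn : (0:ℝ) ≤ dist p q := dist_nonneg
  have hnpos : (0:ℝ) < n := lt_of_le_of_lt (by positivity) hn
  have hn0 : n ≠ 0 := by rintro rfl; simp at hnpos
  have hdn : 2 * (dist p q / n) ≤ η := by
    rw [div_lt_iff₀ hη] at hn
    rw [← mul_div_assoc, div_le_iff₀ hnpos]
    linarith
  let z : ℕ → E2 := fun i => AffineMap.lineMap p q ((i : ℝ) / n)
  have hz : ∀ i, i ≤ n → z i ∈ K := by
    intro i hi
    have hi' : (i:ℝ) ≤ n := by exact_mod_cast hi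
    exact hK.lineMap_mem hp hq ⟨by positivity, by rw [div_le_one hnpos]; exact hi'⟩
  have hzd : ∀ i j : ℕ, dist (z i) (z j) = |(i:ℝ) - j| * (dist p q / n) := by
    intro i j
    show dist (AffineMap.lineMap p q ((i : ℝ) / n)) (AffineMap.lineMap p q ((j : ℝ) / n)) = _
    rw [dist_lineMap_lineMap, Real.dist_eq, ← sub_div, abs_div, abs_of_pos hnpos]
    ring
  have hstep : ∀ i, i + 1 ≤ n → dist (φ (z i)) (φ (z (i + 1))) = dist p q / n := by
    intro i hi
    have e := hzd i (i + 1)
    have e2 : |(i:ℝ) - ((i + 1 : ℕ) : ℝ)| = 1 := by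
      push_cast
      rw [sub_add_cancel_left, abs_neg, abs_one]
    rw [e2, one_mul] at e
    rw [hφ _ (hz i (by omega)) _ (hz _ hi) (by rw [e]; linarith [div_nonneg hdnn hnpos.le]), e]
  have hstep2 : ∀ i, i + 2 ≤ n → dist (φ (z i)) (φ (z (i + 2))) = 2 * (dist p q / n) := by
    intro i hi
    have e := hzd i (i + 2)
    have e2 : |(i:ℝ) - ((i + 2 : ℕ) : ℝ)| = 2 := by
      push_cast
      rw [sub_add_cancel_left, abs_neg, abs_two]
    rw [e2] at e
    rw [hφ _ (hz i (by omega)) _ (hz _ hi) (by rw [e]; exact hdn), e]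
  have hrec : ∀ i, i + 1 ≤ n → φ (z (i + 1)) - φ (z i) = φ (z 1) - φ (z 0) := by
    intro i
    induction i with
    | zero => intro _; rfl
    | succ i ih =>
      intro hi
      have h1 := ih (by omega)
      have hmid : φ (z (i + 1)) = midpoint ℝ (φ (z i)) (φ (z (i + 1 + 1))) := by
        apply eq_midpoint_of_dist_eq_half
        · rw [hstep i (by omega), hstep2 i (by omega)]; ring
        · rw [hstep (i + 1) (by omega), hstep2 i (by omega)]; ring
      rw [← h1]
      rw [midpoint_eq_smul_add] at hmid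
      simp only [invOf_eq_inv] at hmid
      have h2 : (2:ℝ) • φ (z (i + 1)) = φ (z i) + φ (z (i + 1 + 1)) := by
        rw [hmid, smul_smul]; norm_num
      have h3 : φ (z (i + 1 + 1)) = (2:ℝ) • φ (z (i + 1)) - φ (z i) := by rw [h2]; abel
      rw [h3, two_smul]; abel
  have hall : ∀ i, i ≤ n → φ (z i) = φ (z 0) + (i : ℝ) • (φ (z 1) - φ (z 0)) := by
    intro i
    induction i with
    | zero => intro _; simp
    | succ i ih =>
      intro hi
      have h1 := ih (by omega)
      have h2 := hrec i hi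
      have h3 : φ (z (i + 1)) = φ (z i) + (φ (z 1) - φ (z 0)) := by rw [← h2]; abel
      rw [h3, h1]
      push_cast
      module
  have hz0 : z 0 = p := by show AffineMap.lineMap p q (((0:ℕ) : ℝ) / n) = p; simp
  have hzn : z n = q := by
    show AffineMap.lineMap p q ((n : ℝ) / n) = q
    rw [div_self hnpos.ne']; simp
  have h1 := hall n le_rfl
  rw [hzn, hz0] at h1
  have h2 := hstep 0 (by omega)
  rw [hz0] at h2
  rw [h1, dist_eq_norm, sub_add_cancel_left, norm_neg, norm_smul, Real.norm_of_nonneg hnpos.le,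
    ← dist_eq_norm, dist_comm, h2]
  field_simp

/-- Propagation of distances to a point along a segment. -/
theorem propagate {K : Set E2} (hK : Convex ℝ K) {φ : E2 → E2}
    (hφ : ∀ p ∈ K, ∀ q ∈ K, dist (φ p) (φ q) = dist p q)
    {p q a b : E2} (hp : p ∈ K) (hq : q ∈ K) {t : ℝ} (ht0 : 0 < t) (ht1 : t ≤ 1)
    (h1 : dist (φ q) b = dist q a)
    (h2 : dist (φ (AffineMap.lineMap q p t)) b = dist (AffineMap.lineMap q p t) a) :
    dist (φ p) b = dist p a := by
  set m := AffineMap.lineMap q p t with hm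
  have hmK : m ∈ K := hK.lineMap_mem hq hp ⟨ht0.le, ht1⟩
  -- `φ m` divides the segment in the same ratio
  have hφm : φ m = AffineMap.lineMap (φ q) (φ p) t := by
    have e1 := hφ q hq m hmK
    have e2 := hφ m hmK p hp
    have e3 := hφ q hq p hp
    have e4 : dist q m = t * dist q p := by
      rw [hm, dist_left_lineMap, Real.norm_of_nonneg ht0.le]
    have e5 : dist m p = (1 - t) * dist q p := by
      rw [hm, dist_lineMap_right, Real.norm_of_nonneg (by linarith)]
    have hw : Wbtw ℝ (φ q) (φ m) (φ p) := by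
      rw [← dist_add_dist_eq_iff, e1, e2, e3, e4, e5]; ring
    obtain ⟨c, hc, hce⟩ := hw
    rcases eq_or_ne q p with hqp | hqp
    · have : m = q := by rw [hm, hqp]; simp
      rw [this, hqp]; simp
    · have h5 : dist (φ q) (φ m) = c * dist (φ q) (φ p) := by
        rw [← hce, dist_left_lineMap, Real.norm_of_nonneg hc.1]
      rw [e1, e3, e4] at h5
      have h6 : c = t := (mul_right_cancel₀ (dist_pos.2 hqp).ne' h5).symm
      rw [← hce, h6]
  rw [hφm] at h2
  have s1 : ‖φ q - b‖ ^ 2 = ‖q - a‖ ^ 2 := by rw [← dist_eq_norm, ← dist_eq_norm, h1]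
  have s2 : ‖AffineMap.lineMap (φ q) (φ p) t - b‖ ^ 2 = ‖m - a‖ ^ 2 := by
    rw [← dist_eq_norm, ← dist_eq_norm, h2]
  have s3 : ‖φ p - φ q‖ ^ 2 = ‖p - q‖ ^ 2 := by
    rw [← dist_eq_norm, ← dist_eq_norm, hφ p hp q hq]
  have s4 : ‖φ p - b‖ ^ 2 = ‖p - a‖ ^ 2 := by
    have e1 : AffineMap.lineMap (φ q) (φ p) t - b = (φ q - b) + t • (φ p - φ q) := by
      rw [AffineMap.lineMap_apply_module']; abel
    have e2 : m - a = (q - a) + t • (p - q) := by
      rw [hm, AffineMap.lineMap_apply_module']; abel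
    have e3 : φ p - b = (φ q - b) + (φ p - φ q) := by abel
    have e4 : p - a = (q - a) + (p - q) := by abel
    rw [e1, e2, norm_add_sq_real, norm_add_sq_real, norm_smul, norm_smul, inner_smul_right,
      inner_smul_right, mul_pow, mul_pow, s3, s1] at s2
    rw [e3, e4, norm_add_sq_real, norm_add_sq_real, s3, s1]
    have : t * inner ℝ (φ q - b) (φ p - φ q) = t * inner ℝ (q - a) (p - q) := by linarith
    have := mul_left_cancel₀ ht0.ne' this
    linarith
  rw [dist_eq_norm, dist_eq_norm]
  exact (sq_eq_sq₀ (norm_nonneg _) (norm_nonneg _)).1 s4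

/-- The data of a shrunken copy of `P`. -/
theorem exists_shrink (hP : IsConvexPolygon P) (h : IsBoundaryParam P L γ) {ε : ℝ} (hε : 0 < ε) :
    ∃ K : Set E2, Convex ℝ K ∧ K ⊆ P ∧ (∃ δ > 0, ∀ p ∈ K, ∀ t, δ ≤ dist (γ t) p) ∧
      (interior K).Nonempty ∧ ∀ v ∈ P, ∃ q ∈ K, dist q v < ε := by
  obtain ⟨c, hc⟩ := hP.2
  obtain ⟨r, hr, hball⟩ := Metric.isOpen_iff.1 isOpen_interior c hc
  have hcP : c ∈ P := interior_subset hc
  obtain ⟨M, hM⟩ := hP.isCompact.isBounded.exists_norm_le
  have hMnn : 0 ≤ M := (norm_nonneg _).trans (hM c hcP)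
  set η := min (1 / 2) (ε / (4 * (M + 1))) with hη
  have hηpos : 0 < η := by positivity
  have hη1 : η ≤ 1 / 2 := min_le_left _ _
  have hηM : η * (2 * M) < ε := by
    have h1 : η ≤ ε / (4 * (M + 1)) := min_le_right _ _
    have h2 : η * (2 * M) ≤ ε / (4 * (M + 1)) * (2 * M) := by gcongr
    have h3 : ε / (4 * (M + 1)) * (2 * M) < ε := by
      rw [div_mul_eq_mul_div, div_lt_iff₀ (by positivity)]
      nlinarith
    linarith
  set K : Set E2 := (fun x => c + (1 - η) • (x - c)) '' P with hK
  have hin : ∀ p ∈ K, ∀ z, ‖z‖ < η * r → p + z ∈ P := by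
    rintro _ ⟨x, hx, rfl⟩ z hz
    have h1 : c + η⁻¹ • z ∈ P := by
      apply interior_subset
      apply hball
      rw [Metric.mem_ball, dist_eq_norm, add_sub_cancel_left, norm_smul, norm_inv,
        Real.norm_of_nonneg hηpos.le, inv_mul_lt_iff₀ hηpos]
      exact hz
    have h2 : c + (1 - η) • (x - c) + z = (1 - η) • x + η • (c + η⁻¹ • z) := by
      rw [smul_add, smul_smul, mul_inv_cancel₀ hηpos.ne', one_smul]
      module
    show c + (1 - η) • (x - c) + z ∈ P
    rw [h2]
    exact hP.convex hx h1 (by linarith) hηpos.le (by ring)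
  refine ⟨K, ?_, ?_, ⟨η * r, by positivity, ?_⟩, ?_, ?_⟩
  · rintro _ ⟨x, hx, rfl⟩ _ ⟨y, hy, rfl⟩ a b ha hb hab
    refine ⟨a • x + b • y, hP.convex hx hy ha hb hab, ?_⟩
    have hb' : b = 1 - a := by linarith
    subst hb'
    show c + (1 - η) • (a • x + (1 - a) • y - c) =
      a • (c + (1 - η) • (x - c)) + (1 - a) • (c + (1 - η) • (y - c))
    module
  · intro p hp
    simpa using hin p hp 0 (by simpa using by positivity)
  · intro p hp t
    by_contra hcon
    push Not at hcon
    -- the ball is contained in `P`, hence in the interior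
    have hsub : Metric.ball p (η * r) ⊆ P := by
      intro y hy
      rw [Metric.mem_ball, dist_eq_norm] at hy
      have := hin p hp (y - p) hy
      simpa using this
    have hint : γ t ∈ interior P :=
      (interior_maximal hsub Metric.isOpen_ball) hcon
    exact (h.mem_frontier t).2 hint
  · refine ⟨c, ?_⟩
    rw [mem_interior]
    refine ⟨Metric.ball c ((1 - η) * r), ?_, Metric.isOpen_ball,
      Metric.mem_ball_self (by nlinarith)⟩
    intro y hy
    have h1η : 0 < 1 - η := by linarith
    refine ⟨c + (1 - η)⁻¹ • (y - c), ?_, ?_⟩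
    · apply interior_subset
      apply hball
      rw [Metric.mem_ball, dist_eq_norm] at hy
      rw [Metric.mem_ball, dist_eq_norm, add_sub_cancel_left, norm_smul, norm_inv,
        Real.norm_of_nonneg h1η.le, inv_mul_lt_iff₀ h1η]
      exact hy
    · show c + (1 - η) • (c + (1 - η)⁻¹ • (y - c) - c) = y
      rw [add_sub_cancel_left, smul_smul, mul_inv_cancel₀ h1η.ne', one_smul]
      abel
  · intro v hv
    refine ⟨c + (1 - η) • (v - c), ⟨v, hv, rfl⟩, ?_⟩
    rw [dist_eq_norm]
    have h1 : c + (1 - η) • (v - c) - v = η • (c - v) := by module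
    rw [h1, norm_smul, Real.norm_of_nonneg hηpos.le]
    have h2 : ‖c - v‖ ≤ 2 * M := by
      have := norm_sub_le c v
      have h3 := hM c hcP
      have h4 := hM v hv
      linarith
    calc η * ‖c - v‖ ≤ η * (2 * M) := by gcongr
      _ < ε := hηM

theorem extremePoints_finite (hP : IsConvexPolygon P) : (P.extremePoints ℝ).Finite := by
  obtain ⟨⟨V, hV, rfl⟩, -⟩ := hP
  exact hV.subset extremePoints_convexHull_subset

/-- Exact distances near an extreme point, uniformly for gluings near a generic one. -/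
theorem exact_near_extreme (hP : IsConvexPolygon P) (h : IsBoundaryParam P L γ) {s₀ σ : ℝ}
    (h1 : γ σ ∈ P.extremePoints ℝ) (h2 : γ (2 * s₀ - σ) ∉ P.extremePoints ℝ) :
    ∃ ε > 0, ∀ s, |s - s₀| < ε → ∀ q ∈ P, dist q (γ σ) < ε →
      glueDist P L γ s q (γ σ) = dist q (γ σ) := by
  obtain ⟨δ, hδ, R1, hR1, hc⟩ := exists_uniform_chordal hP h h2
  obtain ⟨R2, hR2⟩ := exists_chordal hP h σ
  set D := dist (γ σ) (γ (2 * s₀ - σ)) with hD
  have hDpos : 0 < D := by
    apply dist_pos.2
    intro hh
    exact h2 (hh ▸ h1)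
  set R := min R1 R2 with hR
  have hRpos : 0 < R := lt_min hR1 hR2.1
  set ε := min (min (δ / 2) R) (D / 4) with hε
  have hεpos : 0 < ε := by positivity
  have e1 : ε ≤ δ / 2 := (min_le_left _ _).trans (min_le_left _ _)
  have e2 : ε ≤ R := (min_le_left _ _).trans (min_le_right _ _)
  have e3 : ε ≤ D / 4 := min_le_right _ _
  refine ⟨ε, hεpos, fun s hs q hq hqd => ?_⟩
  have hs2 : |(2 * s - σ) - (2 * s₀ - σ)| < 2 * ε := by
    have : (2 * s - σ) - (2 * s₀ - σ) = 2 * (s - s₀) := by ring
    rw [this, abs_mul, abs_two]; linarith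
  have c1 : Chordal L γ (2 * s - σ) R := (hc _ (by linarith)).mono hRpos (min_le_left _ _)
  have c2 : Chordal L γ σ R := hR2.mono hRpos (min_le_right _ _)
  have hlow := le_glueDist_boundary hP h c2 c1 hq
  have hfar : dist q (γ σ) ≤ dist q (γ (2 * s - σ)) := by
    have t1 := dist_triangle (γ σ) q (γ (2 * s₀ - σ))
    have t2 := dist_triangle q (γ (2 * s - σ)) (γ (2 * s₀ - σ))
    have t3 := h.lip (2 * s - σ) (2 * s₀ - σ)
    rw [dist_comm (γ σ) q] at t1
    linarith
  rw [min_eq_left hfar, min_eq_right (by linarith)] at hlow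
  exact le_antisymm (glueDist_le hq (mem_of_param hP h σ)) hlow

/-- Exact distances near the folding point. -/
theorem exact_near_fold (hP : IsConvexPolygon P) (h : IsBoundaryParam P L γ) {s₀ : ℝ}
    (h1 : γ s₀ ∉ P.extremePoints ℝ) :
    ∃ ε > 0, ∀ s, |s - s₀| < ε → ∀ q ∈ P, dist q (γ s₀) < ε →
      glueDist P L γ s q (γ s) = dist q (γ s) := by
  obtain ⟨δ, hδ, R, hR, hc⟩ := exists_uniform_chordal hP h h1
  refine ⟨min (δ / 2) (R / 2), by positivity, fun s hs q hq hqd => ?_⟩
  have e1 : min (δ / 2) (R / 2) ≤ δ / 2 := min_le_left _ _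
  have e2 : min (δ / 2) (R / 2) ≤ R / 2 := min_le_right _ _
  have c1 := hc s (by linarith)
  have e3 : 2 * s - s = s := by ring
  have hlow := le_glueDist_boundary (s := s) hP h c1 (by rw [e3]; exact c1) hq
  rw [e3, min_self] at hlow
  have hd : dist q (γ s) < R := by
    have t1 := dist_triangle q (γ s₀) (γ s)
    have t2 := h.lip s₀ s
    rw [abs_sub_comm] at t2
    linarith
  rw [min_eq_right hd.le] at hlow
  exact le_antisymm (glueDist_le hq (mem_of_param hP h s)) hlow

/-- Rigidity: near a generic gluing, an isometry close to the identity that respects the marked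
points exists only between equal gluings. -/
theorem rigid (hP : IsConvexPolygon P) (h : IsBoundaryParam P L γ) {s₀ : ℝ}
    (h1 : γ s₀ ∉ P.extremePoints ℝ)
    (h2 : ∀ σ, γ σ ∈ P.extremePoints ℝ → γ (2 * s₀ - σ) ∉ P.extremePoints ℝ) :
    ∃ ε > 0, ∀ s s', |s - s₀| < ε → |s' - s₀| < ε → ∀ φ : E2 → E2, (∀ p ∈ P, φ p ∈ P) →
      (∀ p ∈ P, ∀ q ∈ P, glueDist P L γ s' (φ p) (φ q) = glueDist P L γ s p q) →
      (∀ p ∈ P, glueDist P L γ s' (φ p) p ≤ ε) →
      (∀ p ∈ P, glueDist P L γ s' (φ p) (γ s') = glueDist P L γ s p (γ s)) →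
      (∀ v ∈ P.extremePoints ℝ, ∀ p ∈ P, glueDist P L γ s' (φ p) v = glueDist P L γ s p v) →
      γ s = γ s' := by
  -- a common scale
  have hscale : ∃ ε > 0, (∀ v ∈ P.extremePoints ℝ, ∀ s, |s - s₀| < ε → ∀ q ∈ P, dist q v < ε →
      glueDist P L γ s q v = dist q v) ∧
      (∀ s, |s - s₀| < ε → ∀ q ∈ P, dist q (γ s₀) < ε →
        glueDist P L γ s q (γ s) = dist q (γ s)) := by
    have hev : ∀ v ∈ P.extremePoints ℝ, ∀ᶠ ε in 𝓝[>] (0:ℝ), ∀ s, |s - s₀| < ε → ∀ q ∈ P,
        dist q v < ε → glueDist P L γ s q v = dist q v := by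
      intro v hv
      have hvf : v ∈ frontier P := by
        rw [hP.isClosed.frontier_eq]
        refine ⟨hv.1, fun hvi => ?_⟩
        -- an interior point is not extreme
        obtain ⟨δ, hδ, hball⟩ := Metric.isOpen_iff.1 isOpen_interior v hvi
        set e : E2 := EuclideanSpace.single 0 1 with he
        have hen : ‖e‖ = 1 := by rw [he]; simp
        have m1 : v + (δ / 2) • e ∈ P := by
          apply interior_subset; apply hball
          rw [Metric.mem_ball, dist_eq_norm, add_sub_cancel_left, norm_smul, hen, mul_one,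
            Real.norm_of_nonneg (by positivity)]
          linarith
        have m2 : v - (δ / 2) • e ∈ P := by
          apply interior_subset; apply hball
          rw [Metric.mem_ball, dist_eq_norm, sub_sub_cancel_left, norm_neg, norm_smul, hen,
            mul_one, Real.norm_of_nonneg (by positivity)]
          linarith
        rw [mem_extremePoints] at hv
        have hop : v ∈ openSegment ℝ (v + (δ / 2) • e) (v - (δ / 2) • e) := by
          refine ⟨1 / 2, 1 / 2, by norm_num, by norm_num, by norm_num, ?_⟩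
          module
        have := (hv.2 _ m1 _ m2 hop).1
        have h0 : (δ / 2) • e = 0 := by simpa using this
        have h3 : ‖(δ / 2) • e‖ = δ / 2 := by
          rw [norm_smul, hen, mul_one, Real.norm_of_nonneg (by positivity)]
        rw [h0, norm_zero] at h3
        linarith
      obtain ⟨σ, hσ⟩ := h.exists_eq hvf
      obtain ⟨ε, hε, hex⟩ := exact_near_extreme hP h (s₀ := s₀) (σ := σ) (hσ ▸ hv)
        (h2 σ (hσ ▸ hv))
      rw [hσ] at hex
      filter_upwards [Ioo_mem_nhdsGT hε] with ε' hε' s hs q hq hqd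
      exact hex s (hs.trans hε'.2) q hq (hqd.trans hε'.2)
    have hev2 := (eventually_all_finite (extremePoints_finite hP)).2 hev
    obtain ⟨ε2, hε2, hex2⟩ := exact_near_fold hP h h1
    obtain ⟨ε, hε, hεpos⟩ := ((hev2.and (Ioo_mem_nhdsGT hε2)).exists)
    exact ⟨ε, hεpos.1, hε, fun s hs q hq hqd =>
      hex2 s (hs.trans hεpos.2) q hq (hqd.trans hεpos.2)⟩
  obtain ⟨ε1, hε1, hexv, hexf⟩ := hscale
  obtain ⟨K, hKc, hKP, ⟨δ, hδ, hKδ⟩, hKint, hKnear⟩ := exists_shrink hP h (ε := ε1 / 4)
    (by positivity)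
  set ε := min (δ / 8) (ε1 / 4) with hε
  have hεpos : 0 < ε := by positivity
  have hεδ : ε ≤ δ / 8 := min_le_left _ _
  have hεε : ε ≤ ε1 / 4 := min_le_right _ _
  refine ⟨ε, hεpos, fun s s' hs hs' φ hφP hφd hφid hφf hφv => ?_⟩
  -- closeness to the identity
  have hclose : ∀ p ∈ K, dist (φ p) p ≤ ε := by
    intro p hp
    have := le_glueDist_interior (L := L) (γ := γ) (s := s') (hKP hp) hδ.le (hKδ p hp)
      (hφP p (hKP hp))
    rcases min_le_iff.1 (this.trans (hφid p (hKP hp))) with h3 | h3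
    · linarith
    · exact h3
  -- local isometry
  have hloc : ∀ p ∈ K, ∀ q ∈ K, dist p q ≤ δ / 4 → dist (φ p) (φ q) = dist p q := by
    intro p hp q hq hpq
    have e1 : glueDist P L γ s p q = dist p q := by
      apply le_antisymm (glueDist_le (hKP hp) (hKP hq))
      have := le_glueDist_interior (L := L) (γ := γ) (s := s) (hKP hq) hδ.le (hKδ q hq) (hKP hp)
      rwa [min_eq_right (by linarith)] at this
    have e2 := hφd p (hKP hp) q (hKP hq)
    rw [e1] at e2
    have e3 : ∀ t, δ - ε ≤ dist (γ t) (φ q) := by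
      intro t
      have t1 := hKδ q hq t
      have t2 := dist_triangle (γ t) (φ q) q
      have t3 := hclose q hq
      linarith
    have e4 := le_glueDist_interior (L := L) (γ := γ) (s := s') (hφP q (hKP hq))
      (by linarith) e3 (hφP p (hKP hp))
    rw [e2] at e4
    have e5 := glueDist_le (L := L) (γ := γ) (s := s') (hφP p (hKP hp)) (hφP q (hKP hq))
    rw [e2] at e5
    rcases min_le_iff.1 e4 with h3 | h3
    · linarith
    · exact le_antisymm h3 e5
  have hiso : ∀ p ∈ K, ∀ q ∈ K, dist (φ p) (φ q) = dist p q := fun p hp q hq =>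
    dist_eq_of_local hKc (by positivity) hloc hp hq
  -- propagation
  have hprop : ∀ a b : E2, ∀ w ∈ P, (∀ m ∈ K, dist m w < ε1 / 2 → dist (φ m) b = dist m a) →
      ∀ p ∈ K, dist (φ p) b = dist p a := by
    intro a b w hw hm p hp
    obtain ⟨q, hq, hqd⟩ := hKnear w hw
    -- a small parameter
    set N := dist q p with hN
    have hNnn : 0 ≤ N := dist_nonneg
    set t := min 1 (ε1 / (4 * (N + 1))) with ht
    have htpos : 0 < t := by positivity
    have ht1 : t ≤ 1 := min_le_left _ _
    have htN : t * N < ε1 / 4 := by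
      have h3 : t ≤ ε1 / (4 * (N + 1)) := min_le_right _ _
      have h4 : t * N ≤ ε1 / (4 * (N + 1)) * N := by gcongr
      have h5 : ε1 / (4 * (N + 1)) * N < ε1 / 4 := by
        rw [div_mul_eq_mul_div, div_lt_div_iff₀ (by positivity) (by norm_num)]
        nlinarith
      linarith
    have hmK : AffineMap.lineMap q p t ∈ K := hKc.lineMap_mem hq hp ⟨htpos.le, ht1⟩
    have hmd : dist (AffineMap.lineMap q p t) w < ε1 / 2 := by
      have t1 := dist_triangle (AffineMap.lineMap q p t) q w
      have t2 : dist (AffineMap.lineMap q p t) q = t * N := by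
        rw [dist_lineMap_left, Real.norm_of_nonneg htpos.le]
      linarith
    exact propagate hKc hiso hp hq htpos ht1 (hm q hq (by linarith)) (hm _ hmK hmd)
  have hεε1 : ε < ε1 := by linarith
  have hvert : ∀ v ∈ P.extremePoints ℝ, ∀ p ∈ K, dist (φ p) v = dist p v := by
    intro v hv
    apply hprop v v v hv.1
    intro m hm hmd
    have t1 := hclose m hm
    have t2 := dist_triangle (φ m) m v
    rw [← hexv v hv s (by linarith) m (hKP hm) (by linarith),
      ← hexv v hv s' (by linarith) (φ m) (hφP m (hKP hm)) (by linarith)]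
    exact hφv v hv m (hKP hm)
  have hfold : ∀ p ∈ K, dist (φ p) (γ s') = dist p (γ s) := by
    apply hprop (γ s) (γ s') (γ s₀) (mem_of_param hP h s₀)
    intro m hm hmd
    have t1 := hclose m hm
    have t2 := dist_triangle (φ m) m (γ s₀)
    rw [← hexf s (by linarith) m (hKP hm) (by linarith),
      ← hexf s' (by linarith) (φ m) (hφP m (hKP hm)) (by linarith)]
    exact hφf m (hKP hm)
  -- `φ` is the identity on `K`
  have hid : ∀ p ∈ K, φ p = p := by
    intro p hp
    by_contra hne
    set w := φ p - p with hw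
    have hwne : w ≠ 0 := sub_ne_zero.2 hne
    have hlin : ∀ v ∈ P.extremePoints ℝ, inner ℝ v w = (‖φ p‖ ^ 2 - ‖p‖ ^ 2) / 2 := by
      intro v hv
      have e1 := hvert v hv p hp
      have e2 : ‖φ p - v‖ ^ 2 = ‖p - v‖ ^ 2 := by rw [← dist_eq_norm, ← dist_eq_norm, e1]
      rw [norm_sub_sq_real, norm_sub_sq_real] at e2
      have a1 := real_inner_comm v (φ p)
      have a2 := real_inner_comm v p
      rw [hw, inner_sub_right]
      linarith
    have hsub : P ⊆ {z : E2 | inner ℝ z w = (‖φ p‖ ^ 2 - ‖p‖ ^ 2) / 2} := by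
      have hkm := closure_convexHull_extremePoints hP.isCompact hP.convex
      rw [← hkm]
      apply closure_minimal
      · apply convexHull_min
        · intro v hv; exact hlin v hv
        · intro x hx y hy a b ha hb hab
          simp only [mem_ofPred_eq] at hx hy ⊢
          rw [inner_add_left, inner_smul_left, inner_smul_left, hx, hy]
          simp only [conj_trivial]
          rw [← add_mul, hab, one_mul]
      · apply isClosed_eq
        · fun_prop
        · exact continuous_const
    obtain ⟨c, hc⟩ := hP.2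
    obtain ⟨r, hr, hball⟩ := Metric.isOpen_iff.1 isOpen_interior c hc
    have hwn : 0 < ‖w‖ := norm_pos_iff.2 hwne
    have hcm : c + (r / (2 * ‖w‖)) • w ∈ P := by
      apply interior_subset; apply hball
      rw [Metric.mem_ball, dist_eq_norm, add_sub_cancel_left, norm_smul,
        Real.norm_of_nonneg (by positivity)]
      have : r / (2 * ‖w‖) * ‖w‖ = r / 2 := by field_simp
      rw [this]; linarith
    have e1 := hsub (interior_subset hc)
    have e2 := hsub hcm
    simp only [mem_ofPred_eq] at e1 e2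
    rw [inner_add_left, inner_smul_left, e1, real_inner_self_eq_norm_sq] at e2
    simp only [conj_trivial] at e2
    have : r / (2 * ‖w‖) * ‖w‖ ^ 2 = 0 := by linarith
    have h3 : 0 < r / (2 * ‖w‖) * ‖w‖ ^ 2 := by positivity
    linarith
  -- the folding points agree
  by_contra hne
  set w := γ s - γ s' with hw
  have hwne : w ≠ 0 := sub_ne_zero.2 hne
  obtain ⟨c, hc⟩ := hKint
  obtain ⟨r, hr, hball⟩ := Metric.isOpen_iff.1 isOpen_interior c hc
  have hwn : 0 < ‖w‖ := norm_pos_iff.2 hwne
  have hcK : c ∈ K := interior_subset hc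
  have hcm : c + (r / (2 * ‖w‖)) • w ∈ K := by
    apply interior_subset; apply hball
    rw [Metric.mem_ball, dist_eq_norm, add_sub_cancel_left, norm_smul,
      Real.norm_of_nonneg (by positivity)]
    have : r / (2 * ‖w‖) * ‖w‖ = r / 2 := by field_simp
    rw [this]; linarith
  have hlin : ∀ p ∈ K, inner ℝ p w = (‖γ s‖ ^ 2 - ‖γ s'‖ ^ 2) / 2 := by
    intro p hp
    have e1 := hfold p hp
    rw [hid p hp] at e1
    have e2 : ‖p - γ s'‖ ^ 2 = ‖p - γ s‖ ^ 2 := by rw [← dist_eq_norm, ← dist_eq_norm, e1]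
    rw [norm_sub_sq_real, norm_sub_sq_real] at e2
    rw [hw, inner_sub_right]
    linarith
  have e1 := hlin c hcK
  have e2 := hlin _ hcm
  rw [inner_add_left, inner_smul_left, e1, real_inner_self_eq_norm_sq] at e2
  simp only [conj_trivial] at e2
  have : r / (2 * ‖w‖) * ‖w‖ ^ 2 = 0 := by linarith
  have h3 : 0 < r / (2 * ‖w‖) * ‖w‖ ^ 2 := by positivity
  linarith

end Pool.Agent.Helper22.Fold
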