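import Pool.Agent.Helper22.FoldCore

set_option autoImplicit false

open Set Filter
open scoped ENNReal Topology

namespace Pool.Agent.Helper22.Fold

variable {P : Set E2} {L : ℝ} {γ : ℝ → E2}

theorem eVariationOn_isometry_comp (e : E3 ≃ᵢ E3) (c : ℝ → E3) (s : Set ℝ) :
    eVariationOn (fun t => e (c t)) s = eVariationOn c s := by
  unfold eVariationOn
  simp only [e.isometry.edist_eq]

theorem pathDist_image_le (e : E3 ≃ᵢ E3) (A : Set E3) (x y : E3) :
    pathDist (e '' A) (e x) (e y) ≤ pathDist A x y := by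
  unfold pathDist
  refine le_iInf₂ fun c hc => ?_
  refine iInf₂_le_of_le (fun t => e (c t)) ?_ ?_
  · refine ⟨e.continuous.comp_continuousOn hc.1, fun t ht => mem_image_of_mem e (hc.2.1 ht), ?_, ?_⟩
    · show e (c 0) = e x
      rw [hc.2.2.1]
    · show e (c 1) = e y
      rw [hc.2.2.2]
  · rw [eVariationOn_isometry_comp]

theorem pathDist_image (e : E3 ≃ᵢ E3) (A : Set E3) (x y : E3) :
    pathDist (e '' A) (e x) (e y) = pathDist A x y := by
  apply le_antisymm (pathDist_image_le e A x y)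
  have := pathDist_image_le e.symm (e '' A) (e x) (e y)
  rw [e.symm_apply_apply, e.symm_apply_apply, ← image_comp] at this
  have h2 : (⇑e.symm ∘ ⇑e) '' A = A := by
    have : (⇑e.symm ∘ ⇑e) = id := by ext t; simp
    rw [this, image_id]
  rwa [h2] at this

theorem intrinsicFrontier_image (e : E3 ≃ᵢ E3) (Q : Set E3) :
    intrinsicFrontier ℝ (e '' Q) = e '' intrinsicFrontier ℝ Q := by
  have := AffineIsometry.intrinsicFrontier_image (𝕜 := ℝ)
    e.toRealAffineIsometryEquiv.toAffineIsometry Q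
  simpa using this

theorem doubleDist_image (e : E3 ≃ᵢ E3) (Q : Set E3) (x y : E3 × Bool) :
    doubleDist (e '' Q) (e x.1, x.2) (e y.1, y.2) = doubleDist Q x y := by
  unfold doubleDist
  rw [intrinsicFrontier_image]
  simp only [iInf_image, e.isometry.edist_eq]

theorem doubleSet_image (e : E3 ≃ᵢ E3) (Q : Set E3) :
    (fun x : E3 × Bool => (e x.1, x.2)) '' doubleSet Q = doubleSet (e '' Q) := by
  unfold doubleSet
  rw [intrinsicFrontier_image]
  ext ⟨y, b⟩
  constructor
  · rintro ⟨⟨x, b'⟩, ⟨h1, h2⟩, h3⟩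
    simp only [Prod.mk.injEq] at h3
    obtain ⟨rfl, rfl⟩ := h3
    refine ⟨mem_image_of_mem e h1, ?_⟩
    rcases h2 with h2 | h2
    · exact Or.inl h2
    · refine Or.inr ?_
      rintro ⟨z, hz, hze⟩
      exact h2 (e.injective hze ▸ hz)
  · rintro ⟨⟨x, hx, hxe⟩, h2⟩
    simp only at hxe h2
    refine ⟨(x, b), ⟨hx, ?_⟩, by simp [hxe]⟩
    rcases h2 with h2 | h2
    · exact Or.inl h2
    · refine Or.inr fun hz => h2 ?_
      exact ⟨x, hz, hxe⟩

theorem frontier_image (e : E3 ≃ᵢ E3) (Q : Set E3) : frontier (e '' Q) = e '' frontier Q :=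
  (e.toHomeomorph.image_frontier Q).symm

/-- The main theorem. -/
theorem finite_foldings (hP : IsConvexPolygon P) (h : IsBoundaryParam P L γ) (Q₀ : Set E3) :
    {x : E2 | ∃ s Q, γ s = x ∧ FoldsTo P L γ s Q ∧ Congr Q Q₀}.Finite := by
  refine ((core hP h (frontier Q₀) (pathDist (frontier Q₀))).union
    (core hP h (doubleSet Q₀) (doubleDist Q₀))).subset ?_
  rintro x ⟨s, Q, rfl, ⟨-, hQ⟩, e, rfl⟩
  rcases hQ with ⟨-, f, hf1, hf2⟩ | ⟨-, -, f, hf1, hf2⟩
  · left
    refine ⟨s, rfl, fun p => e (f p), ?_, fun p hp q hq => ?_⟩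
    · rw [frontier_image, ← hf1, image_image]
    · rw [frontier_image, pathDist_image]
      exact hf2 p hp q hq
  · right
    refine ⟨s, rfl, fun p => (e (f p).1, (f p).2), ?_, fun p hp q hq => ?_⟩
    · rw [← doubleSet_image, ← hf1, image_image]
    · rw [doubleDist_image]
      exact hf2 p hp q hq

end Pool.Agent.Helper22.Fold
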