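import Pool.Agent.Helper22.FoldLocal

set_option autoImplicit false

open Set
open scoped ENNReal

namespace Pool.Agent.Helper22.Fold

variable {P : Set E2} {L : ℝ} {γ : ℝ → E2}

theorem inner2 (x y : E2) : inner ℝ x y = x 0 * y 0 + x 1 * y 1 := by
  simp only [PiLp.inner_apply, Fin.sum_univ_two, RCLike.inner_apply, conj_trivial]
  ring

theorem norm2 (x : E2) : ‖x‖ ^ 2 = x 0 ^ 2 + x 1 ^ 2 := by
  rw [← real_inner_self_eq_norm_sq, inner2]; ring

theorem arc_param_pos (h : IsBoundaryParam P L γ) {σ t : ℝ} (ht : 0 < t) (htL : t ≤ L / 2)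
    (hsub : segment ℝ (γ σ) (γ (σ + t)) ⊆ frontier P) : dist (γ σ) (γ (σ + t)) = t := by
  have hL := h.pos
  have hlip := h.lip σ (σ + t)
  rw [sub_add_cancel_left, abs_neg, abs_of_pos ht] at hlip
  rcases arc_dichotomy h ht (by linarith) hsub with h1 | h1
  · exact le_antisymm hlip h1
  · linarith

theorem arc_param (h : IsBoundaryParam P L γ) {σ : ℝ} {w : E2} (hw : w ∈ frontier P)
    (hsub : segment ℝ (γ σ) w ⊆ frontier P) :
    w = γ (σ + dist (γ σ) w) ∨ w = γ (σ - dist (γ σ) w) := by
  obtain ⟨τ, rfl⟩ := h.exists_eq hw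
  obtain ⟨t, ht, n, hn⟩ := exists_rep h σ τ
  have e1 : γ τ = γ (σ + t) := by rw [hn, h.per_int]
  rw [e1] at hsub ⊢
  rcases lt_trichotomy t 0 with h0 | h0 | h0
  · right
    have h2 := arc_param_pos h.neg (σ := -σ) (t := -t) (by linarith)
      (by rw [abs_of_neg h0] at ht; exact ht)
      (by simpa only [neg_neg, neg_add] using hsub)
    simp only [neg_neg, neg_add] at h2
    rw [h2]; congr 1; ring
  · left
    rw [h0]; simp
  · left
    have h2 := arc_param_pos h h0 (by rw [abs_of_pos h0] at ht; exact ht) hsub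
    rw [h2]

/-- If a boundary point is the midpoint of two points of `P`, these are the boundary points
at the same arc length on both sides. -/
theorem flat_param (hP : IsConvexPolygon P) (h : IsBoundaryParam P L γ) {σ : ℝ} {a b : E2}
    (ha : a ∈ P) (hb : b ∈ P) (hab : a ≠ b) (hm : γ σ = midpoint ℝ a b) :
    (a = γ (σ + dist (γ σ) a) ∧ b = γ (σ - dist (γ σ) a)) ∨
      (a = γ (σ - dist (γ σ) a) ∧ b = γ (σ + dist (γ σ) a)) := by
  obtain ⟨f, hf, hfle⟩ := exists_support hP (h.mem_frontier σ)
  have hfm : f (γ σ) = (f a + f b) / 2 := by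
    rw [hm, midpoint_eq_smul_add, map_smul, map_add, smul_eq_mul]
    simp only [invOf_eq_inv]
    ring
  have hfa := hfle a ha
  have hfb := hfle b hb
  have hfa' : f a = f (γ σ) := by linarith
  have hfb' : f b = f (γ σ) := by linarith
  have hza : segment ℝ (γ σ) a ⊆ frontier P :=
    segment_subset_frontier_of_support hP hf (mem_of_param hP h σ) ha rfl hfa'
  have hzb : segment ℝ (γ σ) b ⊆ frontier P :=
    segment_subset_frontier_of_support hP hf (mem_of_param hP h σ) hb rfl hfb'
  have ha2 := arc_param h (hza (right_mem_segment ℝ _ _)) hza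
  have hb2 := arc_param h (hzb (right_mem_segment ℝ _ _)) hzb
  have hd : dist (γ σ) b = dist (γ σ) a := by
    rw [hm, dist_midpoint_left, dist_midpoint_right]
  rw [hd] at hb2
  rcases ha2 with h1 | h1 <;> rcases hb2 with h2 | h2
  · exact absurd (h1.trans h2.symm) hab
  · exact Or.inl ⟨h1, h2⟩
  · exact Or.inr ⟨h1, h2⟩
  · exact absurd (h1.trans h2.symm) hab

/-- At a boundary point that is not an extreme point the boundary is locally a line. -/
theorem exists_straight_of_not_extreme (hP : IsConvexPolygon P) (h : IsBoundaryParam P L γ)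
    {σ : ℝ} (hσ : γ σ ∉ P.extremePoints ℝ) :
    ∃ R > 0, ∃ u : E2, ‖u‖ = 1 ∧ ∀ t, |t| ≤ R → γ (σ + t) = γ σ + t • u := by
  obtain ⟨R1, hR1, u1, hu1, hs1⟩ := exists_straight_right hP h σ
  obtain ⟨R2, hR2, u2, hu2, hs2⟩ := exists_straight_left hP h σ
  have hzP := mem_of_param hP h σ
  rw [mem_extremePoints] at hσ
  push Not at hσ
  obtain ⟨x, hx, y, hy, hz, hne⟩ := hσ hzP
  obtain ⟨c, d, hc, hd, hcd, hzcd⟩ := hz
  have hxy : x ≠ y := by
    rintro rfl
    rw [← add_smul, hcd, one_smul] at hzcd
    exact hne hzcd hzcd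
  set N := ‖x - y‖ with hN
  have hNpos : 0 < N := norm_pos_iff.2 (sub_ne_zero.2 hxy)
  set r := min (min R1 R2) (min c d * N) with hr
  have hrpos : 0 < r := by positivity
  set e := N⁻¹ • (x - y) with he
  have hen : ‖e‖ = 1 := by
    rw [he, norm_smul, norm_inv, Real.norm_of_nonneg hNpos.le]
    exact inv_mul_cancel₀ hNpos.ne'
  -- the two points at distance `r`
  have hmem : ∀ k : ℝ, |k| ≤ min c d → γ σ + k • (x - y) ∈ P := by
    intro k hk
    have h1 : γ σ + k • (x - y) = (c + k) • x + (d - k) • y := by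
      rw [← hzcd]; module
    rw [h1]
    rw [abs_le] at hk
    have h2 := min_le_left c d
    have h3 := min_le_right c d
    exact hP.convex hx hy (by linarith) (by linarith) (by linarith)
  have hk : |r / N| ≤ min c d := by
    rw [abs_of_pos (by positivity), div_le_iff₀ hNpos]
    exact min_le_right _ _
  have ha : γ σ + r • e ∈ P := by
    have := hmem (r / N) hk
    rw [he, smul_smul, ← div_eq_mul_inv]
    exact this
  have hb : γ σ - r • e ∈ P := by
    have := hmem (-(r / N)) (by rw [abs_neg]; exact hk)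
    rw [he, smul_smul, ← div_eq_mul_inv, sub_eq_add_neg, ← neg_smul]
    exact this
  have hene : e ≠ 0 := by
    intro h0; rw [h0, norm_zero] at hen; exact zero_ne_one hen
  have hab : γ σ + r • e ≠ γ σ - r • e := by
    intro hh
    have h1 : (2 * r) • e = 0 := by
      have h2 : r • e = -(r • e) := by
        have := congrArg (fun p => p - γ σ) hh
        simpa using this
      have h3 : (2 * r) • e = r • e + r • e := by module
      rw [h3]
      nth_rewrite 1 [h2]
      simp
    rcases smul_eq_zero.1 h1 with h2 | h2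
    · linarith
    · exact hene h2
  have hm : γ σ = midpoint ℝ (γ σ + r • e) (γ σ - r • e) := by
    rw [midpoint_eq_smul_add]
    simp only [invOf_eq_inv]
    module
  have hdist : dist (γ σ) (γ σ + r • e) = r := by
    rw [dist_eq_norm, sub_add_cancel_left, norm_neg, norm_smul, hen, mul_one,
      Real.norm_of_nonneg hrpos.le]
  have hr1 : r ≤ R1 := (min_le_left _ _).trans (min_le_left _ _)
  have hr2 : r ≤ R2 := (min_le_left _ _).trans (min_le_right _ _)
  have key : u2 = -u1 := by
    have h1 := flat_param hP h ha hb hab hm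
    rw [hdist, hs1 r hrpos.le hr1, hs2 r hrpos.le hr2] at h1
    have hcancel : ∀ p q : E2, γ σ + r • p = γ σ + r • q → p = q := by
      intro p q hpq
      have := add_left_cancel hpq
      exact (smul_right_injective E2 hrpos.ne') this
    rcases h1 with ⟨h2, h3⟩ | ⟨h2, h3⟩
    · have h4 := hcancel _ _ h2
      have h5 : γ σ + r • (-e) = γ σ + r • u2 := by rw [smul_neg, ← sub_eq_add_neg]; exact h3
      rw [← hcancel _ _ h5, h4]
    · have h4 := hcancel _ _ h2
      have h5 : γ σ + r • (-e) = γ σ + r • u1 := by rw [smul_neg, ← sub_eq_add_neg]; exact h3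
      rw [← hcancel _ _ h5, h4, neg_neg]
  refine ⟨min R1 R2, lt_min hR1 hR2, u1, hu1, fun t ht => ?_⟩
  rcases le_total 0 t with h0 | h0
  · rw [abs_of_nonneg h0] at ht
    exact hs1 t h0 (ht.trans (min_le_left _ _))
  · rw [abs_of_nonpos h0] at ht
    have := hs2 (-t) (by linarith) (ht.trans (min_le_right _ _))
    rw [sub_neg_eq_add] at this
    rw [this, key, neg_smul, smul_neg, neg_neg]

/-- At an extreme point the two boundary directions span a cone with angle less than `π`
that contains `P`. -/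
theorem extreme_cone (hP : IsConvexPolygon P) (h : IsBoundaryParam P L γ) {σ : ℝ}
    (hσ : γ σ ∈ P.extremePoints ℝ) {R : ℝ} (hR : 0 < R) {u v : E2} (hu : ‖u‖ = 1) (hv : ‖v‖ = 1)
    (hsu : ∀ t, 0 ≤ t → t ≤ R → γ (σ + t) = γ σ + t • u)
    (hsv : ∀ t, 0 ≤ t → t ≤ R → γ (σ - t) = γ σ + t • v) {p : E2} (hp : p ∈ P) (hpne : p ≠ γ σ) :
    0 < inner ℝ (p - γ σ) (u + v) := by
  have hL := h.pos
  have hzP := mem_of_param hP h σ
  -- the two directions are not equal and not opposite
  set r := min R (L / 4) with hr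
  have hrpos : 0 < r := by positivity
  have hrR : r ≤ R := min_le_left _ _
  have hne1 : u ≠ v := by
    rintro rfl
    have h1 : γ (σ + r) = γ (σ - r) := by rw [hsu r hrpos.le hrR, hsv r hrpos.le hrR]
    have h2 : γ ((σ - r) + 2 * r) = γ (σ - r) := by rw [← h1]; congr 1; ring
    refine ne_of_abs_le h (by linarith) ?_ h2
    rw [abs_of_pos (by linarith)]
    have : r ≤ L / 4 := min_le_right _ _
    linarith
  have hne2 : u ≠ -v := by
    intro huv
    have ha := mem_of_param hP h (σ + r)
    have hb := mem_of_param hP h (σ - r)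
    rw [mem_extremePoints] at hσ
    have hz : γ σ ∈ openSegment ℝ (γ (σ + r)) (γ (σ - r)) := by
      refine ⟨1 / 2, 1 / 2, by norm_num, by norm_num, by norm_num, ?_⟩
      rw [hsu r hrpos.le hrR, hsv r hrpos.le hrR, huv]
      module
    have h1 := (hσ.2 _ ha _ hb hz).1
    rw [hsu r hrpos.le hrR] at h1
    have h2 : r • u = 0 := by simpa using h1
    rcases smul_eq_zero.1 h2 with h3 | h3
    · exact hrpos.ne' h3
    · rw [h3, norm_zero] at hu; exact zero_ne_one hu
  -- supporting functionals along the two edges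
  have hsupp : ∀ (w : E2) (τ : ℝ), γ τ = γ σ + (r / 2) • w → γ σ + r • w ∈ P →
      ∃ f : StrongDual ℝ E2, (∀ p ∈ interior P, f (p - γ σ) < 0) ∧
        (∀ p ∈ P, f (p - γ σ) ≤ 0) ∧ f w = 0 := by
    intro w τ hτ hw
    obtain ⟨f, hf, hfle⟩ := exists_support hP (h.mem_frontier τ)
    have e1 := hfle _ hzP
    have e2 := hfle _ hw
    rw [hτ, map_add, map_smul, smul_eq_mul] at e1
    rw [hτ, map_add, map_add, map_smul, map_smul, smul_eq_mul, smul_eq_mul] at e2
    have hfw : f w = 0 := by nlinarith
    refine ⟨f, fun p hp => ?_, fun p hp => ?_, hfw⟩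
    · have := hf p hp
      rw [hτ, map_add, map_smul, hfw, smul_zero, add_zero] at this
      rw [map_sub]; linarith
    · have := hfle p hp
      rw [hτ, map_add, map_smul, hfw, smul_zero, add_zero] at this
      rw [map_sub]; linarith
  have hmu : γ σ + r • u ∈ P := by rw [← hsu r hrpos.le hrR]; exact mem_of_param hP h _
  have hmv : γ σ + r • v ∈ P := by rw [← hsv r hrpos.le hrR]; exact mem_of_param hP h _
  obtain ⟨f, hfi, hfP, hfu⟩ := hsupp u (σ + r / 2) (hsu _ (by linarith) (by linarith)) hmu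
  obtain ⟨g, hgi, hgP, hgv⟩ := hsupp v (σ - r / 2) (hsv _ (by linarith) (by linarith)) hmv
  have hfv : f v ≤ 0 := by
    have := hfP _ hmv
    rw [add_sub_cancel_left, map_smul, smul_eq_mul] at this
    nlinarith
  have hgu : g u ≤ 0 := by
    have := hgP _ hmu
    rw [add_sub_cancel_left, map_smul, smul_eq_mul] at this
    nlinarith
  -- coordinates
  have hu2 : u 0 ^ 2 + u 1 ^ 2 = 1 := by rw [← norm2, hu]; norm_num
  have hv2 : v 0 ^ 2 + v 1 ^ 2 = 1 := by rw [← norm2, hv]; norm_num
  set D := u 0 * v 1 - u 1 * v 0 with hD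
  have hDne : D ≠ 0 := by
    intro hD0
    -- then `v = ± u`
    set κ := u 0 * v 0 + u 1 * v 1 with hκ
    have hκ2 : κ ^ 2 = 1 := by
      have : κ ^ 2 + D ^ 2 = (u 0 ^ 2 + u 1 ^ 2) * (v 0 ^ 2 + v 1 ^ 2) := by
        rw [hκ, hD]; ring
      rw [hD0, hu2, hv2] at this
      linarith
    have hv0 : v 0 = κ * u 0 := by
      have : κ * u 0 = (u 0 ^ 2 + u 1 ^ 2) * v 0 + u 1 * D := by rw [hκ, hD]; ring
      rw [this, hu2, hD0]; ring
    have hv1 : v 1 = κ * u 1 := by
      have : κ * u 1 = (u 0 ^ 2 + u 1 ^ 2) * v 1 - u 0 * D := by rw [hκ, hD]; ring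
      rw [this, hu2, hD0]; ring
    have hk : κ = 1 ∨ κ = -1 := by
      have : (κ - 1) * (κ + 1) = 0 := by linarith
      rcases mul_eq_zero.1 this with h1 | h1
      · left; linarith
      · right; linarith
    rcases hk with hk | hk
    · apply hne1
      ext i
      fin_cases i
      · show u 0 = v 0
        rw [hv0, hk]; ring
      · show u 1 = v 1
        rw [hv1, hk]; ring
    · apply hne2
      ext i
      fin_cases i
      · show u 0 = -(v 0)
        rw [hv0, hk]; ring
      · show u 1 = -(v 1)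
        rw [hv1, hk]; ring
  set w := p - γ σ with hw
  -- Cramer
  set c1 := (w 0 * v 1 - w 1 * v 0) / D with hc1
  set c2 := (u 0 * w 1 - u 1 * w 0) / D with hc2
  have hwc : w = c1 • u + c2 • v := by
    ext i
    fin_cases i
    · show w 0 = c1 * u 0 + c2 * v 0
      rw [hc1, hc2]
      field_simp
      rw [hD]; ring
    · show w 1 = c1 * u 1 + c2 * v 1
      rw [hc1, hc2]
      field_simp
      rw [hD]; ring
  have hfvne : f v ≠ 0 := by
    intro h0
    obtain ⟨x, hx⟩ := hP.2
    have h1 := hfi x hx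
    set y := x - γ σ with hy
    have hyc : y = ((y 0 * v 1 - y 1 * v 0) / D) • u + ((u 0 * y 1 - u 1 * y 0) / D) • v := by
      ext i
      fin_cases i
      · show y 0 = _ * u 0 + _ * v 0
        field_simp
        rw [hD]; ring
      · show y 1 = _ * u 1 + _ * v 1
        field_simp
        rw [hD]; ring
    rw [hyc, map_add, map_smul, map_smul, hfu, h0] at h1
    simp at h1
  have hgune : g u ≠ 0 := by
    intro h0
    obtain ⟨x, hx⟩ := hP.2
    have h1 := hgi x hx
    set y := x - γ σ with hy
    have hyc : y = ((y 0 * v 1 - y 1 * v 0) / D) • u + ((u 0 * y 1 - u 1 * y 0) / D) • v := by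
      ext i
      fin_cases i
      · show y 0 = _ * u 0 + _ * v 0
        field_simp
        rw [hD]; ring
      · show y 1 = _ * u 1 + _ * v 1
        field_simp
        rw [hD]; ring
    rw [hyc, map_add, map_smul, map_smul, hgv, h0] at h1
    simp at h1
  have hfv' : f v < 0 := lt_of_le_of_ne hfv hfvne
  have hgu' : g u < 0 := lt_of_le_of_ne hgu hgune
  have hc2nn : 0 ≤ c2 := by
    have := hfP p hp
    rw [← hw, hwc, map_add, map_smul, map_smul, hfu, smul_zero, zero_add, smul_eq_mul] at this
    by_contra hcon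
    push Not at hcon
    have := mul_pos_of_neg_of_neg hcon hfv'
    linarith
  have hc1nn : 0 ≤ c1 := by
    have := hgP p hp
    rw [← hw, hwc, map_add, map_smul, map_smul, hgv, smul_zero, add_zero, smul_eq_mul] at this
    by_contra hcon
    push Not at hcon
    have := mul_pos_of_neg_of_neg hcon hgu'
    linarith
  have hcpos : 0 < c1 + c2 := by
    rcases hc1nn.eq_or_lt with h1 | h1
    · rcases hc2nn.eq_or_lt with h2 | h2
      · exfalso
        rw [← h1, ← h2, zero_smul, zero_smul, add_zero, hw, sub_eq_zero] at hwc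
        exact hpne hwc
      · linarith
    · linarith
  set κ := u 0 * v 0 + u 1 * v 1 with hκ
  have hκ1 : -1 < κ := by
    have h1 : κ ^ 2 + D ^ 2 = (u 0 ^ 2 + u 1 ^ 2) * (v 0 ^ 2 + v 1 ^ 2) := by
      rw [hκ, hD]; ring
    rw [hu2, hv2] at h1
    have h2 : 0 < D ^ 2 := by positivity
    nlinarith
  have : inner ℝ w (u + v) = (c1 + c2) * (1 + κ) := by
    rw [inner2]
    have e0 : w 0 = c1 * u 0 + c2 * v 0 := by
      have := congrArg (fun z : E2 => z 0) hwc
      exact this
    have e1 : w 1 = c1 * u 1 + c2 * v 1 := by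
      have := congrArg (fun z : E2 => z 1) hwc
      exact this
    show w 0 * (u 0 + v 0) + w 1 * (u 1 + v 1) = _
    rw [e0, e1, hκ]
    linear_combination c1 * hu2 + c2 * hv2
  rw [this]
  have : 0 < 1 + κ := by linarith
  positivity

end Pool.Agent.Helper22.Fold
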