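import Pool.Agent.Helper22.OLDeg

/-!
# The potential strategy with a set of bad vertices
-/

namespace Pool.Agent.Helper22.OLC

variable {V : Type*} [DecidableEq V]

/-- The invariant: `W` is the set of bad vertices, `Wm` the set of bad vertices which lost `m`
times, `ρ` the ranks of the bad vertices, `l` the number of losses. -/
structure Inv (G : SimpleGraph V) (B : Finset V) (k m d : ℕ) (U : Finset V) (f : V → ℕ)
    (W Wm : Finset V) (ρ l : V → ℕ) : Prop where
  hUB : U ⊆ B
  hWB : W ⊆ B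
  hWm : Wm ⊆ W
  hρ : Set.InjOn ρ W
  pot : ∑ v ∈ U \ W, k ^ (l v) * (k - 1) ^ (m - l v) + k ^ m * Wm.card ≤ B.card * (k - 1) ^ m
  edge : 2 * (2 * d + 1) * W.card ≤ eW G W + 2 * (2 * d + 1) * Wm.card
  card : W.card ≤ 2 * Wm.card
  good_l : ∀ v ∈ U \ W, l v < m
  good_n : ∀ v ∈ U \ W, (nb G v W).card ≤ 2 * d
  good_f : ∀ v ∈ U \ W, m + 3 * d + 1 ≤ f v + l v + (nb G v (W \ U)).card
  bad_n : ∀ v ∈ U ∩ W, ((nb G v W).filter fun w => ρ w < ρ v).card ≤ 3 * d
  bad_f : ∀ v ∈ U ∩ W,
    m + 3 * d + 1 ≤ m + f v + ((nb G v (W \ U)).filter fun w => ρ w < ρ v).card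

theorem inv_step {G : SimpleGraph V} {B : Finset V} {k m x d : ℕ} (hk : 2 ≤ k)
    (c : V → Fin k) (hc : ∀ u ∈ B, ∀ v ∈ B, G.Adj u v → c u ≠ c v)
    (hx : B.card * (k - 1) ^ m < (x + 1) * k ^ m)
    (hsm : SmallDeg G B (2 * x + 1) d)
    {U : Finset V} {f : V → ℕ} {W Wm : Finset V} {ρ l : V → ℕ}
    (h : Inv G B k m d U f W Wm ρ l) :
    Step G (fun U f => ∃ W Wm ρ l, Inv G B k m d U f W Wm ρ l) U f := by
  have : NeZero k := ⟨by omega⟩
  intro M hM hne
  classical
  obtain ⟨Ib, i1, i2, i3⟩ := exists_greedy G ρ (M ∩ W) (h.hρ.mono (by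
    intro v hv
    rw [Finset.mem_coe, Finset.mem_inter] at hv
    exact hv.2))
  have hIb : ∀ v ∈ Ib, v ∈ M ∧ v ∈ W := fun v hv => Finset.mem_inter.1 (i1 hv)
  set P : Finset V := (M \ W).filter (fun v => ∀ u ∈ Ib, ¬ G.Adj v u) with hP
  have memP : ∀ v, v ∈ P ↔ (v ∈ M ∧ v ∉ W) ∧ ∀ u ∈ Ib, ¬ G.Adj v u := fun v => by
    rw [hP, Finset.mem_filter, Finset.mem_sdiff]
  obtain ⟨j, hj⟩ := exists_class c P (fun v => k ^ (l v) * (k - 1) ^ (m - l v))
  set Ig : Finset V := P.filter (fun v => c v = j) with hIg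
  have memIg : ∀ v, v ∈ Ig ↔ v ∈ P ∧ c v = j := fun v => by
    rw [hIg, Finset.mem_filter]
  set I : Finset V := Ib ∪ Ig with hI
  have memI : ∀ v, v ∈ I ↔ v ∈ Ib ∨ v ∈ Ig := fun v => by
    rw [hI, Finset.mem_union]
  set U' : Finset V := U \ I with hU'
  have memU' : ∀ v, v ∈ U' ↔ v ∈ U ∧ v ∉ I := fun v => by
    rw [hU', Finset.mem_sdiff]
  set l' : V → ℕ := fun v => if v ∈ P \ Ig then l v + 1 else l v with hl'
  set X : Finset V := (P \ Ig).filter (fun v => l v + 1 = m) with hX
  have memX : ∀ v, v ∈ X ↔ (v ∈ P ∧ v ∉ Ig) ∧ l v + 1 = m := fun v => by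
    rw [hX, Finset.mem_filter, Finset.mem_sdiff]
  have hIM : I ⊆ M := by
    intro v hv
    rcases (memI v).1 hv with h1 | h1
    · exact (hIb v h1).1
    · exact ((memP v).1 ((memIg v).1 h1).1).1.1
  have hPU : ∀ v ∈ P, v ∈ U \ W := fun v hv => by
    have := ((memP v).1 hv).1
    exact Finset.mem_sdiff.2 ⟨hM this.1, this.2⟩
  have hPIg : ∀ v ∈ P, v ∉ Ig → v ∈ U' \ W := fun v hv hv2 => by
    have h1 := (memP v).1 hv
    refine Finset.mem_sdiff.2 ⟨(memU' v).2 ⟨hM h1.1.1, fun h2 => ?_⟩, h1.1.2⟩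
    rcases (memI v).1 h2 with h3 | h3
    · exact h1.1.2 (hIb v h3).2
    · exact hv2 h3
  -- tokens
  have hgf : ∀ v ∈ U \ W, 2 ≤ f v := fun v hv => by
    have h1 := h.good_f v hv
    have h2 := h.good_l v hv
    have h3 := h.good_n v hv
    have h4 : (nb G v (W \ U)).card ≤ (nb G v W).card :=
      Finset.card_le_card (nb_mono Finset.sdiff_subset)
    omega
  have hbn : ∀ v, ((nb G v (W \ U)).filter fun w => ρ w < ρ v).card ≤
      ((nb G v W).filter fun w => ρ w < ρ v).card := fun v =>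
    Finset.card_le_card (Finset.filter_subset_filter _ (nb_mono Finset.sdiff_subset))
  have hbf : ∀ v ∈ U ∩ W, 1 ≤ f v := fun v hv => by
    have h1 := h.bad_f v hv
    have h2 := h.bad_n v hv
    have h3 := hbn v
    omega
  have hbf2 : ∀ v ∈ U ∩ W, v ∈ M → v ∉ I → 2 ≤ f v := by
    intro v hv hvM hvI
    have hvW := (Finset.mem_inter.1 hv).2
    obtain ⟨u, hu, huv, hρu⟩ := i3 v (Finset.mem_sdiff.2 ⟨Finset.mem_inter.2 ⟨hvM, hvW⟩,
      fun h' => hvI ((memI v).2 (Or.inl h'))⟩)
    have h1 := h.bad_f v hv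
    have h2 := h.bad_n v hv
    have h3 : ((nb G v (W \ U)).filter fun w => ρ w < ρ v) ⊂
        ((nb G v W).filter fun w => ρ w < ρ v) := by
      refine (Finset.ssubset_iff_of_subset
        (Finset.filter_subset_filter _ (nb_mono Finset.sdiff_subset))).2 ⟨u, ?_, ?_⟩
      · rw [Finset.mem_filter, mem_nb]
        exact ⟨⟨(hIb u hu).2, huv⟩, hρu⟩
      · rw [Finset.mem_filter, mem_nb, Finset.mem_sdiff]
        have := hM (hIb u hu).1
        tauto
    have h4 := Finset.card_lt_card h3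
    omega
  -- losses of the good vertices
  set f' : V → ℕ := fun v => if v ∈ M then f v - 1 else f v with hf'
  have hgood : ∀ v ∈ U' \ W, m + 3 * d + 1 ≤ f' v + l' v + (nb G v (W \ U')).card ∧ l' v ≤ m := by
    intro v hv
    rw [Finset.mem_sdiff, memU'] at hv
    obtain ⟨⟨hvU, hvI⟩, hvW⟩ := hv
    have hvUW : v ∈ U \ W := Finset.mem_sdiff.2 ⟨hvU, hvW⟩
    have h1 := h.good_f v hvUW
    have h2 := h.good_l v hvUW
    have h3 := hgf v hvUW
    have hsub : W \ U ⊆ W \ U' := Finset.sdiff_subset_sdiff le_rfl Finset.sdiff_subset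
    have h4 : (nb G v (W \ U)).card ≤ (nb G v (W \ U')).card :=
      Finset.card_le_card (nb_mono hsub)
    constructor
    · by_cases hvM : v ∈ M
      · have hf1 : f' v = f v - 1 := by
          simp only [hf']
          rw [if_pos hvM]
        by_cases hvP : v ∈ P
        · have hvIg : v ∉ Ig := fun h' => hvI ((memI v).2 (Or.inr h'))
          have hl1 : l' v = l v + 1 := by
            simp only [hl']
            rw [if_pos (Finset.mem_sdiff.2 ⟨hvP, hvIg⟩)]
          omega
        · have h5 : ∃ u ∈ Ib, G.Adj v u := by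
            rw [memP] at hvP
            push Not at hvP
            exact hvP ⟨hvM, hvW⟩
          obtain ⟨u, hu, huv⟩ := h5
          have h6 : nb G v (W \ U) ⊂ nb G v (W \ U') := by
            refine (Finset.ssubset_iff_of_subset (nb_mono hsub)).2 ⟨u, ?_, ?_⟩
            · rw [mem_nb, Finset.mem_sdiff, memU', memI]
              exact ⟨⟨(hIb u hu).2, fun h' => h'.2 (Or.inl hu)⟩, huv⟩
            · rw [mem_nb, Finset.mem_sdiff]
              have := hM (hIb u hu).1
              tauto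
          have h7 := Finset.card_lt_card h6
          have hl1 : l' v = l v := by
            simp only [hl']
            rw [if_neg (fun h' => hvP (Finset.mem_sdiff.1 h').1)]
          omega
      · have hf1 : f' v = f v := by
          simp only [hf']
          rw [if_neg hvM]
        have hl1 : l v ≤ l' v := by
          simp only [hl']
          split_ifs <;> omega
        omega
    · simp only [hl']
      split_ifs <;> omega
  -- the potential
  have hpot1 : ∑ v ∈ U' \ W, k ^ (l' v) * (k - 1) ^ (m - l' v) ≤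
      ∑ v ∈ U \ W, k ^ (l v) * (k - 1) ^ (m - l v) := by
    have hsplit : U' \ W = ((U' \ W) \ P) ∪ (P \ Ig) := by
      ext v
      simp only [Finset.mem_union, Finset.mem_sdiff]
      constructor
      · rintro ⟨h1, h2⟩
        by_cases h3 : v ∈ P
        · refine Or.inr ⟨h3, fun h4 => ?_⟩
          exact ((memU' v).1 h1).2 ((memI v).2 (Or.inr h4))
        · exact Or.inl ⟨⟨h1, h2⟩, h3⟩
      · rintro (⟨h1, _⟩ | ⟨h1, h2⟩)
        · exact h1
        · exact Finset.mem_sdiff.1 (hPIg v h1 h2)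
    have hsplit2 : U \ W = ((U \ W) \ P) ∪ P := by
      rw [Finset.sdiff_union_of_subset]
      exact fun v hv => hPU v hv
    rw [hsplit, Finset.sum_union (Finset.disjoint_left.2 fun v h1 h2 =>
      (Finset.mem_sdiff.1 h1).2 (Finset.mem_sdiff.1 h2).1)]
    conv_rhs => rw [hsplit2]
    rw [Finset.sum_union Finset.sdiff_disjoint]
    have e1 : ∑ v ∈ (U' \ W) \ P, k ^ (l' v) * (k - 1) ^ (m - l' v) ≤
        ∑ v ∈ (U \ W) \ P, k ^ (l v) * (k - 1) ^ (m - l v) := by
      calc ∑ v ∈ (U' \ W) \ P, k ^ (l' v) * (k - 1) ^ (m - l' v)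
          = ∑ v ∈ (U' \ W) \ P, k ^ (l v) * (k - 1) ^ (m - l v) := by
            refine Finset.sum_congr rfl fun v hv => ?_
            have : l' v = l v := by
              simp only [hl']
              rw [if_neg (fun h' => (Finset.mem_sdiff.1 hv).2 (Finset.mem_sdiff.1 h').1)]
            rw [this]
        _ ≤ ∑ v ∈ (U \ W) \ P, k ^ (l v) * (k - 1) ^ (m - l v) :=
            Finset.sum_le_sum_of_subset (Finset.sdiff_subset_sdiff
              (Finset.sdiff_subset_sdiff Finset.sdiff_subset le_rfl) le_rfl)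
    have e2 : (k - 1) * ∑ v ∈ P \ Ig, k ^ (l' v) * (k - 1) ^ (m - l' v) =
        k * ∑ v ∈ P \ Ig, k ^ (l v) * (k - 1) ^ (m - l v) := by
      rw [Finset.mul_sum, Finset.mul_sum]
      refine Finset.sum_congr rfl fun v hv => ?_
      have h1 : l' v = l v + 1 := by
        simp only [hl']
        rw [if_pos hv]
      have h2 := h.good_l v (hPU v (Finset.mem_sdiff.1 hv).1)
      have h3 : m - l v = (m - (l v + 1)) + 1 := by omega
      rw [h1, h3, pow_succ, pow_succ]
      ring
    have e3 : ∑ v ∈ P \ Ig, k ^ (l v) * (k - 1) ^ (m - l v) +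
        ∑ v ∈ Ig, k ^ (l v) * (k - 1) ^ (m - l v) =
        ∑ v ∈ P, k ^ (l v) * (k - 1) ^ (m - l v) :=
      Finset.sum_sdiff (Finset.filter_subset _ _)
    have e4 : ∑ v ∈ P \ Ig, k ^ (l' v) * (k - 1) ^ (m - l' v) ≤
        ∑ v ∈ P, k ^ (l v) * (k - 1) ^ (m - l v) := by
      have hk1 : 0 < k - 1 := by omega
      refine Nat.le_of_mul_le_mul_left ?_ hk1
      rw [e2]
      obtain ⟨q, rfl⟩ : ∃ q, k = q + 1 := ⟨k - 1, by omega⟩
      simp only [Nat.add_sub_cancel] at *
      nlinarith
    exact Nat.add_le_add e1 e4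
  have hpot2 : ∀ T ⊆ U' \ W, Disjoint T X →
      ∑ v ∈ T, k ^ (l' v) * (k - 1) ^ (m - l' v) + k ^ m * X.card ≤
      ∑ v ∈ U' \ W, k ^ (l' v) * (k - 1) ^ (m - l' v) := by
    intro T hT hTX
    have h1 : ∑ v ∈ X, k ^ (l' v) * (k - 1) ^ (m - l' v) = k ^ m * X.card := by
      rw [Finset.sum_congr rfl (g := fun _ => k ^ m), Finset.sum_const, smul_eq_mul, mul_comm]
      intro v hv
      have h2 := (memX v).1 hv
      have h3 : l' v = m := by
        simp only [hl']
        rw [if_pos (Finset.mem_sdiff.2 h2.1), h2.2]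
      rw [h3]
      simp
    rw [← h1, ← Finset.sum_union hTX]
    refine Finset.sum_le_sum_of_subset (Finset.union_subset hT ?_)
    intro v hv
    have h2 := (memX v).1 hv
    exact hPIg v h2.1.1 h2.1.2
  have hXW : Disjoint X W := Finset.disjoint_left.2 fun v h1 h2 =>
    ((memP v).1 ((memX v).1 h1).1.1).1.2 h2
  have hXWm : Disjoint X Wm := Finset.disjoint_of_subset_right h.hWm hXW
  have hWm'c : (Wm ∪ X).card = Wm.card + X.card :=
    Finset.card_union_of_disjoint hXWm.symm
  have hW1c : (W ∪ X).card = W.card + X.card :=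
    Finset.card_union_of_disjoint hXW.symm
  have hWmx : (Wm ∪ X).card ≤ x := by
    have h1 := hpot2 ∅ (by simp) (by simp)
    have h2 := h.pot
    rw [Finset.sum_empty, zero_add] at h1
    have h3 : k ^ m * (Wm ∪ X).card < (x + 1) * k ^ m := by
      rw [hWm'c, mul_add]
      omega
    have h4 : 0 < k ^ m := by positivity
    by_contra h5
    push Not at h5
    have h6 : (x + 1) * k ^ m ≤ k ^ m * (Wm ∪ X).card := by
      rw [mul_comm]
      exact Nat.mul_le_mul_left _ h5
    omega
  have hXB : X ⊆ B := fun v hv =>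
    h.hUB (Finset.mem_sdiff.1 (hPU v ((memX v).1 hv).1.1)).1
  have hU'B : U' ⊆ B := Finset.sdiff_subset.trans h.hUB
  obtain ⟨W', c1, c2, c3, c4, c5⟩ := closure_step hsm hU'B hWmx _ (W ∪ X) le_rfl
    (Finset.union_subset h.hWB hXB) (Finset.union_subset_union_left h.hWm) (by
      have := h.card
      rw [hWm'c, hW1c]
      omega) (by
      have h1 := h.edge
      have h2 : eW G W ≤ eW G (W ∪ X) := eW_mono Finset.subset_union_left
      rw [hWm'c, hW1c]
      nlinarith)
  have hWW' : W ⊆ W' := Finset.subset_union_left.trans c1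
  have hXW' : X ⊆ W' := Finset.subset_union_right.trans c1
  have hW'B : W' ⊆ B := c2.trans (Finset.union_subset (Finset.union_subset h.hWB hXB) hU'B)
  have hZU : ∀ v ∈ W', v ∉ W → v ∈ U' \ W := by
    intro v hv hvW
    rcases Finset.mem_union.1 (c2 hv) with h1 | h1
    · rcases Finset.mem_union.1 h1 with h2 | h2
      · exact absurd h2 hvW
      · have h3 := (memX v).1 h2
        exact hPIg v h3.1.1 h3.1.2
    · exact Finset.mem_sdiff.2 ⟨h1, hvW⟩
  obtain ⟨σ, s1, s2⟩ := exists_rank hsm _ (W' \ W) (Finset.sdiff_subset.trans hW'B) rfl (by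
    have := Finset.card_le_card (Finset.sdiff_subset : W' \ W ⊆ W')
    omega)
  set R : ℕ := 1 + ∑ v ∈ W, ρ v with hR
  have hρR : ∀ v ∈ W, ρ v < R := fun v hv => by
    have : ρ v ≤ ∑ v ∈ W, ρ v := Finset.single_le_sum (fun _ _ => Nat.zero_le _) hv
    omega
  set ρ' : V → ℕ := fun v => if v ∈ W then ρ v else R + σ v with hρ'
  have rW : ∀ v ∈ W, ρ' v = ρ v := fun v hv => by
    simp only [hρ']
    rw [if_pos hv]
  have rZ : ∀ v, v ∉ W → ρ' v = R + σ v := fun v hv => by
    simp only [hρ']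
    rw [if_neg hv]
  refine ⟨I, hIM, ?_, ?_, ?_, W', Wm ∪ X, ρ', l', ?_⟩
  · intro u hu v hv
    rcases (memI u).1 hu with h1 | h1 <;> rcases (memI v).1 hv with h2 | h2
    · exact i2 u h1 v h2
    · exact fun hadj => ((memP v).1 ((memIg v).1 h2).1).2 u h1 hadj.symm
    · exact ((memP u).1 ((memIg u).1 h1).1).2 v h2
    · intro hadj
      refine hc u (h.hUB (hM (hIM hu))) v (h.hUB (hM (hIM hv))) hadj ?_
      rw [((memIg u).1 h1).2, ((memIg v).1 h2).2]
  · intro v hv
    by_cases hvW : v ∈ W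
    · exact hbf v (Finset.mem_inter.2 ⟨hM hv, hvW⟩)
    · have := hgf v (Finset.mem_sdiff.2 ⟨hM hv, hvW⟩)
      omega
  · intro v hv
    rw [Finset.mem_sdiff] at hv
    by_cases hvW : v ∈ W
    · exact hbf2 v (Finset.mem_inter.2 ⟨hM hv.1, hvW⟩) hv.1 hv.2
    · exact hgf v (Finset.mem_sdiff.2 ⟨hM hv.1, hvW⟩)
  · refine ⟨hU'B, hW'B, (Finset.union_subset (h.hWm.trans hWW') hXW'), ?_, ?_, c4, c3, ?_, c5,
      ?_, ?_, ?_⟩
    · -- injectivity of the ranks
      intro u hu v hv huv
      rw [Finset.mem_coe] at hu hv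
      by_cases huW : u ∈ W <;> by_cases hvW : v ∈ W
      · rw [rW u huW, rW v hvW] at huv
        exact h.hρ huW hvW huv
      · rw [rW u huW, rZ v hvW] at huv
        have := hρR u huW
        omega
      · rw [rZ u huW, rW v hvW] at huv
        have := hρR v hvW
        omega
      · rw [rZ u huW, rZ v hvW] at huv
        exact s1 (Finset.mem_coe.2 (Finset.mem_sdiff.2 ⟨hu, huW⟩))
          (Finset.mem_coe.2 (Finset.mem_sdiff.2 ⟨hv, hvW⟩)) (by omega)
    · -- the potential
      have h1 := hpot2 (U' \ W') (Finset.sdiff_subset_sdiff le_rfl hWW')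
        (Finset.disjoint_left.2 fun v h1 h2 => (Finset.mem_sdiff.1 h1).2 (hXW' h2))
      have h2 := h.pot
      show ∑ v ∈ U' \ W', k ^ (l' v) * (k - 1) ^ (m - l' v) + k ^ m * (Wm ∪ X).card ≤
        B.card * (k - 1) ^ m
      rw [hWm'c, mul_add]
      omega
    · -- losses
      intro v hv
      rw [Finset.mem_sdiff] at hv
      have hvW : v ∉ W := fun h' => hv.2 (hWW' h')
      have hvU : v ∈ U := ((memU' v).1 hv.1).1
      have h1 := h.good_l v (Finset.mem_sdiff.2 ⟨hvU, hvW⟩)
      have h2 : ¬ ((v ∈ P ∧ v ∉ Ig) ∧ l v + 1 = m) := fun h' => hv.2 (hXW' ((memX v).2 h'))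
      simp only [hl']
      split_ifs with h3
      · rw [Finset.mem_sdiff] at h3
        have : l v + 1 ≠ m := fun h' => h2 ⟨h3, h'⟩
        omega
      · exact h1
    · -- tokens of good vertices
      intro v hv
      rw [Finset.mem_sdiff] at hv
      have hvW : v ∉ W := fun h' => hv.2 (hWW' h')
      have h1 := (hgood v (Finset.mem_sdiff.2 ⟨hv.1, hvW⟩)).1
      have h2 : (nb G v (W \ U')).card ≤ (nb G v (W' \ U')).card :=
        Finset.card_le_card (nb_mono (Finset.sdiff_subset_sdiff hWW' le_rfl))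
      show m + 3 * d + 1 ≤ f' v + l' v + (nb G v (W' \ U')).card
      omega
    · -- earlier neighbours of bad vertices
      intro v hv
      rw [Finset.mem_inter] at hv
      by_cases hvW : v ∈ W
      · have hvU : v ∈ U := ((memU' v).1 hv.1).1
        refine le_trans (Finset.card_le_card ?_) (h.bad_n v (Finset.mem_inter.2 ⟨hvU, hvW⟩))
        intro w hw
        rw [Finset.mem_filter, mem_nb] at hw ⊢
        obtain ⟨⟨h1, h2⟩, h3⟩ := hw
        rw [rW v hvW] at h3
        have hwW : w ∈ W := by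
          by_contra h4
          rw [rZ w h4] at h3
          have := hρR v hvW
          omega
        rw [rW w hwW] at h3
        exact ⟨⟨hwW, h2⟩, h3⟩
      · have hvUW := hZU v hv.2 hvW
        have hvU : v ∈ U := ((memU' v).1 (Finset.mem_sdiff.1 hvUW).1).1
        have h1 := h.good_n v (Finset.mem_sdiff.2 ⟨hvU, hvW⟩)
        have h2 := s2 v (Finset.mem_sdiff.2 ⟨hv.2, hvW⟩)
        have h3 : ((nb G v W').filter fun w => ρ' w < ρ' v) ⊆
            nb G v W ∪ ((nb G v (W' \ W)).filter fun w => σ w < σ v) := by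
          intro w hw
          rw [Finset.mem_filter, mem_nb] at hw
          obtain ⟨⟨h4, h5⟩, h6⟩ := hw
          rw [Finset.mem_union]
          by_cases hwW : w ∈ W
          · exact Or.inl (mem_nb.2 ⟨hwW, h5⟩)
          · rw [rZ w hwW, rZ v hvW] at h6
            refine Or.inr ?_
            rw [Finset.mem_filter, mem_nb, Finset.mem_sdiff]
            exact ⟨⟨⟨h4, hwW⟩, h5⟩, by omega⟩
        have h4 := (Finset.card_le_card h3).trans (Finset.card_union_le _ _)
        omega
    · -- tokens of bad vertices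
      intro v hv
      rw [Finset.mem_inter] at hv
      show m + 3 * d + 1 ≤ m + f' v + ((nb G v (W' \ U')).filter fun w => ρ' w < ρ' v).card
      by_cases hvW : v ∈ W
      · have hvU : v ∈ U := ((memU' v).1 hv.1).1
        have hvI : v ∉ I := ((memU' v).1 hv.1).2
        have h1 := h.bad_f v (Finset.mem_inter.2 ⟨hvU, hvW⟩)
        have hsub : ((nb G v (W \ U)).filter fun w => ρ w < ρ v) ⊆
            ((nb G v (W' \ U')).filter fun w => ρ' w < ρ' v) := by
          intro w hw
          rw [Finset.mem_filter, mem_nb, Finset.mem_sdiff] at hw ⊢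
          obtain ⟨⟨⟨h2, h3⟩, h4⟩, h5⟩ := hw
          rw [rW v hvW, rW w h2]
          exact ⟨⟨⟨hWW' h2, fun h' => h3 ((memU' w).1 h').1⟩, h4⟩, h5⟩
        by_cases hvM : v ∈ M
        · have hf1 : f' v = f v - 1 := by
            simp only [hf']
            rw [if_pos hvM]
          have h2 := hbf v (Finset.mem_inter.2 ⟨hvU, hvW⟩)
          obtain ⟨u, hu, huv, hρu⟩ := i3 v (Finset.mem_sdiff.2 ⟨Finset.mem_inter.2 ⟨hvM, hvW⟩,
            fun h' => hvI ((memI v).2 (Or.inl h'))⟩)
          have h3 : ((nb G v (W \ U)).filter fun w => ρ w < ρ v) ⊂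
              ((nb G v (W' \ U')).filter fun w => ρ' w < ρ' v) := by
            refine (Finset.ssubset_iff_of_subset hsub).2 ⟨u, ?_, ?_⟩
            · rw [Finset.mem_filter, mem_nb, Finset.mem_sdiff, rW v hvW, rW u (hIb u hu).2, memU',
                memI]
              exact ⟨⟨⟨hWW' (hIb u hu).2, fun h' => h'.2 (Or.inl hu)⟩, huv⟩, hρu⟩
            · rw [Finset.mem_filter, mem_nb, Finset.mem_sdiff]
              have := hM (hIb u hu).1
              tauto
          have h4 := Finset.card_lt_card h3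
          omega
        · have hf1 : f' v = f v := by
            simp only [hf']
            rw [if_neg hvM]
          have h4 := Finset.card_le_card hsub
          omega
      · have hvUW := hZU v hv.2 hvW
        obtain ⟨h1, h2⟩ := hgood v hvUW
        have hsub : nb G v (W \ U') ⊆ ((nb G v (W' \ U')).filter fun w => ρ' w < ρ' v) := by
          intro w hw
          rw [mem_nb, Finset.mem_sdiff] at hw
          rw [Finset.mem_filter, mem_nb, Finset.mem_sdiff, rW w hw.1.1, rZ v hvW]
          have := hρR w hw.1.1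
          exact ⟨⟨⟨hWW' hw.1.1, hw.1.2⟩, hw.2⟩, by omega⟩
        have h4 := Finset.card_le_card hsub
        omega

/-- Small sets: if `B` has a proper `k`-colouring and its small subsets are `d`-degenerate then
Painter wins on `B` with `m + 3 d + 1` tokens. -/
theorem wins_small {G : SimpleGraph V} {B : Finset V} {k m x d : ℕ} (hk : 2 ≤ k) (hm : 1 ≤ m)
    (c : V → Fin k) (hc : ∀ u ∈ B, ∀ v ∈ B, G.Adj u v → c u ≠ c v)
    (hx : B.card * (k - 1) ^ m < (x + 1) * k ^ m)
    (hsm : SmallDeg G B (2 * x + 1) d) : Wins G B (fun _ => m + 3 * d + 1) := by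
  refine wins_of_inv (fun U f => ∃ W Wm ρ l, Inv G B k m d U f W Wm ρ l) ?_ B _
    ⟨∅, ∅, fun _ => 0, fun _ => 0, ?_⟩
  · rintro U f ⟨W, Wm, ρ, l, h⟩
    exact inv_step hk c hc hx hsm h
  · refine ⟨le_rfl, by simp, by simp, by simp, by simp, by simp, by simp, ?_, ?_, ?_, by simp,
      by simp⟩
    · intro v _
      omega
    · intro v _
      simp [nb]
    · intro v _
      omega

end Pool.Agent.Helper22.OLC
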