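import Pool.Agent.Helper22.OLCluster
import Pool.Agent.Helper22.OLPot

/-!
# Choosable graphs built by substitution
-/

namespace Pool.Agent.Helper22.OLC

variable {V : Type*} [DecidableEq V]

/-- The graph induced on `A` is built from single vertices by repeated substitution: the set `A`
is a disjoint union of sets `P i` (each of them built in the same way), any two of which are
completely joined or not joined at all, and the indices `i` have a partition `γ` in classes of at
most `w` indices such that each class is joined to at most `D` other classes. -/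
inductive Built (G : SimpleGraph V) (w D : ℕ) : Finset V → Prop
  | single (v : V) : Built G w D {v}
  | node (A : Finset V) (q : ℕ) (P : Fin q → Finset V)
      (hA : ∀ v, v ∈ A ↔ ∃ i, v ∈ P i)
      (hdisj : ∀ i j, i ≠ j → Disjoint (P i) (P j))
      (hmod : ∀ i j, i ≠ j →
        (∀ u ∈ P i, ∀ v ∈ P j, G.Adj u v) ∨ (∀ u ∈ P i, ∀ v ∈ P j, ¬ G.Adj u v))
      (γ : Fin q → ℕ)
      (hw : ∀ a, {i | γ i = a}.ncard ≤ w)
      (hD : ∀ a, {b | b ≠ a ∧ ∃ i j, γ i = a ∧ γ j = b ∧ ∃ u ∈ P i, ∃ v ∈ P j,
        G.Adj u v}.ncard ≤ D)
      (h : ∀ i, Built G w D (P i)) : Built G w D A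

/-- No complete bipartite graph with sides of sizes `r` and `K` inside `A`. -/
def NoK (G : SimpleGraph V) (r K : ℕ) (A : Finset V) : Prop :=
  ∀ X ⊆ A, ∀ Y ⊆ A, X.card = r → Y.card = K → ¬ ∀ x ∈ X, ∀ y ∈ Y, G.Adj x y

/-- `S` has a partition in parts of size at most `N`, each adjacent to at most `D` others. -/
def Clustered (G : SimpleGraph V) (N D : ℕ) (S : Finset V) : Prop :=
  ∃ β : V → ℕ, (∀ a, (S.filter fun v => β v = a).card ≤ N) ∧ ∀ a, (padj G S β a).card ≤ D

/-- Union of pairwise non-adjacent sets. -/
theorem wins_biUnion {ι : Type*} [DecidableEq ι] {G : SimpleGraph V} {g : V → ℕ}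
    (P : ι → Finset V) (s : Finset ι)
    (hdisj : ∀ i ∈ s, ∀ j ∈ s, i ≠ j → Disjoint (P i) (P j))
    (hnadj : ∀ i ∈ s, ∀ j ∈ s, i ≠ j → ∀ u ∈ P i, ∀ v ∈ P j, ¬ G.Adj u v)
    (h : ∀ i ∈ s, Wins G (P i) g) : Wins G (s.biUnion P) g := by
  induction s using Finset.induction_on with
  | empty =>
    rw [Finset.biUnion_empty]
    apply wins_of_step
    intro M hM hne
    rw [Finset.subset_empty] at hM
    subst hM
    exact absurd hne (by simp)
  | insert a s ha ih =>
    rw [Finset.biUnion_insert]
    refine wins_union (g := g) ?_ (h a (Finset.mem_insert_self _ _))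
      (ih (fun i hi j hj => hdisj i (Finset.mem_insert_of_mem hi) j (Finset.mem_insert_of_mem hj))
        (fun i hi j hj => hnadj i (Finset.mem_insert_of_mem hi) j (Finset.mem_insert_of_mem hj))
        (fun i hi => h i (Finset.mem_insert_of_mem hi))) ?_
    · rw [Finset.disjoint_biUnion_right]
      intro i hi
      exact hdisj a (Finset.mem_insert_self _ _) i (Finset.mem_insert_of_mem hi)
        (fun h => ha (h ▸ hi))
    · intro v hv
      rw [Finset.mem_biUnion] at hv
      obtain ⟨i, hi, hvi⟩ := hv
      have h0 : nb G v (P a) = ∅ := by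
        rw [Finset.eq_empty_iff_forall_notMem]
        intro u hu
        rw [mem_nb] at hu
        exact hnadj i (Finset.mem_insert_of_mem hi) a (Finset.mem_insert_self _ _)
          (fun h => ha (h ▸ hi)) v hvi u hu.1 hu.2
      rw [h0]
      simp

/-- The structure theorem in terms of the game. -/
theorem wins_built {G : SimpleGraph V} {w D K T : ℕ} (hw : 1 ≤ w)
    (hT : ∀ S : Finset V, Clustered G (w * K) D S → Wins G S (fun _ => T)) {A : Finset V}
    (hA : Built G w D A) :
    ∀ r : ℕ, 1 ≤ r → r ≤ K → NoK G r K A → Wins G A (fun _ => T + r - 1) := by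
  classical
  induction hA with
  | single v =>
    intro r hr hrK _
    refine (hT {v} ⟨fun _ => 0, ?_, ?_⟩).mono (fun _ _ => by omega)
    · intro a
      refine (Finset.card_le_card (Finset.filter_subset _ _)).trans ?_
      rw [Finset.card_singleton]
      nlinarith
    · intro a
      have : padj G {v} (fun _ => 0) a = ∅ := by
        rw [Finset.eq_empty_iff_forall_notMem]
        intro b hb
        rw [mem_padj] at hb
        obtain ⟨_, _, u, hu, u', hu', _, _, h⟩ := hb
        rw [Finset.mem_singleton] at hu hu'
        subst hu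
        subst hu'
        exact G.loopless.irrefl _ h
      rw [this]
      simp
  | node A q P hA hdisj hmod γ hw' hD' hP ih =>
    intro r hr hrK hno
    -- small and big modules
    set s : Finset (Fin q) := Finset.univ.filter (fun i => (P i).card < K) with hs
    set bg : Finset (Fin q) := Finset.univ.filter (fun i => K ≤ (P i).card) with hbg
    set S : Finset V := s.biUnion P with hS
    have hsub : ∀ i, P i ⊆ A := fun i v hv => (hA v).2 ⟨i, hv⟩
    have hSA : S ⊆ A := by
      rw [hS, Finset.biUnion_subset]
      exact fun i _ => hsub i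
    have mems : ∀ i, i ∈ s ↔ (P i).card < K := fun i => by
      rw [hs, Finset.mem_filter]
      simp
    have membg : ∀ i, i ∈ bg ↔ K ≤ (P i).card := fun i => by
      rw [hbg, Finset.mem_filter]
      simp
    have hAU : A = S ∪ bg.biUnion P := by
      ext v
      rw [hA, Finset.mem_union, hS, Finset.mem_biUnion, Finset.mem_biUnion]
      constructor
      · rintro ⟨i, hi⟩
        rcases Nat.lt_or_ge (P i).card K with h | h
        · exact Or.inl ⟨i, (mems i).2 h, hi⟩
        · exact Or.inr ⟨i, (membg i).2 h, hi⟩
      · rintro (⟨i, _, hi⟩ | ⟨i, _, hi⟩) <;> exact ⟨i, hi⟩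
    -- the index of a vertex
    have hidx : ∀ i j v, v ∈ P i → v ∈ P j → i = j := by
      intro i j v hi hj
      by_contra hne
      exact Finset.disjoint_left.1 (hdisj i j hne) hi hj
    -- `S` is clustered
    have hSW : Wins G S (fun _ => T) := by
      apply hT
      refine ⟨fun v => if h : ∃ i, v ∈ P i then γ h.choose else 0, ?_, ?_⟩
      · intro a
        have hβ : ∀ i v, v ∈ P i →
            (if h : ∃ i, v ∈ P i then γ h.choose else 0) = γ i := by
          intro i v hv
          have hex : ∃ i, v ∈ P i := ⟨i, hv⟩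
          rw [dif_pos hex, hidx _ _ v hex.choose_spec hv]
        set ia : Finset (Fin q) := Finset.univ.filter (fun i => γ i = a ∧ i ∈ s) with hia
        have h1 : (S.filter fun v => (if h : ∃ i, v ∈ P i then γ h.choose else 0) = a) ⊆
            ia.biUnion P := by
          intro v hv
          rw [Finset.mem_filter, hS, Finset.mem_biUnion] at hv
          obtain ⟨⟨i, hi, hvi⟩, hva⟩ := hv
          rw [hβ i v hvi] at hva
          rw [Finset.mem_biUnion]
          refine ⟨i, ?_, hvi⟩
          rw [hia, Finset.mem_filter]
          exact ⟨Finset.mem_univ _, hva, hi⟩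
        have h2 : ia.card ≤ w := by
          refine le_trans ?_ (hw' a)
          rw [← Set.ncard_coe_finset]
          apply Set.ncard_le_ncard _ (Set.toFinite _)
          intro i hi
          rw [Finset.mem_coe, hia, Finset.mem_filter] at hi
          exact hi.2.1
        calc (S.filter fun v => (if h : ∃ i, v ∈ P i then γ h.choose else 0) = a).card
            ≤ (ia.biUnion P).card := Finset.card_le_card h1
          _ ≤ ∑ i ∈ ia, (P i).card := Finset.card_biUnion_le
          _ ≤ ∑ _i ∈ ia, K := Finset.sum_le_sum fun i hi => by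
              rw [hia, Finset.mem_filter] at hi
              exact ((mems i).1 hi.2.2).le
          _ = ia.card * K := by rw [Finset.sum_const, smul_eq_mul]
          _ ≤ w * K := Nat.mul_le_mul_right _ h2
      · intro a
        have hβ : ∀ i v, v ∈ P i →
            (if h : ∃ i, v ∈ P i then γ h.choose else 0) = γ i := by
          intro i v hv
          have hex : ∃ i, v ∈ P i := ⟨i, hv⟩
          rw [dif_pos hex, hidx _ _ v hex.choose_spec hv]
        refine le_trans ?_ (hD' a)
        rw [← Set.ncard_coe_finset]
        apply Set.ncard_le_ncard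
        · intro b hb
          rw [Finset.mem_coe, mem_padj] at hb
          obtain ⟨_, hba, u, hu, v, hv, hua, hvb, huv⟩ := hb
          rw [hS, Finset.mem_biUnion] at hu hv
          obtain ⟨i, hi, hui⟩ := hu
          obtain ⟨j, hj, hvj⟩ := hv
          exact ⟨hba, i, j, (hβ i u hui).symm.trans hua, (hβ j v hvj).symm.trans hvb,
            u, hui, v, hvj, huv⟩
        · refine Set.Finite.subset (Set.finite_range γ) ?_
          rintro b ⟨_, i, j, _, hj, _⟩
          exact ⟨j, hj⟩
    -- neighbours in `S` of the vertices of a big module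
    have hNi : ∀ i ∈ bg, ∀ v ∈ P i, ∀ v' ∈ P i, nb G v A \ P i ⊆ nb G v' A := by
      intro i _ v hv v' hv' u hu
      rw [Finset.mem_sdiff, mem_nb] at hu
      rw [mem_nb]
      refine ⟨hu.1.1, ?_⟩
      obtain ⟨j, hj⟩ := (hA u).1 hu.1.1
      have hij : i ≠ j := by
        rintro rfl
        exact hu.2 hj
      rcases hmod i j hij with h | h
      · exact h v' hv' u hj
      · exact absurd hu.1.2 (h v hv u hj)
    have hcardN : ∀ i ∈ bg, ∀ v ∈ P i, (nb G v A \ P i).card < r := by
      intro i hi v hv
      by_contra hlt
      push Not at hlt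
      obtain ⟨X, hX, hXc⟩ := Finset.exists_subset_card_eq hlt
      obtain ⟨Y, hY, hYc⟩ := Finset.exists_subset_card_eq ((membg i).1 hi)
      refine hno X ?_ Y (hY.trans (hsub i)) hXc hYc ?_
      · intro x hx
        exact (mem_nb.1 (Finset.mem_sdiff.1 (hX hx)).1).1
      · intro x hx y hy
        exact (mem_nb.1 (hNi i hi v hv y (hY hy) (hX hx))).2.symm
    -- big modules are not adjacent
    have hbgna : ∀ i ∈ bg, ∀ j ∈ bg, i ≠ j → ∀ u ∈ P i, ∀ v ∈ P j, ¬ G.Adj u v := by
      intro i hi j hj hij u hu v hv hadj
      rcases hmod i j hij with h | h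
      · have h1 : P j ⊆ nb G u A \ P i := by
          intro x hx
          rw [Finset.mem_sdiff, mem_nb]
          exact ⟨⟨hsub j hx, h u hu x hx⟩, fun h' => hij (hidx i j x h' hx)⟩
        have h2 := Finset.card_le_card h1
        have h3 := hcardN i hi u hu
        have h4 := (membg j).1 hj
        omega
      · exact h u hu v hv hadj
    have hnbS : ∀ i ∈ bg, ∀ v ∈ P i, nb G v S = nb G v A \ P i := by
      intro i hi v hv
      ext u
      rw [mem_nb, Finset.mem_sdiff, mem_nb]
      constructor
      · rintro ⟨h1, h2⟩
        refine ⟨⟨hSA h1, h2⟩, fun h3 => ?_⟩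
        rw [hS, Finset.mem_biUnion] at h1
        obtain ⟨j, hj, huj⟩ := h1
        have := hidx i j u h3 huj
        subst this
        have h4 := (mems i).1 hj
        have h5 := (membg i).1 hi
        omega
      · rintro ⟨⟨h1, h2⟩, h3⟩
        refine ⟨?_, h2⟩
        obtain ⟨j, hj⟩ := (hA u).1 h1
        rw [hS, Finset.mem_biUnion]
        refine ⟨j, ?_, hj⟩
        rw [mems]
        by_contra h4
        push Not at h4
        have hij : i ≠ j := by
          rintro rfl
          exact h3 hj
        exact hbgna i hi j ((membg j).2 h4) hij v hv u hj h2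
    -- the strategy on the big modules
    set g : V → ℕ := fun v => T + r - 1 - (nb G v S).card with hg
    have hbig : Wins G (bg.biUnion P) g := by
      refine wins_biUnion P bg (fun i _ j _ hij => hdisj i j hij) hbgna ?_
      intro i hi
      have hKi := (membg i).1 hi
      have hne : (P i).Nonempty := by
        rw [← Finset.card_pos]
        omega
      obtain ⟨v0, hv0⟩ := hne
      set N : Finset V := nb G v0 A \ P i with hN
      have hNr : N.card < r := hcardN i hi v0 hv0
      have hno' : NoK G (r - N.card) K (P i) := by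
        intro X hX Y hY hXc hYc hall
        have hdj : Disjoint X N := by
          rw [Finset.disjoint_left]
          intro x hx hxN
          rw [hN, Finset.mem_sdiff] at hxN
          exact hxN.2 (hX hx)
        refine hno (X ∪ N) ?_ Y (hY.trans (hsub i)) ?_ hYc ?_
        · refine Finset.union_subset (hX.trans (hsub i)) ?_
          intro x hx
          rw [hN, Finset.mem_sdiff, mem_nb] at hx
          exact hx.1.1
        · rw [Finset.card_union_of_disjoint hdj, hXc]
          omega
        · intro x hx y hy
          rcases Finset.mem_union.1 hx with h | h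
          · exact hall x h y hy
          · exact (mem_nb.1 (hNi i hi v0 hv0 y (hY hy) h)).2.symm
      have h1 := ih i (r - N.card) (by omega) (by omega) hno'
      refine h1.mono ?_
      intro v hv
      have h2 : (nb G v S).card ≤ N.card := by
        rw [hnbS i hi v hv]
        apply Finset.card_le_card
        intro u hu
        have h3 := hNi i hi v hv v0 hv0 hu
        rw [hN, Finset.mem_sdiff]
        exact ⟨h3, (Finset.mem_sdiff.1 hu).2⟩
      simp only [hg]
      omega
    rw [hAU]
    refine wins_union (g := g) ?_ (hSW.mono fun _ _ => by omega) hbig ?_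
    · rw [Finset.disjoint_biUnion_right]
      intro i hi
      rw [hS, Finset.disjoint_biUnion_left]
      intro j hj
      apply hdisj
      rintro rfl
      have h4 := (mems j).1 hj
      have h5 := (membg j).1 hi
      omega
    · intro v hv
      rw [Finset.mem_biUnion] at hv
      obtain ⟨i, hi, hvi⟩ := hv
      have h1 := hcardN i hi v hvi
      rw [← hnbS i hi v hvi] at h1
      simp only [hg]
      omega

/-- A `k`-choosable graph has no complete bipartite subgraph with sides `k` and `k ^ k`. -/
theorem noK_of_choosable {G : SimpleGraph V} {k : ℕ} (h : Choosable G k) (A : Finset V) :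
    NoK G k (k ^ k) A := by
  classical
  intro X _ Y _ hX hY hall
  have eX : X ≃ Fin k := Fintype.equivFinOfCardEq (by simpa using hX)
  have eY : Y ≃ (Fin k → Fin k) := Fintype.equivOfCardEq (by simpa using hY)
  have hXY : ∀ v, v ∈ X → v ∉ Y := fun v h1 h2 => G.loopless.irrefl _ (hall v h1 v h2)
  -- the lists
  set L : V → Finset ℕ := fun v =>
    if hx : v ∈ X then Finset.univ.image (fun j : Fin k => ((eX ⟨v, hx⟩ : Fin k) : ℕ) * k + j)
    else if hy : v ∈ Y then
      Finset.univ.image (fun i : Fin k => (i : ℕ) * k + ((eY ⟨v, hy⟩ i : Fin k) : ℕ))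
    else Finset.range k with hL
  have hinj : ∀ i i' j j' : Fin k, (i : ℕ) * k + j = i' * k + j' → i = i' ∧ j = j' := by
    intro i i' j j' h
    have hk : 0 < k := by
      have := i.2
      omega
    have h1 : ((i : ℕ) * k + j) / k = i := by
      rw [mul_comm, Nat.mul_add_div hk, Nat.div_eq_of_lt j.2]
      rfl
    have h2 : ((i' : ℕ) * k + j') / k = i' := by
      rw [mul_comm, Nat.mul_add_div hk, Nat.div_eq_of_lt j'.2]
      rfl
    rw [h] at h1
    have h3 : (i : ℕ) = i' := h1.symm.trans h2
    have h4 : i = i' := Fin.ext h3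
    subst h4
    exact ⟨rfl, Fin.ext (by omega)⟩
  obtain ⟨c, hc1, hc2⟩ := h L (by
    intro v
    simp only [hL]
    split_ifs with hx hy
    · rw [Finset.card_image_of_injective _ (fun a b hab => (hinj _ _ _ _ hab).2)]
      simp
    · rw [Finset.card_image_of_injective _ (fun a b hab => (hinj _ _ _ _ hab).1)]
      simp
    · simp)
  -- the colours on `X`
  have hφ : ∀ i : Fin k, ∃ j : Fin k, c (eX.symm i) = (i : ℕ) * k + j := by
    intro i
    have h1 := hc1 (eX.symm i)
    simp only [hL] at h1
    rw [dif_pos (eX.symm i).2, Finset.mem_image] at h1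
    obtain ⟨j, _, hj⟩ := h1
    refine ⟨j, ?_⟩
    rw [← hj]
    simp
  choose φ hφ using hφ
  set y : Y := eY.symm φ with hy
  have h1 := hc1 y
  simp only [hL] at h1
  rw [dif_neg (fun h' => hXY _ h' y.2), dif_pos y.2, Finset.mem_image] at h1
  obtain ⟨i, _, hi⟩ := h1
  have h2 : (eY ⟨(y : V), y.2⟩) = φ := by simp [hy]
  rw [h2] at hi
  refine hc2 (eX.symm i) y (hall _ (eX.symm i).2 _ y.2) ?_
  rw [hφ i, hi]

/-- A `k`-choosable graph is `k`-colourable. -/
theorem colouring_of_choosable {G : SimpleGraph V} {k : ℕ} (h : Choosable G k) :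
    ∃ c : V → Fin k, ∀ u v, G.Adj u v → c u ≠ c v := by
  obtain ⟨c, hc1, hc2⟩ := h (fun _ => Finset.range k) (by simp)
  refine ⟨fun v => ⟨c v, by simpa using hc1 v⟩, fun u v huv heq => hc2 u v huv ?_⟩
  simpa using heq

end Pool.Agent.Helper22.OLC
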