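import Pool.Agent.Helper22.OLDeg

/-!
# Graphs with a cluster structure
-/

namespace Pool.Agent.Helper22.OLC

variable {V : Type*} [DecidableEq V]

/-- The parts `a` and `b` of the partition `β` of `B` are adjacent. -/
def PAdj (G : SimpleGraph V) (B : Finset V) (β : V → ℕ) (a b : ℕ) : Prop :=
  ∃ u ∈ B, ∃ v ∈ B, β u = a ∧ β v = b ∧ G.Adj u v

open Classical in
/-- The parts adjacent to the part `a`. -/
noncomputable def padj (G : SimpleGraph V) (B : Finset V) (β : V → ℕ) (a : ℕ) : Finset ℕ :=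
  (B.image β).filter fun b => b ≠ a ∧ PAdj G B β a b

theorem cluster_bound {D k F p : ℕ} (hD : 1 ≤ D) (hk : 1 ≤ k) {A : ℝ} (hA : 1 ≤ A)
    {E : Finset ℕ} (hE : E.card ≤ D) (b : ℕ → ℕ)
    (h1 : ((4 * D * k : ℝ) / (4 * D * k - 1)) ^ F ≤ A)
    (h2 : ∀ z ∈ E, (2 : ℝ) ^ (b z) * ((4 * D : ℝ) / (4 * D + 1)) ^ p ≤ A)
    (h3 : p ≤ F + ∑ z ∈ E, b z) : (p : ℝ) ≤ 9 * D * k * Real.log A := by
  have hD' : (1 : ℝ) ≤ D := by exact_mod_cast hD
  have hk' : (1 : ℝ) ≤ k := by exact_mod_cast hk
  have hDk : (1 : ℝ) ≤ D * k := by nlinarith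
  set L : ℝ := Real.log A with hL
  have hL0 : 0 ≤ L := Real.log_nonneg hA
  have hA0 : 0 < A := by linarith
  -- own failures
  have hF : (F : ℝ) ≤ 4 * D * k * L := by
    have e1 : (F : ℝ) * Real.log ((4 * D * k : ℝ) / (4 * D * k - 1)) ≤ L := by
      rw [← Real.log_pow]
      exact Real.log_le_log (by
        apply pow_pos
        apply div_pos <;> nlinarith) h1
    have e2 : 1 / (4 * D * k : ℝ) ≤ Real.log ((4 * D * k : ℝ) / (4 * D * k - 1)) := by
      have e3 : Real.log ((4 * D * k : ℝ) / (4 * D * k - 1)) =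
          - Real.log ((4 * D * k - 1) / (4 * D * k : ℝ)) := by
        rw [← Real.log_inv, inv_div]
      have e4 : Real.log ((4 * D * k - 1) / (4 * D * k : ℝ)) ≤
          (4 * D * k - 1) / (4 * D * k : ℝ) - 1 := by
        apply Real.log_le_sub_one_of_pos
        apply div_pos <;> nlinarith
      have e5 : (4 * D * k - 1) / (4 * D * k : ℝ) - 1 = - (1 / (4 * D * k : ℝ)) := by
        have : (4 * D * k : ℝ) ≠ 0 := by nlinarith
        field_simp
        ring
      rw [e3]
      linarith
    have e6 : (F : ℝ) * (1 / (4 * D * k : ℝ)) ≤ L := by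
      refine le_trans ?_ e1
      exact mul_le_mul_of_nonneg_left e2 (Nat.cast_nonneg _)
    have e7 : (0 : ℝ) < 4 * D * k := by nlinarith
    rw [mul_one_div, div_le_iff₀ e7] at e6
    linarith
  -- blocked rounds
  have hb : ∀ z ∈ E, (b z : ℝ) * Real.log 2 ≤ p / (4 * D) + L := by
    intro z hz
    have e1 := Real.log_le_log (by positivity) (h2 z hz)
    rw [Real.log_mul (by positivity) (by positivity), Real.log_pow, Real.log_pow] at e1
    have e2 : - (1 / (4 * D : ℝ)) ≤ Real.log ((4 * D : ℝ) / (4 * D + 1)) := by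
      have e3 : Real.log ((4 * D : ℝ) / (4 * D + 1)) = - Real.log ((4 * D + 1) / (4 * D : ℝ)) := by
        rw [← Real.log_inv, inv_div]
      have e4 : Real.log ((4 * D + 1) / (4 * D : ℝ)) ≤ (4 * D + 1) / (4 * D : ℝ) - 1 := by
        apply Real.log_le_sub_one_of_pos
        positivity
      have e5 : (4 * D + 1) / (4 * D : ℝ) - 1 = 1 / (4 * D : ℝ) := by
        field_simp
        ring
      rw [e3]
      linarith
    have e6 : (p : ℝ) * (- (1 / (4 * D : ℝ))) ≤ p * Real.log ((4 * D : ℝ) / (4 * D + 1)) :=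
      mul_le_mul_of_nonneg_left e2 (Nat.cast_nonneg _)
    have e7 : (p : ℝ) * (- (1 / (4 * D : ℝ))) = - (p / (4 * D)) := by ring
    linarith
  have hsum : (∑ z ∈ E, (b z : ℝ)) * Real.log 2 ≤ p / 4 + D * L := by
    rw [Finset.sum_mul]
    calc ∑ z ∈ E, (b z : ℝ) * Real.log 2 ≤ ∑ z ∈ E, (p / (4 * D) + L) :=
          Finset.sum_le_sum hb
      _ = E.card * (p / (4 * D) + L) := by rw [Finset.sum_const, nsmul_eq_mul]
      _ ≤ D * (p / (4 * D) + L) := by
          apply mul_le_mul_of_nonneg_right _ (by positivity)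
          exact_mod_cast hE
      _ = p / 4 + D * L := by
          field_simp
  have hlog2 := Real.log_two_gt_d9
  have h3' : (p : ℝ) ≤ F + ∑ z ∈ E, (b z : ℝ) := by exact_mod_cast h3
  have hs0 : (0 : ℝ) ≤ ∑ z ∈ E, (b z : ℝ) := Finset.sum_nonneg fun _ _ => Nat.cast_nonneg _
  have hp0 : (0 : ℝ) ≤ p := Nat.cast_nonneg _
  have hsum' : (∑ z ∈ E, (b z : ℝ)) * 0.6931 ≤ p / 4 + D * L := by
    refine le_trans ?_ hsum
    apply mul_le_mul_of_nonneg_left _ hs0
    linarith
  have hDL : (D : ℝ) * L ≤ D * k * L := by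
    have : (0 : ℝ) ≤ D * L := by positivity
    nlinarith
  nlinarith

section round

variable (G : SimpleGraph V) (B : Finset V) (β : V → ℕ) (D k : ℕ)

open Classical in
/-- The potential of the part `z`. -/
noncomputable def Phi (U : Finset V) (F : V → ℕ) (b : V → ℕ → ℕ) (p : V → ℕ) (z : ℕ) : ℝ :=
  ∑ v ∈ U.filter (fun v => β v = z), ((4 * D * k : ℝ) / (4 * D * k - 1)) ^ (F v) +
  ∑ v ∈ U.filter (fun v => z < β v ∧ PAdj G B β z (β v)),
    (2 : ℝ) ^ (b v z) * ((4 * D : ℝ) / (4 * D + 1)) ^ (p v)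

open Classical in
/-- New failures. -/
noncomputable def newF (M I : Finset V) (F : V → ℕ) (v : V) : ℕ :=
  if v ∈ M ∧ v ∉ I ∧ ∀ u ∈ I, β u < β v → ¬ G.Adj v u then F v + 1 else F v

open Classical in
/-- New blocked rounds. -/
noncomputable def newb (M I : Finset V) (b : V → ℕ → ℕ) (v : V) (z : ℕ) : ℕ :=
  if v ∈ M ∧ ∃ u ∈ I, β u = z ∧ G.Adj v u then b v z + 1 else b v z

/-- New presentations. -/
def newp (M : Finset V) (p : V → ℕ) (v : V) : ℕ := if v ∈ M then p v + 1 else p v

open Classical in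
/-- The potential of the part `z` after the round. -/
noncomputable def Phi' (U M I : Finset V) (F : V → ℕ) (b : V → ℕ → ℕ) (p : V → ℕ) (z : ℕ) : ℝ :=
  ∑ v ∈ U.filter (fun v => β v = z),
    (if v ∈ I then 0 else ((4 * D * k : ℝ) / (4 * D * k - 1)) ^ (newF G β M I F v)) +
  ∑ v ∈ U.filter (fun v => z < β v ∧ PAdj G B β z (β v)),
    (2 : ℝ) ^ (newb G β M I b v z) * ((4 * D : ℝ) / (4 * D + 1)) ^ (newp M p v)

variable {G B β D k}

theorem newF_congr {M I J : Finset V} {F : V → ℕ} {v : V}
    (h : ∀ u, β u ≤ β v → (u ∈ I ↔ u ∈ J)) : newF G β M I F v = newF G β M J F v := by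
  unfold newF
  have h1 : (v ∈ M ∧ v ∉ I ∧ ∀ u ∈ I, β u < β v → ¬ G.Adj v u) ↔
      (v ∈ M ∧ v ∉ J ∧ ∀ u ∈ J, β u < β v → ¬ G.Adj v u) := by
    rw [h v le_rfl]
    constructor
    · rintro ⟨a, b, c⟩
      exact ⟨a, b, fun u hu hlt => c u ((h u hlt.le).2 hu) hlt⟩
    · rintro ⟨a, b, c⟩
      exact ⟨a, b, fun u hu hlt => c u ((h u hlt.le).1 hu) hlt⟩
  by_cases h2 : v ∈ M ∧ v ∉ J ∧ ∀ u ∈ J, β u < β v → ¬ G.Adj v u
  · rw [if_pos h2, if_pos (h1.2 h2)]
  · rw [if_neg h2, if_neg (fun h' => h2 (h1.1 h'))]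

theorem newb_congr {M I J : Finset V} {b : V → ℕ → ℕ} {v : V} {z : ℕ}
    (h : ∀ u, β u = z → (u ∈ I ↔ u ∈ J)) : newb G β M I b v z = newb G β M J b v z := by
  unfold newb
  have h1 : (v ∈ M ∧ ∃ u ∈ I, β u = z ∧ G.Adj v u) ↔
      (v ∈ M ∧ ∃ u ∈ J, β u = z ∧ G.Adj v u) := by
    constructor
    · rintro ⟨a, u, hu, hz, huv⟩
      exact ⟨a, u, (h u hz).1 hu, hz, huv⟩
    · rintro ⟨a, u, hu, hz, huv⟩
      exact ⟨a, u, (h u hz).2 hu, hz, huv⟩
  by_cases h2 : v ∈ M ∧ ∃ u ∈ J, β u = z ∧ G.Adj v u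
  · rw [if_pos h2, if_pos (h1.2 h2)]
  · rw [if_neg h2, if_neg (fun h' => h2 (h1.1 h'))]

theorem Phi'_congr {U M I J : Finset V} {F : V → ℕ} {b : V → ℕ → ℕ} {p : V → ℕ} {z : ℕ}
    (h : ∀ u, β u ≤ z → (u ∈ I ↔ u ∈ J)) :
    Phi' G B β D k U M I F b p z = Phi' G B β D k U M J F b p z := by
  unfold Phi'
  congr 1
  · refine Finset.sum_congr rfl fun v hv => ?_
    rw [Finset.mem_filter] at hv
    have h1 : v ∈ I ↔ v ∈ J := h v hv.2.le
    rw [newF_congr (J := J) (fun u hu => h u (by omega))]
    by_cases h2 : v ∈ J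
    · rw [if_pos h2, if_pos (h1.2 h2)]
    · rw [if_neg h2, if_neg (fun h' => h2 (h1.1 h'))]
  · refine Finset.sum_congr rfl fun v hv => ?_
    rw [newb_congr (J := J) (fun u hu => h u hu.le)]

/-- Averaging over a finite type. -/
theorem exists_le_of_avg {ι : Type*} [Fintype ι] [Nonempty ι] (g : ι → ℝ) (A : ℝ)
    (h : ∑ i, g i ≤ Fintype.card ι * A) : ∃ i, g i ≤ A := by
  by_contra hc
  push Not at hc
  have h1 : ∑ _i : ι, A < ∑ i, g i :=
    Finset.sum_lt_sum_of_nonempty Finset.univ_nonempty fun i _ => hc i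
  rw [Finset.sum_const, nsmul_eq_mul, Finset.card_univ] at h1
  linarith

end round

section round2

variable {G : SimpleGraph V} {B : Finset V} {β : V → ℕ} {D k : ℕ}

open Classical in
/-- The set chosen in the part `n` with the outcome `o`. -/
noncomputable def choice (G : SimpleGraph V) (β : V → ℕ) {D k : ℕ} (c : V → Fin k)
    (M I : Finset V) (n : ℕ) (o : Fin (4 * D) × Fin k) : Finset V :=
  if o.1.val = 0 then I ∪ M.filter (fun v => β v = n ∧ c v = o.2 ∧ ∀ u ∈ I, ¬ G.Adj v u) else I

theorem choice_lt {c : V → Fin k} {M I : Finset V} {n : ℕ} {o : Fin (4 * D) × Fin k} {u : V}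
    (hu : β u < n) : u ∈ choice G β c M I n o ↔ u ∈ I := by
  classical
  unfold choice
  split_ifs
  · rw [Finset.mem_union, Finset.mem_filter]
    constructor
    · rintro (h | h)
      · exact h
      · omega
    · exact Or.inl
  · exact Iff.rfl

theorem sum_own (hD : 1 ≤ D) (hk : 1 ≤ k) (c : V → Fin k) {M I : Finset V} {n : ℕ}
    (hI : ∀ u ∈ I, β u < n) (F : V → ℕ) {v : V} (hv : β v = n) :
    ∑ o : Fin (4 * D) × Fin k, (if v ∈ choice G β c M I n o then 0 else
      ((4 * D * k : ℝ) / (4 * D * k - 1)) ^ (newF G β M (choice G β c M I n o) F v)) ≤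
    Fintype.card (Fin (4 * D) × Fin k) * ((4 * D * k : ℝ) / (4 * D * k - 1)) ^ (F v) := by
  classical
  have hD' : (1 : ℝ) ≤ D := by exact_mod_cast hD
  have hk' : (1 : ℝ) ≤ k := by exact_mod_cast hk
  have hDk : (1 : ℝ) ≤ D * k := by nlinarith
  have hvI : v ∉ I := fun h => by
    have := hI v h
    omega
  have hnewF : ∀ o : Fin (4 * D) × Fin k, v ∉ choice G β c M I n o →
      newF G β M (choice G β c M I n o) F v =
        if v ∈ M ∧ ∀ u ∈ I, ¬ G.Adj v u then F v + 1 else F v := by
    intro o ho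
    unfold newF
    have h1 : (v ∈ M ∧ v ∉ choice G β c M I n o ∧
        ∀ u ∈ choice G β c M I n o, β u < β v → ¬ G.Adj v u) ↔
        (v ∈ M ∧ ∀ u ∈ I, ¬ G.Adj v u) := by
      constructor
      · rintro ⟨a, _, b⟩
        refine ⟨a, fun u hu => b u ((choice_lt (hI u hu)).2 hu) ?_⟩
        have := hI u hu
        omega
      · rintro ⟨a, b⟩
        refine ⟨a, ho, fun u hu hlt => b u ((choice_lt (by omega)).1 hu)⟩
    by_cases h2 : v ∈ M ∧ ∀ u ∈ I, ¬ G.Adj v u
    · rw [if_pos h2, if_pos (h1.2 h2)]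
    · rw [if_neg h2, if_neg (fun h' => h2 (h1.1 h'))]
  set lam : ℝ := (4 * D * k : ℝ) / (4 * D * k - 1) with hlam
  have hlam1 : 0 < lam := by
    apply div_pos <;> nlinarith
  have hcard : (Fintype.card (Fin (4 * D) × Fin k) : ℝ) = 4 * D * k := by
    rw [Fintype.card_prod, Fintype.card_fin, Fintype.card_fin]
    push_cast
    ring
  by_cases hfree : v ∈ M ∧ ∀ u ∈ I, ¬ G.Adj v u
  · -- reached
    have h4D : 0 < 4 * D := by omega
    set o0 : Fin (4 * D) × Fin k := (⟨0, h4D⟩, c v) with ho0
    have hin : v ∈ choice G β c M I n o0 := by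
      unfold choice
      rw [if_pos rfl, Finset.mem_union, Finset.mem_filter]
      exact Or.inr ⟨hfree.1, hv, rfl, hfree.2⟩
    have h1 : ∑ o : Fin (4 * D) × Fin k, (if v ∈ choice G β c M I n o then 0 else
        lam ^ (newF G β M (choice G β c M I n o) F v)) ≤
        ∑ o : Fin (4 * D) × Fin k, (if o = o0 then 0 else lam ^ (F v + 1)) := by
      refine Finset.sum_le_sum fun o _ => ?_
      by_cases ho : o = o0
      · rw [if_pos ho, ho, if_pos hin]
      · rw [if_neg ho]
        split_ifs with h2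
        · positivity
        · rw [hnewF o h2, if_pos hfree]
    refine h1.trans (le_of_eq ?_)
    rw [← Finset.sum_erase_add _ _ (Finset.mem_univ o0), if_pos rfl, add_zero]
    rw [Finset.sum_congr rfl (g := fun _ => lam ^ (F v + 1)) (fun o ho => by
      rw [if_neg (Finset.ne_of_mem_erase ho)])]
    rw [Finset.sum_const, Finset.card_erase_of_mem (Finset.mem_univ _), Finset.card_univ,
      nsmul_eq_mul, Nat.cast_sub (Fintype.card_pos_iff.2 ⟨o0⟩), hcard, pow_succ, hlam]
    have : (4 * D * k - 1 : ℝ) ≠ 0 := by nlinarith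
    push_cast
    field_simp
  · -- not presented or blocked
    have h1 : ∀ o : Fin (4 * D) × Fin k, v ∉ choice G β c M I n o := by
      intro o ho
      unfold choice at ho
      split_ifs at ho
      · rw [Finset.mem_union, Finset.mem_filter] at ho
        rcases ho with h | h
        · exact hvI h
        · exact hfree ⟨h.1, h.2.2.2⟩
      · exact hvI ho
    apply le_of_eq
    rw [Finset.sum_congr rfl (g := fun _ => lam ^ (F v)) (fun o _ => by
      rw [if_neg (h1 o), hnewF o (h1 o), if_neg hfree])]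
    rw [Finset.sum_const, Finset.card_univ, nsmul_eq_mul]

theorem sum_other (hD : 1 ≤ D) (c : V → Fin k) {M I : Finset V} {n : ℕ}
    (hI : ∀ u ∈ I, β u < n) (b : V → ℕ → ℕ) (p : V → ℕ) (v : V) :
    ∑ o : Fin (4 * D) × Fin k, (2 : ℝ) ^ (newb G β M (choice G β c M I n o) b v n) *
      ((4 * D : ℝ) / (4 * D + 1)) ^ (newp M p v) ≤
    Fintype.card (Fin (4 * D) × Fin k) *
      ((2 : ℝ) ^ (b v n) * ((4 * D : ℝ) / (4 * D + 1)) ^ (p v)) := by
  classical
  have hD' : (1 : ℝ) ≤ D := by exact_mod_cast hD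
  set mu : ℝ := (4 * D : ℝ) / (4 * D + 1) with hmu
  have hmu0 : 0 < mu := by positivity
  have hcard : (Fintype.card (Fin (4 * D) × Fin k) : ℝ) = 4 * D * k := by
    rw [Fintype.card_prod, Fintype.card_fin, Fintype.card_fin]
    push_cast
    ring
  by_cases hvM : v ∈ M
  · have hp : newp M p v = p v + 1 := by
      unfold newp
      rw [if_pos hvM]
    have h1 : ∀ o : Fin (4 * D) × Fin k,
        (2 : ℝ) ^ (newb G β M (choice G β c M I n o) b v n) * mu ^ (newp M p v) ≤
        (1 + if o.1.val = 0 then 1 else 0) * ((2 : ℝ) ^ (b v n) * mu ^ (p v + 1)) := by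
      intro o
      rw [hp]
      by_cases ho : o.1.val = 0
      · rw [if_pos ho, ← mul_assoc]
        apply mul_le_mul_of_nonneg_right _ (by positivity)
        have h2 : newb G β M (choice G β c M I n o) b v n ≤ b v n + 1 := by
          unfold newb
          split_ifs <;> omega
        calc (2 : ℝ) ^ (newb G β M (choice G β c M I n o) b v n) ≤ 2 ^ (b v n + 1) :=
              pow_le_pow_right₀ (by norm_num) h2
          _ = (1 + 1) * 2 ^ (b v n) := by ring
      · rw [if_neg ho, ← mul_assoc]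
        apply mul_le_mul_of_nonneg_right _ (by positivity)
        have h2 : newb G β M (choice G β c M I n o) b v n = b v n := by
          unfold newb
          rw [if_neg]
          rintro ⟨_, u, hu, hun, _⟩
          have hch : choice G β c M I n o = I := by
            unfold choice
            rw [if_neg ho]
          rw [hch] at hu
          have := hI u hu
          omega
        rw [h2]
        simp
    refine (Finset.sum_le_sum fun o _ => h1 o).trans (le_of_eq ?_)
    rw [← Finset.sum_mul, Finset.sum_add_distrib, Finset.sum_const, Finset.card_univ,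
      nsmul_eq_mul, mul_one]
    have h2 : ∑ o : Fin (4 * D) × Fin k, (if o.1.val = 0 then (1 : ℝ) else 0) = k := by
      rw [Fintype.sum_prod_type]
      have h3 : ∀ x : Fin (4 * D), ∑ _y : Fin k, (if x.val = 0 then (1 : ℝ) else 0) =
          if x = ⟨0, by omega⟩ then (k : ℝ) else 0 := by
        intro x
        by_cases hx : x = ⟨0, by omega⟩
        · rw [if_pos hx]
          have : x.val = 0 := by rw [hx]
          simp [this]
        · rw [if_neg hx]
          have : x.val ≠ 0 := fun h => hx (Fin.ext h)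
          simp [this]
      rw [Finset.sum_congr rfl fun x _ => h3 x]
      simp
    rw [h2, hcard, hmu, pow_succ]
    field_simp
  · have h1 : ∀ o : Fin (4 * D) × Fin k,
        (2 : ℝ) ^ (newb G β M (choice G β c M I n o) b v n) * mu ^ (newp M p v) =
        (2 : ℝ) ^ (b v n) * mu ^ (p v) := by
      intro o
      unfold newb newp
      rw [if_neg hvM, if_neg (fun h => hvM h.1)]
    apply le_of_eq
    rw [Finset.sum_congr rfl fun o _ => h1 o, Finset.sum_const, Finset.card_univ, nsmul_eq_mul]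

/-- The choices in one round, part by part. -/
theorem exists_round (hD : 1 ≤ D) (hk : 1 ≤ k) (c : V → Fin k)
    (hc : ∀ u ∈ B, ∀ v ∈ B, G.Adj u v → c u ≠ c v) {U M : Finset V} (hMB : M ⊆ B)
    (F : V → ℕ) (b : V → ℕ → ℕ) (p : V → ℕ) :
    ∀ n : ℕ, ∃ I ⊆ M, (∀ u ∈ I, β u < n) ∧ (∀ u ∈ I, ∀ v ∈ I, ¬ G.Adj u v) ∧
      ∀ z < n, Phi' G B β D k U M I F b p z ≤ Phi G B β D k U F b p z := by
  classical
  intro n
  induction n with
  | zero => exact ⟨∅, by simp, by simp, by simp, by simp⟩
  | succ n ih =>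
    obtain ⟨I, h1, h2, h3, h4⟩ := ih
    have : Nonempty (Fin (4 * D) × Fin k) := ⟨(⟨0, by omega⟩, ⟨0, by omega⟩)⟩
    obtain ⟨o, ho⟩ := exists_le_of_avg
      (fun o : Fin (4 * D) × Fin k => Phi' G B β D k U M (choice G β c M I n o) F b p n)
      (Phi G B β D k U F b p n) (by
        unfold Phi' Phi
        rw [Finset.sum_add_distrib, mul_add]
        refine add_le_add ?_ ?_
        · rw [Finset.sum_comm, Finset.mul_sum]
          refine Finset.sum_le_sum fun v hv => ?_
          rw [Finset.mem_filter] at hv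
          exact sum_own hD hk c h2 F hv.2
        · rw [Finset.sum_comm, Finset.mul_sum]
          exact Finset.sum_le_sum fun v _ => sum_other hD c h2 b p v)
    have hmem : ∀ u, u ∈ choice G β c M I n o → u ∈ I ∨
        (u ∈ M ∧ β u = n ∧ c u = o.2 ∧ ∀ w ∈ I, ¬ G.Adj u w) := by
      intro u hu
      unfold choice at hu
      split_ifs at hu
      · rw [Finset.mem_union, Finset.mem_filter] at hu
        exact hu
      · exact Or.inl hu
    refine ⟨choice G β c M I n o, ?_, ?_, ?_, ?_⟩
    · intro u hu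
      rcases hmem u hu with h | h
      · exact h1 h
      · exact h.1
    · intro u hu
      rcases hmem u hu with h | h
      · have := h2 u h
        omega
      · omega
    · intro u hu v hv
      rcases hmem u hu with h | h <;> rcases hmem v hv with h' | h'
      · exact h3 u h v h'
      · exact fun hadj => h'.2.2.2 u h hadj.symm
      · exact h.2.2.2 v h'
      · intro hadj
        exact hc u (hMB h.1) v (hMB h'.1) hadj (by rw [h.2.2.1, h'.2.2.1])
    · intro z hz
      rcases Nat.lt_succ_iff_lt_or_eq.1 hz with hz | rfl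
      · rw [Phi'_congr (J := I) (fun u hu => choice_lt (by omega))]
        exact h4 z hz
      · exact ho

end round2

section final

variable {G : SimpleGraph V} {B : Finset V} {β : V → ℕ} {D k : ℕ}

theorem PAdj.symm {a b : ℕ} (h : PAdj G B β a b) : PAdj G B β b a := by
  obtain ⟨u, hu, v, hv, h1, h2, h3⟩ := h
  exact ⟨v, hv, u, hu, h2, h1, h3.symm⟩

theorem mem_padj {a b : ℕ} : b ∈ padj G B β a ↔ b ∈ B.image β ∧ b ≠ a ∧ PAdj G B β a b := by
  classical
  unfold padj
  rw [Finset.mem_filter]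

/-- The invariant of the strategy. -/
structure InvC (G : SimpleGraph V) (B : Finset V) (β : V → ℕ) (D k n0 t : ℕ) (A : ℝ)
    (U : Finset V) (f F : V → ℕ) (b : V → ℕ → ℕ) (p : V → ℕ) : Prop where
  hUB : U ⊆ B
  pot : ∀ z < n0, Phi G B β D k U F b p z ≤ A
  tok : ∀ v ∈ U, t ≤ f v + p v
  cnt : ∀ v ∈ U, p v ≤ F v + ∑ z ∈ (padj G B β (β v)).filter (fun z => z < β v), b v z

theorem InvC.lt (hD : 1 ≤ D) (hk : 1 ≤ k) {n0 t : ℕ} {A : ℝ} {U : Finset V} {f F : V → ℕ}
    {b : V → ℕ → ℕ} {p : V → ℕ} (h : InvC G B β D k n0 t A U f F b p) (hA : 1 ≤ A)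
    (hn0 : ∀ v ∈ B, β v < n0) (hdeg : ∀ a, (padj G B β a).card ≤ D)
    (ht : 9 * D * k * Real.log A < t) {v : V} (hv : v ∈ U) : p v < t := by
  classical
  have hD' : (1 : ℝ) ≤ D := by exact_mod_cast hD
  have hk' : (1 : ℝ) ≤ k := by exact_mod_cast hk
  have hDk : (1 : ℝ) ≤ D * k := by nlinarith
  have hlam : 0 < (4 * D * k : ℝ) / (4 * D * k - 1) := by
    apply div_pos <;> nlinarith
  have hmu : 0 < (4 * D : ℝ) / (4 * D + 1) := by positivity
  have h1 : ((4 * D * k : ℝ) / (4 * D * k - 1)) ^ (F v) ≤ A := by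
    refine le_trans ?_ (h.pot (β v) (hn0 v (h.hUB hv)))
    unfold Phi
    refine le_add_of_le_of_nonneg ?_ (Finset.sum_nonneg fun _ _ => by positivity)
    exact Finset.single_le_sum (f := fun v => ((4 * D * k : ℝ) / (4 * D * k - 1)) ^ (F v))
      (fun _ _ => by positivity) (Finset.mem_filter.2 ⟨hv, rfl⟩)
  have h2 : ∀ z ∈ (padj G B β (β v)).filter (fun z => z < β v),
      (2 : ℝ) ^ (b v z) * ((4 * D : ℝ) / (4 * D + 1)) ^ (p v) ≤ A := by
    intro z hz
    rw [Finset.mem_filter, mem_padj] at hz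
    have hn := hn0 v (h.hUB hv)
    refine le_trans ?_ (h.pot z (by omega))
    unfold Phi
    refine le_add_of_nonneg_of_le (Finset.sum_nonneg fun _ _ => by positivity) ?_
    exact Finset.single_le_sum
      (f := fun v => (2 : ℝ) ^ (b v z) * ((4 * D : ℝ) / (4 * D + 1)) ^ (p v))
      (fun _ _ => by positivity) (Finset.mem_filter.2 ⟨hv, hz.2, hz.1.2.2.symm⟩)
  have h3 := cluster_bound hD hk hA
    ((Finset.card_le_card (Finset.filter_subset _ _)).trans (hdeg (β v))) (b v) h1 h2 (h.cnt v hv)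
  have h4 : (p v : ℝ) < t := lt_of_le_of_lt h3 ht
  exact_mod_cast h4

/-- Cluster structure: Painter wins with `t > 9 D k log ((D + 1) N)` tokens if the parts have
at most `N` vertices and each part is adjacent to at most `D` other parts. -/
theorem wins_cluster (hD : 1 ≤ D) (hk : 1 ≤ k) (c : V → Fin k)
    (hc : ∀ u ∈ B, ∀ v ∈ B, G.Adj u v → c u ≠ c v) {N : ℕ} (hN1 : 1 ≤ N)
    (hN : ∀ a, (B.filter fun v => β v = a).card ≤ N) (hdeg : ∀ a, (padj G B β a).card ≤ D)
    {t : ℕ} (ht : 9 * D * k * Real.log ((D + 1) * N) < t) : Wins G B (fun _ => t) := by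
  classical
  have hD' : (1 : ℝ) ≤ D := by exact_mod_cast hD
  have hk' : (1 : ℝ) ≤ k := by exact_mod_cast hk
  have hDk : (1 : ℝ) ≤ D * k := by nlinarith
  have hN' : (1 : ℝ) ≤ N := by exact_mod_cast hN1
  set A : ℝ := (D + 1) * N with hAdef
  have hA : 1 ≤ A := by nlinarith
  have hlam : 0 < (4 * D * k : ℝ) / (4 * D * k - 1) := by
    apply div_pos <;> nlinarith
  obtain ⟨n0, hn0⟩ : ∃ n0, ∀ v ∈ B, β v < n0 := by
    refine ⟨(B.image β).sup id + 1, fun v hv => ?_⟩
    have : β v ≤ (B.image β).sup id :=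
      Finset.le_sup (f := id) (Finset.mem_image_of_mem β hv)
    omega
  refine wins_of_inv (fun U f => ∃ F b p, InvC G B β D k n0 t A U f F b p) ?_ B _
    ⟨fun _ => 0, fun _ _ => 0, fun _ => 0, ?_⟩
  · rintro U f ⟨F, b, p, h⟩ M hM hne
    obtain ⟨I, i1, i2, i3, i4⟩ := exists_round (U := U) hD hk c hc (hM.trans h.hUB) F b p n0
    have hnew : InvC G B β D k n0 t A (U \ I) (fun v => if v ∈ M then f v - 1 else f v)
        (newF G β M I F) (newb G β M I b) (newp M p) ∨
        ∃ v ∈ M, f v = 0 := by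
      by_cases hf0 : ∃ v ∈ M, f v = 0
      · exact Or.inr hf0
      refine Or.inl ⟨Finset.sdiff_subset.trans h.hUB, ?_, ?_, ?_⟩
      · intro z hz
        refine le_trans ?_ ((i4 z hz).trans (h.pot z hz))
        unfold Phi Phi'
        refine add_le_add ?_ ?_
        · rw [Finset.sum_ite, Finset.sum_const_zero, zero_add]
          refine Finset.sum_le_sum_of_subset_of_nonneg ?_ (fun _ _ _ => by positivity)
          intro v hv
          rw [Finset.mem_filter, Finset.mem_sdiff] at hv
          rw [Finset.mem_filter, Finset.mem_filter]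
          exact ⟨⟨hv.1.1, hv.2⟩, hv.1.2⟩
        · refine Finset.sum_le_sum_of_subset_of_nonneg ?_ (fun _ _ _ => by positivity)
          exact Finset.filter_subset_filter _ Finset.sdiff_subset
      · intro v hv
        have h1 := h.tok v (Finset.mem_sdiff.1 hv).1
        unfold newp
        split_ifs with hvM
        · have : f v ≠ 0 := fun h' => hf0 ⟨v, hvM, h'⟩
          omega
        · exact h1
      · intro v hv
        rw [Finset.mem_sdiff] at hv
        have h1 := h.cnt v hv.1
        have hmono : ∀ z, b v z ≤ newb G β M I b v z := by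
          intro z
          unfold newb
          split_ifs <;> omega
        have hsum : ∑ z ∈ (padj G B β (β v)).filter (fun z => z < β v), b v z ≤
            ∑ z ∈ (padj G B β (β v)).filter (fun z => z < β v), newb G β M I b v z :=
          Finset.sum_le_sum fun z _ => hmono z
        by_cases hvM : v ∈ M
        · have hp : newp M p v = p v + 1 := by
            unfold newp
            rw [if_pos hvM]
          rw [hp]
          by_cases hbl : ∃ u ∈ I, β u < β v ∧ G.Adj v u
          · obtain ⟨u, hu, hlt, huv⟩ := hbl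
            have huB : u ∈ B := h.hUB (hM (i1 hu))
            have hvB : v ∈ B := h.hUB hv.1
            have hF : F v ≤ newF G β M I F v := by
              unfold newF
              split_ifs <;> omega
            have hlt2 : ∑ z ∈ (padj G B β (β v)).filter (fun z => z < β v), b v z <
                ∑ z ∈ (padj G B β (β v)).filter (fun z => z < β v), newb G β M I b v z := by
              refine Finset.sum_lt_sum (fun z _ => hmono z) ⟨β u, ?_, ?_⟩
              · rw [Finset.mem_filter, mem_padj]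
                exact ⟨⟨Finset.mem_image_of_mem β huB, by omega,
                  ⟨v, hvB, u, huB, rfl, rfl, huv⟩⟩, hlt⟩
              · unfold newb
                rw [if_pos ⟨hvM, u, hu, rfl, huv⟩]
                omega
            omega
          · push Not at hbl
            have hF : newF G β M I F v = F v + 1 := by
              unfold newF
              rw [if_pos ⟨hvM, hv.2, hbl⟩]
            omega
        · have hp : newp M p v = p v := by
            unfold newp
            rw [if_neg hvM]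
          have hF : F v ≤ newF G β M I F v := by
            unfold newF
            split_ifs <;> omega
          rw [hp]
          omega
    have hpos : ∀ v ∈ M, 1 ≤ f v := by
      intro v hv
      have h1 := h.tok v (hM hv)
      have h2 := h.lt hD hk hA hn0 hdeg ht (hM hv)
      omega
    have hnew' : InvC G B β D k n0 t A (U \ I) (fun v => if v ∈ M then f v - 1 else f v)
        (newF G β M I F) (newb G β M I b) (newp M p) := by
      rcases hnew with h1 | ⟨v, hv, h0⟩
      · exact h1
      · have := hpos v hv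
        omega
    refine ⟨I, i1, i3, hpos, ?_, _, _, _, hnew'⟩
    intro v hv
    rw [Finset.mem_sdiff] at hv
    have hvU : v ∈ U \ I := Finset.mem_sdiff.2 ⟨hM hv.1, hv.2⟩
    have h1 := hnew'.tok v hvU
    have h2 := hnew'.lt hD hk hA hn0 hdeg ht hvU
    rw [if_pos hv.1] at h1
    omega
  · refine ⟨le_rfl, ?_, by simp, by simp⟩
    intro z _
    unfold Phi
    simp only [pow_zero, mul_one, Finset.sum_const, nsmul_eq_mul]
    have h1 : ((B.filter fun v => β v = z).card : ℝ) ≤ N := by exact_mod_cast hN z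
    have h2 : (B.filter fun v => z < β v ∧ PAdj G B β z (β v)).card ≤ D * N := by
      calc (B.filter fun v => z < β v ∧ PAdj G B β z (β v)).card
          ≤ ((padj G B β z).biUnion fun a => B.filter fun v => β v = a).card := by
            refine Finset.card_le_card fun v hv => ?_
            rw [Finset.mem_filter] at hv
            rw [Finset.mem_biUnion]
            refine ⟨β v, mem_padj.2 ⟨Finset.mem_image_of_mem β hv.1, by omega, hv.2.2⟩, ?_⟩
            rw [Finset.mem_filter]
            exact ⟨hv.1, rfl⟩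
        _ ≤ ∑ a ∈ padj G B β z, (B.filter fun v => β v = a).card := Finset.card_biUnion_le
        _ ≤ ∑ _a ∈ padj G B β z, N := Finset.sum_le_sum fun a _ => hN a
        _ = (padj G B β z).card * N := by rw [Finset.sum_const, smul_eq_mul]
        _ ≤ D * N := Nat.mul_le_mul_right _ (hdeg z)
    have h2' : ((B.filter fun v => z < β v ∧ PAdj G B β z (β v)).card : ℝ) ≤ D * N := by
      exact_mod_cast h2
    rw [hAdef]
    linarith

end final

end Pool.Agent.Helper22.OLC
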