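import Pool.Agent.Helper22.OLGame

/-!
# Degenerate sets, closure, greedy independent sets
-/

namespace Pool.Agent.Helper22.OLC

variable {V : Type*} [DecidableEq V]

/-- The number of ordered pairs of adjacent vertices of `W`. -/
noncomputable def eW (G : SimpleGraph V) (W : Finset V) : ℕ := ∑ v ∈ W, (nb G v W).card

theorem nb_insert_of_adj {G : SimpleGraph V} {v a : V} {W : Finset V} (h : G.Adj v a) :
    nb G v (insert a W) = insert a (nb G v W) := by
  ext u
  simp only [mem_nb, Finset.mem_insert]
  constructor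
  · tauto
  · rintro (rfl | h)
    · exact ⟨Or.inl rfl, h⟩
    · exact ⟨Or.inr h.1, h.2⟩

theorem nb_insert_of_not_adj {G : SimpleGraph V} {v a : V} {W : Finset V} (h : ¬ G.Adj v a) :
    nb G v (insert a W) = nb G v W := by
  ext u
  simp only [mem_nb, Finset.mem_insert]
  constructor
  · rintro ⟨rfl | h1, h2⟩
    · exact absurd h2 h
    · exact ⟨h1, h2⟩
  · tauto

theorem eW_insert {G : SimpleGraph V} {a : V} {W : Finset V} (ha : a ∉ W) :
    eW G (insert a W) = eW G W + 2 * (nb G a W).card := by
  unfold eW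
  rw [Finset.sum_insert ha, nb_insert_of_not_adj (G.loopless.irrefl a)]
  have h : ∀ v ∈ W, (nb G v (insert a W)).card =
      (nb G v W).card + (if v ∈ nb G a W then 1 else 0) := by
    intro v hv
    by_cases hadj : G.Adj v a
    · rw [nb_insert_of_adj hadj, Finset.card_insert_of_notMem (fun h => ha (mem_nb.1 h).1),
        if_pos (mem_nb.2 ⟨hv, hadj.symm⟩)]
    · rw [nb_insert_of_not_adj hadj, if_neg (fun h => hadj (mem_nb.1 h).2.symm)]
      rfl
  rw [Finset.sum_congr rfl h, Finset.sum_add_distrib]
  have h2 : ∑ v ∈ W, (if v ∈ nb G a W then 1 else 0) = (nb G a W).card := by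
    rw [← Finset.sum_filter, Finset.sum_const, smul_eq_mul, mul_one]
    congr 1
    ext u
    simp only [Finset.mem_filter, mem_nb]
    tauto
  rw [h2]
  ring

theorem eW_mono {G : SimpleGraph V} {W W' : Finset V} (h : W ⊆ W') : eW G W ≤ eW G W' := by
  unfold eW
  calc ∑ v ∈ W, (nb G v W).card ≤ ∑ v ∈ W, (nb G v W').card :=
        Finset.sum_le_sum fun v _ => Finset.card_le_card (nb_mono h)
    _ ≤ ∑ v ∈ W', (nb G v W').card := Finset.sum_le_sum_of_subset h

/-- Every nonempty subset of `B` with at most `s` vertices has a vertex with at most `d`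
neighbours in it. -/
def SmallDeg (G : SimpleGraph V) (B : Finset V) (s d : ℕ) : Prop :=
  ∀ T ⊆ B, T.Nonempty → T.card ≤ s → ∃ v ∈ T, (nb G v T).card ≤ d

theorem eW_le {G : SimpleGraph V} {B : Finset V} {s d : ℕ} (h : SmallDeg G B s d) :
    ∀ n : ℕ, ∀ W ⊆ B, W.card = n → n ≤ s → eW G W ≤ 2 * d * W.card := by
  intro n
  induction n with
  | zero =>
    intro W _ hW _
    rw [Finset.card_eq_zero] at hW
    subst hW
    simp [eW]
  | succ n ih =>
    intro W hWB hW hs
    have hne : W.Nonempty := by
      rw [← Finset.card_pos]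
      omega
    obtain ⟨v, hv, hd⟩ := h W hWB hne (by omega)
    have h1 : (W.erase v).card = n := by
      rw [Finset.card_erase_of_mem hv]
      omega
    have h2 := ih (W.erase v) ((Finset.erase_subset _ _).trans hWB) h1 (by omega)
    have h3 := eW_insert (G := G) (Finset.notMem_erase v W)
    rw [Finset.insert_erase hv] at h3
    have h4 : (nb G v (W.erase v)).card ≤ d :=
      (Finset.card_le_card (nb_mono (Finset.erase_subset _ _))).trans hd
    rw [h3, hW]
    rw [h1] at h2
    nlinarith

/-- Closing a set under vertices of `U` with many neighbours. -/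
theorem closure_step {G : SimpleGraph V} {B : Finset V} {x d : ℕ}
    (hsm : SmallDeg G B (2 * x + 1) d) {U Wm : Finset V} (hUB : U ⊆ B) (hx : Wm.card ≤ x) :
    ∀ n : ℕ, ∀ W : Finset V, (U \ W).card ≤ n → W ⊆ B → Wm ⊆ W → W.card ≤ 2 * Wm.card →
      2 * (2 * d + 1) * W.card ≤ eW G W + 2 * (2 * d + 1) * Wm.card →
      ∃ W' : Finset V, W ⊆ W' ∧ W' ⊆ W ∪ U ∧ W'.card ≤ 2 * Wm.card ∧
        2 * (2 * d + 1) * W'.card ≤ eW G W' + 2 * (2 * d + 1) * Wm.card ∧
        ∀ v ∈ U \ W', (nb G v W').card ≤ 2 * d := by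
  intro n
  induction n with
  | zero =>
    intro W hn hWB hWm hc he
    refine ⟨W, le_rfl, Finset.subset_union_left, hc, he, ?_⟩
    have : U \ W = ∅ := by
      rw [← Finset.card_eq_zero]
      omega
    rw [this]
    simp
  | succ n ih =>
    intro W hn hWB hWm hc he
    by_cases hall : ∀ v ∈ U \ W, (nb G v W).card ≤ 2 * d
    · exact ⟨W, le_rfl, Finset.subset_union_left, hc, he, hall⟩
    · push Not at hall
      obtain ⟨v, hv, hvd⟩ := hall
      rw [Finset.mem_sdiff] at hv
      have hcard : (insert v W).card = W.card + 1 := Finset.card_insert_of_notMem hv.2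
      have hWB' : insert v W ⊆ B := Finset.insert_subset (hUB hv.1) hWB
      have heW := eW_insert (G := G) hv.2
      have he' : 2 * (2 * d + 1) * (insert v W).card ≤
          eW G (insert v W) + 2 * (2 * d + 1) * Wm.card := by
        rw [hcard, heW]
        nlinarith
      have hdeg := eW_le hsm _ (insert v W) hWB' rfl (by omega)
      have hc' : (insert v W).card ≤ 2 * Wm.card := by
        by_contra hlt
        push Not at hlt
        nlinarith
      have hsub : (U \ insert v W).card ≤ n := by
        have h1 : U \ insert v W ⊂ U \ W := by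
          refine (Finset.ssubset_iff_of_subset ?_).2 ⟨v, Finset.mem_sdiff.2 hv, ?_⟩
          · exact Finset.sdiff_subset_sdiff le_rfl (Finset.subset_insert _ _)
          · simp
        have := Finset.card_lt_card h1
        omega
      obtain ⟨W', c1, c2, c3, c4, c5⟩ := ih (insert v W) hsub hWB'
        (hWm.trans (Finset.subset_insert _ _)) hc' he'
      refine ⟨W', (Finset.subset_insert _ _).trans c1, c2.trans ?_, c3, c4, c5⟩
      intro u hu
      rw [Finset.mem_union, Finset.mem_insert] at hu
      rw [Finset.mem_union]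
      rcases hu with (rfl | h) | h
      · exact Or.inr hv.1
      · exact Or.inl h
      · exact Or.inr h

/-- A degenerate order. -/
theorem exists_rank {G : SimpleGraph V} {B : Finset V} {s d : ℕ} (h : SmallDeg G B s d) :
    ∀ n : ℕ, ∀ Z ⊆ B, Z.card = n → n ≤ s →
      ∃ σ : V → ℕ, Set.InjOn σ Z ∧
        ∀ z ∈ Z, ((nb G z Z).filter fun w => σ w < σ z).card ≤ d := by
  intro n
  induction n with
  | zero =>
    intro Z _ hZ _
    rw [Finset.card_eq_zero] at hZ
    subst hZ
    exact ⟨fun _ => 0, by simp, by simp⟩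
  | succ n ih =>
    intro Z hZB hZ hs
    have hne : Z.Nonempty := by
      rw [← Finset.card_pos]
      omega
    obtain ⟨v, hv, hd⟩ := h Z hZB hne (by omega)
    have h1 : (Z.erase v).card = n := by
      rw [Finset.card_erase_of_mem hv]
      omega
    obtain ⟨σ, hinj, hσ⟩ := ih (Z.erase v) ((Finset.erase_subset _ _).trans hZB) h1 (by omega)
    set b : ℕ := 1 + ∑ u ∈ Z.erase v, σ u with hb
    have hlt : ∀ u ∈ Z.erase v, σ u < b := fun u hu => by
      have : σ u ≤ ∑ u ∈ Z.erase v, σ u := Finset.single_le_sum (fun _ _ => Nat.zero_le _) hu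
      omega
    have hv' : Function.update σ v b v = b := Function.update_self ..
    have hne' : ∀ u, u ≠ v → Function.update σ v b u = σ u := fun u hu =>
      Function.update_of_ne hu ..
    refine ⟨Function.update σ v b, ?_, ?_⟩
    · intro a ha c hc hac
      rw [Finset.mem_coe] at ha hc
      by_cases hav : a = v <;> by_cases hcv : c = v
      · rw [hav, hcv]
      · rw [hav, hv', hne' c hcv] at hac
        have := hlt c (Finset.mem_erase.2 ⟨hcv, hc⟩)
        omega
      · rw [hcv, hv', hne' a hav] at hac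
        have := hlt a (Finset.mem_erase.2 ⟨hav, ha⟩)
        omega
      · rw [hne' a hav, hne' c hcv] at hac
        exact hinj (Finset.mem_coe.2 (Finset.mem_erase.2 ⟨hav, ha⟩))
          (Finset.mem_coe.2 (Finset.mem_erase.2 ⟨hcv, hc⟩)) hac
    · intro z hz
      by_cases hzv : z = v
      · rw [hzv]
        exact (Finset.card_le_card (Finset.filter_subset _ _)).trans hd
      · have hze : z ∈ Z.erase v := Finset.mem_erase.2 ⟨hzv, hz⟩
        refine le_trans (Finset.card_le_card ?_) (hσ z hze)
        intro w hw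
        rw [Finset.mem_filter, mem_nb, hne' z hzv] at hw
        obtain ⟨⟨hw1, hw2⟩, hw3⟩ := hw
        have hwv : w ≠ v := by
          rintro rfl
          rw [hv'] at hw3
          have := hlt z hze
          omega
        rw [hne' w hwv] at hw3
        rw [Finset.mem_filter, mem_nb]
        exact ⟨⟨Finset.mem_erase.2 ⟨hwv, hw1⟩, hw2⟩, hw3⟩

/-- Greedy independent set along an injective rank. -/
theorem exists_greedy (G : SimpleGraph V) (ρ : V → ℕ) :
    ∀ T : Finset V, Set.InjOn ρ T →
      ∃ I ⊆ T, (∀ u ∈ I, ∀ v ∈ I, ¬ G.Adj u v) ∧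
        ∀ v ∈ T \ I, ∃ u ∈ I, G.Adj v u ∧ ρ u < ρ v := by
  intro T
  refine Finset.induction_on_max_value (motive := fun T => Set.InjOn ρ T →
      ∃ I ⊆ T, (∀ u ∈ I, ∀ v ∈ I, ¬ G.Adj u v) ∧
        ∀ v ∈ T \ I, ∃ u ∈ I, G.Adj v u ∧ ρ u < ρ v) ρ T ?_ ?_
  · intro _
    exact ⟨∅, by simp, by simp, by simp⟩
  · intro a s ha hmax ih hinj
    obtain ⟨I, h1, h2, h3⟩ := ih (hinj.mono (by
      rw [Finset.coe_insert]
      exact Set.subset_insert _ _))
    have hlt : ∀ u ∈ s, ρ u < ρ a := by
      intro u hu
      refine lt_of_le_of_ne (hmax u hu) ?_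
      intro h
      have := hinj (by simp [hu]) (by simp) h
      rw [this] at hu
      exact ha hu
    by_cases hadj : ∃ u ∈ I, G.Adj a u
    · refine ⟨I, h1.trans (Finset.subset_insert _ _), h2, ?_⟩
      intro v hv
      rw [Finset.mem_sdiff, Finset.mem_insert] at hv
      rcases hv with ⟨rfl | hv, hv2⟩
      · obtain ⟨u, hu, huv⟩ := hadj
        exact ⟨u, hu, huv, hlt u (h1 hu)⟩
      · exact h3 v (Finset.mem_sdiff.2 ⟨hv, hv2⟩)
    · push Not at hadj
      refine ⟨insert a I, Finset.insert_subset_insert _ h1, ?_, ?_⟩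
      · intro u hu v hv
        rw [Finset.mem_insert] at hu hv
        rcases hu with rfl | hu <;> rcases hv with rfl | hv
        · exact G.loopless.irrefl _
        · exact hadj v hv
        · exact fun h => hadj u hu h.symm
        · exact h2 u hu v hv
      · intro v hv
        rw [Finset.mem_sdiff, Finset.mem_insert, Finset.mem_insert] at hv
        push Not at hv
        rcases hv with ⟨rfl | hv, hv2, hv3⟩
        · exact absurd rfl hv2
        · obtain ⟨u, hu, h⟩ := h3 v (Finset.mem_sdiff.2 ⟨hv, hv3⟩)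
          exact ⟨u, Finset.mem_insert_of_mem hu, h⟩

/-- Weighted pigeonhole for colour classes. -/
theorem exists_class {k : ℕ} [NeZero k] (c : V → Fin k) (P : Finset V) (wt : V → ℕ) :
    ∃ j : Fin k, ∑ v ∈ P, wt v ≤ k * ∑ v ∈ P.filter (fun v => c v = j), wt v := by
  have h := Finset.exists_le_of_sum_le (s := (Finset.univ : Finset (Fin k)))
    (f := fun _ => ∑ v ∈ P, wt v)
    (g := fun j => k * ∑ v ∈ P.filter (fun v => c v = j), wt v) ⟨0, Finset.mem_univ _⟩ ?_
  · obtain ⟨j, _, hj⟩ := h
    exact ⟨j, hj⟩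
  · rw [← Finset.mul_sum, Finset.sum_fiberwise]
    simp

end Pool.Agent.Helper22.OLC
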