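import Mathlib

/-!
# The on-line list colouring game (MP_ff53f3_co): basic facts
-/

namespace Pool.Agent.Helper22.OLC

variable {V : Type*} [DecidableEq V]

/-- One round of the game: Lister presents `M`, Painter answers with an independent set `I`. -/
def Step (G : SimpleGraph V) (S : Finset V → (V → ℕ) → Prop) (U : Finset V) (f : V → ℕ) : Prop :=
  ∀ M ⊆ U, M.Nonempty →
    ∃ I ⊆ M, (∀ u ∈ I, ∀ v ∈ I, ¬ G.Adj u v) ∧
      (∀ v ∈ M, 1 ≤ f v) ∧ (∀ v ∈ M \ I, 2 ≤ f v) ∧
      S (U \ I) (fun v => if v ∈ M then f v - 1 else f v)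

/-- Painter wins from the position in which the uncoloured vertices are those of `U` and the
vertex `v` has `f v` tokens left: the least fixed point of `Step`. -/
def Wins (G : SimpleGraph V) (U : Finset V) (f : V → ℕ) : Prop :=
  ∀ S : Finset V → (V → ℕ) → Prop, (∀ U f, Step G S U f → S U f) → S U f

/-- `G` is on-line `t`-choosable: Painter wins when every vertex has `t` tokens. -/
def OnlineChoosable [Fintype V] (G : SimpleGraph V) (t : ℕ) : Prop :=
  Wins G Finset.univ (fun _ => t)

omit [DecidableEq V] in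
/-- `G` is `k`-choosable. -/
def Choosable (G : SimpleGraph V) (k : ℕ) : Prop :=
  ∀ L : V → Finset ℕ, (∀ v, k ≤ (L v).card) →
    ∃ c : V → ℕ, (∀ v, c v ∈ L v) ∧ ∀ u v, G.Adj u v → c u ≠ c v

theorem Step.mono {G : SimpleGraph V} {S S' : Finset V → (V → ℕ) → Prop}
    (h : ∀ U f, S U f → S' U f) {U : Finset V} {f : V → ℕ} (hs : Step G S U f) :
    Step G S' U f := by
  intro M hM hne
  obtain ⟨I, h1, h2, h3, h4, h5⟩ := hs M hM hne
  exact ⟨I, h1, h2, h3, h4, h _ _ h5⟩

theorem wins_of_step {G : SimpleGraph V} {U : Finset V} {f : V → ℕ}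
    (h : Step G (Wins G) U f) : Wins G U f := by
  intro S hS
  exact hS _ _ (h.mono fun U f hw => hw S hS)

theorem Wins.step {G : SimpleGraph V} {U : Finset V} {f : V → ℕ} (h : Wins G U f) :
    Step G (Wins G) U f := by
  refine h (fun U f => Step G (Wins G) U f) ?_
  intro U f hs
  exact hs.mono fun U f => wins_of_step

/-- An invariant which Painter can keep gives a win. -/
theorem wins_of_inv {G : SimpleGraph V} (P : Finset V → (V → ℕ) → Prop)
    (hP : ∀ U f, P U f → Step G P U f) : ∀ U f, P U f → Wins G U f := by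
  have key : ∀ n : ℕ, ∀ U f, P U f → ∑ v ∈ U, f v ≤ n → Wins G U f := by
    intro n
    induction n with
    | zero =>
      intro U f hp hn
      apply wins_of_step
      intro M hM hne
      obtain ⟨I, h1, h2, h3, h4, h5⟩ := hP U f hp M hM hne
      exfalso
      obtain ⟨v, hv⟩ := hne
      have h6 := h3 v hv
      have h7 : f v ≤ ∑ v ∈ U, f v := Finset.single_le_sum (fun _ _ => Nat.zero_le _) (hM hv)
      omega
    | succ n ih =>
      intro U f hp hn
      apply wins_of_step
      intro M hM hne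
      obtain ⟨I, h1, h2, h3, h4, h5⟩ := hP U f hp M hM hne
      refine ⟨I, h1, h2, h3, h4, ih _ _ h5 ?_⟩
      obtain ⟨v, hv⟩ := hne
      have h6 : ∑ u ∈ U \ I, (if u ∈ M then f u - 1 else f u) < ∑ u ∈ U, f u := by
        calc ∑ u ∈ U \ I, (if u ∈ M then f u - 1 else f u)
            ≤ ∑ u ∈ U, (if u ∈ M then f u - 1 else f u) :=
              Finset.sum_le_sum_of_subset Finset.sdiff_subset
          _ < ∑ u ∈ U, f u := by
              apply Finset.sum_lt_sum
              · intro u _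
                split_ifs <;> omega
              · refine ⟨v, hM hv, ?_⟩
                have := h3 v hv
                rw [if_pos hv]
                omega
      omega
  intro U f hp
  exact key _ U f hp le_rfl

theorem Wins.one_le {G : SimpleGraph V} {U : Finset V} {f : V → ℕ} (h : Wins G U f) {v : V}
    (hv : v ∈ U) : 1 ≤ f v := by
  obtain ⟨I, h1, h2, h3, h4, h5⟩ := h.step {v} (by simpa using hv) ⟨v, by simp⟩
  exact h3 v (by simp)

theorem Wins.mono {G : SimpleGraph V} {U : Finset V} {f g : V → ℕ} (h : Wins G U f)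
    (hfg : ∀ v ∈ U, f v ≤ g v) : Wins G U g := by
  refine wins_of_inv (fun U g => ∃ f, Wins G U f ∧ ∀ v ∈ U, f v ≤ g v) ?_ U g ⟨f, h, hfg⟩
  rintro U g ⟨f, hw, hfg⟩ M hM hne
  obtain ⟨I, h1, h2, h3, h4, h5⟩ := hw.step M hM hne
  refine ⟨I, h1, h2, fun v hv => (h3 v hv).trans (hfg v (hM hv)),
    fun v hv => (h4 v hv).trans (hfg v (hM (Finset.mem_sdiff.1 hv).1)), _, h5, ?_⟩
  intro v hv
  have := hfg v (Finset.mem_sdiff.1 hv).1
  simp only
  split_ifs <;> omega

theorem Wins.anti {G : SimpleGraph V} {U U' : Finset V} {f : V → ℕ} (h : Wins G U f)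
    (hU : U' ⊆ U) : Wins G U' f := by
  refine wins_of_inv (fun U' f => ∃ U, U' ⊆ U ∧ Wins G U f) ?_ U' f ⟨U, hU, h⟩
  rintro U' f ⟨U, hU, hw⟩ M hM hne
  obtain ⟨I, h1, h2, h3, h4, h5⟩ := hw.step M (hM.trans hU) hne
  exact ⟨I, h1, h2, h3, h4, _, Finset.sdiff_subset_sdiff hU le_rfl, h5⟩

open Classical in
/-- The neighbours of `v` in `T`. -/
noncomputable def nb (G : SimpleGraph V) (v : V) (T : Finset V) : Finset V :=
  T.filter fun u => G.Adj v u

theorem mem_nb {G : SimpleGraph V} {v u : V} {T : Finset V} :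
    u ∈ nb G v T ↔ u ∈ T ∧ G.Adj v u := by
  simp [nb]

theorem nb_mono {G : SimpleGraph V} {v : V} {T T' : Finset V} (h : T ⊆ T') :
    nb G v T ⊆ nb G v T' := fun u hu => by
  rw [mem_nb] at hu ⊢
  exact ⟨h hu.1, hu.2⟩

/-- A weak form of `Step` for possibly empty `M`. -/
theorem Wins.step' {G : SimpleGraph V} {U : Finset V} {f : V → ℕ} (h : Wins G U f)
    (M : Finset V) (hM : M ⊆ U) :
    ∃ I ⊆ M, (∀ u ∈ I, ∀ v ∈ I, ¬ G.Adj u v) ∧
      (∀ v ∈ M, 1 ≤ f v) ∧ (∀ v ∈ M \ I, 2 ≤ f v) ∧
      Wins G (U \ I) (fun v => if v ∈ M then f v - 1 else f v) := by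
  rcases M.eq_empty_or_nonempty with rfl | hne
  · exact ⟨∅, by simp, by simp, by simp, by simp, by simpa using h⟩
  · exact h.step M hM hne

/-- Composition: `A` is coloured by its own strategy, the vertices of `B` pay one additional
token for each neighbour in `A`. -/
theorem wins_union {G : SimpleGraph V} {A B : Finset V} {f g : V → ℕ} (hd : Disjoint A B)
    (hA : Wins G A f) (hB : Wins G B g) (hf : ∀ v ∈ B, g v + (nb G v A).card ≤ f v) :
    Wins G (A ∪ B) f := by
  refine wins_of_inv (fun U f => ∃ A B g, U = A ∪ B ∧ Disjoint A B ∧ Wins G A f ∧ Wins G B g ∧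
    ∀ v ∈ B, g v + (nb G v A).card ≤ f v) ?_ _ f ⟨A, B, g, rfl, hd, hA, hB, hf⟩
  clear hd hA hB hf
  rintro U f ⟨A, B, g, rfl, hd, hA, hB, hf⟩ M hM hne
  classical
  obtain ⟨IA, a1, a2, a3, a4, a5⟩ := hA.step' (M ∩ A) Finset.inter_subset_right
  set MB : Finset V := (M ∩ B).filter (fun v => ∀ u ∈ IA, ¬ G.Adj v u) with hMB
  obtain ⟨IB, b1, b2, b3, b4, b5⟩ := hB.step' MB
    ((Finset.filter_subset _ _).trans Finset.inter_subset_right)
  have hIA : ∀ v ∈ IA, v ∈ M ∧ v ∈ A := fun v hv => Finset.mem_inter.1 (a1 hv)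
  have hIB : ∀ v ∈ IB, v ∈ M ∧ v ∈ B ∧ ∀ u ∈ IA, ¬ G.Adj v u := fun v hv => by
    have := b1 hv
    rw [hMB, Finset.mem_filter, Finset.mem_inter] at this
    exact ⟨this.1.1, this.1.2, this.2⟩
  have hdj : ∀ v, v ∈ A → v ∉ B := fun v h1 h2 => Finset.disjoint_left.1 hd h1 h2
  -- a presented vertex of `B` outside `MB` has a neighbour in `IA`
  have hblk : ∀ v ∈ M, v ∈ B → v ∉ MB → ∃ u ∈ IA, G.Adj v u := by
    intro v h1 h2 h3
    rw [hMB, Finset.mem_filter, Finset.mem_inter] at h3
    push Not at h3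
    exact h3 ⟨h1, h2⟩
  have hnb : ∀ v, ∀ u ∈ IA, G.Adj v u →
      (nb G v (A \ IA)).card + 1 ≤ (nb G v A).card := by
    intro v u hu huv
    have : nb G v (A \ IA) ⊂ nb G v A := by
      refine (Finset.ssubset_iff_of_subset (nb_mono Finset.sdiff_subset)).2
        ⟨u, mem_nb.2 ⟨(hIA u hu).2, huv⟩, ?_⟩
      rw [mem_nb, Finset.mem_sdiff]
      tauto
    exact Finset.card_lt_card this
  have hnb' : ∀ v, (nb G v (A \ IA)).card ≤ (nb G v A).card := fun v =>
    Finset.card_le_card (nb_mono Finset.sdiff_subset)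
  refine ⟨IA ∪ IB, ?_, ?_, ?_, ?_, A \ IA, B \ IB, _, ?_, ?_, ?_, b5, ?_⟩
  · intro v hv
    rcases Finset.mem_union.1 hv with h | h
    · exact (hIA v h).1
    · exact (hIB v h).1
  · intro u hu v hv
    rcases Finset.mem_union.1 hu with h | h <;> rcases Finset.mem_union.1 hv with h' | h'
    · exact a2 u h v h'
    · exact fun hadj => (hIB v h').2.2 u h hadj.symm
    · exact (hIB u h).2.2 v h'
    · exact b2 u h v h'
  · intro v hv
    rcases Finset.mem_union.1 (hM hv) with h | h
    · exact a3 v (Finset.mem_inter.2 ⟨hv, h⟩)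
    · have := hB.one_le h
      have := hf v h
      omega
  · intro v hv
    rw [Finset.mem_sdiff, Finset.mem_union] at hv
    push Not at hv
    obtain ⟨hv, hv1, hv2⟩ := hv
    rcases Finset.mem_union.1 (hM hv) with h | h
    · exact a4 v (Finset.mem_sdiff.2 ⟨Finset.mem_inter.2 ⟨hv, h⟩, hv1⟩)
    · by_cases hm : v ∈ MB
      · have := b4 v (Finset.mem_sdiff.2 ⟨hm, hv2⟩)
        have := hf v h
        omega
      · obtain ⟨u, hu, huv⟩ := hblk v hv h hm
        have := hnb v u hu huv
        have := hB.one_le h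
        have := hf v h
        omega
  · ext v
    simp only [Finset.mem_sdiff, Finset.mem_union]
    constructor
    · tauto
    · rintro (⟨h1, h2⟩ | ⟨h1, h2⟩)
      · exact ⟨Or.inl h1, by
          rintro (h3 | h3)
          · exact h2 h3
          · exact hdj v h1 (hIB v h3).2.1⟩
      · exact ⟨Or.inr h1, by
          rintro (h3 | h3)
          · exact hdj v (hIA v h3).2 h1
          · exact h2 h3⟩
  · exact Finset.disjoint_of_subset_left Finset.sdiff_subset
      (Finset.disjoint_of_subset_right Finset.sdiff_subset hd)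
  · refine a5.mono ?_
    intro v hv
    have hvA := (Finset.mem_sdiff.1 hv).1
    simp only [Finset.mem_inter, hvA, and_true]
    exact le_rfl
  · intro v hv
    rw [Finset.mem_sdiff] at hv
    have h1 := hf v hv.1
    have h2 := hnb' v
    simp only
    by_cases hm : v ∈ MB
    · have hvM : v ∈ M := by
        rw [hMB, Finset.mem_filter, Finset.mem_inter] at hm
        exact hm.1.1
      rw [if_pos hm, if_pos hvM]
      have := b3 v hm
      omega
    · rw [if_neg hm]
      by_cases hvM : v ∈ M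
      · obtain ⟨u, hu, huv⟩ := hblk v hvM hv.1 hm
        have := hnb v u hu huv
        rw [if_pos hvM]
        omega
      · rw [if_neg hvM]
        omega

end Pool.Agent.Helper22.OLC
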